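import Pool.Agent.Work.MP_6237c7_co.BW.Defs

/-! ADJ: an interior edge has triangles on both sides (helper59). -/

set_option autoImplicit false

namespace H6BW

open Finsupp H79KMW

/-- the functional `det (u, v, ·)` -/
def adjD (u v : Fin 3 → ℤ) (y : Fin 3 → ℝ) : ℝ :=
  ((u 1 * v 2 - u 2 * v 1 : ℤ) : ℝ) * y 0 + ((u 2 * v 0 - u 0 * v 2 : ℤ) : ℝ) * y 1 +
    ((u 0 * v 1 - u 1 * v 0 : ℤ) : ℝ) * y 2

lemma adj_dt (u v z : Fin 3 → ℤ) : ((dt ![u, v, z] : ℤ) : ℝ) = adjD u v (rv z) := by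
  unfold dt adjD rv
  rw [Matrix.det_fin_three]
  simp only [Matrix.of_apply, Matrix.cons_val_zero, Matrix.cons_val_one, Matrix.cons_val]
  push_cast
  ring

lemma adj_lc (u v : Fin 3 → ℤ) (w : (Fin 3 → ℤ) →₀ ℝ) :
    adjD u v (lc id w) = ∑ x ∈ w.support, w x * adjD u v (rv x) := by
  have h : ∀ i, lc id w i = ∑ x ∈ w.support, w x * rv x i := fun i => by
    rw [lc_apply_of_subset w w.support (Finset.Subset.refl _) i]
    rfl
  unfold adjD
  rw [h 0, h 1, h 2, Finset.mul_sum, Finset.mul_sum, Finset.mul_sum, ← Finset.sum_add_distrib,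
    ← Finset.sum_add_distrib]
  exact Finset.sum_congr rfl fun x _ => by ring

/-- the direction -/
def adjC (u v : Fin 3 → ℤ) : Fin 3 → ℝ :=
  ![((u 1 * v 2 - u 2 * v 1 : ℤ) : ℝ), ((u 2 * v 0 - u 0 * v 2 : ℤ) : ℝ),
    ((u 0 * v 1 - u 1 * v 0 : ℤ) : ℝ)]

lemma adj_C_pos {T : Set (Finset (Fin 3 → ℤ))} (hT : IsCx id T) {u v : Fin 3 → ℤ} (huv : u ≠ v)
    (h : ({u, v} : Finset (Fin 3 → ℤ)) ∈ T) : 0 < adjD u v (adjC u v) := by
  classical
  set c0 : ℤ := u 1 * v 2 - u 2 * v 1 with hc0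
  set c1 : ℤ := u 2 * v 0 - u 0 * v 2 with hc1
  set c2 : ℤ := u 0 * v 1 - u 1 * v 0 with hc2
  have hD : adjD u v (adjC u v) = (c0 : ℝ) ^ 2 + (c1 : ℝ) ^ 2 + (c2 : ℝ) ^ 2 := by
    unfold adjD adjC
    simp only [Matrix.cons_val_zero, Matrix.cons_val_one, Matrix.cons_val]
    ring
  rw [hD]
  by_contra hcon
  push Not at hcon
  have e0 : (c0 : ℝ) = 0 := by nlinarith [sq_nonneg (c0 : ℝ), sq_nonneg (c1 : ℝ), sq_nonneg (c2 : ℝ)]
  have e1 : (c1 : ℝ) = 0 := by nlinarith [sq_nonneg (c0 : ℝ), sq_nonneg (c1 : ℝ), sq_nonneg (c2 : ℝ)]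
  have e2 : (c2 : ℝ) = 0 := by nlinarith [sq_nonneg (c0 : ℝ), sq_nonneg (c1 : ℝ), sq_nonneg (c2 : ℝ)]
  have f0 : (u 1 : ℝ) * v 2 = u 2 * v 1 := by rw [hc0] at e0; push_cast at e0; linarith
  have f1 : (u 2 : ℝ) * v 0 = u 0 * v 2 := by rw [hc1] at e1; push_cast at e1; linarith
  have f2 : (u 0 : ℝ) * v 1 = u 1 * v 0 := by rw [hc2] at e2; push_cast at e2; linarith
  have key : ∀ i : Fin 3, (v i : ℝ) = 0 ∧ (u i : ℝ) = 0 := by
    intro i
    have hl : lc id (single u (v i : ℝ) - single v (u i : ℝ)) = 0 := by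
      rw [map_sub, lc_single, lc_single]
      funext j
      show (v i : ℝ) * rv u j - (u i : ℝ) * rv v j = 0
      unfold rv
      fin_cases i <;> fin_cases j <;> simp <;> linarith
    have hs : (single u (v i : ℝ) - single v (u i : ℝ) : (Fin 3 → ℤ) →₀ ℝ).support ⊆
        ({u, v} : Finset (Fin 3 → ℤ)) := by
      refine supp_sub_subset _ _ _ ?_ ?_
      · refine Finsupp.support_single_subset.trans ?_
        simp
      · refine Finsupp.support_single_subset.trans ?_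
        simp
    have h0 := hT.indep h _ hs hl
    have hu := DFunLike.congr_fun h0 u
    have hv := DFunLike.congr_fun h0 v
    rw [Finsupp.sub_apply, Finsupp.single_eq_same, Finsupp.single_apply, if_neg huv.symm,
      Finsupp.zero_apply] at hu
    rw [Finsupp.sub_apply, Finsupp.single_eq_same, Finsupp.single_apply, if_neg huv,
      Finsupp.zero_apply] at hv
    constructor <;> linarith
  apply huv
  funext i
  have h1 := key i
  have h2 : (v i : ℤ) = 0 := by exact_mod_cast h1.1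
  have h3 : (u i : ℤ) = 0 := by exact_mod_cast h1.2
  rw [h2, h3]

lemma adj_core {A : Finset (Fin 3 → ℤ)} {T : Set (Finset (Fin 3 → ℤ))} (hT : PTri A T)
    {u v : Fin 3 → ℤ} (huv : u ≠ v) (h : ({u, v} : Finset (Fin 3 → ℤ)) ∈ T) {α β : ℝ}
    (hα : 0 < α) (hβ : 0 < β) (hint : α • rv u + β • rv v ∈ interior (coneOf A))
    (d : Fin 3 → ℝ) :
    ∃ ε : ℝ, 0 < ε ∧ ∃ w ∈ body T, ({u, v} : Finset (Fin 3 → ℤ)) ⊆ w.support ∧
      lc id w = α • rv u + β • rv v + ε • d := by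
  classical
  set y0 : Fin 3 → ℝ := α • rv u + β • rv v with hy0
  let C : Set (Fin 3 → ℝ) := ⋃ s ∈ {s ∈ T | ¬ ({u, v} : Finset (Fin 3 → ℤ)) ⊆ s},
    {y | ∃ w : (Fin 3 → ℤ) →₀ ℝ, (∀ x, 0 ≤ w x) ∧ w.support ⊆ s ∧ lc id w = y}
  have hCc : IsClosed C := by
    refine Set.Finite.isClosed_biUnion (hT.cx.fin.subset fun s hs => hs.1) fun s hs => ?_
    exact hT.cx.isClosed_cone hs.1
  let w0 : (Fin 3 → ℤ) →₀ ℝ := single u α + single v β
  have hw0 : lc id w0 = y0 := by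
    show lc id (single u α + single v β) = y0
    rw [map_add, lc_single, lc_single]
    rfl
  have hw0u : w0 u = α := by
    show (single u α + single v β : (Fin 3 → ℤ) →₀ ℝ) u = α
    rw [Finsupp.add_apply, Finsupp.single_eq_same, Finsupp.single_apply, if_neg huv.symm, add_zero]
  have hw0v : w0 v = β := by
    show (single u α + single v β : (Fin 3 → ℤ) →₀ ℝ) v = β
    rw [Finsupp.add_apply, Finsupp.single_eq_same, Finsupp.single_apply, if_neg huv, zero_add]
  have hw0s : w0.support ⊆ {u, v} := by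
    refine supp_add_subset _ _ _ ?_ ?_
    · refine Finsupp.support_single_subset.trans ?_
      simp
    · refine Finsupp.support_single_subset.trans ?_
      simp
  have hw0b : w0 ∈ body T := by
    refine ⟨fun x => ?_, hT.cx.down _ h _ hw0s⟩
    show 0 ≤ (single u α + single v β : (Fin 3 → ℤ) →₀ ℝ) x
    rw [Finsupp.add_apply, Finsupp.single_apply, Finsupp.single_apply]
    split_ifs <;> linarith
  have hy0C : y0 ∉ C := by
    intro hy
    rw [Set.mem_iUnion₂] at hy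
    obtain ⟨s, hs, w, hw, hws, hwy⟩ := hy
    have hww : w0 = w := hT.cx.inj hw0b ⟨hw, hT.cx.down _ hs.1 _ hws⟩ (by rw [hw0, hwy])
    apply hs.2
    intro x hx
    apply hws
    rw [← hww, Finsupp.mem_support_iff]
    rw [Finset.mem_insert, Finset.mem_singleton] at hx
    rcases hx with rfl | rfl
    · rw [hw0u]; exact hα.ne'
    · rw [hw0v]; exact hβ.ne'
  have hO : IsOpen (interior (coneOf A) ∩ Cᶜ) := isOpen_interior.inter hCc.isOpen_compl
  have hcont : Continuous fun ε : ℝ => y0 + ε • d := by fun_prop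
  have hpre : IsOpen ((fun ε : ℝ => y0 + ε • d) ⁻¹' (interior (coneOf A) ∩ Cᶜ)) :=
    hO.preimage hcont
  have h0mem : (0 : ℝ) ∈ (fun ε : ℝ => y0 + ε • d) ⁻¹' (interior (coneOf A) ∩ Cᶜ) := by
    have h1 : y0 + (0 : ℝ) • d = y0 := by rw [zero_smul, add_zero]
    rw [Set.mem_preimage, h1]
    exact ⟨hint, hy0C⟩
  obtain ⟨δ, hδ, hball⟩ := Metric.isOpen_iff.1 hpre 0 h0mem
  have hε : (δ / 2) ∈ Metric.ball (0 : ℝ) δ := by
    rw [Metric.mem_ball, Real.dist_eq, sub_zero, abs_of_pos (by linarith)]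
    linarith
  have hmem := hball hε
  obtain ⟨hm1, hm2⟩ : y0 + (δ / 2) • d ∈ interior (coneOf A) ∩ Cᶜ := hmem
  have hsupp : y0 + (δ / 2) • d ∈ supp id T := by
    rw [hT.supp_eq]
    exact interior_subset hm1
  obtain ⟨w, hw, hwy⟩ := hsupp
  refine ⟨δ / 2, by linarith, w, hw, ?_, hwy⟩
  by_contra hns
  apply hm2
  rw [Set.mem_iUnion₂]
  exact ⟨w.support, ⟨hw.2, hns⟩, w, hw.1, Finset.Subset.refl _, hwy⟩

lemma adj_side {A : Finset (Fin 3 → ℤ)} {T : Set (Finset (Fin 3 → ℤ))} (hT : PTri A T)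
    {u v : Fin 3 → ℤ} (huv : u ≠ v) (h : ({u, v} : Finset (Fin 3 → ℤ)) ∈ T) {α β : ℝ}
    (hα : 0 < α) (hβ : 0 < β) (hint : α • rv u + β • rv v ∈ interior (coneOf A)) (σ : ℝ)
    (hσ : σ ≠ 0) :
    ∃ z, ({u, v, z} : Finset (Fin 3 → ℤ)) ∈ T ∧ 0 < σ * (dt ![u, v, z] : ℝ) := by
  classical
  obtain ⟨ε, hε, w, hw, hsub, hwy⟩ := adj_core hT huv h hα hβ hint (σ • adjC u v)
  have hpos := adj_C_pos hT.cx huv h
  have hDu : adjD u v (rv u) = 0 := by
    unfold adjD rv
    push_cast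
    ring
  have hDv : adjD u v (rv v) = 0 := by
    unfold adjD rv
    push_cast
    ring
  have h1 : adjD u v (lc id w) = ε * (σ * adjD u v (adjC u v)) := by
    rw [hwy]
    have h2 : adjD u v (α • rv u + β • rv v + ε • σ • adjC u v) =
        α * adjD u v (rv u) + β * adjD u v (rv v) + ε * (σ * adjD u v (adjC u v)) := by
      unfold adjD
      simp only [Pi.add_apply, Pi.smul_apply, smul_eq_mul]
      ring
    rw [h2, hDu, hDv]
    ring
  have h2 : 0 < σ * adjD u v (lc id w) := by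
    rw [h1]
    have : σ * (ε * (σ * adjD u v (adjC u v))) = σ ^ 2 * (ε * adjD u v (adjC u v)) := by ring
    rw [this]
    positivity
  rw [adj_lc, Finset.mul_sum] at h2
  obtain ⟨x, hx, hx2⟩ : ∃ x ∈ w.support, 0 < σ * (w x * adjD u v (rv x)) := by
    by_contra hcon
    push Not at hcon
    exact absurd (Finset.sum_nonpos hcon) (not_le.2 h2)
  have hwx := hw.1 x
  have hx3 : 0 < σ * adjD u v (rv x) := by
    by_contra hcon
    push Not at hcon
    have : σ * (w x * adjD u v (rv x)) = w x * (σ * adjD u v (rv x)) := by ring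
    rw [this] at hx2
    nlinarith
  refine ⟨x, hT.cx.down _ hw.2 _ ?_, by rw [adj_dt]; exact hx3⟩
  intro y hy
  rw [Finset.mem_insert, Finset.mem_insert, Finset.mem_singleton] at hy
  rcases hy with rfl | rfl | rfl
  · exact hsub (by simp)
  · exact hsub (by simp)
  · exact hx

theorem adj : S_ADJ := by
  intro A T _ hT u v huv h α β hα hβ hint
  constructor
  · obtain ⟨z, hz, hd⟩ := adj_side hT huv h hα hβ hint 1 one_ne_zero
    refine ⟨z, hz, ?_⟩
    rw [one_mul] at hd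
    exact_mod_cast hd
  · obtain ⟨z, hz, hd⟩ := adj_side hT huv h hα hβ hint (-1) (by norm_num)
    refine ⟨z, hz, ?_⟩
    have : (dt ![u, v, z] : ℝ) < 0 := by linarith
    exact_mod_cast this

end H6BW
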