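import Pool.Agent.Work.MP_6237c7_co.BW.Defs

/-! BASE: base fans exist. -/

set_option autoImplicit false

namespace H6BW

open Finsupp H79KMW

/-- the Cramer coordinates -/
private noncomputable def base_cr {n : ℕ} (f : Fin n → Fin n → ℤ) :
    (Fin n → ℤ) →ₗ[ℤ] (Fin n → ℤ) := Matrix.cramer (Matrix.of f).transpose

private lemma base_cr_sum {n : ℕ} (f : Fin n → Fin n → ℤ) (y : Fin n → ℤ) :
    dt f • y = ∑ k, base_cr f y k • f k := by
  have h1 := Matrix.mulVec_cramer (Matrix.of f).transpose y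
  rw [Matrix.det_transpose] at h1
  change _ = dt f • y at h1
  rw [← h1]
  ext i
  rw [Finset.sum_apply]
  simp only [Matrix.mulVec, dotProduct, Pi.smul_apply, smul_eq_mul, Matrix.transpose_apply,
    Matrix.of_apply]
  exact Finset.sum_congr rfl fun k _ => mul_comm _ _

private lemma base_cr_row {n : ℕ} (f : Fin n → Fin n → ℤ) (j k : Fin n) :
    base_cr f (f j) k = if k = j then dt f else 0 := by
  have h1 := Matrix.cramer_transpose_row_self (Matrix.of f) j
  have h2 := congrFun h1 k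
  rw [Pi.single_apply] at h2
  exact h2

/-- the functional of the `k`-th Cramer coordinate -/
private noncomputable def base_fn {n : ℕ} (p : (Fin n → Fin n → ℤ) × Fin n) : Fin n → ℤ :=
  fun i => base_cr p.1 (fun j => if i = j then 1 else 0) p.2

private lemma base_fn_sum {n : ℕ} (f : Fin n → Fin n → ℤ) (k : Fin n) (x : Fin n → ℤ) :
    ∑ i, base_fn (f, k) i * x i = base_cr f x k := by
  conv_rhs => rw [LinearMap.pi_apply_eq_sum_univ (base_cr f) x]
  rw [Finset.sum_apply]
  refine Finset.sum_congr rfl fun i _ => ?_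
  rw [Pi.smul_apply, smul_eq_mul, mul_comm]
  rfl

/-- real version of an integer functional -/
private noncomputable def base_re {n : ℕ} (h : Fin n → ℤ) : (Fin n → ℝ) →ₗ[ℝ] ℝ :=
  ∑ i, (h i : ℝ) • LinearMap.proj i

private lemma base_re_rv {n : ℕ} (h x : Fin n → ℤ) :
    base_re h (rv x) = ((∑ i, h i * x i : ℤ) : ℝ) := by
  rw [base_re, LinearMap.sum_apply]
  push_cast
  rfl

private lemma base_re_lc {n : ℕ} (h : Fin n → ℤ) (a : (Fin n → ℤ) →₀ ℝ) :
    base_re h (lc id a) = ∑ z ∈ a.support, a z * ((∑ i, h i * z i : ℤ) : ℝ) := by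
  rw [lc, Finsupp.linearCombination_apply, Finsupp.sum, map_sum]
  refine Finset.sum_congr rfl fun z _ => ?_
  rw [map_smul, smul_eq_mul]
  congr 1
  exact base_re_rv h z

private lemma base_nonneg {ι : Type*} (F : Finset ι) (c w : ι → ℝ) (hw : ∀ i ∈ F, 0 < w i)
    (hs : ∀ i ∈ F, ∀ j ∈ F, ¬ (c i < 0 ∧ 0 < c j)) (h0 : 0 ≤ ∑ i ∈ F, w i * c i) :
    ∀ i ∈ F, 0 ≤ c i := by
  intro i hi
  by_contra hlt
  rw [not_le] at hlt
  have h1 : ∀ j ∈ F, w j * c j ≤ 0 := fun j hj => by
    have h2 : c j ≤ 0 := by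
      by_contra h3
      rw [not_le] at h3
      exact hs i hi j hj ⟨hlt, h3⟩
    exact mul_nonpos_of_nonneg_of_nonpos (hw j hj).le h2
  have h2 : ∑ j ∈ F, w j * c j < ∑ j ∈ F, (0:ℝ) :=
    Finset.sum_lt_sum h1 ⟨i, hi, mul_neg_of_pos_of_neg (hw i hi) hlt⟩
  rw [Finset.sum_const_zero] at h2
  linarith

private lemma base_zero {ι : Type*} (F : Finset ι) (c w : ι → ℝ) (hw : ∀ i ∈ F, 0 < w i)
    (hc : ∀ i ∈ F, 0 ≤ c i) (h0 : ∑ i ∈ F, w i * c i = 0) : ∀ i ∈ F, c i = 0 := by
  intro i hi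
  have h1 := (Finset.sum_eq_zero_iff_of_nonneg
    (fun j hj => mul_nonneg (hw j hj).le (hc j hj))).1 h0 i hi
  rcases mul_eq_zero.1 h1 with h2 | h2
  · exact absurd h2 (hw i hi).ne'
  · exact h2

private lemma base_dt_ne {k : ℕ} {f : Fin k → Fin k → ℤ}
    (h : LinearIndependent ℝ (fun i => rv (f i))) : dt f ≠ 0 := by
  intro h0
  have h1 : ((dt f : ℤ) : ℝ) = 0 := by rw [h0]; simp
  rw [dt_cast] at h1
  change (Matrix.of fun i => rv (f i)).det = 0 at h1
  have h2 : IsUnit (Matrix.of fun i => rv (f i)) := by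
    rw [← Matrix.linearIndependent_rows_iff_isUnit]
    exact h
  rw [Matrix.isUnit_iff_isUnit_det, h1] at h2
  exact not_isUnit_zero h2

private lemma base_li {k : ℕ} {f : Fin k → Fin k → ℤ} (h : dt f ≠ 0) :
    LinearIndependent ℝ (fun i => rv (f i)) := by
  have h1 : ((dt f : ℤ) : ℝ) ≠ 0 := by exact_mod_cast h
  rw [dt_cast] at h1
  change (Matrix.of fun i => rv (f i)).det ≠ 0 at h1
  exact Matrix.linearIndependent_rows_of_det_ne_zero h1

/-- extension of an independent subset to a basis -/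
private lemma base_ext {n : ℕ} (W : Finset (Fin n → ℤ))
    (hW : ∃ f : Fin n → Fin n → ℤ, (∀ i, f i ∈ W) ∧ dt f ≠ 0) (B : Finset (Fin n → ℤ))
    (hB : B ⊆ W) (hi : LinearIndependent ℝ (fun b : B => rv (b : Fin n → ℤ))) :
    ∃ f : Fin n → Fin n → ℤ, (∀ i, f i ∈ W) ∧ Function.Injective f ∧ dt f ≠ 0 ∧
      ∀ b ∈ B, ∃ i, f i = b := by
  classical
  obtain ⟨g, hgW, hg⟩ := hW
  have hi' : LinearIndepOn ℝ (rv : (Fin n → ℤ) → Fin n → ℝ) (B : Set (Fin n → ℤ)) := hi
  obtain ⟨b, hbW, hBb, hspan, hb⟩ := exists_linearIndepOn_extension hi'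
    (show (B : Set (Fin n → ℤ)) ⊆ (W : Set (Fin n → ℤ)) from fun x hx => hB hx)
  have hgli := base_li hg
  have htop : Submodule.span ℝ (Set.range (fun i => rv (g i))) = ⊤ :=
    hgli.span_eq_top_of_card_eq_finrank' (by simp)
  have htop' : Submodule.span ℝ ((rv : (Fin n → ℤ) → Fin n → ℝ) '' b) = ⊤ := by
    rw [eq_top_iff, ← htop, Submodule.span_le]
    rintro _ ⟨i, rfl⟩
    exact hspan ⟨g i, hgW i, rfl⟩
  have hfin : b.Finite := W.finite_toSet.subset hbW
  have : Fintype b := hfin.fintype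
  have hcard : Fintype.card b = n := by
    have hb' : LinearIndependent ℝ (fun x : b => rv (x : Fin n → ℤ)) := hb
    have hr : Submodule.span ℝ (Set.range (fun x : b => rv (x : Fin n → ℤ))) = ⊤ := by
      rw [← htop']
      congr 1
      ext y
      constructor
      · rintro ⟨x, rfl⟩; exact ⟨x, x.2, rfl⟩
      · rintro ⟨x, hx, rfl⟩; exact ⟨⟨x, hx⟩, rfl⟩
    have h1 := Module.finrank_eq_card_basis (Module.Basis.mk hb' hr.ge)
    rw [← h1]; simp
  let e : Fin n ≃ b := (Fintype.equivFinOfCardEq hcard).symm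
  refine ⟨fun i => (e i : Fin n → ℤ), fun i => hbW (e i).2, fun i j hij => ?_, ?_, ?_⟩
  · exact e.injective (Subtype.ext hij)
  · apply base_dt_ne
    have hb' : LinearIndependent ℝ (fun x : b => rv (x : Fin n → ℤ)) := hb
    exact hb'.comp e e.injective
  · intro x hx
    exact ⟨e.symm ⟨x, hBb hx⟩, by simp⟩

private lemma base_lc_smul {n : ℕ} (Q : ℤ) (w : (Fin n → ℤ) →₀ ℝ) :
    lc (fun x : Fin n → ℤ => Q • x) w = (Q : ℝ) • lc id w := by
  ext i
  rw [Pi.smul_apply, lc_apply, lc_apply, Finsupp.sum, Finsupp.sum, smul_eq_mul, Finset.mul_sum]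
  refine Finset.sum_congr rfl fun x _ => ?_
  simp only [Pi.smul_apply, smul_eq_mul, id]
  push_cast
  ring

theorem base (hcut : S_CUT) : S_BASE := by
  classical
  intro m W hW1 hWf
  obtain ⟨D0, hD0, hD0W, hsupp0⟩ := exists_initial_fan W
  let H : Finset (Fin (m + 1) → ℤ) :=
    ((Fintype.piFinset (fun _ : Fin (m + 1) => W)) ×ˢ Finset.univ).image base_fn
  obtain ⟨D, hD, hsuppD, hht, hcutD⟩ := hcut m D0 H hD0
    (fun s hs x hx => (hW1 x (hD0W s hs hx)).ge)
  have hcoh : ∀ f : Fin (m + 1) → Fin (m + 1) → ℤ, (∀ i, f i ∈ W) → ∀ k, ∀ s ∈ D, ∀ x ∈ s,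
      ∀ y ∈ s, ¬ (base_cr f x k < 0 ∧ 0 < base_cr f y k) := by
    intro f hf k s hs x hx y hy
    have hmem : base_fn (f, k) ∈ H := by
      refine Finset.mem_image_of_mem _ ?_
      rw [Finset.mem_product]
      exact ⟨Fintype.mem_piFinset.2 hf, Finset.mem_univ _⟩
    have := hcutD _ hmem s hs x hx y hy
    rwa [base_fn_sum, base_fn_sum] at this
  let P : Finset (Fin (m + 1) → Fin (m + 1) → ℤ) :=
    (Fintype.piFinset (fun _ : Fin (m + 1) => W)).filter (fun f => dt f ≠ 0)
  let Q : ℤ := ∏ f ∈ P, |dt f|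
  have hQ : 0 < Q := Finset.prod_pos fun f hf => abs_pos.2 (Finset.mem_filter.1 hf).2
  have hQR : (0:ℝ) < (Q : ℝ) := by exact_mod_cast hQ
  let r : (Fin (m + 1) → ℤ) → (Fin (m + 1) → ℤ) := fun x => Q • x
  have hlc : ∀ w, lc r w = (Q : ℝ) • lc id w := base_lc_smul Q
  have hrD : IsCx r D := by
    refine ⟨hD.fin, hD.down, fun a ha b hb hab => hD.inj ha hb ?_⟩
    rw [hlc, hlc] at hab
    exact smul_right_injective _ hQR.ne' hab
  refine ⟨push r D, push_isCx hrD, ?_, ?_, ?_⟩
  · rw [supp_push hrD, ← hsupp0, ← hsuppD]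
    ext y
    constructor
    · rintro ⟨w, hw, rfl⟩
      rw [hlc]
      exact supp_smul_mem hD ⟨w, hw, rfl⟩ hQR.le
    · rintro ⟨w, hw, rfl⟩
      refine ⟨(Q : ℝ)⁻¹ • w, body_smul hD hw (inv_nonneg.2 hQR.le), ?_⟩
      rw [hlc, map_smul, smul_smul, mul_inv_cancel₀ hQR.ne', one_smul]
  · rintro s ⟨F, hF, hs⟩ x hx
    have hx' : x ∈ (s : Set (Fin (m + 1) → ℤ)) := hx
    rw [hs] at hx'
    obtain ⟨y, hy, rfl⟩ := hx'
    have h1 := hht F hF y hy
    change 1 ≤ Q * y 0
    nlinarith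
  · rintro c ⟨F, hF, hs⟩ B hBW hBi a ha0 hac haB x hx
    obtain ⟨f, hfW, hfinj, hfdt, hfB⟩ := base_ext W hWf B hBW hBi
    have hx' : x ∈ (c : Set (Fin (m + 1) → ℤ)) := hx
    rw [hs] at hx'
    obtain ⟨y, hy, rfl⟩ := hx'
    -- the sign
    obtain ⟨ε, hε, hεd⟩ : ∃ ε : ℤ, (ε = 1 ∨ ε = -1) ∧ |dt f| = ε * dt f := by
      rcases abs_choice (dt f) with h | h
      · exact ⟨1, Or.inl rfl, by rw [one_mul]; exact h⟩
      · exact ⟨-1, Or.inr rfl, by rw [neg_one_mul]; exact h⟩
    have hrinj : Set.InjOn r (F : Set (Fin (m + 1) → ℤ)) := by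
      intro u _ v _ huv
      exact smul_right_injective _ hQ.ne' huv
    have hcF : c = F.image r := by
      apply Finset.coe_injective
      rw [Finset.coe_image, hs]
    have hapos : ∀ u ∈ F, 0 < a (r u) := fun u hu => by
      have : r u ∈ a.support := by rw [hac, hcF]; exact Finset.mem_image_of_mem _ hu
      exact lt_of_le_of_ne (ha0 _) (Ne.symm (Finsupp.mem_support_iff.1 this))
    obtain ⟨β, hβ0, hβB, hβ⟩ := haB
    -- the value of the functional
    have hval : ∀ k, ∑ u ∈ F, (Q * a (r u)) * ((ε * base_cr f u k : ℤ) : ℝ) =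
        ∑ z ∈ β.support, β z * ((ε * base_cr f z k : ℤ) : ℝ) := by
      intro k
      have h1 := base_re_lc (base_fn (f, k)) a
      have h2 := base_re_lc (base_fn (f, k)) β
      rw [hβ, h1] at h2
      simp only [base_fn_sum] at h2
      rw [hac, hcF, Finset.sum_image hrinj] at h2
      have h3 : ∀ u, ((base_cr f (r u) k : ℤ) : ℝ) = Q * (base_cr f u k : ℝ) := fun u => by
        rw [show r u = Q • u from rfl, map_smul, Pi.smul_apply, smul_eq_mul]
        push_cast
        ring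
      have h4 : (ε : ℝ) * ∑ u ∈ F, a (r u) * ((base_cr f (r u) k : ℤ) : ℝ) =
          ε * ∑ z ∈ β.support, β z * ((base_cr f z k : ℤ) : ℝ) := by rw [h2]
      rw [Finset.mul_sum, Finset.mul_sum] at h4
      convert h4 using 1
      · refine Finset.sum_congr rfl fun u _ => ?_
        rw [h3]; push_cast; ring
      · refine Finset.sum_congr rfl fun u _ => ?_
        push_cast; ring
    have hterm : ∀ k, ∀ z ∈ β.support, 0 ≤ β z * ((ε * base_cr f z k : ℤ) : ℝ) := by
      intro k z hz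
      obtain ⟨j, rfl⟩ := hfB z (hβB hz)
      refine mul_nonneg (hβ0 _) ?_
      rw [base_cr_row]
      split_ifs
      · rw [← hεd]; exact_mod_cast abs_nonneg (dt f)
      · simp
    have hQa : ∀ u ∈ F, 0 < (Q : ℝ) * a (r u) := fun u hu => mul_pos hQR (hapos u hu)
    have hnn : ∀ k, ∀ u ∈ F, 0 ≤ ((ε * base_cr f u k : ℤ) : ℝ) := by
      intro k
      refine base_nonneg F _ (fun u => (Q : ℝ) * a (r u)) hQa ?_ ?_
      · intro u hu v hv huv
        rcases hε with rfl | rfl
        · rw [one_mul, one_mul] at huv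
          exact hcoh f hfW k F hF u hu v hv ⟨by exact_mod_cast huv.1, by exact_mod_cast huv.2⟩
        · rw [neg_one_mul, neg_one_mul] at huv
          push_cast at huv
          refine hcoh f hfW k F hF v hv u hu ⟨?_, ?_⟩
          · have := huv.2
            have h5 : ((base_cr f v k : ℤ) : ℝ) < 0 := by linarith
            exact_mod_cast h5
          · have := huv.1
            have h5 : (0:ℝ) < ((base_cr f u k : ℤ) : ℝ) := by linarith
            exact_mod_cast h5
      · rw [hval k]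
        exact Finset.sum_nonneg (hterm k)
    have hz : ∀ k, f k ∉ B → ∀ u ∈ F, ((ε * base_cr f u k : ℤ) : ℝ) = 0 := by
      intro k hk
      refine base_zero F _ (fun u => (Q : ℝ) * a (r u)) hQa (hnn k) ?_
      rw [hval k]
      refine Finset.sum_eq_zero fun z hz => ?_
      obtain ⟨j, rfl⟩ := hfB z (hβB hz)
      have hkj : k ≠ j := by
        rintro rfl
        exact hk (hβB hz)
      rw [base_cr_row, if_neg hkj]
      simp
    -- the divisor
    obtain ⟨q, hq⟩ : |dt f| ∣ Q := by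
      refine Finset.dvd_prod_of_mem (fun f => |dt f|) ?_
      exact Finset.mem_filter.2 ⟨Fintype.mem_piFinset.2 hfW, hfdt⟩
    have hq0 : 0 ≤ q := by
      have h1 : 0 < |dt f| * q := by rw [← hq]; exact hQ
      have h2 : 0 < |dt f| := abs_pos.2 hfdt
      by_contra h3
      rw [not_le] at h3
      nlinarith
    have hnn' : ∀ k, 0 ≤ q * (ε * base_cr f y k) := fun k =>
      mul_nonneg hq0 (by exact_mod_cast hnn k y hy)
    refine ⟨fun b => ∑ k, if f k = b then (q * (ε * base_cr f y k)).toNat else 0, ?_⟩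
    have h1 : r y = ∑ k, (q * (ε * base_cr f y k)) • f k := by
      change Q • y = _
      rw [hq, hεd, show ε * dt f * q = (q * ε) * dt f by ring, mul_smul, base_cr_sum,
        Finset.smul_sum]
      refine Finset.sum_congr rfl fun k _ => ?_
      rw [smul_smul]
      congr 1
      ring
    rw [h1]
    have h2 : ∀ b ∈ B, (∑ k, if f k = b then (q * (ε * base_cr f y k)).toNat else 0) • b =
        ∑ k, if f k = b then (q * (ε * base_cr f y k)) • f k else 0 := by
      intro b _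
      rw [Finset.sum_smul]
      refine Finset.sum_congr rfl fun k _ => ?_
      split_ifs with hkb
      · rw [hkb, ← natCast_zsmul, Int.toNat_of_nonneg (hnn' k)]
      · rw [zero_smul]
    rw [Finset.sum_congr rfl h2, Finset.sum_comm]
    refine Finset.sum_congr rfl fun k _ => ?_
    by_cases hk : f k ∈ B
    · rw [Finset.sum_ite_eq B (f k), if_pos hk]
    · rw [Finset.sum_eq_zero]
      · have h3 : ε * base_cr f y k = 0 := by exact_mod_cast hz k hk y hy
        rw [h3, mul_zero, zero_smul]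
      · intro b hb
        rw [if_neg]
        rintro rfl
        exact hk hb

end H6BW
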