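import Pool.Agent.Work.MP_6237c7_co.BW.Defs

/-! BDL: bounded multiplicities from the base fan and the kernel lattice. -/

set_option autoImplicit false

namespace H6BW

open Finsupp H79KMW

/-- Cramer's rule over the integers -/
lemma bdl_cramer {k : ℕ} (f : Fin k → Fin k → ℤ) (y : Fin k → ℤ) :
    ∃ c : Fin k → ℤ, dt f • y = ∑ i, c i • f i := by
  refine ⟨Matrix.vecMul y (Matrix.of f).adjugate, ?_⟩
  have h1 : Matrix.vecMul (Matrix.vecMul y (Matrix.of f).adjugate) (Matrix.of f) = dt f • y := by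
    rw [Matrix.vecMul_vecMul, Matrix.adjugate_mul, Matrix.vecMul_smul, Matrix.vecMul_one]
    rfl
  rw [← h1]
  ext j
  rw [Finset.sum_apply]
  simp only [Matrix.vecMul, dotProduct, Pi.smul_apply, smul_eq_mul, Matrix.of_apply]

lemma bdl_dt_ne {k : ℕ} {f : Fin k → Fin k → ℤ}
    (h : LinearIndependent ℝ (fun i => rv (f i))) : dt f ≠ 0 := by
  intro h0
  have h1 : ((dt f : ℤ) : ℝ) = 0 := by rw [h0]; simp
  rw [dt_cast] at h1
  change (Matrix.of fun i => rv (f i)).det = 0 at h1
  have h2 : IsUnit (Matrix.of fun i => rv (f i)) := by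
    rw [← Matrix.linearIndependent_rows_iff_isUnit]
    exact h
  rw [Matrix.isUnit_iff_isUnit_det, h1] at h2
  exact not_isUnit_zero h2

theorem bdl (hG : S_GRP) : S_BDL := by
  classical
  intro m A Δ K D hS hD s hs hcard S' h2s h2r
  have hov := hS.ovr s hs
  have hg := hG (m + 1) (m + 3) A Δ K hS s hs
  set I := s.image (fun x => A.mulVec x) with hI
  have hle := hS.cxΔ.card_le hov
  have hIc : I.card = m + 1 := by omega
  let e := (I.equivFinOfCardEq hIc).symm
  let f : Fin (m + 1) → Fin (m + 1) → ℤ := fun i => (e i : Fin (m + 1) → ℤ)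
  have hfI : ∀ i, f i ∈ I := fun i => (e i).2
  have hg' : ∀ i, ∃ x ∈ s, A.mulVec x = f i := fun i => by
    have := hfI i
    rw [hI, Finset.mem_image] at this
    exact this
  choose g hgs hgf using hg'
  have hli : LinearIndependent ℝ (fun i => rv (f i)) := by
    have h1 := hS.cxΔ.linInd hov
    have h2 := h1.comp e e.injective
    exact h2
  have hdt := bdl_dt_ne hli
  refine ⟨(dt f).natAbs, Int.natAbs_pos.2 hdt, ?_, fun x => ?_⟩
  · have := hD I hov f hfI
    rw [Int.abs_eq_natAbs] at this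
    exact_mod_cast this
  · obtain ⟨c, hc⟩ := bdl_cramer f (A.mulVec x)
    have h1 : A.mulVec (dt f • x - ∑ i, c i • g i) = 0 := by
      rw [Matrix.mulVec_sub, Matrix.mulVec_smul, hc, sub_eq_zero]
      have : A.mulVec (∑ i, c i • g i) = ∑ i, A.mulVec (c i • g i) :=
        map_sum A.mulVecLin _ _
      rw [this]
      refine Finset.sum_congr rfl fun i _ => ?_
      rw [Matrix.mulVec_smul, hgf]
    have h2 := h2r _ h1
    have h3 : ∑ i, c i • ((2 : ℤ) • g i) ∈ S' :=
      Submodule.sum_mem _ fun i _ => Submodule.smul_mem _ _ (h2s _ (hgs i))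
    have h4 : (2 : ℤ) • (dt f • x) ∈ S' := by
      have h5 := Submodule.add_mem _ h2 h3
      have h6 : (2 : ℤ) • (dt f • x - ∑ i, c i • g i) + ∑ i, c i • ((2 : ℤ) • g i) =
          (2 : ℤ) • (dt f • x) := by
        rw [smul_sub, Finset.smul_sum]
        have : ∑ i, c i • ((2 : ℤ) • g i) = ∑ i, (2 : ℤ) • (c i • g i) :=
          Finset.sum_congr rfl fun i _ => smul_comm _ _ _
        rw [this]
        abel
      rwa [h6] at h5
    rcases Int.natAbs_eq (dt f) with h | h
    · rw [mul_smul, ← h]; exact h4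
    · have h5 : (((dt f).natAbs : ℕ) : ℤ) = -dt f := by omega
      rw [mul_smul, h5, neg_smul, smul_neg]
      exact Submodule.neg_mem _ h4

end H6BW
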