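import Pool.Agent.Work.MP_6237c7_co.BW.Defs
import Pool.Agent.Work.MP_6237c7_co.LE37

set_option autoImplicit false

namespace H6BW

open H79KMW

/-- The cone as a predicate of three real numbers. -/
def b37M (MM : Set (Fin 3 → ℝ)) (σ x y : ℝ) : Prop := (![σ, x, y] : Fin 3 → ℝ) ∈ MM

/-- The homogenised function. -/
noncomputable def b37z (zf : ℝ → ℝ) (σ y : ℝ) : ℝ := σ * zf (y / σ)

lemma b37_eta (x : Fin 3 → ℝ) : (![x 0, x 1, x 2] : Fin 3 → ℝ) = x := by
  funext i; fin_cases i <;> rfl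

lemma b37_mem {MM : Set (Fin 3 → ℝ)} {x : Fin 3 → ℝ} : b37M MM (x 0) (x 1) (x 2) ↔ x ∈ MM := by
  rw [b37M, b37_eta]

lemma b37_full {N : ℝ} {MM : Set (Fin 3 → ℝ)} {zf ff : ℝ → ℝ} (h : PD N MM zf ff) :
    LU37.Full N (b37M MM) (b37z zf) (b37z ff) := by
  have hN := h.hN
  have bd : ∀ {σ x y : ℝ}, b37M MM σ x y → σ ≤ x ∧ x ≤ (2 * N - 1) * σ ∧ σ ≤ y ∧
      y ≤ (2 * N - 1) * σ := fun {σ x y} hm => ⟨h.lo1 _ hm, h.hi1 _ hm, h.lo2 _ hm, h.hi2 _ hm⟩
  have nn : ∀ {σ x y : ℝ}, b37M MM σ x y → 0 ≤ σ := by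
    intro σ x y hm
    obtain ⟨h1, h2, _, _⟩ := bd hm
    nlinarith
  have scale : ∀ {σ x y c : ℝ}, b37M MM σ x y → 0 ≤ c → b37M MM (c * σ) (c * x) (c * y) := by
    intro σ x y c hm hc
    have h1 := h.smul _ hm c hc
    have h2 : c • (![σ, x, y] : Fin 3 → ℝ) = ![c * σ, c * x, c * y] := by
      funext i; fin_cases i <;> rfl
    rw [h2] at h1
    exact h1
  have add : ∀ {σ x y σ' x' y' : ℝ}, b37M MM σ x y → b37M MM σ' x' y' →
      b37M MM (σ + σ') (x + x') (y + y') := by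
    intro σ x y σ' x' y' hm hm'
    have h1 := h.add _ hm _ hm'
    have h2 : (![σ, x, y] : Fin 3 → ℝ) + ![σ', x', y'] = ![σ + σ', x + x', y + y'] := by
      funext i; fin_cases i <;> rfl
    rw [h2] at h1
    exact h1
  have zM : ∀ {σ y : ℝ}, 0 < σ → σ ≤ y → y ≤ (2 * N - 1) * σ → b37M MM σ (b37z zf σ y) y := by
    intro σ y hσ h1 h2
    have h3 := h.memz (y / σ) ((one_le_div hσ).2 h1) ((div_le_iff₀ hσ).2 h2)
    have h4 := scale (c := σ) (show b37M MM 1 (zf (y / σ)) (y / σ) from h3) hσ.le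
    rw [mul_one, mul_div_cancel₀ _ hσ.ne'] at h4
    exact h4
  have fM : ∀ {σ x : ℝ}, 0 < σ → σ ≤ x → x ≤ (2 * N - 1) * σ → b37M MM σ x (b37z ff σ x) := by
    intro σ x hσ h1 h2
    have h3 := h.memf (x / σ) ((one_le_div hσ).2 h1) ((div_le_iff₀ hσ).2 h2)
    have h4 := scale (c := σ) (show b37M MM 1 (x / σ) (ff (x / σ)) from h3) hσ.le
    rw [mul_one, mul_div_cancel₀ _ hσ.ne'] at h4
    exact h4
  have zero : ∀ {x y : ℝ}, b37M MM 0 x y → x = 0 ∧ y = 0 := by
    intro x y hm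
    obtain ⟨h1, h2, h3, h4⟩ := bd hm
    rw [mul_zero] at h2 h4
    exact ⟨le_antisymm h2 h1, le_antisymm h4 h3⟩
  have ev : ∀ {g : ℝ → ℝ} {σ : ℝ} (c : ℝ), 0 < σ → b37z g σ (c * σ) = σ * g c := by
    intro g σ c hσ
    rw [b37z, mul_div_cancel_right₀ _ hσ.ne']
  refine
    { N0 := by linarith
      nn := nn
      zero := zero
      box := ?_
      scale := scale
      conv := ?_
      twox := ?_
      twoy := ?_
      closed := ?_
      add := add
      bd := bd
      zM := zM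
      fM := fM
      zc := ?_
      fc := ?_
      z0 := by rw [b37z, zero_mul]
      f0 := by rw [b37z, zero_mul]
      bottom := ?_
      top := ?_
      lefte := ?_
      righte := ?_ }
  · intro σ x y hm hσ
    obtain ⟨h1, h2, h3, h4⟩ := bd hm
    exact ⟨by linarith, by nlinarith, by linarith, by nlinarith⟩
  · intro σ x y x' y' c hm hm' hc hc'
    have h1 := add (scale hm (c := 1 - c) (by linarith)) (scale hm' hc)
    have e1 : (1 - c) * σ + c * σ = σ := by ring
    have e2 : (1 - c) * x + c * x' = x + c * (x' - x) := by ring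
    have e3 : (1 - c) * y + c * y' = y + c * (y' - y) := by ring
    rw [e1, e2, e3] at h1
    exact h1
  · intro σ hσ
    refine ⟨σ, b37z ff σ σ, (2 * N - 1) * σ, b37z ff σ ((2 * N - 1) * σ),
      fM hσ le_rfl (by nlinarith), fM hσ (by nlinarith) le_rfl, by nlinarith⟩
  · intro σ hσ
    refine ⟨b37z zf σ σ, σ, b37z zf σ ((2 * N - 1) * σ), (2 * N - 1) * σ,
      zM hσ le_rfl (by nlinarith), zM hσ (by nlinarith) le_rfl, by nlinarith⟩
  · have hc : Continuous (fun p : ℝ × ℝ × ℝ => (![p.1, p.2.1, p.2.2] : Fin 3 → ℝ)) := by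
      refine continuous_pi fun i => ?_
      fin_cases i
      · exact continuous_fst
      · exact continuous_fst.comp continuous_snd
      · exact continuous_snd.comp continuous_snd
    exact h.closed.preimage hc
  · intro σ hσ
    exact (continuous_const.mul (h.cz.comp (continuous_id.div_const σ))).continuousOn
  · intro σ hσ
    exact (continuous_const.mul (h.cf.comp (continuous_id.div_const σ))).continuousOn
  · intro σ x hm
    rcases (nn hm).eq_or_lt with hz | hσ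
    · subst hz
      rw [b37z, zero_mul, (zero hm).1]
    · have h1 := h.z1 _ hm rfl
      have h2 := ev (g := zf) 1 hσ
      rw [one_mul] at h2
      rw [h2]
      exact h1
  · intro σ x hm
    rcases (nn hm).eq_or_lt with hz | hσ
    · subst hz
      rw [mul_zero] at hm
      rw [b37z, zero_mul, (zero hm).1]
    · have h1 := h.z2 _ hm rfl
      rw [ev (g := zf) (2 * N - 1) hσ]
      exact h1
  · intro σ y hm
    rcases (nn hm).eq_or_lt with hz | hσ
    · subst hz
      rw [b37z, zero_mul, (zero hm).2]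
    · have h1 := h.f1 _ hm rfl
      have h2 := ev (g := ff) 1 hσ
      rw [one_mul] at h2
      rw [h2]
      exact h1
  · intro σ y hm
    rcases (nn hm).eq_or_lt with hz | hσ
    · subst hz
      rw [mul_zero] at hm
      rw [b37z, zero_mul, (zero hm).2]
    · have h1 := h.f2 _ hm rfl
      rw [ev (g := ff) (2 * N - 1) hσ]
      exact h1

section
variable {MM : Set (Fin 3 → ℝ)} {x : Fin 3 → ℝ}

lemma b37_sw : SW MM x ↔ LU37.SW (b37M MM) (x 0) (x 1) (x 2) := by
  constructor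
  · intro h x' y' hm hx
    by_contra hc
    exact h _ hm rfl ⟨hx, not_le.1 hc⟩
  · intro h y hy h0 hc
    have h1 : b37M MM (x 0) (y 1) (y 2) := by rw [← h0]; exact b37_mem.2 hy
    have := h _ _ h1 hc.1
    linarith [hc.2]

lemma b37_se : SE MM x ↔ LU37.SE (b37M MM) (x 0) (x 1) (x 2) := by
  constructor
  · intro h x' y' hm hx
    by_contra hc
    exact h _ hm rfl ⟨hx, not_le.1 hc⟩
  · intro h y hy h0 hc
    have h1 : b37M MM (x 0) (y 1) (y 2) := by rw [← h0]; exact b37_mem.2 hy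
    have := h _ _ h1 hc.1
    linarith [hc.2]

lemma b37_nw : NW MM x ↔ LU37.NW (b37M MM) (x 0) (x 1) (x 2) := by
  constructor
  · intro h x' y' hm hx
    by_contra hc
    exact h _ hm rfl ⟨hx, not_le.1 hc⟩
  · intro h y hy h0 hc
    have h1 : b37M MM (x 0) (y 1) (y 2) := by rw [← h0]; exact b37_mem.2 hy
    have := h _ _ h1 hc.1
    linarith [hc.2]

lemma b37_ne : NE MM x ↔ LU37.NE (b37M MM) (x 0) (x 1) (x 2) := by
  constructor
  · intro h x' y' hm hx
    by_contra hc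
    exact h _ hm rfl ⟨hx, not_le.1 hc⟩
  · intro h y hy h0 hc
    have h1 : b37M MM (x 0) (y 1) (y 2) := by rw [← h0]; exact b37_mem.2 hy
    have := h _ _ h1 hc.1
    linarith [hc.2]

lemma b37_cond {N : ℝ} {zf ff : ℝ → ℝ} {w a : Fin 4 → ℝ} (h : Adm N MM zf ff w a x) :
    LU37.Cond (b37M MM) (b37z zf) (b37z ff) (a 0) (a 1) (a 2) (a 3) (x 0) (x 1) (x 2) where
  p₀ := h.nn 0
  p₁ := h.nn 1
  p₂ := h.nn 2
  p₃ := h.nn 3
  m := b37_mem.2 h.mem
  l := h.cond.l
  r := h.cond.r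
  b := h.cond.b
  t := h.cond.t
  sw := fun h0 h2 => b37_sw.1 (h.cond.sw h0 h2)
  se := fun h0 h2 => b37_se.1 (h.cond.se h0 h2)
  nw := fun h0 h2 => b37_nw.1 (h.cond.nw h0 h2)
  ne := fun h0 h2 => b37_ne.1 (h.cond.ne h0 h2)
  na := by
    rintro ⟨h0, h1, h2, h3⟩
    obtain ⟨i, hi⟩ := h.some0
    fin_cases i
    · exact h0.ne' hi
    · exact h1.ne' hi
    · exact h2.ne' hi
    · exact h3.ne' hi

end

end H6BW
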