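import Pool.Agent.Work.MP_6237c7_co.BW.Defs

set_option autoImplicit false

namespace H6BW

open Finsupp H79KMW

lemma carr_eps {α : Type*} (s : Finset α) (a b : α → ℝ) (ha : ∀ x, 0 ≤ a x)
    (hb : ∀ x ∈ s, 0 < b x) : ∃ ε : ℝ, 0 < ε ∧ ∀ x ∈ s, ε * a x ≤ b x := by
  classical
  induction s using Finset.induction_on with
  | empty => exact ⟨1, one_pos, fun x hx => absurd hx (Finset.notMem_empty x)⟩
  | insert y s _ ih =>
    obtain ⟨ε, h0, h1⟩ := ih fun x hx => hb x (Finset.mem_insert_of_mem hx)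
    have hby := hb y (Finset.mem_insert_self y s)
    have hay := ha y
    refine ⟨min ε (b y / (a y + 1)), lt_min h0 (div_pos hby (by linarith)), ?_⟩
    intro x hx
    rw [Finset.mem_insert] at hx
    rcases hx with rfl | hx
    · calc min ε (b x / (a x + 1)) * a x ≤ b x / (a x + 1) * a x :=
          mul_le_mul_of_nonneg_right (min_le_right _ _) hay
        _ ≤ b x := by
          rw [div_mul_eq_mul_div, div_le_iff₀ (by linarith)]
          nlinarith
    · exact (mul_le_mul_of_nonneg_right (min_le_left _ _) (ha x)).trans (h1 x hx)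

lemma carr_split {n : ℕ} (b : (Fin n → ℤ) →₀ ℝ) (hb : ∀ x, 0 ≤ b x) {m : Fin n → ℝ}
    (hm : m ∈ coneOf b.support) : ∃ ε : ℝ, 0 < ε ∧ ∃ r ∈ coneOf b.support,
      lc id b = ε • m + r := by
  obtain ⟨a, ha0, has, rfl⟩ := hm
  obtain ⟨ε, hε, h⟩ := carr_eps b.support a b ha0
    fun x hx => lt_of_le_of_ne (hb x) (Ne.symm (Finsupp.mem_support_iff.1 hx))
  refine ⟨ε, hε, lc id (b - ε • a), ⟨b - ε • a, ?_, ?_, rfl⟩, ?_⟩
  · intro x
    rw [Finsupp.sub_apply, Finsupp.smul_apply, smul_eq_mul]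
    by_cases hx : x ∈ b.support
    · linarith [h x hx]
    · have h1 : a x = 0 := Finsupp.notMem_support_iff.1 fun h' => hx (has h')
      have h2 : b x = 0 := Finsupp.notMem_support_iff.1 hx
      rw [h1, h2]; simp
  · exact supp_sub_subset _ _ _ (Finset.Subset.refl _) (supp_smul_subset _ _ _ has)
  · rw [map_sub, map_smul]; abel

/-- The key step: a function which vanishes only on faces keeps its sign on a face. -/
lemma carr_key {T : Set (Finset (Fin 3 → ℤ))} (hT : IsCx id T) {b : (Fin 3 → ℤ) →₀ ℝ}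
    (hb : b ∈ body T) {m : Fin 3 → ℝ} (hm : m ∈ coneOf b.support) (h0 : 0 < (lc id b) 0)
    (h1 : 0 < m 0) (g : (Fin 3 → ℝ) → ℝ) (hg : ContinuousOn g {x | 0 < x 0})
    (hz : ∀ x ∈ coneOf b.support, 0 < x 0 → g x = 0 → ∃ e ∈ T, x ∈ coneOf e ∧
      ∀ y ∈ coneOf e, g y = 0) (hg0 : g (lc id b) ≤ 0) : g m ≤ 0 := by
  by_contra hcon
  rw [not_le] at hcon
  obtain ⟨a, ha0, has, rfl⟩ := hm
  let γ : ℝ → (Fin 3 → ℝ) := fun θ => (1 - θ) • lc id b + θ • lc id a
  have hγ0 : ∀ θ ∈ Set.Icc (0:ℝ) 1, 0 < γ θ 0 := by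
    intro θ hθ
    show 0 < (1 - θ) * lc id b 0 + θ * lc id a 0
    rcases hθ.1.eq_or_lt with h2 | h2
    · rw [← h2]; simpa using h0
    · have : 0 ≤ (1 - θ) * lc id b 0 := mul_nonneg (by linarith [hθ.2]) h0.le
      have : 0 < θ * lc id a 0 := mul_pos h2 h1
      linarith
  have hcont : ContinuousOn (fun θ => g (γ θ)) (Set.Icc 0 1) := by
    refine hg.comp ?_ fun θ hθ => hγ0 θ hθ
    refine Continuous.continuousOn ?_
    exact ((continuous_const.sub continuous_id).smul continuous_const).add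
      (continuous_id.smul continuous_const)
  have hγa : γ 0 = lc id b := by
    show (1 - (0:ℝ)) • lc id b + (0:ℝ) • lc id a = _
    simp
  have hγb : γ 1 = lc id a := by
    show (1 - (1:ℝ)) • lc id b + (1:ℝ) • lc id a = _
    simp
  have hiv := intermediate_value_Icc (zero_le_one (α := ℝ)) hcont
  have hmem : (0:ℝ) ∈ Set.Icc (g (γ 0)) (g (γ 1)) := by
    rw [hγa, hγb]
    exact ⟨hg0, hcon.le⟩
  obtain ⟨θ, hθ, hθ0⟩ := hiv hmem
  have hθ0 : g (γ θ) = 0 := hθ0
  have hθ1 : θ < 1 := by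
    refine lt_of_le_of_ne hθ.2 ?_
    rintro rfl
    rw [hγb] at hθ0
    exact hcon.ne' hθ0
  have hγl : γ θ = lc id ((1 - θ) • b + θ • a) := by
    rw [map_add, map_smul, map_smul]
  have hnn : ∀ x, 0 ≤ ((1 - θ) • b + θ • a) x := by
    intro x
    rw [Finsupp.add_apply, Finsupp.smul_apply, Finsupp.smul_apply, smul_eq_mul, smul_eq_mul]
    exact add_nonneg (mul_nonneg (by linarith) (hb.1 x)) (mul_nonneg hθ.1 (ha0 x))
  have hsup : ((1 - θ) • b + θ • a).support ⊆ b.support :=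
    supp_add_subset _ _ _ (supp_smul_subset _ _ _ (Finset.Subset.refl _))
      (supp_smul_subset _ _ _ has)
  obtain ⟨e, heT, ⟨w, hw0, hwe, hwl⟩, hge⟩ := hz (γ θ) ⟨_, hnn, hsup, hγl.symm⟩ (hγ0 θ hθ) hθ0
  have heq : (1 - θ) • b + θ • a = w :=
    hT.inj ⟨hnn, hT.down _ hb.2 _ hsup⟩ ⟨hw0, hT.down _ heT _ hwe⟩ (by rw [← hγl, hwl])
  have hbe : b.support ⊆ e := by
    intro x hx
    apply hwe
    rw [← heq, Finsupp.mem_support_iff, Finsupp.add_apply, Finsupp.smul_apply,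
      Finsupp.smul_apply, smul_eq_mul, smul_eq_mul]
    have h2 : 0 < b x := lt_of_le_of_ne (hb.1 x) (Ne.symm (Finsupp.mem_support_iff.1 hx))
    have h3 : 0 < (1 - θ) * b x := mul_pos (by linarith) h2
    have h4 : 0 ≤ θ * a x := mul_nonneg hθ.1 (ha0 x)
    linarith
  have := hge (lc id a) ⟨a, ha0, has.trans hbe, rfl⟩
  linarith

/-- CARR. -/
theorem carr (hP : S_PDAT) : S_CARR := by
  intro N c c' M T hN hcc hM hT hsupp hZ hF P b hb hcond m hm
  obtain ⟨hPD, hz1, hf1, hz2, hf2⟩ := hP N c c' M hN hcc hM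
  set MM := coneOf (pts N c) with hMM
  set zf := pl M (zeta N c') with hzf
  set ff := pl M (phi N c) with hff
  have hNR : (2:ℝ) ≤ N := hPD.hN
  have hsub : ∀ x ∈ coneOf b.support, x ∈ MM := by
    rintro x ⟨a, ha0, has, rfl⟩
    rw [← hsupp]
    exact ⟨a, ⟨ha0, hT.down _ hb.2 _ has⟩, rfl⟩
  have hbM : lc id b ∈ coneOf b.support := ⟨b, hb.1, Finset.Subset.refl _, rfl⟩
  have hlev : ∀ x ∈ MM, 0 ≤ x 0 ∧ (x 0 = 0 → x = 0) := by
    intro x hx
    have h1 := hPD.lo1 x hx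
    have h2 := hPD.hi1 x hx
    have h3 := hPD.lo2 x hx
    have h4 := hPD.hi2 x hx
    have h5 : 0 ≤ x 0 := by nlinarith
    refine ⟨h5, fun h6 => ?_⟩
    rw [h6] at h1 h2 h3 h4
    rw [mul_zero] at h2 h4
    funext i
    fin_cases i
    · exact h6
    · exact le_antisymm h2 h1
    · exact le_antisymm h4 h3
  have hmM := hsub m hm
  obtain ⟨ε, hε, r, hr, hdec⟩ := carr_split b hb.1 hm
  have hrM := hsub r hr
  have hcomp : ∀ y ∈ MM, ε • y + r ∈ MM := fun y hy =>
    coneOf_add _ (coneOf_smul _ hy hε.le) hrM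
  have hd : ∀ i, lc id b i = ε * m i + r i := fun i => congrFun hdec i
  -- the two sign conditions
  have hgz : ContinuousOn (fun x : Fin 3 → ℝ => x 1 - x 0 * zf (x 2 / x 0)) {x | 0 < x 0} := by
    have h1 : ContinuousOn (fun x : Fin 3 → ℝ => x 2 / x 0) {x | 0 < x 0} :=
      (continuous_apply 2).continuousOn.div (continuous_apply 0).continuousOn
        fun x hx => (show 0 < x 0 from hx).ne'
    exact (continuous_apply 1).continuousOn.sub ((continuous_apply 0).continuousOn.mul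
      (hPD.cz.comp_continuousOn h1))
  have hgf : ContinuousOn (fun x : Fin 3 → ℝ => x 2 - x 0 * ff (x 1 / x 0)) {x | 0 < x 0} := by
    have h1 : ContinuousOn (fun x : Fin 3 → ℝ => x 1 / x 0) {x | 0 < x 0} :=
      (continuous_apply 1).continuousOn.div (continuous_apply 0).continuousOn
        fun x hx => (show 0 < x 0 from hx).ne'
    exact (continuous_apply 2).continuousOn.sub ((continuous_apply 0).continuousOn.mul
      (hPD.cf.comp_continuousOn h1))
  have hzz : ∀ x ∈ coneOf b.support, 0 < x 0 → x 1 - x 0 * zf (x 2 / x 0) = 0 →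
      ∃ e ∈ T, x ∈ coneOf e ∧ ∀ y ∈ coneOf e, y 1 - y 0 * zf (y 2 / y 0) = 0 := by
    intro x hx h0 hx0
    obtain ⟨j, hj1, hj2, hj3⟩ := hz1 x (hsub x hx) h0 (by linarith)
    exact ⟨_, hZ j hj1 hj2, hj3, fun y hy => by rw [sub_eq_zero]; exact hz2 j hj1 hj2 y hy⟩
  have hff' : ∀ x ∈ coneOf b.support, 0 < x 0 → x 2 - x 0 * ff (x 1 / x 0) = 0 →
      ∃ e ∈ T, x ∈ coneOf e ∧ ∀ y ∈ coneOf e, y 2 - y 0 * ff (y 1 / y 0) = 0 := by
    intro x hx h0 hx0
    obtain ⟨j, hj1, hj2, hj3⟩ := hf1 x (hsub x hx) h0 (by linarith)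
    exact ⟨_, hF j hj1 hj2, hj3, fun y hy => by rw [sub_eq_zero]; exact hf2 j hj1 hj2 y hy⟩
  have hpos : m ≠ 0 → 0 < m 0 ∧ 0 < lc id b 0 := by
    intro hne
    have h1 : 0 < m 0 := lt_of_le_of_ne (hlev m hmM).1 fun h => hne ((hlev m hmM).2 h.symm)
    refine ⟨h1, ?_⟩
    rw [hd]
    have := (hlev r hrM).1
    have := mul_pos hε h1
    linarith
  refine ⟨fun h0 => ?_, fun h0 => ?_, fun h0 => ?_, fun h0 => ?_, fun h0 h2 => ?_,
    fun h0 h2 => ?_, fun h0 h2 => ?_, fun h0 h2 => ?_⟩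
  · -- left
    show m 1 ≤ m 0 * zf (m 2 / m 0)
    by_cases hne : m = 0
    · rw [hne]; simp
    obtain ⟨h3, h4⟩ := hpos hne
    have h5 : lc id b 1 ≤ lc id b 0 * zf (lc id b 2 / lc id b 0) := hcond.l h0
    have := carr_key hT hb hm h4 h3 (fun x => x 1 - x 0 * zf (x 2 / x 0)) hgz hzz
      (by show _ - _ ≤ (0:ℝ); linarith)
    have h6 : m 1 - m 0 * zf (m 2 / m 0) ≤ 0 := this
    linarith
  · -- right
    show m 0 * zf (m 2 / m 0) ≤ m 1
    by_cases hne : m = 0
    · rw [hne]; simp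
    obtain ⟨h3, h4⟩ := hpos hne
    have h5 : lc id b 0 * zf (lc id b 2 / lc id b 0) ≤ lc id b 1 := hcond.r h0
    have := carr_key hT hb hm h4 h3 (fun x => -(x 1 - x 0 * zf (x 2 / x 0))) hgz.neg
      (fun x hx hx0 he => by
        obtain ⟨e, he1, he2, he3⟩ := hzz x hx hx0 (by linarith)
        exact ⟨e, he1, he2, fun y hy => by rw [he3 y hy, neg_zero]⟩)
      (by show -(_ - _) ≤ (0:ℝ); linarith)
    have h6 : -(m 1 - m 0 * zf (m 2 / m 0)) ≤ 0 := this
    linarith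
  · -- below
    show m 2 ≤ m 0 * ff (m 1 / m 0)
    by_cases hne : m = 0
    · rw [hne]; simp
    obtain ⟨h3, h4⟩ := hpos hne
    have h5 : lc id b 2 ≤ lc id b 0 * ff (lc id b 1 / lc id b 0) := hcond.b h0
    have := carr_key hT hb hm h4 h3 (fun x => x 2 - x 0 * ff (x 1 / x 0)) hgf hff'
      (by show _ - _ ≤ (0:ℝ); linarith)
    have h6 : m 2 - m 0 * ff (m 1 / m 0) ≤ 0 := this
    linarith
  · -- above
    show m 0 * ff (m 1 / m 0) ≤ m 2
    by_cases hne : m = 0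
    · rw [hne]; simp
    obtain ⟨h3, h4⟩ := hpos hne
    have h5 : lc id b 0 * ff (lc id b 1 / lc id b 0) ≤ lc id b 2 := hcond.t h0
    have := carr_key hT hb hm h4 h3 (fun x => -(x 2 - x 0 * ff (x 1 / x 0))) hgf.neg
      (fun x hx hx0 he => by
        obtain ⟨e, he1, he2, he3⟩ := hff' x hx hx0 (by linarith)
        exact ⟨e, he1, he2, fun y hy => by rw [he3 y hy, neg_zero]⟩)
      (by show -(_ - _) ≤ (0:ℝ); linarith)
    have h6 : -(m 2 - m 0 * ff (m 1 / m 0)) ≤ 0 := this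
    linarith
  · intro y hy he hc
    refine hcond.sw h0 h2 _ (hcomp y hy) ?_ ⟨?_, ?_⟩
    · show ε * y 0 + r 0 = _
      rw [hd, he]
    · show ε * y 1 + r 1 < _
      rw [hd]
      have := mul_lt_mul_of_pos_left hc.1 hε
      linarith
    · show ε * y 2 + r 2 < _
      rw [hd]
      have := mul_lt_mul_of_pos_left hc.2 hε
      linarith
  · intro y hy he hc
    refine hcond.se h0 h2 _ (hcomp y hy) ?_ ⟨?_, ?_⟩
    · show ε * y 0 + r 0 = _
      rw [hd, he]
    · show _ < ε * y 1 + r 1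
      rw [hd]
      have := mul_lt_mul_of_pos_left hc.1 hε
      linarith
    · show ε * y 2 + r 2 < _
      rw [hd]
      have := mul_lt_mul_of_pos_left hc.2 hε
      linarith
  · intro y hy he hc
    refine hcond.nw h0 h2 _ (hcomp y hy) ?_ ⟨?_, ?_⟩
    · show ε * y 0 + r 0 = _
      rw [hd, he]
    · show ε * y 1 + r 1 < _
      rw [hd]
      have := mul_lt_mul_of_pos_left hc.1 hε
      linarith
    · show _ < ε * y 2 + r 2
      rw [hd]
      have := mul_lt_mul_of_pos_left hc.2 hε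
      linarith
  · intro y hy he hc
    refine hcond.ne h0 h2 _ (hcomp y hy) ?_ ⟨?_, ?_⟩
    · show ε * y 0 + r 0 = _
      rw [hd, he]
    · show _ < ε * y 1 + r 1
      rw [hd]
      have := mul_lt_mul_of_pos_left hc.1 hε
      linarith
    · show _ < ε * y 2 + r 2
      rw [hd]
      have := mul_lt_mul_of_pos_left hc.2 hε
      linarith

end H6BW
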