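import Pool.Agent.Work.MP_6237c7_co.BW.Defs

/-! MP_6237c7_co, BW: CORE (bounded heights and multiplicities over a fixed base fan). -/

set_option autoImplicit false

namespace H6BW

open Finsupp H79KMW

section
variable {m n : ℕ}

lemma core_smul_mulVec (A : Matrix (Fin m) (Fin n) ℤ) (k : ℤ) (x : Fin n → ℤ) :
    A.mulVec (k • x) = k • A.mulVec x := Matrix.mulVec_smul A k x

lemma core_inj_of_dt {f : Fin n → Fin n → ℤ} (h : dt f ≠ 0) : Function.Injective f := by
  by_contra hf
  exact h (dt_eq_zero hf)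

/-- three of the same colour, or two pairs of different colours -/
lemma core_pigeon {α β : Type*} [DecidableEq α] [DecidableEq β] (s : Finset α) (φ : α → β)
    (h : (s.image φ).card + 2 ≤ s.card) :
    (∃ x ∈ s, ∃ y ∈ s, ∃ z ∈ s, x ≠ y ∧ y ≠ z ∧ x ≠ z ∧ φ x = φ y ∧ φ x = φ z) ∨
    (∃ x ∈ s, ∃ y ∈ s, ∃ z ∈ s, ∃ w ∈ s, x ≠ y ∧ z ≠ w ∧ φ x = φ y ∧ φ z = φ w ∧ φ x ≠ φ z) := by
  have h1 : (s.image φ).card < s.card := by omega
  obtain ⟨x, hx, y, hy, hxy, hφ⟩ := Finset.exists_ne_map_eq_of_card_lt_of_maps_to h1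
    (fun a ha => Finset.mem_coe.2 (Finset.mem_image_of_mem φ (Finset.mem_coe.1 ha)))
  have h2 : (s.image φ).card < (s.erase y).card := by
    rw [Finset.card_erase_of_mem hy]; omega
  obtain ⟨z, hz, w, hw, hzw, hφ'⟩ := Finset.exists_ne_map_eq_of_card_lt_of_maps_to h2
    (fun a ha => Finset.mem_coe.2 (Finset.mem_image_of_mem φ (Finset.mem_of_mem_erase (Finset.mem_coe.1 ha))))
  have hz1 := Finset.mem_of_mem_erase hz
  have hw1 := Finset.mem_of_mem_erase hw
  have hz2 := Finset.ne_of_mem_erase hz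
  have hw2 := Finset.ne_of_mem_erase hw
  by_cases hc : φ x = φ z
  · left
    by_cases hxz : x = z
    · refine ⟨x, hx, y, hy, w, hw1, hxy, Ne.symm hw2, ?_, hφ, ?_⟩
      · rw [hxz]; exact hzw
      · rw [hc, hφ']
    · refine ⟨x, hx, y, hy, z, hz1, hxy, Ne.symm hz2, hxz, hφ, hc⟩
  · right
    exact ⟨x, hx, y, hy, z, hz1, w, hw1, hxy, hzw, hφ, hφ', hc⟩

lemma core_card4 {K : Set (Finset (Fin n → ℤ))} {q : Finset (Fin n → ℤ)} (hq : q.card ≤ 4)
    (hK : IsCx id K) (hs : supp id K = coneOf q) {t : Finset (Fin n → ℤ)} (ht : t ∈ K) :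
    t.card ≤ 4 := by
  classical
  have hli := hK.linInd ht
  have hmem : ∀ x : t, rv (x : Fin n → ℤ) ∈
      Submodule.span ℝ (((q.image rv : Finset (Fin n → ℝ)) : Set (Fin n → ℝ))) := by
    intro x
    have h1 : rv (x : Fin n → ℤ) ∈ supp id K := by
      refine ⟨single (x : Fin n → ℤ) 1, ⟨?_, ?_⟩, ?_⟩
      · intro z; rw [Finsupp.single_apply]; split_ifs <;> norm_num
      · rw [Finsupp.support_single _ one_ne_zero]
        exact hK.down t ht _ (by simp)
      · rw [lc_single, one_smul]; rfl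
    rw [hs] at h1
    obtain ⟨a, _, ha, hax⟩ := h1
    rw [← hax, lc, Finsupp.linearCombination_apply, Finsupp.sum]
    refine Submodule.sum_mem _ fun y hy => Submodule.smul_mem _ _ (Submodule.subset_span ?_)
    exact Finset.mem_coe.2 (Finset.mem_image_of_mem _ (ha hy))
  have h2 : Submodule.span ℝ (Set.range (fun x : t => rv (id (x : Fin n → ℤ)))) ≤
      Submodule.span ℝ (((q.image rv : Finset (Fin n → ℝ)) : Set (Fin n → ℝ))) := by
    rw [Submodule.span_le]
    rintro _ ⟨x, rfl⟩
    exact hmem x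
  have h3 := Submodule.finrank_mono h2
  have h4 := finrank_span_eq_card hli
  rw [h4, Fintype.card_coe] at h3
  have h5 := finrank_span_finset_le_card (R := ℝ) (q.image (rv : (Fin n → ℤ) → (Fin n → ℝ)))
  unfold Set.finrank at h5
  have h6 : (q.image (rv : (Fin n → ℤ) → (Fin n → ℝ))).card ≤ q.card := Finset.card_image_le
  omega

end

theorem core (hSA : S_STARALL) (hFF : S_FINF) (hR : S_REPL) (hL : S_LOCAL) (hU : S_UNB)
    (hT : S_TRI) (hQ : S_QUAD) (hD : S_DETB) (hB : S_BDL) : S_CORE := by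
  classical
  intro m Δ hΔ hht
  obtain ⟨V, hV1, hMBΔ⟩ := exists_MB hΔ
  set D : ℕ := ⌈V⌉₊ with hDdef
  have hDV : V ≤ (D : ℝ) := Nat.le_ceil V
  have hD1 : 1 ≤ D := by
    have : (1 : ℝ) ≤ (D : ℝ) := hV1.trans hDV
    exact_mod_cast this
  have hDb : ∀ s ∈ Δ, ∀ f : Fin (m + 1) → Fin (m + 1) → ℤ, (∀ i, f i ∈ s) → |dt f| ≤ (D : ℤ) := by
    intro s hs f hf
    have := (hMBΔ s hs f hf).trans hDV
    have h1 : ((|dt f| : ℤ) : ℝ) ≤ ((D : ℤ) : ℝ) := by
      push_cast; exact this
    exact_mod_cast h1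
  obtain ⟨g0, hg0⟩ : ∃ g0 : ℕ, ∀ s ∈ Δ, ∀ x ∈ s, x 0 ≤ (g0 : ℤ) := by
    refine ⟨((hΔ.fin.toFinset.biUnion id).sup (fun x => (x 0).toNat)), fun s hs x hx => ?_⟩
    have h1 : x ∈ hΔ.fin.toFinset.biUnion id := by
      rw [Finset.mem_biUnion]
      exact ⟨s, (Set.Finite.mem_toFinset _).2 hs, hx⟩
    have h2 := Finset.le_sup (f := fun x : Fin (m + 1) → ℤ => (x 0).toNat) h1
    have h3 := Int.self_le_toNat (x 0)
    refine h3.trans ?_
    exact_mod_cast h2
  refine ⟨4 * g0 + 4, (((2 * D : ℕ) : ℝ)) ^ (m + 3), by omega, ?_, ?_⟩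
  · refine one_le_pow₀ ?_
    have : 1 ≤ 2 * D := by omega
    exact_mod_cast this
  intro A K hrk hA0 hK hov
  -- saturation
  obtain ⟨K1, hK1, hs1, hov1, hM1, -, -⟩ := hSA (m + 1) (m + 3) A Δ K
    (hFF (m + 1) (m + 3) A Δ K hΔ hK hov).toFinset hΔ hK hov (fun x hx => by
      have := (Set.Finite.mem_toFinset _).1 hx
      exact this)
  have hSat : Sat A Δ K1 := by
    refine ⟨hΔ, hK1, hov1, by rw [hrk], fun x hx hx' => hM1 x ?_⟩
    rw [Set.Finite.mem_toFinset]
    rw [hs1] at hx
    exact ⟨hx, hx'⟩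
  -- local fans
  have hloc : ∀ q : Finset (Fin (m + 3) → ℤ), ∃ F : Set (Finset (Fin (m + 3) → ℤ)),
      ∀ (v : Fin 4 → Fin (m + 3) → ℤ) (u : Fin (m + 3) → ℤ) (N c c' : ℤ),
      q = Finset.univ.image v → Bad A K1 v u N c c' →
      ∃ (v : Fin 4 → Fin (m + 3) → ℤ) (u : Fin (m + 3) → ℤ) (N c c' : ℤ),
      q = Finset.univ.image v ∧ Bad A K1 v u N c c' ∧ IsCx id F ∧
      supp id F = coneOf (Finset.univ.image v) ∧
      Finset.univ.image v ∉ F ∧
      (∀ t : Finset (Fin (m + 3) → ℤ), t ⊆ Finset.univ.image v → t ≠ Finset.univ.image v → t ∈ F) ∧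
      (∀ s ∈ F, ∀ x ∈ s, x ∈ Finset.univ.image v ∨
        ∃ X Y : ℤ, 0 < X ∧ X < 2 * N ∧ 0 < Y ∧ Y < 2 * N ∧
          N • x = (2 * N - X) • v 0 + X • v 1 + (2 * N - Y) • v 2 + Y • v 3) ∧
      (∀ s ∈ F, s.card = 4 →
        (2 : ℤ) • u ∈ Submodule.span ℤ (s : Set (Fin (m + 3) → ℤ)) ∧
        ∀ i, (2 : ℤ) • v i ∈ Submodule.span ℤ (s : Set (Fin (m + 3) → ℤ))) := by
    intro q
    by_cases hq : ∃ (v : Fin 4 → Fin (m + 3) → ℤ) (u : Fin (m + 3) → ℤ) (N c c' : ℤ),
        q = Finset.univ.image v ∧ Bad A K1 v u N c c'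
    · obtain ⟨v, u, N, c, c', hqv, hb⟩ := hq
      have hli : LinearIndependent ℝ (fun i => rv (v i)) := by
        have h1 := hK1.linInd hb.mem
        have h2 := h1.comp (fun i : Fin 4 => (⟨v i, Finset.mem_image_of_mem v (Finset.mem_univ i)⟩ :
          (Finset.univ.image v : Finset (Fin (m + 3) → ℤ)))) (fun i j hij => by
            have := congrArg Subtype.val hij
            exact hb.inj this)
        exact h2
      obtain ⟨F, hF⟩ := hL (m + 3) v u N c c' hli hb.hN hb.hc hb.hu
      exact ⟨F, fun _ _ _ _ _ _ _ => ⟨v, u, N, c, c', hqv, hb, hF⟩⟩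
    · refine ⟨∅, fun v u N c c' hqv hb => absurd ⟨v, u, N, c, c', hqv, hb⟩ hq⟩
  choose F hF using hloc
  let Q : Set (Finset (Fin (m + 3) → ℤ)) := {q | ∃ (v : Fin 4 → Fin (m + 3) → ℤ)
    (u : Fin (m + 3) → ℤ) (N c c' : ℤ), q = Finset.univ.image v ∧ Bad A K1 v u N c c'}
  have hF' : ∀ q ∈ Q, ∃ (v : Fin 4 → Fin (m + 3) → ℤ) (u : Fin (m + 3) → ℤ) (N c c' : ℤ),
      q = Finset.univ.image v ∧ Bad A K1 v u N c c' ∧ IsCx id (F q) ∧
      supp id (F q) = coneOf (Finset.univ.image v) ∧
      Finset.univ.image v ∉ F q ∧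
      (∀ t : Finset (Fin (m + 3) → ℤ), t ⊆ Finset.univ.image v → t ≠ Finset.univ.image v →
        t ∈ F q) ∧
      (∀ s ∈ F q, ∀ x ∈ s, x ∈ Finset.univ.image v ∨
        ∃ X Y : ℤ, 0 < X ∧ X < 2 * N ∧ 0 < Y ∧ Y < 2 * N ∧
          N • x = (2 * N - X) • v 0 + X • v 1 + (2 * N - Y) • v 2 + Y • v 3) ∧
      (∀ s ∈ F q, s.card = 4 →
        (2 : ℤ) • u ∈ Submodule.span ℤ (s : Set (Fin (m + 3) → ℤ)) ∧
        ∀ i, (2 : ℤ) • v i ∈ Submodule.span ℤ (s : Set (Fin (m + 3) → ℤ))) := by
    rintro q ⟨v, u, N, c, c', hqv, hb⟩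
    exact hF q v u N c c' hqv hb
  have hQK : Q ⊆ K1 := by
    rintro q ⟨v, u, N, c, c', hqv, hb⟩
    rw [hqv]; exact hb.mem
  have hint : ∀ q ∈ Q, ∀ t ∈ F q, ∀ x ∈ t, x ∉ q → ∃ a : (Fin (m + 3) → ℤ) →₀ ℝ, (∀ y, 0 ≤ a y) ∧
      a.support = q ∧ lc id a = rv x := by
    intro q hq t ht x hx hxq
    obtain ⟨v, u, N, c, c', hqv, hb, -, -, -, -, hray, -⟩ := hF' q hq
    rcases hray t ht x hx with h | ⟨X, Y, hX0, hX1, hY0, hY1, hN⟩
    · rw [hqv] at hxq; exact absurd h hxq
    have hN0 : (0:ℝ) < (N : ℝ) := by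
      have := hb.hN
      exact_mod_cast (by omega : (0:ℤ) < N)
    let co : Fin 4 → ℝ := ![(2 * N - X : ℝ) / N, (X : ℝ) / N, (2 * N - Y : ℝ) / N, (Y : ℝ) / N]
    have hco : ∀ i, 0 < co i := by
      have hX0' : (0:ℝ) < X := by exact_mod_cast hX0
      have hY0' : (0:ℝ) < Y := by exact_mod_cast hY0
      have hX1' : (X:ℝ) < 2 * N := by exact_mod_cast hX1
      have hY1' : (Y:ℝ) < 2 * N := by exact_mod_cast hY1
      intro i
      fin_cases i
      · exact div_pos (by linarith) hN0
      · exact div_pos hX0' hN0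
      · exact div_pos (by linarith) hN0
      · exact div_pos hY0' hN0
    have hval : ∀ j, (∑ i, single (v i) (co i)) (v j) = co j := by
      intro j
      rw [Finsupp.finsetSum_apply, Finset.sum_eq_single j]
      · rw [Finsupp.single_eq_same]
      · intro i _ hij
        rw [Finsupp.single_apply, if_neg]
        exact fun h => hij (hb.inj h)
      · intro h; exact absurd (Finset.mem_univ _) h
    refine ⟨∑ i, single (v i) (co i), fun y => ?_, ?_, ?_⟩
    · rw [Finsupp.finsetSum_apply]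
      refine Finset.sum_nonneg fun i _ => ?_
      rw [Finsupp.single_apply]
      split_ifs
      · exact (hco i).le
      · exact le_rfl
    · apply Finset.Subset.antisymm
      · refine (Finsupp.support_finsetSum).trans ?_
        intro z hz
        rw [Finset.mem_biUnion] at hz
        obtain ⟨i, _, hi⟩ := hz
        have := Finsupp.support_single_subset hi
        rw [Finset.mem_singleton] at this
        rw [this, hqv]
        exact Finset.mem_image_of_mem v (Finset.mem_univ i)
      · intro z hz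
        rw [hqv, Finset.mem_image] at hz
        obtain ⟨j, _, rfl⟩ := hz
        rw [Finsupp.mem_support_iff, hval]
        exact (hco j).ne'
    · rw [map_sum]
      funext k
      rw [Finset.sum_apply, Fin.sum_univ_four]
      simp only [lc_single, Pi.smul_apply, smul_eq_mul, id]
      have h1 := congrFun hN k
      simp only [Pi.add_apply, Pi.smul_apply, smul_eq_mul] at h1
      have h2 : (N : ℝ) * (x k : ℝ) = (2 * N - X) * (v 0 k : ℝ) + X * (v 1 k : ℝ) +
          (2 * N - Y) * (v 2 k : ℝ) + Y * (v 3 k : ℝ) := by exact_mod_cast h1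
      show (2 * N - X : ℝ) / N * (v 0 k : ℝ) + (X : ℝ) / N * (v 1 k : ℝ) +
        (2 * N - Y : ℝ) / N * (v 2 k : ℝ) + (Y : ℝ) / N * (v 3 k : ℝ) = (x k : ℝ)
      field_simp
      linarith
  obtain ⟨hK2, hs2⟩ := hR (m + 3) K1 Q F hK1 hQK
    (by
      rintro s hs q ⟨v, u, N, c, c', hqv, hb⟩ q' ⟨v', u', N', c₁, c₁', hqv', hb'⟩ hqs hqs'
      rw [hqv, hqv']
      rw [hqv] at hqs
      rw [hqv'] at hqs'
      exact hU (m + 1) (m + 3) A Δ K1 hSat s hs v v' u u' N c c' N' c₁ c₁' hb hb' hqs hqs')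
    (by
      intro q hq
      obtain ⟨v, u, N, c, c', hqv, hb, h1, -⟩ := hF' q hq
      exact h1)
    (by
      intro q hq
      obtain ⟨v, u, N, c, c', hqv, hb, -, h1, -⟩ := hF' q hq
      rw [hqv] at h1 ⊢
      exact h1)
    (by
      intro q hq
      obtain ⟨v, u, N, c, c', hqv, hb, -, -, h1, -⟩ := hF' q hq
      rw [← hqv] at h1
      exact h1)
    (by
      intro q hq t ht ht'
      obtain ⟨v, u, N, c, c', hqv, hb, -, -, -, h1, -⟩ := hF' q hq
      rw [← hqv] at h1
      exact h1 t ht ht')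
    hint
  refine ⟨replFan K1 Q F, hK2, hs2.trans hs1, ?_, ?_⟩
  · -- heights
    have hold : ∀ s ∈ K1, ∀ x ∈ s, 1 ≤ x 0 ∧ x 0 ≤ (g0 : ℤ) := by
      intro s hs x hx
      have h1 : A.mulVec x ∈ s.image (fun x => A.mulVec x) := Finset.mem_image_of_mem _ hx
      have h2 := hht _ (hov1 s hs) _ h1
      have h3 := hg0 _ (hov1 s hs) _ h1
      rw [hA0] at h2 h3
      exact ⟨h2, h3⟩
    have hbound : ∀ x : Fin (m + 3) → ℤ, (1 ≤ x 0 ∧ x 0 ≤ (g0 : ℤ)) →
        1 ≤ x 0 ∧ x 0 ≤ ((4 * g0 + 4 : ℕ) : ℤ) := by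
      intro x hx
      push_cast
      omega
    rintro s (⟨hs, -⟩ | ⟨q, hq, t, ht, r, -, hqr, rfl⟩) x hx
    · exact hbound x (hold s hs x hx)
    · rw [Finset.mem_union] at hx
      rcases hx with hx | hx
      · obtain ⟨v, u, N, c, c', hqv, hb, -, -, -, -, hray, -⟩ := hF' q hq
        rcases hray t ht x hx with h | ⟨X, Y, hX0, hX1, hY0, hY1, hN⟩
        · exact hbound x (hold _ (hQK hq) x (by rw [hqv]; exact h))
        · have h0 := hold _ (hQK hq) (v 0) (by
            rw [hqv]; exact Finset.mem_image_of_mem v (Finset.mem_univ _))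
          have h2 := hold _ (hQK hq) (v 2) (by
            rw [hqv]; exact Finset.mem_image_of_mem v (Finset.mem_univ _))
          have e01 : v 0 0 = v 1 0 := by
            have := congrFun hb.b01 0
            rwa [hA0, hA0] at this
          have e23 : v 2 0 = v 3 0 := by
            have := congrFun hb.b23 0
            rwa [hA0, hA0] at this
          have h3 := congrFun hN 0
          simp only [Pi.add_apply, Pi.smul_apply, smul_eq_mul] at h3
          rw [← e01, ← e23] at h3
          have h4 : N * x 0 = N * (2 * v 0 0 + 2 * v 2 0) := by rw [h3]; ring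
          have hN0 : N ≠ 0 := by have := hb.hN; omega
          have h5 := mul_left_cancel₀ hN0 h4
          push_cast
          omega
      · exact hbound x (hold _ hqr x (Finset.mem_union_right _ hx))
  · -- multiplicities
    intro s hs f hf
    by_cases h0 : dt f = 0
    · rw [h0]; simp
    have hinj := core_inj_of_dt h0
    have himg : Finset.univ.image f ⊆ s := by
      intro x hx
      obtain ⟨i, _, rfl⟩ := Finset.mem_image.1 hx
      exact hf i
    have hcimg : (Finset.univ.image f).card = m + 3 := by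
      rw [Finset.card_image_of_injective _ hinj, Finset.card_univ, Fintype.card_fin]
    have hsc : s.card = m + 3 := by
      exact le_antisymm (hK2.card_le hs) (hcimg.symm.le.trans (Finset.card_le_card himg))
    have hsf : s = Finset.univ.image f := by
      symm
      exact Finset.eq_of_subset_of_card_le himg (by rw [hcimg, hsc])
    have hrange : Set.range f = (s : Set (Fin (m + 3) → ℤ)) := by
      rw [hsf, Finset.coe_image, Finset.coe_univ, Set.image_univ]
    suffices hfin : ∃ D' : ℕ, 0 < D' ∧ D' ≤ D ∧ ∀ x : Fin (m + 3) → ℤ,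
        (2 * (D' : ℤ)) • x ∈ Submodule.span ℤ (s : Set (Fin (m + 3) → ℤ)) by
      obtain ⟨D', hD'0, hD'D, hD'⟩ := hfin
      have h1 := hD (m + 3) f (2 * D') (by omega) (fun x => by
        rw [hrange]
        have := hD' x
        push_cast
        exact this)
      have h2 : ((|dt f| : ℤ) : ℝ) ≤ (((2 * D' : ℕ) : ℤ) ^ (m + 3) : ℤ) := by exact_mod_cast h1
      rw [Int.cast_abs] at h2
      refine h2.trans ?_
      have h3 : (2 * D') ^ (m + 3) ≤ (2 * D) ^ (m + 3) := Nat.pow_le_pow_left (by omega) _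
      exact_mod_cast h3
    rcases hs with ⟨hs, hnb⟩ | ⟨q, hq, t, ht, r, hdis, hqr, hst⟩
    · -- no bad quadruple
      refine hB m A Δ K1 D hSat hDb s hs hsc _
        (fun x hx => Submodule.smul_mem _ _ (Submodule.subset_span (Finset.mem_coe.2 hx))) ?_
      intro r hr
      refine Submodule.smul_mem _ _ ?_
      have hsub : ∀ x ∈ s, x ∈ Submodule.span ℤ (s : Set (Fin (m + 3) → ℤ)) := fun x hx =>
        Submodule.subset_span (Finset.mem_coe.2 hx)
      have hcard : (s.image (fun x => A.mulVec x)).card + 2 ≤ s.card := by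
        have := hΔ.card_le (hov1 s hs)
        omega
      rcases core_pigeon s (fun x => A.mulVec x) hcard with
        ⟨x, hx, y, hy, z, hz, hxy, hyz, hxz, e1, e2⟩ |
        ⟨x, hx, y, hy, z, hz, w, hw, hxy, hzw, e1, e2, e3⟩
      · have h1 := hT (m + 1) (m + 3) A Δ K1 hSat x y z (hK1.down s hs _ (by
          intro a ha
          simp only [Finset.mem_insert, Finset.mem_singleton] at ha
          rcases ha with rfl | rfl | rfl <;> assumption)) hxy hyz hxz e1 e2 r hr
        refine (Submodule.span_le.2 ?_) h1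
        rintro a (rfl | rfl)
        · exact Submodule.sub_mem _ (hsub _ hy) (hsub _ hx)
        · exact Submodule.sub_mem _ (hsub _ hz) (hsub _ hx)
      · have hxz : x ≠ z := fun h => e3 (by rw [h])
        have hxw : x ≠ w := fun h => e3 (by rw [h]; exact e2.symm)
        have hyz : y ≠ z := fun h => e3 (by rw [e1, h])
        have hyw : y ≠ w := fun h => e3 (by rw [e1, h]; exact e2.symm)
        have hinjv : Function.Injective (![x, y, z, w] : Fin 4 → Fin (m + 3) → ℤ) := by
          intro i j hij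
          fin_cases i <;> fin_cases j <;>
            simp only [Fin.zero_eta, Fin.mk_one, Fin.reduceFinMk, Matrix.cons_val] at hij ⊢ <;>
            first
              | rfl
              | exact absurd hij hxy
              | exact absurd hij.symm hxy
              | exact absurd hij hxz
              | exact absurd hij.symm hxz
              | exact absurd hij hxw
              | exact absurd hij.symm hxw
              | exact absurd hij hyz
              | exact absurd hij.symm hyz
              | exact absurd hij hyw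
              | exact absurd hij.symm hyw
              | exact absurd hij hzw
              | exact absurd hij.symm hzw
        have himv : Finset.univ.image (![x, y, z, w] : Fin 4 → Fin (m + 3) → ℤ) ⊆ s := by
          intro a ha
          obtain ⟨i, _, rfl⟩ := Finset.mem_image.1 ha
          fin_cases i
          · exact hx
          · exact hy
          · exact hz
          · exact hw
        rcases hQ (m + 1) (m + 3) A Δ K1 hSat ![x, y, z, w] (hK1.down s hs _ himv) hinjv e1 e2 e3
          with h1 | ⟨u, N, c, c', hb⟩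
        · refine (Submodule.span_le.2 ?_) (h1 r hr)
          rintro a (rfl | rfl)
          · exact Submodule.sub_mem _ (hsub _ hy) (hsub _ hx)
          · exact Submodule.sub_mem _ (hsub _ hw) (hsub _ hz)
        · exact absurd himv (hnb _ ⟨_, u, N, c, c', rfl, hb⟩)
    · -- refined face
      obtain ⟨v, u, N, c, c', hqv, hb, hFq, hsF, -, -, -, hgen⟩ := hF' q hq
      have hq4 : q.card = 4 := by
        rw [hqv, Finset.card_image_of_injective _ hb.inj, Finset.card_univ, Fintype.card_fin]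
      have ht4 : t.card ≤ 4 := core_card4 hq4.le hFq (by rw [hsF, hqv]) ht
      have hqr4 : (q ∪ r).card = 4 + r.card := by
        rw [Finset.card_union_of_disjoint hdis, hq4]
      have hqr5 := hK1.card_le hqr
      have htr : s.card ≤ t.card + r.card := by rw [hst]; exact Finset.card_union_le _ _
      have ht4' : t.card = 4 := by omega
      have hqr6 : (q ∪ r).card = m + 3 := by omega
      obtain ⟨hu2, hv2⟩ := hgen t ht ht4'
      have htS : Submodule.span ℤ (t : Set (Fin (m + 3) → ℤ)) ≤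
          Submodule.span ℤ (s : Set (Fin (m + 3) → ℤ)) := by
        refine Submodule.span_mono ?_
        rw [hst, Finset.coe_union]
        exact Set.subset_union_left
      have hu3 := htS hu2
      have hv3 : ∀ i, (2 : ℤ) • v i ∈ Submodule.span ℤ (s : Set (Fin (m + 3) → ℤ)) :=
        fun i => htS (hv2 i)
      refine hB m A Δ K1 D hSat hDb (q ∪ r) hqr hqr6 _ ?_ ?_
      · intro x hx
        rw [Finset.mem_union] at hx
        rcases hx with hx | hx
        · rw [hqv, Finset.mem_image] at hx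
          obtain ⟨i, _, rfl⟩ := hx
          exact hv3 i
        · refine Submodule.smul_mem _ _ (Submodule.subset_span ?_)
          rw [hst, Finset.coe_union]
          exact Or.inr (Finset.mem_coe.2 hx)
      · intro x hx
        have h1 := hb.gen x hx
        have h2 : (Submodule.span ℤ ({u, v 1 - v 0, v 3 - v 2} : Set (Fin (m + 3) → ℤ))) ≤
            (Submodule.span ℤ (s : Set (Fin (m + 3) → ℤ))).comap
              (LinearMap.lsmul ℤ (Fin (m + 3) → ℤ) 2) := by
          rw [Submodule.span_le]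
          have key : ∀ a : Fin (m + 3) → ℤ, a ∈ ({u, v 1 - v 0, v 3 - v 2} :
              Set (Fin (m + 3) → ℤ)) → (2 : ℤ) • a ∈
              Submodule.span ℤ (s : Set (Fin (m + 3) → ℤ)) := by
            intro a ha
            rcases ha with ha | ha | ha
            · rw [ha]; exact hu3
            · rw [ha, smul_sub]
              exact Submodule.sub_mem _ (hv3 1) (hv3 0)
            · rw [Set.mem_singleton_iff] at ha
              rw [ha, smul_sub]
              exact Submodule.sub_mem _ (hv3 3) (hv3 2)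
          intro a ha
          exact key a ha
        exact h2 h1

end H6BW
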