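import Pool.Agent.Work.MP_6237c7_co.BW.Defs

/-! CUT: refine a fan so that no face crosses the hyperplanes of finitely many functionals. -/

set_option autoImplicit false

namespace H6BW

open Finsupp H79KMW

section
variable {m : ℕ}

/-- value of a functional -/
private def cutEv (h x : Fin (m + 1) → ℤ) : ℤ := ∑ i, h i * x i

private lemma cutEv_comb (h u v : Fin (m + 1) → ℤ) (a b : ℤ) :
    cutEv h (a • u + b • v) = a * cutEv h u + b * cutEv h v := by
  simp only [cutEv, Finset.mul_sum, ← Finset.sum_add_distrib]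
  refine Finset.sum_congr rfl fun i _ => ?_
  simp only [Pi.add_apply, Pi.smul_apply, smul_eq_mul]
  ring

/-- no face crosses the hyperplane -/
private def cutNC (h : Fin (m + 1) → ℤ) (K : Set (Finset (Fin (m + 1) → ℤ))) : Prop :=
  ∀ s ∈ K, ∀ x ∈ s, ∀ y ∈ s, ¬ (cutEv h x < 0 ∧ 0 < cutEv h y)

/-- the crossing edges -/
private def cutE (h : Fin (m + 1) → ℤ) (K : Set (Finset (Fin (m + 1) → ℤ))) :
    Set ((Fin (m + 1) → ℤ) × (Fin (m + 1) → ℤ)) :=
  {p | (∃ s ∈ K, p.1 ∈ s ∧ p.2 ∈ s) ∧ cutEv h p.1 < 0 ∧ 0 < cutEv h p.2}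

private lemma cutE_finite (h : Fin (m + 1) → ℤ) {K : Set (Finset (Fin (m + 1) → ℤ))}
    (hK : K.Finite) : (cutE h K).Finite := by
  have h1 : (⋃ s ∈ K, ((s : Set (Fin (m + 1) → ℤ)) ×ˢ (s : Set (Fin (m + 1) → ℤ)))).Finite :=
    hK.biUnion fun s _ => (s.finite_toSet).prod (s.finite_toSet)
  refine h1.subset ?_
  rintro ⟨x, y⟩ ⟨⟨s, hs, hx, hy⟩, _⟩
  exact Set.mem_biUnion hs ⟨hx, hy⟩

/-- an edge of the fan and a positive combination of its vectors, which is not a ray -/
private lemma cut_edge {K : Set (Finset (Fin (m + 1) → ℤ))} (hK : IsCx id K)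
    {u v : Fin (m + 1) → ℤ} (huv : u ≠ v) {s : Finset (Fin (m + 1) → ℤ)} (hs : s ∈ K)
    (hu : u ∈ s) (hv : v ∈ s) {a b : ℤ} (ha : 0 < a) (hb : 0 < b) :
    ∃ l : (Fin (m + 1) → ℤ) →₀ ℝ, (∀ x, 0 ≤ l x) ∧ l ≠ 0 ∧ lc id l = rv (a • u + b • v) ∧
      (∀ x, x ∈ l.support ↔ x = u ∨ x = v) ∧ ∀ t ∈ K, a • u + b • v ∉ t := by
  classical
  have haR : (0:ℝ) < a := by exact_mod_cast ha
  have hbR : (0:ℝ) < b := by exact_mod_cast hb
  set l : (Fin (m + 1) → ℤ) →₀ ℝ := single u (a:ℝ) + single v (b:ℝ) with hl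
  have hlu : l u = a := by
    rw [hl, Finsupp.add_apply, Finsupp.single_eq_same, Finsupp.single_eq_of_ne huv, add_zero]
  have hlv : l v = b := by
    rw [hl, Finsupp.add_apply, Finsupp.single_eq_same, Finsupp.single_eq_of_ne huv.symm, zero_add]
  have hlo : ∀ x, x ≠ u → x ≠ v → l x = 0 := by
    intro x h1 h2
    rw [hl, Finsupp.add_apply, Finsupp.single_eq_of_ne h1, Finsupp.single_eq_of_ne h2, add_zero]
  have hnn : ∀ x, 0 ≤ l x := by
    intro x
    by_cases h1 : x = u
    · rw [h1, hlu]; exact haR.le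
    · by_cases h2 : x = v
      · rw [h2, hlv]; exact hbR.le
      · rw [hlo x h1 h2]
  have hsupp : ∀ x, x ∈ l.support ↔ x = u ∨ x = v := by
    intro x
    rw [Finsupp.mem_support_iff]
    constructor
    · intro h
      by_contra hne
      rw [not_or] at hne
      exact h (hlo x hne.1 hne.2)
    · rintro (rfl | rfl)
      · rw [hlu]; exact haR.ne'
      · rw [hlv]; exact hbR.ne'
  have hlc : lc id l = rv (a • u + b • v) := by
    rw [hl, map_add, lc_single, lc_single]
    funext i
    simp [rv]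
  have hmem : l ∈ body K := by
    refine ⟨hnn, hK.down s hs _ ?_⟩
    intro x hx
    rcases (hsupp x).1 hx with rfl | rfl
    · exact hu
    · exact hv
  refine ⟨l, hnn, ?_, hlc, hsupp, ?_⟩
  · intro h0
    rw [h0, Finsupp.zero_apply] at hlu
    exact haR.ne hlu
  · intro t ht hmt
    have h1 : single (a • u + b • v) (1:ℝ) ∈ body K := by
      refine ⟨?_, ?_⟩
      · intro z; rw [Finsupp.single_apply]; split_ifs <;> norm_num
      · rw [Finsupp.support_single _ one_ne_zero]; exact hK.down t ht _ (by simpa using hmt)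
    have h2 : l = single (a • u + b • v) 1 :=
      hK.inj hmem h1 (by rw [hlc, lc_single, one_smul]; rfl)
    have h3 : u = a • u + b • v := by
      by_contra hne
      rw [h2, Finsupp.single_eq_of_ne hne] at hlu
      exact haR.ne hlu
    have h4 : v = a • u + b • v := by
      by_contra hne
      rw [h2, Finsupp.single_eq_of_ne hne] at hlv
      exact hbR.ne hlv
    exact huv (h3.trans h4.symm)

private lemma cut_step (hstar : S_STAR2) (h : Fin (m + 1) → ℤ) (H : Finset (Fin (m + 1) → ℤ)) :
    ∀ (N : ℕ) (K : Set (Finset (Fin (m + 1) → ℤ))), IsCx id K →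
      (∀ s ∈ K, ∀ x ∈ s, 1 ≤ x 0) → (∀ h' ∈ H, cutNC h' K) → (cutE h K).ncard ≤ N →
      ∃ K' : Set (Finset (Fin (m + 1) → ℤ)), IsCx id K' ∧ supp id K' = supp id K ∧
        (∀ s ∈ K', ∀ x ∈ s, 1 ≤ x 0) ∧ cutNC h K' ∧ ∀ h' ∈ H, cutNC h' K' := by
  classical
  intro N
  induction N with
  | zero =>
    intro K hK hht hH hN
    refine ⟨K, hK, rfl, hht, ?_, hH⟩
    intro s hs x hx y hy hxy
    have h1 : (cutE h K).ncard = 0 := Nat.le_zero.1 hN
    rw [Set.ncard_eq_zero (cutE_finite h hK.fin)] at h1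
    have h2 : (x, y) ∈ cutE h K := ⟨⟨s, hs, hx, hy⟩, hxy⟩
    rw [h1] at h2
    exact h2
  | succ N ih =>
    intro K hK hht hH hN
    by_cases hnc : cutNC h K
    · exact ⟨K, hK, rfl, hht, hnc, hH⟩
    · unfold cutNC at hnc
      push_neg at hnc
      obtain ⟨s, hs, u, hu, v, hv, hu0, hv0⟩ := hnc
      have huv : u ≠ v := by
        rintro rfl
        exact absurd hu0 (not_lt.2 hv0.le)
      set a : ℤ := cutEv h v with ha
      set b : ℤ := -cutEv h u with hb
      have hb0 : 0 < b := by rw [hb]; linarith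
      obtain ⟨l, hl0, hlne, hlc, hls, hmK⟩ := cut_edge hK huv hs hu hv hv0 hb0
      obtain ⟨h1, h2⟩ := hstar (m + 1) K l (a • u + b • v) hK hl0 hlne hlc hmK
      have hm0 : cutEv h (a • u + b • v) = 0 := by
        rw [cutEv_comb, ha, hb]; ring
      have hui : u ∈ l.support := (hls u).2 (Or.inl rfl)
      have hvi : v ∈ l.support := (hls v).2 (Or.inr rfl)
      have hE : cutE h (star K l.support (a • u + b • v)) ⊆ cutE h K \ {(u, v)} := by
        rintro ⟨x, y⟩ ⟨⟨t, ht, hx, hy⟩, hx0, hy0⟩
        simp only at hx hy hx0 hy0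
        have hxm : x ≠ a • u + b • v := by
          rintro rfl
          rw [hm0] at hx0
          exact lt_irrefl _ hx0
        have hym : y ≠ a • u + b • v := by
          rintro rfl
          rw [hm0] at hy0
          exact lt_irrefl _ hy0
        obtain ⟨t', ht', hxt, hyt, hnt⟩ : ∃ t' ∈ K, x ∈ t' ∧ y ∈ t' ∧ ¬ l.support ⊆ t' := by
          rcases ht with ⟨h3, h4⟩ | ⟨t', ht', h4, _, h5⟩
          · exact ⟨t, h3, hx, hy, h4⟩
          · refine ⟨t', ht', ?_, ?_, h4⟩
            · have : x ∈ (t : Set (Fin (m + 1) → ℤ)) := hx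
              rw [h5] at this
              exact Finset.mem_coe.1 (this.resolve_left hxm)
            · have : y ∈ (t : Set (Fin (m + 1) → ℤ)) := hy
              rw [h5] at this
              exact Finset.mem_coe.1 (this.resolve_left hym)
        refine ⟨⟨⟨t', ht', hxt, hyt⟩, hx0, hy0⟩, ?_⟩
        intro he
        rw [Set.mem_singleton_iff, Prod.mk.injEq] at he
        obtain ⟨rfl, rfl⟩ := he
        apply hnt
        intro z hz
        rcases (hls z).1 hz with rfl | rfl
        · exact hxt
        · exact hyt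
      have hcard : (cutE h (star K l.support (a • u + b • v))).ncard ≤ N := by
        have h3 := Set.ncard_le_ncard hE ((cutE_finite h hK.fin).subset Set.diff_subset)
        have h4 : (u, v) ∈ cutE h K := ⟨⟨s, hs, hu, hv⟩, hu0, hv0⟩
        have h5 := Set.ncard_diff_singleton_lt_of_mem h4 (cutE_finite h hK.fin)
        omega
      have hht' : ∀ t ∈ star K l.support (a • u + b • v), ∀ x ∈ t, 1 ≤ x 0 := by
        rintro t (⟨h3, _⟩ | ⟨t', ht', _, _, h5⟩) x hx
        · exact hht t h3 x hx
        · have : x ∈ (t : Set (Fin (m + 1) → ℤ)) := hx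
          rw [h5] at this
          rcases this with rfl | h6
          · have e1 := hht s hs u hu
            have e2 := hht s hs v hv
            simp only [Pi.add_apply, Pi.smul_apply, smul_eq_mul]
            nlinarith
          · exact hht t' ht' x h6
      have hH' : ∀ h' ∈ H, cutNC h' (star K l.support (a • u + b • v)) := by
        intro h' hh'
        rintro t (⟨h3, _⟩ | ⟨t', ht', _, ⟨w, hw, htw, hlw⟩, h5⟩) x hx y hy ⟨hx0, hy0⟩
        · exact hH h' hh' t h3 x hx y hy ⟨hx0, hy0⟩
        · have hx' : x ∈ (t : Set (Fin (m + 1) → ℤ)) := hx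
          have hy' : y ∈ (t : Set (Fin (m + 1) → ℤ)) := hy
          rw [h5] at hx' hy'
          have hNC := hH h' hh' w hw
          have huw : u ∈ w := hlw hui
          have hvw : v ∈ w := hlw hvi
          rcases hx' with rfl | hx'
          · rcases hy' with rfl | hy'
            · exact absurd hx0 (not_lt.2 hy0.le)
            · -- `m` negative, `y` positive
              rw [cutEv_comb] at hx0
              have e1 : 0 ≤ cutEv h' u := by
                by_contra hc
                exact hNC u huw y (htw hy') ⟨not_le.1 hc, hy0⟩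
              have e2 : 0 ≤ cutEv h' v := by
                by_contra hc
                exact hNC v hvw y (htw hy') ⟨not_le.1 hc, hy0⟩
              have e3 := mul_nonneg hv0.le e1
              have e4 := mul_nonneg hb0.le e2
              linarith
          · rcases hy' with rfl | hy'
            · rw [cutEv_comb] at hy0
              have e1 : cutEv h' u ≤ 0 := by
                by_contra hc
                exact hNC x (htw hx') u huw ⟨hx0, not_le.1 hc⟩
              have e2 : cutEv h' v ≤ 0 := by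
                by_contra hc
                exact hNC x (htw hx') v hvw ⟨hx0, not_le.1 hc⟩
              have e3 := mul_nonneg hv0.le (neg_nonneg.2 e1)
              have e4 := mul_nonneg hb0.le (neg_nonneg.2 e2)
              linarith
            · exact hNC x (htw hx') y (htw hy') ⟨hx0, hy0⟩
      obtain ⟨K', k1, k2, k3, k4, k5⟩ := ih _ h1 hht' hH' hcard
      exact ⟨K', k1, k2.trans h2, k3, k4, k5⟩

end

theorem cut (hstar : S_STAR2) : S_CUT := by
  classical
  intro m D H hD hht
  have key : ∃ D' : Set (Finset (Fin (m + 1) → ℤ)), IsCx id D' ∧ supp id D' = supp id D ∧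
      (∀ s ∈ D', ∀ x ∈ s, 1 ≤ x 0) ∧ ∀ h ∈ H, cutNC h D' := by
    induction H using Finset.induction_on with
    | empty => exact ⟨D, hD, rfl, hht, fun h hh => absurd hh (Finset.notMem_empty h)⟩
    | insert h H _ ih =>
      obtain ⟨K, k1, k2, k3, k4⟩ := ih
      obtain ⟨K', l1, l2, l3, l4, l5⟩ := cut_step hstar h H _ K k1 k3 k4 le_rfl
      refine ⟨K', l1, l2.trans k2, l3, fun h' hh' => ?_⟩
      rcases Finset.mem_insert.1 hh' with rfl | hh'
      · exact l4
      · exact l5 h' hh'
  obtain ⟨D', k1, k2, k3, k4⟩ := key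
  exact ⟨D', k1, k2, k3, fun h hh s hs x hx y hy hxy => k4 h hh s hs x hx y hy hxy⟩

end H6BW
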