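import Pool.Agent.Work.MP_6237c7_co.Fin2

/-!
MP_6237c7_co, bounded width in all but two directions: shared definitions and the statements
`S_...` of all modules.  Every module proves one theorem `x : S_X` (taking the statements it uses
as hypotheses `(h : S_Y)`); the assembly is in `Final.lean`.
-/

set_option autoImplicit false

namespace H6BW

open Finsupp H79KMW

/-- `K` lies over the fan `Δ` via the integer matrix `A`. -/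
def Over {m n : ℕ} (A : Matrix (Fin m) (Fin n) ℤ) (Δ : Set (Finset (Fin m → ℤ)))
    (K : Set (Finset (Fin n → ℤ))) : Prop :=
  ∀ s ∈ K, s.image (fun x => A.mulVec x) ∈ Δ

/-! ### General fan operations -/

/-- Result of a flip exchanging the non-faces `Q` and `P`. -/
def flipFan {n : ℕ} (K : Set (Finset (Fin n → ℤ))) (P Q : Finset (Fin n → ℤ)) :
    Set (Finset (Fin n → ℤ)) :=
  {s | s ∈ K ∧ ¬ P ⊆ s} ∪ {s | ∃ t ∈ K, P ⊆ t ∧ ∃ x ∈ P, ∀ y ∈ s, (y ∈ t ∧ y ≠ x) ∨ y ∈ Q}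

/-- FLIP. -/
def S_FLIP : Prop :=
  ∀ (n : ℕ) (K : Set (Finset (Fin n → ℤ))) (c d : (Fin n → ℤ) →₀ ℝ), IsCx id K →
    (∀ x, 0 ≤ c x) → (∀ x, 0 ≤ d x) → Disjoint c.support d.support → c ≠ 0 → d ≠ 0 →
    lc id c = lc id d →
    (∀ s ∈ K, c.support ⊆ s → ∀ y ∈ d.support, y ∉ s → ∀ t : Finset (Fin n → ℤ),
      (∀ z ∈ t, z ∈ s ∨ (z ∈ d.support ∧ z ≠ y)) → t ∈ K) →
    IsCx id (flipFan K c.support d.support) ∧
      supp id (flipFan K c.support d.support) = supp id K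

/-- STARALL: make all lattice points over rays of the base fan vertices. -/
def S_STARALL : Prop :=
  ∀ (m n : ℕ) (A : Matrix (Fin m) (Fin n) ℤ) (Δ : Set (Finset (Fin m → ℤ)))
    (K : Set (Finset (Fin n → ℤ))) (M : Finset (Fin n → ℤ)),
    IsCx id Δ → IsCx id K → Over A Δ K →
    (∀ x ∈ M, rv x ∈ supp id K ∧ ({A.mulVec x} : Finset (Fin m → ℤ)) ∈ Δ) →
    ∃ K' : Set (Finset (Fin n → ℤ)), IsCx id K' ∧ supp id K' = supp id K ∧ Over A Δ K' ∧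
      (∀ x ∈ M, ({x} : Finset (Fin n → ℤ)) ∈ K') ∧
      (∀ x, ({x} : Finset (Fin n → ℤ)) ∈ K → ({x} : Finset (Fin n → ℤ)) ∈ K') ∧
      (∀ s ∈ K', ∀ x ∈ s, x ∈ M ∨ ({x} : Finset (Fin n → ℤ)) ∈ K)

/-- REPL: replace the faces `q ∈ Q` of `K` by the fans `F q` (unchanged boundary), joined with
the rest. -/
def replFan {n : ℕ} (K : Set (Finset (Fin n → ℤ))) (Q : Set (Finset (Fin n → ℤ)))
    (F : Finset (Fin n → ℤ) → Set (Finset (Fin n → ℤ))) : Set (Finset (Fin n → ℤ)) :=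
  {s | s ∈ K ∧ ∀ q ∈ Q, ¬ q ⊆ s} ∪
    {s | ∃ q ∈ Q, ∃ t ∈ F q, ∃ r : Finset (Fin n → ℤ), Disjoint q r ∧ q ∪ r ∈ K ∧ s = t ∪ r}

def S_REPL : Prop :=
  ∀ (n : ℕ) (K Q : Set (Finset (Fin n → ℤ)))
    (F : Finset (Fin n → ℤ) → Set (Finset (Fin n → ℤ))),
    IsCx id K → Q ⊆ K →
    (∀ s ∈ K, ∀ q ∈ Q, ∀ q' ∈ Q, q ⊆ s → q' ⊆ s → q = q') →
    (∀ q ∈ Q, IsCx id (F q)) → (∀ q ∈ Q, supp id (F q) = coneOf q) →
    (∀ q ∈ Q, q ∉ F q) → (∀ q ∈ Q, ∀ t : Finset (Fin n → ℤ), t ⊆ q → t ≠ q → t ∈ F q) →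
    (∀ q ∈ Q, ∀ t ∈ F q, ∀ x ∈ t, x ∉ q → ∃ a : (Fin n → ℤ) →₀ ℝ, (∀ y, 0 ≤ a y) ∧
      a.support = q ∧ lc id a = rv x) →
    IsCx id (replFan K Q F) ∧ supp id (replFan K Q F) = supp id K

/-! ### Planar triangulations (height-one vectors of `ℤ^3`) -/

/-- Lattice polygon: height one, all lattice points, two-dimensional. -/
structure LPoly (A : Finset (Fin 3 → ℤ)) : Prop where
  ht : ∀ x ∈ A, x 0 = 1
  full : ∀ x : Fin 3 → ℤ, x 0 = 1 → rv x ∈ coneOf A → x ∈ A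
  nondeg : ∃ x ∈ A, ∃ y ∈ A, ∃ z ∈ A, dt ![x, y, z] ≠ 0

/-- Unimodular triangulation of a lattice polygon using all its lattice points. -/
structure PTri (A : Finset (Fin 3 → ℤ)) (T : Set (Finset (Fin 3 → ℤ))) : Prop where
  cx : IsCx id T
  sub : ∀ s ∈ T, s ⊆ A
  vert : ∀ x ∈ A, ({x} : Finset (Fin 3 → ℤ)) ∈ T
  supp_eq : supp id T = coneOf A
  uni : ∀ s ∈ T, ∀ f : Fin 3 → Fin 3 → ℤ, Function.Injective f → (∀ i, f i ∈ s) → |dt f| = 1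

/-- The open segments `pq` and `uv` cross. -/
def Cross (p q u v : Fin 3 → ℤ) : Prop :=
  dt ![p, q, u] * dt ![p, q, v] < 0 ∧ dt ![u, v, p] * dt ![u, v, q] < 0

/-- `pq` is a primitive segment of `A`. -/
def Prim (A : Finset (Fin 3 → ℤ)) (p q : Fin 3 → ℤ) : Prop :=
  p ∈ A ∧ q ∈ A ∧ p ≠ q ∧ ∀ x ∈ A, rv x ∈ coneOf {p, q} → x = p ∨ x = q

/-- ADJ: an edge with a relative interior point in the interior of the polygon has triangles on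
both sides. -/
def S_ADJ : Prop :=
  ∀ (A : Finset (Fin 3 → ℤ)) (T : Set (Finset (Fin 3 → ℤ))), LPoly A → PTri A T →
    ∀ u v : Fin 3 → ℤ, u ≠ v → ({u, v} : Finset (Fin 3 → ℤ)) ∈ T →
    ∀ α β : ℝ, 0 < α → 0 < β → α • rv u + β • rv v ∈ interior (coneOf A) →
    (∃ z, ({u, v, z} : Finset (Fin 3 → ℤ)) ∈ T ∧ 0 < dt ![u, v, z]) ∧
    (∃ z, ({u, v, z} : Finset (Fin 3 → ℤ)) ∈ T ∧ dt ![u, v, z] < 0)

/-- INS: insert a primitive edge, keeping all edges which do not cross it. -/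
def S_INS : Prop :=
  ∀ (A : Finset (Fin 3 → ℤ)) (T : Set (Finset (Fin 3 → ℤ))), LPoly A → PTri A T →
    ∀ p q : Fin 3 → ℤ, Prim A p q →
    ∃ T' : Set (Finset (Fin 3 → ℤ)), PTri A T' ∧ ({p, q} : Finset (Fin 3 → ℤ)) ∈ T' ∧
      ∀ u v : Fin 3 → ℤ, ({u, v} : Finset (Fin 3 → ℤ)) ∈ T → ¬ Cross p q u v →
        ({u, v} : Finset (Fin 3 → ℤ)) ∈ T'

/-- PSTART: a unimodular triangulation exists. -/
def S_PSTART : Prop :=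
  ∀ A : Finset (Fin 3 → ℤ), LPoly A → ∃ T : Set (Finset (Fin 3 → ℤ)), PTri A T

/-- PT: constrained unimodular triangulations. -/
def S_PT : Prop :=
  ∀ A : Finset (Fin 3 → ℤ), LPoly A → ∀ E : Finset ((Fin 3 → ℤ) × (Fin 3 → ℤ)),
    (∀ e ∈ E, Prim A e.1 e.2) → (∀ e ∈ E, ∀ e' ∈ E, ¬ Cross e.1 e.2 e'.1 e'.2) →
    ∃ T : Set (Finset (Fin 3 → ℤ)), PTri A T ∧
      ∀ e ∈ E, ({e.1, e.2} : Finset (Fin 3 → ℤ)) ∈ T

/-! ### The two paths -/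

/-- abscissa of the vertex of height `j` of the `Z`-path -/
def zeta (N c' j : ℤ) : ℤ := if j < N then (c' * j) % N else N + (c' * j) % N

/-- ordinate of the vertex of abscissa `i` of the `F`-path -/
def phi (N c i : ℤ) : ℤ := if i ≤ N then N + (c * i) % N else (c * i) % N

/-- the lattice points of the open square -/
noncomputable def pts (N c : ℤ) : Finset (Fin 3 → ℤ) :=
  (((Finset.Ioo (0:ℤ) (2 * N)) ×ˢ (Finset.Ioo (0:ℤ) (2 * N))).filter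
    (fun x => N ∣ x.2 - c * x.1)).image (fun x => ![1, x.1, x.2])

/-- PLAN: the constrained triangulation in the lattice `Y ≡ c X (mod N)`. -/
def S_PLAN : Prop :=
  ∀ N c c' : ℤ, 2 ≤ N → N ∣ c * c' - 1 →
    ∃ T : Set (Finset (Fin 3 → ℤ)), IsCx id T ∧ (∀ s ∈ T, s ⊆ pts N c) ∧
      (∀ x ∈ pts N c, ({x} : Finset (Fin 3 → ℤ)) ∈ T) ∧ supp id T = coneOf (pts N c) ∧
      (∀ s ∈ T, s.card = 3 → ∀ x : Fin 3 → ℤ, N ∣ x 2 - c * x 1 →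
        x ∈ Submodule.span ℤ (s : Set (Fin 3 → ℤ))) ∧
      (∀ j : ℤ, 1 ≤ j → j ≤ 2 * N - 2 →
        ({![1, zeta N c' j, j], ![1, zeta N c' (j + 1), j + 1]} : Finset (Fin 3 → ℤ)) ∈ T) ∧
      (∀ i : ℤ, 1 ≤ i → i ≤ 2 * N - 2 →
        ({![1, i, phi N c i], ![1, i + 1, phi N c (i + 1)]} : Finset (Fin 3 → ℤ)) ∈ T)

/-! ### The four-dimensional fan: analytic part -/

/-- Planar data: the cone `MM` over the polygon and the two interpolating functions. -/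
structure PD (N : ℝ) (MM : Set (Fin 3 → ℝ)) (zf ff : ℝ → ℝ) : Prop where
  hN : 2 ≤ N
  closed : IsClosed MM
  add : ∀ x ∈ MM, ∀ y ∈ MM, x + y ∈ MM
  smul : ∀ x ∈ MM, ∀ c : ℝ, 0 ≤ c → c • x ∈ MM
  lo1 : ∀ x ∈ MM, x 0 ≤ x 1
  hi1 : ∀ x ∈ MM, x 1 ≤ (2 * N - 1) * x 0
  lo2 : ∀ x ∈ MM, x 0 ≤ x 2
  hi2 : ∀ x ∈ MM, x 2 ≤ (2 * N - 1) * x 0
  cz : Continuous zf
  cf : Continuous ff
  memz : ∀ y : ℝ, 1 ≤ y → y ≤ 2 * N - 1 → (![1, zf y, y] : Fin 3 → ℝ) ∈ MM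
  memf : ∀ x : ℝ, 1 ≤ x → x ≤ 2 * N - 1 → (![1, x, ff x] : Fin 3 → ℝ) ∈ MM
  z1 : ∀ x ∈ MM, x 2 = x 0 → x 0 * zf 1 ≤ x 1
  z2 : ∀ x ∈ MM, x 2 = (2 * N - 1) * x 0 → x 1 ≤ x 0 * zf (2 * N - 1)
  f1 : ∀ x ∈ MM, x 1 = x 0 → x 2 ≤ x 0 * ff 1
  f2 : ∀ x ∈ MM, x 1 = (2 * N - 1) * x 0 → x 0 * ff (2 * N - 1) ≤ x 2

def Lf (zf : ℝ → ℝ) (x : Fin 3 → ℝ) : Prop := x 1 ≤ x 0 * zf (x 2 / x 0)
def Rt (zf : ℝ → ℝ) (x : Fin 3 → ℝ) : Prop := x 0 * zf (x 2 / x 0) ≤ x 1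
def Bl (ff : ℝ → ℝ) (x : Fin 3 → ℝ) : Prop := x 2 ≤ x 0 * ff (x 1 / x 0)
def Ab (ff : ℝ → ℝ) (x : Fin 3 → ℝ) : Prop := x 0 * ff (x 1 / x 0) ≤ x 2
def SW (MM : Set (Fin 3 → ℝ)) (x : Fin 3 → ℝ) : Prop :=
  ∀ y ∈ MM, y 0 = x 0 → ¬ (y 1 < x 1 ∧ y 2 < x 2)
def SE (MM : Set (Fin 3 → ℝ)) (x : Fin 3 → ℝ) : Prop :=
  ∀ y ∈ MM, y 0 = x 0 → ¬ (x 1 < y 1 ∧ y 2 < x 2)
def NW (MM : Set (Fin 3 → ℝ)) (x : Fin 3 → ℝ) : Prop :=
  ∀ y ∈ MM, y 0 = x 0 → ¬ (y 1 < x 1 ∧ x 2 < y 2)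
def NE (MM : Set (Fin 3 → ℝ)) (x : Fin 3 → ℝ) : Prop :=
  ∀ y ∈ MM, y 0 = x 0 → ¬ (x 1 < y 1 ∧ x 2 < y 2)

/-- The conditions on a point of a face whose corner rays are the `i` with `P i`. -/
structure Cond (MM : Set (Fin 3 → ℝ)) (zf ff : ℝ → ℝ) (P : Fin 4 → Prop) (x : Fin 3 → ℝ) :
    Prop where
  l : P 0 → Lf zf x
  r : P 1 → Rt zf x
  b : P 2 → Bl ff x
  t : P 3 → Ab ff x
  sw : P 0 → P 2 → SW MM x
  se : P 1 → P 2 → SE MM x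
  nw : P 0 → P 3 → NW MM x
  ne : P 1 → P 3 → NE MM x

/-- Admissible representations `w = ∑ a i v i + (2 x 0, 2 x 0, x 1, x 2)`. -/
structure Adm (N : ℝ) (MM : Set (Fin 3 → ℝ)) (zf ff : ℝ → ℝ) (w : Fin 4 → ℝ) (a : Fin 4 → ℝ)
    (x : Fin 3 → ℝ) : Prop where
  nn : ∀ i, 0 ≤ a i
  mem : x ∈ MM
  some0 : ∃ i, a i = 0
  cond : Cond MM zf ff (fun i => 0 < a i) x
  e0 : w 0 = a 0 + a 1 + 2 * x 0
  e1 : w 1 = a 2 + a 3 + 2 * x 0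
  e2 : w 2 = N * a 1 + x 1
  e3 : w 3 = N * a 3 + x 2

/-- LOW: extremality from two frontier conditions (four versions). -/
def S_LOW : Prop :=
  ∀ (N : ℝ) (MM : Set (Fin 3 → ℝ)) (zf ff : ℝ → ℝ), PD N MM zf ff → ∀ x ∈ MM, 0 < x 0 →
    (SW MM x → SE MM x → ∀ y ∈ MM, y 0 = x 0 → x 2 ≤ y 2) ∧
    (NW MM x → NE MM x → ∀ y ∈ MM, y 0 = x 0 → y 2 ≤ x 2) ∧
    (SW MM x → NW MM x → ∀ y ∈ MM, y 0 = x 0 → x 1 ≤ y 1) ∧
    (SE MM x → NE MM x → ∀ y ∈ MM, y 0 = x 0 → y 1 ≤ x 1)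

/-- UNIQ: admissible representations are unique. -/
def S_UNIQ : Prop :=
  ∀ (N : ℝ) (MM : Set (Fin 3 → ℝ)) (zf ff : ℝ → ℝ), PD N MM zf ff →
    ∀ (w a a' : Fin 4 → ℝ) (x x' : Fin 3 → ℝ), Adm N MM zf ff w a x → Adm N MM zf ff w a' x' →
      a = a' ∧ x = x'

/-- MAXSW: maximality of `x 0` gives the frontier conditions. -/
def S_MAXF : Prop :=
  ∀ (N : ℝ) (MM : Set (Fin 3 → ℝ)) (zf ff : ℝ → ℝ), PD N MM zf ff →
    ∀ (w a : Fin 4 → ℝ) (x : Fin 3 → ℝ), (∀ i, 0 ≤ a i) → x ∈ MM → 0 < x 0 →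
    w 0 = a 0 + a 1 + 2 * x 0 → w 1 = a 2 + a 3 + 2 * x 0 → w 2 = N * a 1 + x 1 →
    w 3 = N * a 3 + x 2 →
    (∀ (a' : Fin 4 → ℝ) (x' : Fin 3 → ℝ), (∀ i, 0 ≤ a' i) → x' ∈ MM →
      w 0 = a' 0 + a' 1 + 2 * x' 0 → w 1 = a' 2 + a' 3 + 2 * x' 0 → w 2 = N * a' 1 + x' 1 →
      w 3 = N * a' 3 + x' 2 → x' 0 ≤ x 0) →
    (0 < a 0 → 0 < a 2 → SW MM x) ∧ (0 < a 1 → 0 < a 2 → SE MM x) ∧
    (0 < a 0 → 0 < a 3 → NW MM x) ∧ (0 < a 1 → 0 < a 3 → NE MM x)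

/-- EXIST: every point of the cone has an admissible representation. -/
def S_EXIST : Prop :=
  ∀ (N : ℝ) (MM : Set (Fin 3 → ℝ)) (zf ff : ℝ → ℝ), PD N MM zf ff →
    ∀ w : Fin 4 → ℝ, 0 ≤ w 2 → w 2 ≤ N * w 0 → 0 ≤ w 3 → w 3 ≤ N * w 1 →
      ∃ (a : Fin 4 → ℝ) (x : Fin 3 → ℝ), Adm N MM zf ff w a x

/-- Piecewise linear interpolation of a sequence given at `1, 2, ..., M + 1`. -/
noncomputable def pl (M : ℕ) (g : ℤ → ℤ) (y : ℝ) : ℝ :=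
  (g 1 : ℝ) + ∑ j ∈ Finset.range M, ((g (j + 2) : ℝ) - g (j + 1)) * max 0 (min 1 (y - (j + 1)))

/-- PDAT: the planar data of the arithmetic situation (`M = 2 N - 2`). -/
def S_PDAT : Prop :=
  ∀ (N c c' : ℤ) (M : ℕ), 2 ≤ N → N ∣ c * c' - 1 → (M : ℤ) = 2 * N - 2 →
    PD (N : ℝ) (coneOf (pts N c)) (pl M (zeta N c')) (pl M (phi N c)) ∧
    (∀ x : Fin 3 → ℝ, x ∈ coneOf (pts N c) → 0 < x 0 →
      x 1 = x 0 * pl M (zeta N c') (x 2 / x 0) → ∃ j : ℤ, 1 ≤ j ∧ j ≤ 2 * N - 2 ∧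
        x ∈ coneOf {![1, zeta N c' j, j], ![1, zeta N c' (j + 1), j + 1]}) ∧
    (∀ x : Fin 3 → ℝ, x ∈ coneOf (pts N c) → 0 < x 0 →
      x 2 = x 0 * pl M (phi N c) (x 1 / x 0) → ∃ i : ℤ, 1 ≤ i ∧ i ≤ 2 * N - 2 ∧
        x ∈ coneOf {![1, i, phi N c i], ![1, i + 1, phi N c (i + 1)]}) ∧
    (∀ j : ℤ, 1 ≤ j → j ≤ 2 * N - 2 →
      ∀ x ∈ coneOf {![1, zeta N c' j, j], ![1, zeta N c' (j + 1), j + 1]},
        x 1 = x 0 * pl M (zeta N c') (x 2 / x 0)) ∧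
    (∀ i : ℤ, 1 ≤ i → i ≤ 2 * N - 2 →
      ∀ x ∈ coneOf {![1, i, phi N c i], ![1, i + 1, phi N c (i + 1)]},
        x 2 = x 0 * pl M (phi N c) (x 1 / x 0))

/-! ### The four-dimensional fan: combinatorial part -/

/-- corner rays -/
def cr (N : ℤ) : Fin 4 → Fin 4 → ℤ := ![![1, 0, 0, 0], ![1, 0, N, 0], ![0, 1, 0, 0], ![0, 1, 0, N]]

/-- middle rays -/
def mid (x : Fin 3 → ℤ) : Fin 4 → ℤ := ![2 * x 0, 2 * x 0, x 1, x 2]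

/-- The fan `F` built from the planar triangulation `T`. -/
def fan4 (N : ℤ) (MM : Set (Fin 3 → ℝ)) (zf ff : ℝ → ℝ) (T : Set (Finset (Fin 3 → ℤ))) :
    Set (Finset (Fin 4 → ℤ)) :=
  {s | ∃ S : Finset (Fin 4), ∃ τ ∈ T, S ≠ Finset.univ ∧
    (∀ m ∈ coneOf τ, Cond MM zf ff (fun i => i ∈ S) m) ∧ s = S.image (cr N) ∪ τ.image mid}

/-- CARR: the conditions pass from a relative interior point to the face. -/
def S_CARR : Prop :=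
  ∀ (N c c' : ℤ) (M : ℕ) (T : Set (Finset (Fin 3 → ℤ))), 2 ≤ N → N ∣ c * c' - 1 →
    (M : ℤ) = 2 * N - 2 → IsCx id T → supp id T = coneOf (pts N c) →
    (∀ j : ℤ, 1 ≤ j → j ≤ 2 * N - 2 →
        ({![1, zeta N c' j, j], ![1, zeta N c' (j + 1), j + 1]} : Finset (Fin 3 → ℤ)) ∈ T) →
    (∀ i : ℤ, 1 ≤ i → i ≤ 2 * N - 2 →
        ({![1, i, phi N c i], ![1, i + 1, phi N c (i + 1)]} : Finset (Fin 3 → ℤ)) ∈ T) →
    ∀ (P : Fin 4 → Prop) (b : (Fin 3 → ℤ) →₀ ℝ), b ∈ body T →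
      Cond (coneOf (pts N c)) (pl M (zeta N c')) (pl M (phi N c)) P (lc id b) →
      ∀ m ∈ coneOf b.support,
        Cond (coneOf (pts N c)) (pl M (zeta N c')) (pl M (phi N c)) P m

/-- FAN4: `fan4` is a fan with the right support. -/
def S_FAN4 : Prop :=
  ∀ (N : ℤ) (MM : Set (Fin 3 → ℝ)) (zf ff : ℝ → ℝ) (T : Set (Finset (Fin 3 → ℤ))),
    PD (N : ℝ) MM zf ff → IsCx id T → supp id T = MM → (∀ s ∈ T, ∀ x ∈ s, x 0 = 1) →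
    (∀ (P : Fin 4 → Prop) (b : (Fin 3 → ℤ) →₀ ℝ), b ∈ body T →
      Cond MM zf ff P (lc id b) → ∀ m ∈ coneOf b.support, Cond MM zf ff P m) →
    IsCx id (fan4 N MM zf ff T) ∧
    supp id (fan4 N MM zf ff T) =
      {w | 0 ≤ w 2 ∧ w 2 ≤ (N : ℝ) * w 0 ∧ 0 ≤ w 3 ∧ w 3 ≤ (N : ℝ) * w 1}

/-- GEN4: multiplicities of the four-dimensional faces. -/
def S_GEN4 : Prop :=
  ∀ (N c c' : ℤ) (M : ℕ) (T : Set (Finset (Fin 3 → ℤ))), 2 ≤ N → N ∣ c * c' - 1 →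
    (M : ℤ) = 2 * N - 2 → IsCx id T → (∀ s ∈ T, s ⊆ pts N c) →
    (∀ x ∈ pts N c, ({x} : Finset (Fin 3 → ℤ)) ∈ T) → supp id T = coneOf (pts N c) →
    (∀ s ∈ T, s.card = 3 → ∀ x : Fin 3 → ℤ, N ∣ x 2 - c * x 1 →
        x ∈ Submodule.span ℤ (s : Set (Fin 3 → ℤ))) →
    (∀ j : ℤ, 1 ≤ j → j ≤ 2 * N - 2 →
        ({![1, zeta N c' j, j], ![1, zeta N c' (j + 1), j + 1]} : Finset (Fin 3 → ℤ)) ∈ T) →
    (∀ i : ℤ, 1 ≤ i → i ≤ 2 * N - 2 →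
        ({![1, i, phi N c i], ![1, i + 1, phi N c (i + 1)]} : Finset (Fin 3 → ℤ)) ∈ T) →
    ∀ s ∈ fan4 N (coneOf (pts N c)) (pl M (zeta N c')) (pl M (phi N c)) T, s.card = 4 →
      ∀ x : Fin 4 → ℤ, N ∣ x 3 - c * x 2 →
        (2 : ℤ) • x ∈ Submodule.span ℤ (s : Set (Fin 4 → ℤ))

/-- LOC4: the local theorem in `ℤ^4`. -/
def S_LOC4 : Prop :=
  ∀ N c c' : ℤ, 2 ≤ N → N ∣ c * c' - 1 →
    ∃ F : Set (Finset (Fin 4 → ℤ)), IsCx id F ∧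
      supp id F = {w | 0 ≤ w 2 ∧ w 2 ≤ (N : ℝ) * w 0 ∧ 0 ≤ w 3 ∧ w 3 ≤ (N : ℝ) * w 1} ∧
      Finset.univ.image (cr N) ∉ F ∧
      (∀ S : Finset (Fin 4), S ≠ Finset.univ → S.image (cr N) ∈ F) ∧
      (∀ s ∈ F, ∀ x ∈ s, x ∈ Finset.univ.image (cr N) ∨
        (x 0 = 2 ∧ x 1 = 2 ∧ 0 < x 2 ∧ x 2 < 2 * N ∧ 0 < x 3 ∧ x 3 < 2 * N ∧ N ∣ x 3 - c * x 2)) ∧
      (∀ s ∈ F, s.card = 4 → ∀ x : Fin 4 → ℤ, N ∣ x 3 - c * x 2 →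
        (2 : ℤ) • x ∈ Submodule.span ℤ (s : Set (Fin 4 → ℤ)))

/-- LOCAL: the local theorem in `ℤ^n`. -/
def S_LOCAL : Prop :=
  ∀ (n : ℕ) (v : Fin 4 → Fin n → ℤ) (u : Fin n → ℤ) (N c c' : ℤ),
    LinearIndependent ℝ (fun i => rv (v i)) → 2 ≤ N → N ∣ c * c' - 1 →
    N • u = (v 1 - v 0) + c • (v 3 - v 2) →
    ∃ F : Set (Finset (Fin n → ℤ)), IsCx id F ∧
      supp id F = coneOf (Finset.univ.image v) ∧
      Finset.univ.image v ∉ F ∧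
      (∀ t : Finset (Fin n → ℤ), t ⊆ Finset.univ.image v → t ≠ Finset.univ.image v → t ∈ F) ∧
      (∀ s ∈ F, ∀ x ∈ s, x ∈ Finset.univ.image v ∨
        ∃ X Y : ℤ, 0 < X ∧ X < 2 * N ∧ 0 < Y ∧ Y < 2 * N ∧
          N • x = (2 * N - X) • v 0 + X • v 1 + (2 * N - Y) • v 2 + Y • v 3) ∧
      (∀ s ∈ F, s.card = 4 →
        (2 : ℤ) • u ∈ Submodule.span ℤ (s : Set (Fin n → ℤ)) ∧
        ∀ i, (2 : ℤ) • v i ∈ Submodule.span ℤ (s : Set (Fin n → ℤ)))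

/-! ### The global step -/

/-- A bad quadruple: two pairs over two different base vectors, index `N ≥ 2`. -/
structure Bad {m n : ℕ} (A : Matrix (Fin m) (Fin n) ℤ) (K : Set (Finset (Fin n → ℤ)))
    (v : Fin 4 → Fin n → ℤ) (u : Fin n → ℤ) (N c c' : ℤ) : Prop where
  mem : Finset.univ.image v ∈ K
  inj : Function.Injective v
  b01 : A.mulVec (v 0) = A.mulVec (v 1)
  b23 : A.mulVec (v 2) = A.mulVec (v 3)
  b02 : A.mulVec (v 0) ≠ A.mulVec (v 2)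
  hN : 2 ≤ N
  hc : N ∣ c * c' - 1
  hu : N • u = (v 1 - v 0) + c • (v 3 - v 2)
  gen : ∀ x : Fin n → ℤ, A.mulVec x = 0 →
    x ∈ Submodule.span ℤ ({u, v 1 - v 0, v 3 - v 2} : Set (Fin n → ℤ))

/-- The standing hypotheses on the fan after STARALL. -/
structure Sat {m n : ℕ} (A : Matrix (Fin m) (Fin n) ℤ) (Δ : Set (Finset (Fin m → ℤ)))
    (K : Set (Finset (Fin n → ℤ))) : Prop where
  cxΔ : IsCx id Δ
  cx : IsCx id K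
  ovr : Over A Δ K
  ker : (A.map (Int.cast : ℤ → ℝ)).rank + 2 = n
  sat : ∀ x : Fin n → ℤ, rv x ∈ supp id K → ({A.mulVec x} : Finset (Fin m → ℤ)) ∈ Δ →
    ({x} : Finset (Fin n → ℤ)) ∈ K

/-- GRP: the groups of a face: excess at most two. -/
def S_GRP : Prop :=
  ∀ (m n : ℕ) (A : Matrix (Fin m) (Fin n) ℤ) (Δ : Set (Finset (Fin m → ℤ)))
    (K : Set (Finset (Fin n → ℤ))), Sat A Δ K → ∀ s ∈ K,
    s.card ≤ (s.image (fun x => A.mulVec x)).card + 2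

/-- KERLAT: the kernel lattice has a basis of two vectors. -/
def S_KERLAT : Prop :=
  ∀ (m n : ℕ) (A : Matrix (Fin m) (Fin n) ℤ), (A.map (Int.cast : ℤ → ℝ)).rank + 2 = n →
    ∃ b1 b2 : Fin n → ℤ, A.mulVec b1 = 0 ∧ A.mulVec b2 = 0 ∧
      LinearIndependent ℝ ![rv b1, rv b2] ∧
      ∀ x : Fin n → ℤ, A.mulVec x = 0 → ∃ i j : ℤ, x = i • b1 + j • b2

/-- TRI: an empty group of three vectors generates the kernel lattice. -/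
def S_TRI : Prop :=
  ∀ (m n : ℕ) (A : Matrix (Fin m) (Fin n) ℤ) (Δ : Set (Finset (Fin m → ℤ)))
    (K : Set (Finset (Fin n → ℤ))), Sat A Δ K → ∀ x y z : Fin n → ℤ,
    ({x, y, z} : Finset (Fin n → ℤ)) ∈ K → x ≠ y → y ≠ z → x ≠ z →
    A.mulVec x = A.mulVec y → A.mulVec x = A.mulVec z →
    ∀ r : Fin n → ℤ, A.mulVec r = 0 → r ∈ Submodule.span ℤ ({y - x, z - x} : Set (Fin n → ℤ))

/-- QUAD: two pairs over different base vectors: either they generate the kernel lattice or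
they form a bad quadruple. -/
def S_QUAD : Prop :=
  ∀ (m n : ℕ) (A : Matrix (Fin m) (Fin n) ℤ) (Δ : Set (Finset (Fin m → ℤ)))
    (K : Set (Finset (Fin n → ℤ))), Sat A Δ K → ∀ v : Fin 4 → Fin n → ℤ,
    Finset.univ.image v ∈ K → Function.Injective v → A.mulVec (v 0) = A.mulVec (v 1) →
    A.mulVec (v 2) = A.mulVec (v 3) → A.mulVec (v 0) ≠ A.mulVec (v 2) →
    (∀ r : Fin n → ℤ, A.mulVec r = 0 →
      r ∈ Submodule.span ℤ ({v 1 - v 0, v 3 - v 2} : Set (Fin n → ℤ))) ∨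
    ∃ (u : Fin n → ℤ) (N c c' : ℤ), Bad A K v u N c c'

/-- FINF: finitely many lattice points over the rays of the base fan. -/
def S_FINF : Prop :=
  ∀ (m n : ℕ) (A : Matrix (Fin m) (Fin n) ℤ) (Δ : Set (Finset (Fin m → ℤ)))
    (K : Set (Finset (Fin n → ℤ))), IsCx id Δ → IsCx id K → Over A Δ K →
    {x : Fin n → ℤ | rv x ∈ supp id K ∧ ({A.mulVec x} : Finset (Fin m → ℤ)) ∈ Δ}.Finite

/-- UNB: a face contains at most one bad quadruple. -/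
def S_UNB : Prop :=
  ∀ (m n : ℕ) (A : Matrix (Fin m) (Fin n) ℤ) (Δ : Set (Finset (Fin m → ℤ)))
    (K : Set (Finset (Fin n → ℤ))), Sat A Δ K → ∀ s ∈ K,
    ∀ (v v' : Fin 4 → Fin n → ℤ) (u u' : Fin n → ℤ) (N c d N' c' d' : ℤ),
    Bad A K v u N c d → Bad A K v' u' N' c' d' → Finset.univ.image v ⊆ s →
    Finset.univ.image v' ⊆ s → Finset.univ.image v = Finset.univ.image v'

/-- DETB: determinant bound from a generation property. -/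
def S_DETB : Prop :=
  ∀ (n : ℕ) (f : Fin n → Fin n → ℤ) (D : ℕ), 0 < D →
    (∀ x : Fin n → ℤ, (D : ℤ) • x ∈ Submodule.span ℤ (Set.range f)) → |dt f| ≤ (D : ℤ) ^ n

/-- BDL: if a submodule contains `2 x` for the vectors `x` of a full face and for the kernel
vectors `x`, then it contains `2 D' ℤ^n`. -/
def S_BDL : Prop :=
  ∀ (m : ℕ) (A : Matrix (Fin (m + 1)) (Fin (m + 3)) ℤ) (Δ : Set (Finset (Fin (m + 1) → ℤ)))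
    (K : Set (Finset (Fin (m + 3) → ℤ))) (D : ℕ), Sat A Δ K →
    (∀ s ∈ Δ, ∀ f : Fin (m + 1) → Fin (m + 1) → ℤ, (∀ i, f i ∈ s) → |dt f| ≤ (D : ℤ)) →
    ∀ s ∈ K, s.card = m + 3 → ∀ S' : Submodule ℤ (Fin (m + 3) → ℤ),
    (∀ x ∈ s, (2 : ℤ) • x ∈ S') → (∀ r : Fin (m + 3) → ℤ, A.mulVec r = 0 → (2 : ℤ) • r ∈ S') →
    ∃ D' : ℕ, 0 < D' ∧ D' ≤ D ∧ ∀ x : Fin (m + 3) → ℤ, (2 * (D' : ℤ)) • x ∈ S'

/-- CORE: bounded heights and bounded multiplicities. -/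
def S_CORE : Prop :=
  ∀ (m : ℕ) (Δ : Set (Finset (Fin (m + 1) → ℤ))), IsCx id Δ →
    (∀ s ∈ Δ, ∀ x ∈ s, 1 ≤ x 0) →
    ∃ (g : ℕ) (B : ℝ), 0 < g ∧ 1 ≤ B ∧
      ∀ (A : Matrix (Fin (m + 1)) (Fin (m + 3)) ℤ) (K : Set (Finset (Fin (m + 3) → ℤ))),
        (A.map (Int.cast : ℤ → ℝ)).rank = m + 1 → (∀ x, (A.mulVec x) 0 = x 0) →
        IsCx id K → Over A Δ K →
        ∃ K' : Set (Finset (Fin (m + 3) → ℤ)), IsCx id K' ∧ supp id K' = supp id K ∧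
          (∀ s ∈ K', ∀ x ∈ s, 1 ≤ x 0 ∧ x 0 ≤ (g : ℤ)) ∧ MB K' B

/-! ### The initial fan -/

/-- STAR2: stellar subdivision at an integer vector with arbitrary positive coordinates. -/
def S_STAR2 : Prop :=
  ∀ (n : ℕ) (C : Set (Finset (Fin n → ℤ))) (l : (Fin n → ℤ) →₀ ℝ) (m : Fin n → ℤ), IsCx id C →
    (∀ x, 0 ≤ l x) → l ≠ 0 → lc id l = rv m → (∀ t ∈ C, m ∉ t) →
    IsCx id (star C l.support m) ∧ supp id (star C l.support m) = supp id C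

/-- CUT: refine a fan so that no face crosses the hyperplanes of finitely many functionals. -/
def S_CUT : Prop :=
  ∀ (m : ℕ) (D : Set (Finset (Fin (m + 1) → ℤ))) (H : Finset (Fin (m + 1) → ℤ)), IsCx id D →
    (∀ s ∈ D, ∀ x ∈ s, 1 ≤ x 0) →
    ∃ D' : Set (Finset (Fin (m + 1) → ℤ)), IsCx id D' ∧ supp id D' = supp id D ∧
      (∀ s ∈ D', ∀ x ∈ s, 1 ≤ x 0) ∧
      ∀ h ∈ H, ∀ s ∈ D', ∀ x ∈ s, ∀ y ∈ s, ¬ ((∑ i, h i * x i) < 0 ∧ 0 < ∑ i, h i * y i)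

/-- The base fan over the base points `W`. -/
structure BaseFan {m : ℕ} (W : Finset (Fin (m + 1) → ℤ)) (Δ : Set (Finset (Fin (m + 1) → ℤ))) :
    Prop where
  cx : IsCx id Δ
  supp_eq : supp id Δ = coneOf W
  ht : ∀ s ∈ Δ, ∀ x ∈ s, 1 ≤ x 0
  dc : ∀ c ∈ Δ, ∀ B : Finset (Fin (m + 1) → ℤ), B ⊆ W →
    LinearIndependent ℝ (fun b : B => rv (b : Fin (m + 1) → ℤ)) →
    ∀ a : (Fin (m + 1) → ℤ) →₀ ℝ, (∀ x, 0 ≤ a x) → a.support = c → lc id a ∈ coneOf B →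
    ∀ x ∈ c, ∃ k : (Fin (m + 1) → ℤ) → ℕ, x = ∑ b ∈ B, k b • b

/-- BASE: base fans exist. -/
def S_BASE : Prop :=
  ∀ (m : ℕ) (W : Finset (Fin (m + 1) → ℤ)), (∀ x ∈ W, x 0 = 1) →
    (∃ f : Fin (m + 1) → Fin (m + 1) → ℤ, (∀ i, f i ∈ W) ∧ dt f ≠ 0) →
    ∃ Δ : Set (Finset (Fin (m + 1) → ℤ)), BaseFan W Δ

/-- SPLIT: points of the cone over a base cell are generated by lattice points over its rays. -/
def S_SPLIT : Prop :=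
  ∀ (m n : ℕ) (W : Finset (Fin (m + 1) → ℤ)) (Δ : Set (Finset (Fin (m + 1) → ℤ))),
    (∀ x ∈ W, x 0 = 1) → BaseFan W Δ →
    ∀ (A : Matrix (Fin (m + 1)) (Fin n) ℤ) (V : Finset (Fin n → ℤ)),
    (∀ v ∈ V, A.mulVec v ∈ W) → ∀ y ∈ coneOf V, ∀ a : (Fin (m + 1) → ℤ) →₀ ℝ,
    a ∈ body Δ → lc id a = (A.map (Int.cast : ℤ → ℝ)).mulVec y →
    ∃ P : Finset (Fin n → ℤ), (∀ x ∈ P, rv x ∈ coneOf V ∧ A.mulVec x ∈ a.support) ∧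
      y ∈ coneOf P

/-- PLACEL: placing fans along a list, with the restriction property. -/
def S_PLACEL : Prop :=
  ∀ n : ℕ, ∃ Pl : List (Fin n → ℤ) → Set (Finset (Fin n → ℤ)),
    (∀ l, IsCx id (Pl l)) ∧ (∀ l, ∀ s ∈ Pl l, s ⊆ l.toFinset) ∧
    (∀ l, supp id (Pl l) = coneOf l.toFinset) ∧
    (∀ (l : List (Fin n → ℤ)) (lam : (Fin n → ℝ) →ₗ[ℝ] ℝ) (p : (Fin n → ℤ) → Bool),
      (∀ x ∈ l, 0 ≤ lam (rv x)) → (∀ x ∈ l, p x = true ↔ lam (rv x) = 0) →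
      Pl (l.filter p) = {s | s ∈ Pl l ∧ ∀ x ∈ s, p x = true})

/-- FINLP: bounded heights leave finitely many lattice points. -/
def S_FINLP : Prop :=
  ∀ (n : ℕ) (V : Finset (Fin (n + 1) → ℤ)) (h : ℤ), (∀ v ∈ V, v 0 = 1) →
    {x : Fin (n + 1) → ℤ | rv x ∈ coneOf V ∧ x 0 ≤ h}.Finite

/-- INIT: the initial fan over the base fan. -/
def S_INIT : Prop :=
  ∀ (m n : ℕ) (W : Finset (Fin (m + 1) → ℤ)) (Δ : Set (Finset (Fin (m + 1) → ℤ))),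
    (∀ x ∈ W, x 0 = 1) → BaseFan W Δ →
    ∀ (A : Matrix (Fin (m + 1)) (Fin (n + 1)) ℤ) (V : Finset (Fin (n + 1) → ℤ)),
    (∀ x, (A.mulVec x) 0 = x 0) → (∀ v ∈ V, A.mulVec v ∈ W) →
    ∃ K : Set (Finset (Fin (n + 1) → ℤ)), IsCx id K ∧ supp id K = coneOf V ∧ Over A Δ K

/-- END: from bounded heights and multiplicities to unimodular triangulations. -/
def S_END : Prop :=
  ∀ (d g : ℕ) (B : ℝ), 0 < g → 1 ≤ B → ∃ k : ℕ, 0 < k ∧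
    ∀ V : Finset (Fin d → ℝ), (∀ x ∈ V, ∀ i : Fin d, ∃ z : ℤ, x i = (z : ℝ)) →
      (∃ (P : Finset (Fin (d + 1) → ℤ)) (K : Set (Finset (Fin (d + 1) → ℤ))),
        (∀ x ∈ P, x 0 = 1) ∧ tl '' (P : Set (Fin (d + 1) → ℤ)) = (V : Set (Fin d → ℝ)) ∧
        IsCx id K ∧ supp id K = coneOf P ∧ (∀ s ∈ K, ∀ x ∈ s, 1 ≤ x 0 ∧ x 0 ≤ (g : ℤ)) ∧
        MB K B) →
      ∃ X : Geometry.SimplicialComplex ℝ (Fin d → ℝ), X.faces.Finite ∧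
        X.space = (fun x => (k : ℝ) • x) '' convexHull ℝ (V : Set (Fin d → ℝ)) ∧
        (∀ s ∈ X.faces, ∀ x ∈ s, ∀ i : Fin d, ∃ z : ℤ, x i = (z : ℝ)) ∧
        (∀ s ∈ X.faces, s.card = d + 1 →
          MeasureTheory.volume (convexHull ℝ (s : Set (Fin d → ℝ))) =
            ((d.factorial : ENNReal))⁻¹)

/-- The main theorem: bounded width in all but two directions. -/
def S_MAIN : Prop :=
  ∀ m w : ℕ, ∃ k : ℕ, 0 < k ∧ ∀ V : Finset (Fin (m + 2) → ℝ),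
    (∀ x ∈ V, ∀ i : Fin (m + 2), ∃ z : ℤ, x i = (z : ℝ)) →
    (interior (convexHull ℝ (V : Set (Fin (m + 2) → ℝ)))).Nonempty →
    (∃ φ : Fin m → Fin (m + 2) → ℤ, LinearIndependent ℤ φ ∧
      ∀ j : Fin m, ∀ x ∈ V, ∀ y ∈ V, |∑ i, (φ j i : ℝ) * (x i - y i)| ≤ w) →
    ∃ X : Geometry.SimplicialComplex ℝ (Fin (m + 2) → ℝ), X.faces.Finite ∧
      X.space = (fun x => (k : ℝ) • x) '' convexHull ℝ (V : Set (Fin (m + 2) → ℝ)) ∧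
      (∀ s ∈ X.faces, ∀ x ∈ s, ∀ i : Fin (m + 2), ∃ z : ℤ, x i = (z : ℝ)) ∧
      (∀ s ∈ X.faces, s.card = m + 2 + 1 →
        MeasureTheory.volume (convexHull ℝ (s : Set (Fin (m + 2) → ℝ))) =
          (((m + 2).factorial : ENNReal))⁻¹)

end H6BW
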