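import Pool.Agent.Work.MP_6237c7_co.BW.Defs

/-! DETB: determinant bound from a generation property. -/

set_option autoImplicit false

namespace H6BW

open Finsupp H79KMW

theorem detb : S_DETB := by
  intro n f D hD h
  have h1 : ∀ i : Fin n, ∃ c : Fin n → ℤ, ∑ j, c j • f j =
      (D : ℤ) • (Pi.single i 1 : Fin n → ℤ) := by
    intro i
    have := h (Pi.single i 1)
    rw [Submodule.mem_span_range_iff_exists_fun] at this
    exact this
  choose M hM using h1
  have h2 : Matrix.of M * Matrix.of f = (D : ℤ) • (1 : Matrix (Fin n) (Fin n) ℤ) := by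
    ext i k
    have h3 := congrFun (hM i) k
    rw [Matrix.mul_apply, Matrix.smul_apply, Matrix.one_apply]
    rw [Finset.sum_apply] at h3
    simp only [Pi.smul_apply, Pi.single_apply, smul_eq_mul] at h3
    simp only [Matrix.of_apply, smul_eq_mul]
    rw [h3]
    by_cases hik : i = k
    · subst hik; simp
    · rw [if_neg hik, if_neg (fun h => hik h.symm)]
  have h3 := congrArg Matrix.det h2
  rw [Matrix.det_mul, Matrix.det_smul, Matrix.det_one, mul_one, Fintype.card_fin] at h3
  have hDn : (0 : ℤ) < (D : ℤ) ^ n := by positivity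
  have h4 : |(Matrix.of M).det| * |dt f| = (D : ℤ) ^ n := by
    rw [← abs_mul]
    change |(Matrix.of M).det * (Matrix.of f).det| = _
    rw [h3, abs_of_pos hDn]
  have h5 : 1 ≤ |(Matrix.of M).det| := by
    have h0 : (Matrix.of M).det ≠ 0 := by
      intro h0
      rw [h0, abs_zero, zero_mul] at h4
      omega
    exact Int.one_le_abs h0
  calc |dt f| = 1 * |dt f| := (one_mul _).symm
    _ ≤ |(Matrix.of M).det| * |dt f| := mul_le_mul_of_nonneg_right h5 (abs_nonneg _)
    _ = (D : ℤ) ^ n := h4

end H6BW
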