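import Pool.Agent.Work.MP_6237c7_co.BW.Defs

/-!
MP_6237c7_co, BW: module END (slice, then rounds, then the simplicial complex).
-/

set_option autoImplicit false

namespace H6BW

open Finsupp H79KMW

private lemma end_asc {d : ℕ} {k : ℕ} (hk : 0 < k) (P : Finset (Fin (d + 1) → ℤ))
    (x : Fin d → ℝ) :
    (Fin.cons 1 x : Fin (d + 1) → ℝ) ∈ asc (k : ℝ) (coneOf P) ↔
      (Fin.cons 1 ((k : ℝ)⁻¹ • x) : Fin (d + 1) → ℝ) ∈ coneOf P := by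
  have hkR : (0:ℝ) < (k : ℝ) := by exact_mod_cast hk
  have hcons : (fun j : Fin (d + 1) => if j = 0 then (k : ℝ) * (Fin.cons 1 x : Fin (d + 1) → ℝ) 0
      else (Fin.cons 1 x : Fin (d + 1) → ℝ) j) =
      (k : ℝ) • (Fin.cons 1 ((k : ℝ)⁻¹ • x) : Fin (d + 1) → ℝ) := by
    funext j
    refine Fin.cases ?_ (fun i => ?_) j
    · simp
    · simp only [Fin.succ_ne_zero, if_false, Fin.cons_succ, Pi.smul_apply, smul_eq_mul]
      rw [mul_inv_cancel_left₀ hkR.ne']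
  constructor
  · intro h
    have h1 : (k : ℝ) • (Fin.cons 1 ((k : ℝ)⁻¹ • x) : Fin (d + 1) → ℝ) ∈ coneOf P := by
      rw [← hcons]; exact h
    have h2 := coneOf_smul P h1 (c := (k : ℝ)⁻¹) (by positivity)
    rw [smul_smul, inv_mul_cancel₀ hkR.ne', one_smul] at h2
    exact h2
  · intro h
    have h2 := coneOf_smul P h hkR.le
    rw [← hcons] at h2
    exact h2

/-- END. -/
theorem end_ : S_END := by
  classical
  intro d g B hg hB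
  obtain ⟨g', rfl⟩ : ∃ g', g = g' + 1 := ⟨g - 1, by omega⟩
  obtain ⟨J0, hJ0⟩ := roundProp_all g'
  obtain ⟨J1, T, hJ1, hT⟩ := base_step hJ0
  obtain ⟨J, hJ⟩ := roundProp_all d
  obtain ⟨R, hR⟩ := exists_pow_le d B
  have hk0 : 0 < J ^ R * J1 := Nat.mul_pos (pow_pos hJ.1 R) hJ1
  refine ⟨J ^ R * J1, hk0, fun V hV => ?_⟩
  rintro ⟨P, K, hP1, hPV, hK, hsuppK, hht, hMB⟩
  obtain ⟨K1, hK1, hlv1, hMB1, hsupp1⟩ := slice hJ1 hT hK hht (zero_le_one.trans hB) hMB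
  obtain ⟨K2, hK2, hlv2, hMB2, hsupp2⟩ := iter_round hJ hK1 hlv1 hMB1 R
  rw [max_eq_left hR] at hMB2
  obtain ⟨X, hX1, hX2, hX3, hX4⟩ := exists_complex hK2 hlv2 hMB2
  refine ⟨X, hX1, ?_, hX3, hX4⟩
  have hkR : (0:ℝ) < ((J ^ R * J1 : ℕ) : ℝ) := by exact_mod_cast hk0
  rw [hX2, hsupp2, hsupp1, asc_asc, ← Nat.cast_mul, hsuppK]
  ext x
  rw [Set.mem_ofPred_eq, end_asc hk0 P x]
  constructor
  · intro h
    refine ⟨((J ^ R * J1 : ℕ) : ℝ)⁻¹ • x, ?_, ?_⟩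
    · rw [← hPV, hull_iff hP1]
      exact h
    · show ((J ^ R * J1 : ℕ) : ℝ) • (((J ^ R * J1 : ℕ) : ℝ)⁻¹ • x) = x
      rw [smul_smul, mul_inv_cancel₀ hkR.ne', one_smul]
  · rintro ⟨y, hy, rfl⟩
    rw [← hPV, hull_iff hP1] at hy
    have : ((J ^ R * J1 : ℕ) : ℝ)⁻¹ • (fun x => ((J ^ R * J1 : ℕ) : ℝ) • x) y = y := by
      show ((J ^ R * J1 : ℕ) : ℝ)⁻¹ • (((J ^ R * J1 : ℕ) : ℝ) • y) = y
      rw [smul_smul, inv_mul_cancel₀ hkR.ne', one_smul]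
    rw [this]
    exact hy

end H6BW
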