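import Pool.Agent.Work.MP_6237c7_co.BW.Defs

/-!
MP_6237c7_co, module EXIST: every point of the cone has an admissible representation.
-/

set_option autoImplicit false

namespace H6BW

open Finsupp H79KMW

/-! ### continuity -/

theorem ex_up {g : ℝ → ℝ} (hg : Continuous g) {Y M c : ℝ} (hY : Y < M) (h : g Y < c) :
    ∃ Y', Y < Y' ∧ Y' ≤ M ∧ g Y' < c := by
  have h1 : ∀ᶠ t in nhdsWithin Y (Set.Ioi Y), g t < c :=
    ((hg.tendsto Y).eventually (gt_mem_nhds h)).filter_mono nhdsWithin_le_nhds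
  have h2 : ∀ᶠ t in nhdsWithin Y (Set.Ioi Y), t ∈ Set.Ioc Y M := Ioc_mem_nhdsGT hY
  obtain ⟨t, ht1, ht2⟩ := (h1.and h2).exists
  exact ⟨t, ht2.1, ht2.2, ht1⟩

theorem ex_down {g : ℝ → ℝ} (hg : Continuous g) {Y M c : ℝ} (hY : M < Y) (h : g Y < c) :
    ∃ Y', Y' < Y ∧ M ≤ Y' ∧ g Y' < c := by
  have h1 : ∀ᶠ t in nhdsWithin Y (Set.Iio Y), g t < c :=
    ((hg.tendsto Y).eventually (gt_mem_nhds h)).filter_mono nhdsWithin_le_nhds
  have h2 : ∀ᶠ t in nhdsWithin Y (Set.Iio Y), t ∈ Set.Ico M Y := Ico_mem_nhdsLT hY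
  obtain ⟨t, ht1, ht2⟩ := (h1.and h2).exists
  exact ⟨t, ht2.2, ht2.1, ht1⟩

theorem ex_up' {g : ℝ → ℝ} (hg : Continuous g) {Y M c : ℝ} (hY : Y < M) (h : c < g Y) :
    ∃ Y', Y < Y' ∧ Y' ≤ M ∧ c < g Y' := by
  obtain ⟨t, h1, h2, h3⟩ := ex_up (g := fun t => -g t) hg.neg hY (c := -c) (by simpa using h)
  exact ⟨t, h1, h2, by simpa using h3⟩

theorem ex_down' {g : ℝ → ℝ} (hg : Continuous g) {Y M c : ℝ} (hY : M < Y) (h : c < g Y) :
    ∃ Y', Y' < Y ∧ M ≤ Y' ∧ c < g Y' := by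
  obtain ⟨t, h1, h2, h3⟩ := ex_down (g := fun t => -g t) hg.neg hY (c := -c) (by simpa using h)
  exact ⟨t, h1, h2, by simpa using h3⟩

/-! ### points of the cone -/

section

variable {N : ℝ} {MM : Set (Fin 3 → ℝ)} {zf ff : ℝ → ℝ}

theorem ex_eta (x : Fin 3 → ℝ) : x = ![x 0, x 1, x 2] := by
  ext i
  fin_cases i <;> rfl

theorem ex_smul (s a b c : ℝ) : s • (![a, b, c] : Fin 3 → ℝ) = ![s * a, s * b, s * c] := by
  ext i
  fin_cases i <;> simp

theorem ex_add (a b c a' b' c' : ℝ) :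
    (![a, b, c] : Fin 3 → ℝ) + ![a', b', c'] = ![a + a', b + b', c + c'] := by
  ext i
  fin_cases i <;> simp

theorem ex_memz (hp : PD N MM zf ff) {s Y : ℝ} (hs : 0 ≤ s) (h1 : 1 ≤ Y) (h2 : Y ≤ 2 * N - 1) :
    (![s, s * zf Y, s * Y] : Fin 3 → ℝ) ∈ MM := by
  have h := hp.smul _ (hp.memz Y h1 h2) s hs
  rwa [ex_smul, mul_one] at h

theorem ex_memf (hp : PD N MM zf ff) {s X : ℝ} (hs : 0 ≤ s) (h1 : 1 ≤ X) (h2 : X ≤ 2 * N - 1) :
    (![s, s * X, s * ff X] : Fin 3 → ℝ) ∈ MM := by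
  have h := hp.smul _ (hp.memf X h1 h2) s hs
  rwa [ex_smul, mul_one] at h

theorem ex_comb (hp : PD N MM zf ff) {s A B Y Y' t : ℝ} (hA : (![s, A, Y] : Fin 3 → ℝ) ∈ MM)
    (hB : (![s, B, Y'] : Fin 3 → ℝ) ∈ MM) (h0 : 0 ≤ t) (h1 : t ≤ 1) :
    (![s, A + t * (B - A), Y + t * (Y' - Y)] : Fin 3 → ℝ) ∈ MM := by
  have h := hp.add _ (hp.smul _ hA (1 - t) (by linarith)) _ (hp.smul _ hB t h0)
  rw [ex_smul, ex_smul, ex_add] at h
  have e1 : (1 - t) * s + t * s = s := by ring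
  have e2 : (1 - t) * A + t * B = A + t * (B - A) := by ring
  have e3 : (1 - t) * Y + t * Y' = Y + t * (Y' - Y) := by ring
  rwa [e1, e2, e3] at h

theorem ex_param {A B X : ℝ} (h1 : A ≤ X) (h2 : X ≤ B) : ∃ t, 0 ≤ t ∧ t ≤ 1 ∧ A + t * (B - A) = X := by
  rcases eq_or_lt_of_le (h1.trans h2) with h | h
  · exact ⟨0, le_refl 0, zero_le_one, by linarith⟩
  · have hd : 0 < B - A := by linarith
    refine ⟨(X - A) / (B - A), div_nonneg (by linarith) hd.le, ?_, ?_⟩
    · rw [div_le_one hd]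
      linarith
    · field_simp
      ring

theorem ex_seg1 (hp : PD N MM zf ff) {s A B X Y : ℝ} (hA : (![s, A, Y] : Fin 3 → ℝ) ∈ MM)
    (hB : (![s, B, Y] : Fin 3 → ℝ) ∈ MM) (h1 : A ≤ X) (h2 : X ≤ B) :
    (![s, X, Y] : Fin 3 → ℝ) ∈ MM := by
  obtain ⟨t, h0, h3, h4⟩ := ex_param h1 h2
  have h := ex_comb hp hA hB h0 h3
  rwa [h4, sub_self, mul_zero, add_zero] at h

theorem ex_seg2 (hp : PD N MM zf ff) {s A B X Y : ℝ} (hA : (![s, X, A] : Fin 3 → ℝ) ∈ MM)
    (hB : (![s, X, B] : Fin 3 → ℝ) ∈ MM) (h1 : A ≤ Y) (h2 : Y ≤ B) :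
    (![s, X, Y] : Fin 3 → ℝ) ∈ MM := by
  obtain ⟨t, h0, h3, h4⟩ := ex_param h1 h2
  have h := ex_comb hp hA hB h0 h3
  rwa [h4, sub_self, mul_zero, add_zero] at h

theorem ex_nonneg (hp : PD N MM zf ff) {x : Fin 3 → ℝ} (hx : x ∈ MM) : 0 ≤ x 0 := by
  have h1 := hp.lo1 x hx
  have h2 := hp.hi1 x hx
  have h3 := hp.hN
  by_contra h
  push Not at h
  nlinarith

theorem ex_div (hp : PD N MM zf ff) {x : Fin 3 → ℝ} (hx : x ∈ MM) (h0 : 0 < x 0) :
    1 ≤ x 1 / x 0 ∧ x 1 / x 0 ≤ 2 * N - 1 ∧ 1 ≤ x 2 / x 0 ∧ x 2 / x 0 ≤ 2 * N - 1 := by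
  refine ⟨?_, ?_, ?_, ?_⟩
  · rw [le_div_iff₀ h0, one_mul]
    exact hp.lo1 x hx
  · rw [div_le_iff₀ h0]
    exact hp.hi1 x hx
  · rw [le_div_iff₀ h0, one_mul]
    exact hp.lo2 x hx
  · rw [div_le_iff₀ h0]
    exact hp.hi2 x hx

/-! ### frontier conditions and the two paths -/

theorem ex_nwL (hp : PD N MM zf ff) {x : Fin 3 → ℝ} (hx : x ∈ MM) (h0 : 0 < x 0)
    (h : NW MM x) : Lf zf x := by
  by_contra hL
  unfold Lf at hL
  push Not at hL
  obtain ⟨-, -, h1, h2⟩ := ex_div hp hx h0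
  have hlt : zf (x 2 / x 0) < x 1 / x 0 := by
    rw [lt_div_iff₀ h0]
    linarith
  rcases eq_or_lt_of_le h2 with h3 | h3
  · have h4 : x 2 = (2 * N - 1) * x 0 := by
      rw [← h3]
      field_simp
    have h5 := hp.z2 x hx h4
    rw [← h3] at h5
    linarith
  · obtain ⟨Y, hY1, hY2, hY3⟩ := ex_up hp.cz h3 hlt
    refine h _ (ex_memz hp h0.le (h1.trans hY1.le) hY2) rfl ⟨?_, ?_⟩
    · rw [lt_div_iff₀ h0] at hY3
      change x 0 * zf Y < x 1
      linarith
    · rw [div_lt_iff₀ h0] at hY1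
      change x 2 < x 0 * Y
      linarith

theorem ex_swL (hp : PD N MM zf ff) {x : Fin 3 → ℝ} (hx : x ∈ MM) (h0 : 0 < x 0)
    (h : SW MM x) (hL : ¬ Lf zf x) : x 2 = x 0 := by
  unfold Lf at hL
  push Not at hL
  obtain ⟨-, -, h1, h2⟩ := ex_div hp hx h0
  have hlt : zf (x 2 / x 0) < x 1 / x 0 := by
    rw [lt_div_iff₀ h0]
    linarith
  rcases eq_or_lt_of_le h1 with h3 | h3
  · field_simp at h3
    exact h3.symm
  · exfalso
    obtain ⟨Y, hY1, hY2, hY3⟩ := ex_down hp.cz h3 hlt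
    refine h _ (ex_memz hp h0.le hY2 (hY1.le.trans h2)) rfl ⟨?_, ?_⟩
    · rw [lt_div_iff₀ h0] at hY3
      change x 0 * zf Y < x 1
      linarith
    · rw [lt_div_iff₀ h0] at hY1
      change x 0 * Y < x 2
      linarith

theorem ex_seR (hp : PD N MM zf ff) {x : Fin 3 → ℝ} (hx : x ∈ MM) (h0 : 0 < x 0)
    (h : SE MM x) : Rt zf x := by
  by_contra hL
  unfold Rt at hL
  push Not at hL
  obtain ⟨-, -, h1, h2⟩ := ex_div hp hx h0
  have hlt : x 1 / x 0 < zf (x 2 / x 0) := by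
    rw [div_lt_iff₀ h0]
    linarith
  rcases eq_or_lt_of_le h1 with h3 | h3
  · have h4 : x 2 = x 0 := by
      field_simp at h3
      exact h3.symm
    have h5 := hp.z1 x hx h4
    rw [← h3] at hL
    linarith
  · obtain ⟨Y, hY1, hY2, hY3⟩ := ex_down' hp.cz h3 hlt
    refine h _ (ex_memz hp h0.le hY2 (hY1.le.trans h2)) rfl ⟨?_, ?_⟩
    · rw [div_lt_iff₀ h0] at hY3
      change x 1 < x 0 * zf Y
      linarith
    · rw [lt_div_iff₀ h0] at hY1
      change x 0 * Y < x 2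
      linarith

theorem ex_neR (hp : PD N MM zf ff) {x : Fin 3 → ℝ} (hx : x ∈ MM) (h0 : 0 < x 0)
    (h : NE MM x) (hL : ¬ Rt zf x) : x 2 = (2 * N - 1) * x 0 := by
  unfold Rt at hL
  push Not at hL
  obtain ⟨-, -, h1, h2⟩ := ex_div hp hx h0
  have hlt : x 1 / x 0 < zf (x 2 / x 0) := by
    rw [div_lt_iff₀ h0]
    linarith
  rcases eq_or_lt_of_le h2 with h3 | h3
  · rw [← h3]
    field_simp
  · exfalso
    obtain ⟨Y, hY1, hY2, hY3⟩ := ex_up' hp.cz h3 hlt
    refine h _ (ex_memz hp h0.le (h1.trans hY1.le) hY2) rfl ⟨?_, ?_⟩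
    · rw [div_lt_iff₀ h0] at hY3
      change x 1 < x 0 * zf Y
      linarith
    · rw [div_lt_iff₀ h0] at hY1
      change x 2 < x 0 * Y
      linarith

theorem ex_swB (hp : PD N MM zf ff) {x : Fin 3 → ℝ} (hx : x ∈ MM) (h0 : 0 < x 0)
    (h : SW MM x) : Bl ff x := by
  by_contra hL
  unfold Bl at hL
  push Not at hL
  obtain ⟨h1, h2, -, -⟩ := ex_div hp hx h0
  have hlt : ff (x 1 / x 0) < x 2 / x 0 := by
    rw [lt_div_iff₀ h0]
    linarith
  rcases eq_or_lt_of_le h1 with h3 | h3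
  · have h4 : x 1 = x 0 := by
      field_simp at h3
      exact h3.symm
    have h5 := hp.f1 x hx h4
    rw [← h3] at hL
    linarith
  · obtain ⟨Y, hY1, hY2, hY3⟩ := ex_down hp.cf h3 hlt
    refine h _ (ex_memf hp h0.le hY2 (hY1.le.trans h2)) rfl ⟨?_, ?_⟩
    · rw [lt_div_iff₀ h0] at hY1
      change x 0 * Y < x 1
      linarith
    · rw [lt_div_iff₀ h0] at hY3
      change x 0 * ff Y < x 2
      linarith

theorem ex_seB (hp : PD N MM zf ff) {x : Fin 3 → ℝ} (hx : x ∈ MM) (h0 : 0 < x 0)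
    (h : SE MM x) (hL : ¬ Bl ff x) : x 1 = (2 * N - 1) * x 0 := by
  unfold Bl at hL
  push Not at hL
  obtain ⟨h1, h2, -, -⟩ := ex_div hp hx h0
  have hlt : ff (x 1 / x 0) < x 2 / x 0 := by
    rw [lt_div_iff₀ h0]
    linarith
  rcases eq_or_lt_of_le h2 with h3 | h3
  · rw [← h3]
    field_simp
  · exfalso
    obtain ⟨Y, hY1, hY2, hY3⟩ := ex_up hp.cf h3 hlt
    refine h _ (ex_memf hp h0.le (h1.trans hY1.le) hY2) rfl ⟨?_, ?_⟩
    · rw [div_lt_iff₀ h0] at hY1
      change x 1 < x 0 * Y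
      linarith
    · rw [lt_div_iff₀ h0] at hY3
      change x 0 * ff Y < x 2
      linarith

theorem ex_neT (hp : PD N MM zf ff) {x : Fin 3 → ℝ} (hx : x ∈ MM) (h0 : 0 < x 0)
    (h : NE MM x) : Ab ff x := by
  by_contra hL
  unfold Ab at hL
  push Not at hL
  obtain ⟨h1, h2, -, -⟩ := ex_div hp hx h0
  have hlt : x 2 / x 0 < ff (x 1 / x 0) := by
    rw [div_lt_iff₀ h0]
    linarith
  rcases eq_or_lt_of_le h2 with h3 | h3
  · have h4 : x 1 = (2 * N - 1) * x 0 := by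
      rw [← h3]
      field_simp
    have h5 := hp.f2 x hx h4
    rw [← h3] at h5
    linarith
  · obtain ⟨Y, hY1, hY2, hY3⟩ := ex_up' hp.cf h3 hlt
    refine h _ (ex_memf hp h0.le (h1.trans hY1.le) hY2) rfl ⟨?_, ?_⟩
    · rw [div_lt_iff₀ h0] at hY1
      change x 1 < x 0 * Y
      linarith
    · rw [div_lt_iff₀ h0] at hY3
      change x 2 < x 0 * ff Y
      linarith

theorem ex_nwT (hp : PD N MM zf ff) {x : Fin 3 → ℝ} (hx : x ∈ MM) (h0 : 0 < x 0)
    (h : NW MM x) (hL : ¬ Ab ff x) : x 1 = x 0 := by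
  unfold Ab at hL
  push Not at hL
  obtain ⟨h1, h2, -, -⟩ := ex_div hp hx h0
  have hlt : x 2 / x 0 < ff (x 1 / x 0) := by
    rw [div_lt_iff₀ h0]
    linarith
  rcases eq_or_lt_of_le h1 with h3 | h3
  · field_simp at h3
    exact h3.symm
  · exfalso
    obtain ⟨Y, hY1, hY2, hY3⟩ := ex_down' hp.cf h3 hlt
    refine h _ (ex_memf hp h0.le hY2 (hY1.le.trans h2)) rfl ⟨?_, ?_⟩
    · rw [lt_div_iff₀ h0] at hY1
      change x 0 * Y < x 1
      linarith
    · rw [div_lt_iff₀ h0] at hY3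
      change x 2 < x 0 * ff Y
      linarith

/-! ### a representation with `x 0` maximal -/

/-- representations of `w` -/
structure ExV (N : ℝ) (MM : Set (Fin 3 → ℝ)) (w : Fin 4 → ℝ) (a : Fin 4 → ℝ) (x : Fin 3 → ℝ) :
    Prop where
  nn : ∀ i, 0 ≤ a i
  mem : x ∈ MM
  e0 : w 0 = a 0 + a 1 + 2 * x 0
  e1 : w 1 = a 2 + a 3 + 2 * x 0
  e2 : w 2 = N * a 1 + x 1
  e3 : w 3 = N * a 3 + x 2

theorem ex_max (hp : PD N MM zf ff) {w : Fin 4 → ℝ} (h1 : 0 ≤ w 2) (h2 : w 2 ≤ N * w 0)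
    (h3 : 0 ≤ w 3) (h4 : w 3 ≤ N * w 1) :
    ∃ a x, ExV N MM w a x ∧ ∀ a' x', ExV N MM w a' x' → x' 0 ≤ x 0 := by
  have hN := hp.hN
  have hN0 : 0 < N := by linarith
  set K : Set (Fin 3 → ℝ) := {x | x ∈ MM ∧ x 1 ≤ w 2 ∧ w 2 - x 1 ≤ N * (w 0 - 2 * x 0) ∧
    x 2 ≤ w 3 ∧ w 3 - x 2 ≤ N * (w 1 - 2 * x 0)} with hK
  have hclosed : IsClosed K := by
    have c0 : Continuous fun x : Fin 3 → ℝ => x 0 := continuous_apply 0
    have c1 : Continuous fun x : Fin 3 → ℝ => x 1 := continuous_apply 1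
    have c2 : Continuous fun x : Fin 3 → ℝ => x 2 := continuous_apply 2
    refine hp.closed.inter (IsClosed.inter ?_ (IsClosed.inter ?_ (IsClosed.inter ?_ ?_)))
    · exact isClosed_le c1 continuous_const
    · exact isClosed_le (continuous_const.sub c1)
        (continuous_const.mul (continuous_const.sub (continuous_const.mul c0)))
    · exact isClosed_le c2 continuous_const
    · exact isClosed_le (continuous_const.sub c2)
        (continuous_const.mul (continuous_const.sub (continuous_const.mul c0)))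
  have hbdd : K ⊆ Set.Icc (0 : Fin 3 → ℝ) ![w 0, w 2, w 3] := by
    rintro x ⟨hx, hx1, hx2, hx3, hx4⟩
    have g0 := ex_nonneg hp hx
    have g1 := hp.lo1 x hx
    have g2 := hp.lo2 x hx
    have g3 : 0 ≤ w 0 - 2 * x 0 := by
      by_contra hc
      push Not at hc
      nlinarith
    constructor
    · intro i
      fin_cases i
      · exact g0
      · exact g0.trans g1
      · exact g0.trans g2
    · intro i
      fin_cases i
      · change x 0 ≤ w 0
        linarith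
      · exact hx1
      · exact hx3
  have hcomp : IsCompact K := isCompact_Icc.of_isClosed_subset hclosed hbdd
  have hzero : (0 : Fin 3 → ℝ) ∈ MM := by
    have h := hp.smul _ (hp.memz 1 (le_refl 1) (by linarith)) 0 (le_refl 0)
    rwa [zero_smul] at h
  have hne : K.Nonempty := by
    refine ⟨0, hzero, ?_, ?_, ?_, ?_⟩
    · simpa using h1
    · simpa using h2
    · simpa using h3
    · simpa using h4
  obtain ⟨x, hx, hmax⟩ := hcomp.exists_isMaxOn hne (continuous_apply 0).continuousOn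
  obtain ⟨hxM, hx1, hx2, hx3, hx4⟩ := hx
  refine ⟨![w 0 - 2 * x 0 - (w 2 - x 1) / N, (w 2 - x 1) / N, w 1 - 2 * x 0 - (w 3 - x 2) / N,
    (w 3 - x 2) / N], x, ⟨?_, hxM, ?_, ?_, ?_, ?_⟩, ?_⟩
  · intro i
    fin_cases i
    · change 0 ≤ w 0 - 2 * x 0 - (w 2 - x 1) / N
      rw [sub_nonneg, div_le_iff₀ hN0]
      linarith
    · change 0 ≤ (w 2 - x 1) / N
      exact div_nonneg (by linarith) hN0.le
    · change 0 ≤ w 1 - 2 * x 0 - (w 3 - x 2) / N
      rw [sub_nonneg, div_le_iff₀ hN0]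
      linarith
    · change 0 ≤ (w 3 - x 2) / N
      exact div_nonneg (by linarith) hN0.le
  · change w 0 = w 0 - 2 * x 0 - (w 2 - x 1) / N + (w 2 - x 1) / N + 2 * x 0
    ring
  · change w 1 = w 1 - 2 * x 0 - (w 3 - x 2) / N + (w 3 - x 2) / N + 2 * x 0
    ring
  · change w 2 = N * ((w 2 - x 1) / N) + x 1
    field_simp
    ring
  · change w 3 = N * ((w 3 - x 2) / N) + x 2
    field_simp
    ring
  · intro a' x' h
    refine hmax ⟨h.mem, ?_, ?_, ?_, ?_⟩
    · have := mul_nonneg hN0.le (h.nn 1)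
      linarith [h.e2]
    · have := mul_nonneg hN0.le (h.nn 0)
      nlinarith [h.e2, h.e0]
    · have := mul_nonneg hN0.le (h.nn 3)
      linarith [h.e3]
    · have := mul_nonneg hN0.le (h.nn 2)
      nlinarith [h.e3, h.e1]

/-- new representation after moving `x 1` -/
theorem ExV.move1 {w a : Fin 4 → ℝ} {x : Fin 3 → ℝ} (hN : 0 < N) (h : ExV N MM w a x) {X : ℝ}
    (hX : (![x 0, X, x 2] : Fin 3 → ℝ) ∈ MM) (h1 : x 1 - N * a 0 ≤ X) (h2 : X ≤ x 1 + N * a 1) :
    ExV N MM w ![a 0 + (X - x 1) / N, a 1 - (X - x 1) / N, a 2, a 3] ![x 0, X, x 2] := by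
  refine ⟨?_, hX, ?_, ?_, ?_, ?_⟩
  · intro i
    fin_cases i
    · change 0 ≤ a 0 + (X - x 1) / N
      have : -a 0 ≤ (X - x 1) / N := by
        rw [le_div_iff₀ hN]
        linarith
      linarith
    · change 0 ≤ a 1 - (X - x 1) / N
      rw [sub_nonneg, div_le_iff₀ hN]
      linarith
    · exact h.nn 2
    · exact h.nn 3
  · change w 0 = a 0 + (X - x 1) / N + (a 1 - (X - x 1) / N) + 2 * x 0
    rw [h.e0]
    ring
  · exact h.e1
  · change w 2 = N * (a 1 - (X - x 1) / N) + X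
    rw [h.e2]
    field_simp
    ring
  · exact h.e3

/-- new representation after moving `x 2` -/
theorem ExV.move2 {w a : Fin 4 → ℝ} {x : Fin 3 → ℝ} (hN : 0 < N) (h : ExV N MM w a x) {Y : ℝ}
    (hY : (![x 0, x 1, Y] : Fin 3 → ℝ) ∈ MM) (h1 : x 2 - N * a 2 ≤ Y) (h2 : Y ≤ x 2 + N * a 3) :
    ExV N MM w ![a 0, a 1, a 2 + (Y - x 2) / N, a 3 - (Y - x 2) / N] ![x 0, x 1, Y] := by
  refine ⟨?_, hY, ?_, ?_, ?_, ?_⟩
  · intro i
    fin_cases i
    · exact h.nn 0
    · exact h.nn 1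
    · change 0 ≤ a 2 + (Y - x 2) / N
      have : -a 2 ≤ (Y - x 2) / N := by
        rw [le_div_iff₀ hN]
        linarith
      linarith
    · change 0 ≤ a 3 - (Y - x 2) / N
      rw [sub_nonneg, div_le_iff₀ hN]
      linarith
  · exact h.e0
  · change w 1 = a 2 + (Y - x 2) / N + (a 3 - (Y - x 2) / N) + 2 * x 0
    rw [h.e1]
    ring
  · exact h.e2
  · change w 3 = N * (a 3 - (Y - x 2) / N) + Y
    rw [h.e3]
    field_simp
    ring

theorem ex_pos0 {a0 X x1 : ℝ} (hN : 0 < N) (h : 0 < a0 + (X - x1) / N) : x1 - N * a0 < X := by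
  have h1 : -a0 < (X - x1) / N := by linarith
  rw [lt_div_iff₀ hN] at h1
  linarith

theorem ex_pos1 {a1 X x1 : ℝ} (hN : 0 < N) (h : 0 < a1 - (X - x1) / N) : X < x1 + N * a1 := by
  rw [sub_pos, div_lt_iff₀ hN] at h
  linarith

end

theorem exist (hlow : S_LOW) (hmaxf : S_MAXF) : S_EXIST := by
  intro N MM zf ff hp w hw1 hw2 hw3 hw4
  have hN := hp.hN
  have hN0 : 0 < N := by linarith
  obtain ⟨a, x, hv, hmax⟩ := ex_max hp hw1 hw2 hw3 hw4
  have hx := hv.mem
  have hnn := hv.nn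
  rcases eq_or_lt_of_le (ex_nonneg hp hx) with hz | h0
  · -- `x = 0`
    have hxz : ∀ y ∈ MM, y 0 = x 0 → y 1 = 0 ∧ y 2 = 0 := by
      intro y hy hy0
      have g1 := hp.lo1 y hy
      have g2 := hp.hi1 y hy
      have g3 := hp.lo2 y hy
      have g4 := hp.hi2 y hy
      rw [hy0, ← hz] at g1 g2 g3 g4
      constructor <;> linarith
    obtain ⟨hx1, hx2⟩ := hxz x hx rfl
    have hx0 : x 0 = 0 := hz.symm
    refine ⟨a, x, hnn, hx, ?_, ⟨?_, ?_, ?_, ?_, ?_, ?_, ?_, ?_⟩, hv.e0, hv.e1, hv.e2, hv.e3⟩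
    · by_contra hc
      push Not at hc
      have hpos : ∀ i, 0 < a i := fun i => lt_of_le_of_ne (hnn i) (hc i).symm
      -- a small multiple of `(1, zf 1, 1)`
      have hm1 : (1 : ℝ) ≤ 2 * N - 1 := by linarith
      have hz1 := hp.memz 1 (le_refl 1) hm1
      have hz0 : 1 ≤ zf 1 := by simpa using hp.lo1 _ hz1
      have hz2 : zf 1 ≤ 2 * N - 1 := by simpa using hp.hi1 _ hz1
      set m : ℝ := min (min (a 0) (a 1)) (min (a 2) (a 3)) with hm
      have hmpos : 0 < m := lt_min (lt_min (hpos 0) (hpos 1)) (lt_min (hpos 2) (hpos 3))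
      have hm0 : m ≤ a 0 := (min_le_left _ _).trans (min_le_left _ _)
      have hm1' : m ≤ a 1 := (min_le_left _ _).trans (min_le_right _ _)
      have hm2 : m ≤ a 2 := (min_le_right _ _).trans (min_le_left _ _)
      have hm3 : m ≤ a 3 := (min_le_right _ _).trans (min_le_right _ _)
      set e : ℝ := m / 2 with he
      have hepos : 0 < e := by positivity
      have hmem := ex_memz hp hepos.le (le_refl 1) hm1
      have hb1 : e * zf 1 / N ≤ 2 * e := by
        rw [div_le_iff₀ hN0]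
        nlinarith
      have hb2 : 0 ≤ e * zf 1 / N := div_nonneg (by positivity) hN0.le
      have hb3 : e * 1 / N ≤ 2 * e := by
        rw [div_le_iff₀ hN0]
        nlinarith
      have hb4 : 0 ≤ e * 1 / N := div_nonneg (by positivity) hN0.le
      have hv' : ExV N MM w ![a 0 - 2 * e + e * zf 1 / N, a 1 - e * zf 1 / N,
          a 2 - 2 * e + e * 1 / N, a 3 - e * 1 / N] ![e, e * zf 1, e * 1] := by
        refine ⟨?_, hmem, ?_, ?_, ?_, ?_⟩
        · intro i
          fin_cases i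
          · change 0 ≤ a 0 - 2 * e + e * zf 1 / N
            linarith
          · change 0 ≤ a 1 - e * zf 1 / N
            linarith
          · change 0 ≤ a 2 - 2 * e + e * 1 / N
            linarith
          · change 0 ≤ a 3 - e * 1 / N
            linarith
        · change w 0 = a 0 - 2 * e + e * zf 1 / N + (a 1 - e * zf 1 / N) + 2 * e
          rw [hv.e0, hx0]
          ring
        · change w 1 = a 2 - 2 * e + e * 1 / N + (a 3 - e * 1 / N) + 2 * e
          rw [hv.e1, hx0]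
          ring
        · change w 2 = N * (a 1 - e * zf 1 / N) + e * zf 1
          rw [hv.e2, hx1]
          field_simp
          ring
        · change w 3 = N * (a 3 - e * 1 / N) + e * 1
          rw [hv.e3, hx2]
          field_simp
          ring
      have h5 := hmax _ _ hv'
      rw [hx0] at h5
      change e ≤ 0 at h5
      linarith
    · intro _
      unfold Lf
      rw [hx0, hx1, zero_mul]
    · intro _
      unfold Rt
      rw [hx0, hx1, zero_mul]
    · intro _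
      unfold Bl
      rw [hx0, hx2, zero_mul]
    · intro _
      unfold Ab
      rw [hx0, hx2, zero_mul]
    · intro _ _ y hy hy0 hc
      rw [(hxz y hy hy0).1, hx1] at hc
      exact lt_irrefl _ hc.1
    · intro _ _ y hy hy0 hc
      rw [(hxz y hy hy0).1, hx1] at hc
      exact lt_irrefl _ hc.1
    · intro _ _ y hy hy0 hc
      rw [(hxz y hy hy0).1, hx1] at hc
      exact lt_irrefl _ hc.1
    · intro _ _ y hy hy0 hc
      rw [(hxz y hy hy0).1, hx1] at hc
      exact lt_irrefl _ hc.1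
  -- frontier conditions for every maximal representation
  have hM : ∀ a' x', ExV N MM w a' x' → x' 0 = x 0 →
      (0 < a' 0 → 0 < a' 2 → SW MM x') ∧ (0 < a' 1 → 0 < a' 2 → SE MM x') ∧
      (0 < a' 0 → 0 < a' 3 → NW MM x') ∧ (0 < a' 1 → 0 < a' 3 → NE MM x') := by
    intro a' x' h he
    refine hmaxf N MM zf ff hp w a' x' h.nn h.mem (by rw [he]; exact h0) h.e0 h.e1 h.e2 h.e3 ?_
    intro a'' x'' g1 g2 g3 g4 g5 g6
    rw [he]
    exact hmax a'' x'' ⟨g1, g2, g3, g4, g5, g6⟩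
  have fin : ∀ a' x', ExV N MM w a' x' → x' 0 = x 0 → (∃ i, a' i = 0) →
      (0 < a' 0 → Lf zf x') → (0 < a' 1 → Rt zf x') → (0 < a' 2 → Bl ff x') →
      (0 < a' 3 → Ab ff x') → ∃ (a : Fin 4 → ℝ) (x : Fin 3 → ℝ), Adm N MM zf ff w a x := by
    intro a' x' h he hs h1 h2 h3 h4
    obtain ⟨m1, m2, m3, m4⟩ := hM a' x' h he
    exact ⟨a', x', h.nn, h.mem, hs, ⟨h1, h2, h3, h4, m1, m2, m3, m4⟩, h.e0, h.e1, h.e2, h.e3⟩
  obtain ⟨m1, m2, m3, m4⟩ := hM a x hv rfl
  obtain ⟨d1, d2, d3, d4⟩ := ex_div hp hx h0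
  have hxe := ex_eta x
  have hN1 : (1 : ℝ) ≤ 2 * N - 1 := by linarith
  have hmx : (![x 0, x 1, x 2] : Fin 3 → ℝ) ∈ MM := by
    rw [← hxe]
    exact hx
  by_cases c1 : a 2 = 0 ∧ a 3 = 0
  · -- move `x 1` towards the `Z`-path
    set ζ : ℝ := x 0 * zf (x 2 / x 0) with hζ
    have hzm : (![x 0, ζ, x 2] : Fin 3 → ℝ) ∈ MM := by
      have h := ex_memz hp h0.le d3 d4
      rwa [mul_div_cancel₀ _ h0.ne'] at h
    set X : ℝ := max (x 1 - N * a 0) (min (x 1 + N * a 1) ζ) with hX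
    have g0 := mul_nonneg hN0.le (hnn 0)
    have g1 := mul_nonneg hN0.le (hnn 1)
    have hXm : (![x 0, X, x 2] : Fin 3 → ℝ) ∈ MM := by
      rcases le_total (x 1) ζ with h | h
      · refine ex_seg1 hp hmx hzm ?_ ?_
        · exact le_max_of_le_right (le_min (by linarith) h)
        · exact max_le (by linarith) (min_le_right _ _)
      · refine ex_seg1 hp hzm hmx ?_ ?_
        · exact le_max_of_le_right (le_min (by linarith) (le_refl _))
        · exact max_le (by linarith) ((min_le_right _ _).trans h)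
    have hv' := hv.move1 hN0 hXm (le_max_left _ _) (max_le (by linarith) (min_le_left _ _))
    refine fin _ _ hv' rfl ⟨2, c1.1⟩ ?_ ?_ ?_ ?_
    · intro h
      have h1 : x 1 - N * a 0 < X := ex_pos0 hN0 h
      change X ≤ ζ
      rcases lt_max_iff.1 h1 with h2 | h2
      · exact absurd h2 (lt_irrefl _)
      · exact max_le (h2.le.trans (min_le_right _ _)) (min_le_right _ _)
    · intro h
      have h1 : X < x 1 + N * a 1 := ex_pos1 hN0 h
      change ζ ≤ X
      have h2 := (le_max_right _ _).trans_lt h1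
      rcases min_lt_iff.1 h2 with h3 | h3
      · exact absurd h3 (lt_irrefl _)
      · exact le_max_of_le_right (le_min h3.le (le_refl _))
    · intro h
      change 0 < a 2 at h
      rw [c1.1] at h
      exact absurd h (lt_irrefl _)
    · intro h
      change 0 < a 3 at h
      rw [c1.2] at h
      exact absurd h (lt_irrefl _)
  by_cases c2 : a 0 = 0 ∧ a 1 = 0
  · -- move `x 2` towards the `F`-path
    set ζ : ℝ := x 0 * ff (x 1 / x 0) with hζ
    have hzm : (![x 0, x 1, ζ] : Fin 3 → ℝ) ∈ MM := by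
      have h := ex_memf hp h0.le d1 d2
      rwa [mul_div_cancel₀ _ h0.ne'] at h
    set X : ℝ := max (x 2 - N * a 2) (min (x 2 + N * a 3) ζ) with hX
    have g0 := mul_nonneg hN0.le (hnn 2)
    have g1 := mul_nonneg hN0.le (hnn 3)
    have hXm : (![x 0, x 1, X] : Fin 3 → ℝ) ∈ MM := by
      rcases le_total (x 2) ζ with h | h
      · refine ex_seg2 hp hmx hzm ?_ ?_
        · exact le_max_of_le_right (le_min (by linarith) h)
        · exact max_le (by linarith) (min_le_right _ _)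
      · refine ex_seg2 hp hzm hmx ?_ ?_
        · exact le_max_of_le_right (le_min (by linarith) (le_refl _))
        · exact max_le (by linarith) ((min_le_right _ _).trans h)
    have hv' := hv.move2 hN0 hXm (le_max_left _ _) (max_le (by linarith) (min_le_left _ _))
    refine fin _ _ hv' rfl ⟨0, c2.1⟩ ?_ ?_ ?_ ?_
    · intro h
      change 0 < a 0 at h
      rw [c2.1] at h
      exact absurd h (lt_irrefl _)
    · intro h
      change 0 < a 1 at h
      rw [c2.2] at h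
      exact absurd h (lt_irrefl _)
    · intro h
      have h1 : x 2 - N * a 2 < X := ex_pos0 hN0 h
      change X ≤ ζ
      rcases lt_max_iff.1 h1 with h2 | h2
      · exact absurd h2 (lt_irrefl _)
      · exact max_le (h2.le.trans (min_le_right _ _)) (min_le_right _ _)
    · intro h
      have h1 : X < x 2 + N * a 3 := ex_pos1 hN0 h
      change ζ ≤ X
      have h2 := (le_max_right _ _).trans_lt h1
      rcases min_lt_iff.1 h2 with h3 | h3
      · exact absurd h3 (lt_irrefl _)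
      · exact le_max_of_le_right (le_min h3.le (le_refl _))
  -- positivity alternatives
  have p23 : ¬ (0 < a 3) → 0 < a 2 := by
    intro h
    have h3 : a 3 = 0 := le_antisymm (not_lt.1 h) (hnn 3)
    exact lt_of_le_of_ne (hnn 2) fun h2 => c1 ⟨h2.symm, h3⟩
  have p32 : ¬ (0 < a 2) → 0 < a 3 := by
    intro h
    have h3 : a 2 = 0 := le_antisymm (not_lt.1 h) (hnn 2)
    exact lt_of_le_of_ne (hnn 3) fun h2 => c1 ⟨h3, h2.symm⟩
  have p01 : ¬ (0 < a 1) → 0 < a 0 := by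
    intro h
    have h3 : a 1 = 0 := le_antisymm (not_lt.1 h) (hnn 1)
    exact lt_of_le_of_ne (hnn 0) fun h2 => c2 ⟨h2.symm, h3⟩
  have p10 : ¬ (0 < a 0) → 0 < a 1 := by
    intro h
    have h3 : a 0 = 0 := le_antisymm (not_lt.1 h) (hnn 0)
    exact lt_of_le_of_ne (hnn 1) fun h2 => c2 ⟨h3, h2.symm⟩
  by_cases q0 : 0 < a 0 ∧ ¬ Lf zf x
  · -- slide left along the bottom side
    obtain ⟨hpos, hL⟩ := q0
    have ha3 : ¬ 0 < a 3 := fun h => hL (ex_nwL hp hx h0 (m3 hpos h))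
    have ha3' : a 3 = 0 := le_antisymm (not_lt.1 ha3) (hnn 3)
    have ha2 := p23 ha3
    have hx2 := ex_swL hp hx h0 (m1 hpos ha2) hL
    have hz1 := hp.z1 x hx hx2
    set X : ℝ := max (x 0 * zf 1) (x 1 - N * a 0) with hX
    have g0 := mul_nonneg hN0.le (hnn 0)
    have g1 := mul_nonneg hN0.le (hnn 1)
    have hXle : X ≤ x 1 := max_le hz1 (by linarith)
    have hzm : (![x 0, x 0 * zf 1, x 2] : Fin 3 → ℝ) ∈ MM := by
      have h := ex_memz hp h0.le (le_refl 1) hN1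
      rw [hx2]
      rwa [mul_one] at h
    have hXm : (![x 0, X, x 2] : Fin 3 → ℝ) ∈ MM := ex_seg1 hp hzm hmx (le_max_left _ _) hXle
    have hv' := hv.move1 hN0 hXm (le_max_right _ _) (by linarith)
    have hone : x 2 / x 0 = 1 := by rw [hx2, div_self h0.ne']
    refine fin _ _ hv' rfl ⟨3, ha3'⟩ ?_ ?_ ?_ ?_
    · intro h
      have h1 : x 1 - N * a 0 < X := ex_pos0 hN0 h
      change X ≤ x 0 * zf (x 2 / x 0)
      rw [hone]
      rcases lt_max_iff.1 h1 with h2 | h2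
      · exact max_le (le_refl _) h2.le
      · exact absurd h2 (lt_irrefl _)
    · intro _
      change x 0 * zf (x 2 / x 0) ≤ X
      rw [hone]
      exact le_max_left _ _
    · intro _
      change x 2 ≤ x 0 * ff (X / x 0)
      obtain ⟨b1, b2, -, -⟩ := ex_div hp hXm h0
      have h1 : 1 ≤ ff (X / x 0) := by simpa using hp.lo2 _ (hp.memf _ b1 b2)
      rw [hx2]
      nlinarith
    · intro h
      change 0 < a 3 at h
      exact absurd h ha3
  by_cases q1 : 0 < a 1 ∧ ¬ Rt zf x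
  · -- slide right along the top side
    obtain ⟨hpos, hL⟩ := q1
    have ha2 : ¬ 0 < a 2 := fun h => hL (ex_seR hp hx h0 (m2 hpos h))
    have ha2' : a 2 = 0 := le_antisymm (not_lt.1 ha2) (hnn 2)
    have ha3 := p32 ha2
    have hx2 := ex_neR hp hx h0 (m4 hpos ha3) hL
    have hz1 := hp.z2 x hx hx2
    set X : ℝ := min (x 0 * zf (2 * N - 1)) (x 1 + N * a 1) with hX
    have g0 := mul_nonneg hN0.le (hnn 0)
    have g1 := mul_nonneg hN0.le (hnn 1)
    have hXle : x 1 ≤ X := le_min hz1 (by linarith)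
    have hzm : (![x 0, x 0 * zf (2 * N - 1), x 2] : Fin 3 → ℝ) ∈ MM := by
      have h := ex_memz hp h0.le hN1 (le_refl (2 * N - 1))
      rw [hx2, mul_comm (2 * N - 1) (x 0)]
      exact h
    have hXm : (![x 0, X, x 2] : Fin 3 → ℝ) ∈ MM := ex_seg1 hp hmx hzm hXle (min_le_left _ _)
    have hv' := hv.move1 hN0 hXm (by linarith) (min_le_right _ _)
    have hone : x 2 / x 0 = 2 * N - 1 := by
      rw [hx2]
      field_simp
    refine fin _ _ hv' rfl ⟨2, ha2'⟩ ?_ ?_ ?_ ?_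
    · intro _
      change X ≤ x 0 * zf (x 2 / x 0)
      rw [hone]
      exact min_le_left _ _
    · intro h
      have h1 : X < x 1 + N * a 1 := ex_pos1 hN0 h
      change x 0 * zf (x 2 / x 0) ≤ X
      rw [hone]
      rcases min_lt_iff.1 h1 with h2 | h2
      · exact le_min (le_refl _) h2.le
      · exact absurd h2 (lt_irrefl _)
    · intro h
      change 0 < a 2 at h
      exact absurd h ha2
    · intro _
      change x 0 * ff (X / x 0) ≤ x 2
      obtain ⟨b1, b2, -, -⟩ := ex_div hp hXm h0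
      have h1 : ff (X / x 0) ≤ 2 * N - 1 := by simpa using hp.hi2 _ (hp.memf _ b1 b2)
      rw [hx2]
      nlinarith
  by_cases q2 : 0 < a 2 ∧ ¬ Bl ff x
  · -- slide down along the right side
    obtain ⟨hpos, hL⟩ := q2
    have ha0 : ¬ 0 < a 0 := fun h => hL (ex_swB hp hx h0 (m1 h hpos))
    have ha0' : a 0 = 0 := le_antisymm (not_lt.1 ha0) (hnn 0)
    have ha1 := p10 ha0
    have hx1 := ex_seB hp hx h0 (m2 ha1 hpos) hL
    have hz1 := hp.f2 x hx hx1
    set Y : ℝ := max (x 0 * ff (2 * N - 1)) (x 2 - N * a 2) with hY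
    have g0 := mul_nonneg hN0.le (hnn 2)
    have g1 := mul_nonneg hN0.le (hnn 3)
    have hYle : Y ≤ x 2 := max_le hz1 (by linarith)
    have hzm : (![x 0, x 1, x 0 * ff (2 * N - 1)] : Fin 3 → ℝ) ∈ MM := by
      have h := ex_memf hp h0.le hN1 (le_refl (2 * N - 1))
      rw [hx1, mul_comm (2 * N - 1) (x 0)]
      exact h
    have hYm : (![x 0, x 1, Y] : Fin 3 → ℝ) ∈ MM := ex_seg2 hp hzm hmx (le_max_left _ _) hYle
    have hv' := hv.move2 hN0 hYm (le_max_right _ _) (by linarith)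
    have hone : x 1 / x 0 = 2 * N - 1 := by
      rw [hx1]
      field_simp
    refine fin _ _ hv' rfl ⟨0, ha0'⟩ ?_ ?_ ?_ ?_
    · intro h
      change 0 < a 0 at h
      exact absurd h ha0
    · intro _
      change x 0 * zf (Y / x 0) ≤ x 1
      obtain ⟨-, -, b1, b2⟩ := ex_div hp hYm h0
      have h1 : zf (Y / x 0) ≤ 2 * N - 1 := by simpa using hp.hi1 _ (hp.memz _ b1 b2)
      rw [hx1]
      nlinarith
    · intro h
      have h1 : x 2 - N * a 2 < Y := ex_pos0 hN0 h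
      change Y ≤ x 0 * ff (x 1 / x 0)
      rw [hone]
      rcases lt_max_iff.1 h1 with h2 | h2
      · exact max_le (le_refl _) h2.le
      · exact absurd h2 (lt_irrefl _)
    · intro _
      change x 0 * ff (x 1 / x 0) ≤ Y
      rw [hone]
      exact le_max_left _ _
  by_cases q3 : 0 < a 3 ∧ ¬ Ab ff x
  · -- slide up along the left side
    obtain ⟨hpos, hL⟩ := q3
    have ha1 : ¬ 0 < a 1 := fun h => hL (ex_neT hp hx h0 (m4 h hpos))
    have ha1' : a 1 = 0 := le_antisymm (not_lt.1 ha1) (hnn 1)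
    have ha0 := p01 ha1
    have hx1 := ex_nwT hp hx h0 (m3 ha0 hpos) hL
    have hz1 := hp.f1 x hx hx1
    set Y : ℝ := min (x 0 * ff 1) (x 2 + N * a 3) with hY
    have g0 := mul_nonneg hN0.le (hnn 2)
    have g1 := mul_nonneg hN0.le (hnn 3)
    have hYle : x 2 ≤ Y := le_min hz1 (by linarith)
    have hzm : (![x 0, x 1, x 0 * ff 1] : Fin 3 → ℝ) ∈ MM := by
      have h := ex_memf hp h0.le (le_refl 1) hN1
      rw [hx1]
      rwa [mul_one] at h
    have hYm : (![x 0, x 1, Y] : Fin 3 → ℝ) ∈ MM := ex_seg2 hp hmx hzm hYle (min_le_left _ _)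
    have hv' := hv.move2 hN0 hYm (by linarith) (min_le_right _ _)
    have hone : x 1 / x 0 = 1 := by rw [hx1, div_self h0.ne']
    refine fin _ _ hv' rfl ⟨1, ha1'⟩ ?_ ?_ ?_ ?_
    · intro _
      change x 1 ≤ x 0 * zf (Y / x 0)
      obtain ⟨-, -, b1, b2⟩ := ex_div hp hYm h0
      have h1 : 1 ≤ zf (Y / x 0) := by simpa using hp.lo1 _ (hp.memz _ b1 b2)
      rw [hx1]
      nlinarith
    · intro h
      change 0 < a 1 at h
      exact absurd h ha1
    · intro _
      change Y ≤ x 0 * ff (x 1 / x 0)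
      rw [hone]
      exact min_le_left _ _
    · intro h
      have h1 : Y < x 2 + N * a 3 := ex_pos1 hN0 h
      change x 0 * ff (x 1 / x 0) ≤ Y
      rw [hone]
      rcases min_lt_iff.1 h1 with h2 | h2
      · exact le_min (le_refl _) h2.le
      · exact absurd h2 (lt_irrefl _)
  -- nothing to move
  refine fin a x hv rfl ?_ ?_ ?_ ?_ ?_
  · by_contra hc
    push Not at hc
    have hpos : ∀ i, 0 < a i := fun i => lt_of_le_of_ne (hnn i) (hc i).symm
    obtain ⟨l1, l2, -, -⟩ := hlow N MM zf ff hp x hx h0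
    have b1 := l1 (m1 (hpos 0) (hpos 2)) (m2 (hpos 1) (hpos 2)) _
      (ex_memz hp h0.le (le_refl 1) hN1) rfl
    have b2 := l2 (m3 (hpos 0) (hpos 3)) (m4 (hpos 1) (hpos 3)) _
      (ex_memz hp h0.le hN1 (le_refl (2 * N - 1))) rfl
    change x 2 ≤ x 0 * 1 at b1
    change x 0 * (2 * N - 1) ≤ x 2 at b2
    nlinarith
  · intro h
    by_contra hc
    exact q0 ⟨h, hc⟩
  · intro h
    by_contra hc
    exact q1 ⟨h, hc⟩
  · intro h
    by_contra hc
    exact q2 ⟨h, hc⟩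
  · intro h
    by_contra hc
    exact q3 ⟨h, hc⟩

end H6BW
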