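import Pool.Agent.Work.MP_6237c7_co.BW.Defs

/-! FAN4: the set `fan4` is a fan whose support is the cone of the four corner rays. -/

set_option autoImplicit false

namespace H6BW

open Finsupp H79KMW

lemma fan4_cr_inj {N : ℤ} (hN : N ≠ 0) : Function.Injective (cr N) := by
  intro i j h
  have h0 := congrFun h 0
  have h2 := congrFun h 2
  have h3 := congrFun h 3
  fin_cases i <;> fin_cases j <;> simp_all [cr]

lemma fan4_mid_inj : Function.Injective mid := by
  intro x y h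
  have h0 := congrFun h 0
  have h2 := congrFun h 2
  have h3 := congrFun h 3
  simp only [mid, Matrix.cons_val_zero, Matrix.cons_val] at h0 h2 h3
  funext i
  fin_cases i
  · simpa using h0
  · exact h2
  · exact h3

lemma fan4_cr_ne_mid {N : ℤ} (i : Fin 4) (x : Fin 3 → ℤ) : cr N i ≠ mid x := by
  intro h
  have h0 := congrFun h 0
  have h1 := congrFun h 1
  simp only [mid, Matrix.cons_val_zero, Matrix.cons_val_one] at h0 h1
  rw [← h0] at h1
  fin_cases i <;> simp [cr] at h1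

lemma fan4_cond_mono {MM : Set (Fin 3 → ℝ)} {zf ff : ℝ → ℝ} {P Q : Fin 4 → Prop} {x : Fin 3 → ℝ}
    (h : Cond MM zf ff P x) (hQ : ∀ i, Q i → P i) : Cond MM zf ff Q x where
  l := fun h0 => h.l (hQ _ h0)
  r := fun h0 => h.r (hQ _ h0)
  b := fun h0 => h.b (hQ _ h0)
  t := fun h0 => h.t (hQ _ h0)
  sw := fun h0 h1 => h.sw (hQ _ h0) (hQ _ h1)
  se := fun h0 h1 => h.se (hQ _ h0) (hQ _ h1)
  nw := fun h0 h1 => h.nw (hQ _ h0) (hQ _ h1)
  ne := fun h0 h1 => h.ne (hQ _ h0) (hQ _ h1)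

lemma fan4_coneOf_mono {n : ℕ} {P Q : Finset (Fin n → ℤ)} (h : P ⊆ Q) : coneOf P ⊆ coneOf Q := by
  rintro y ⟨a, ha, hs, rfl⟩
  exact ⟨a, ha, hs.trans h, rfl⟩

/-- The weight with corner coefficients `a` and middle part `b`. -/
noncomputable def fan4W (N : ℤ) (a : Fin 4 → ℝ) (b : (Fin 3 → ℤ) →₀ ℝ) : (Fin 4 → ℤ) →₀ ℝ :=
  (∑ i, single (cr N i) (a i)) + b.mapDomain mid

lemma fan4W_cr {N : ℤ} (hN : N ≠ 0) (a : Fin 4 → ℝ) (b : (Fin 3 → ℤ) →₀ ℝ) (i : Fin 4) :
    fan4W N a b (cr N i) = a i := by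
  classical
  rw [fan4W, Finsupp.add_apply, Finsupp.finsetSum_apply]
  have h1 : b.mapDomain mid (cr N i) = 0 := by
    apply Finsupp.mapDomain_of_notMem_range
    rintro ⟨x, hx⟩
    exact fan4_cr_ne_mid i x hx.symm
  rw [h1, add_zero, Finset.sum_eq_single i]
  · simp
  · intro j _ hj
    rw [Finsupp.single_apply, if_neg]
    exact fun h => hj (fan4_cr_inj hN h)
  · intro h; exact absurd (Finset.mem_univ _) h

lemma fan4W_mid {N : ℤ} (a : Fin 4 → ℝ) (b : (Fin 3 → ℤ) →₀ ℝ) (x : Fin 3 → ℤ) :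
    fan4W N a b (mid x) = b x := by
  classical
  rw [fan4W, Finsupp.add_apply, Finsupp.finsetSum_apply, Finsupp.mapDomain_apply fan4_mid_inj,
    Finset.sum_eq_zero, zero_add]
  intro j _
  rw [Finsupp.single_apply, if_neg]
  exact fan4_cr_ne_mid j x

lemma fan4W_other {N : ℤ} (a : Fin 4 → ℝ) (b : (Fin 3 → ℤ) →₀ ℝ) (y : Fin 4 → ℤ)
    (h1 : ∀ i, y ≠ cr N i) (h2 : ∀ x, y ≠ mid x) : fan4W N a b y = 0 := by
  classical
  rw [fan4W, Finsupp.add_apply, Finsupp.finsetSum_apply, Finsupp.mapDomain_of_notMem_range,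
    Finset.sum_eq_zero, zero_add]
  · intro j _
    rw [Finsupp.single_apply, if_neg]
    exact fun h => h1 j h.symm
  · rintro ⟨x, hx⟩
    exact h2 x hx.symm

lemma fan4_lc_mid (b : (Fin 3 → ℤ) →₀ ℝ) (i : Fin 4) :
    lc id (b.mapDomain mid) i = b.sum (fun x c => c * (mid x i : ℝ)) := by
  rw [lc_apply, Finsupp.sum_mapDomain_index]
  · rfl
  · intro y; simp
  · intro y c d; ring

lemma fan4_sum_mid (b : (Fin 3 → ℤ) →₀ ℝ) :
    b.sum (fun x c => c * (mid x 0 : ℝ)) = 2 * lc id b 0 ∧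
    b.sum (fun x c => c * (mid x 1 : ℝ)) = 2 * lc id b 0 ∧
    b.sum (fun x c => c * (mid x 2 : ℝ)) = lc id b 1 ∧
    b.sum (fun x c => c * (mid x 3 : ℝ)) = lc id b 2 := by
  simp only [lc_apply, Finsupp.sum, Finset.mul_sum]
  refine ⟨?_, ?_, ?_, ?_⟩ <;> refine Finset.sum_congr rfl fun x _ => ?_
  · simp [mid]; ring
  · simp [mid]; ring
  · simp [mid]
  · simp [mid]

lemma fan4_lc_cr (N : ℤ) (a : Fin 4 → ℝ) (i : Fin 4) :
    lc id (∑ j, single (cr N j) (a j)) i = ∑ j, a j * (cr N j i : ℝ) := by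
  rw [map_sum, Finset.sum_apply]
  refine Finset.sum_congr rfl fun j _ => ?_
  rw [lc_single]
  rfl

lemma fan4_lcW (N : ℤ) (a : Fin 4 → ℝ) (b : (Fin 3 → ℤ) →₀ ℝ) :
    lc id (fan4W N a b) 0 = a 0 + a 1 + 2 * lc id b 0 ∧
    lc id (fan4W N a b) 1 = a 2 + a 3 + 2 * lc id b 0 ∧
    lc id (fan4W N a b) 2 = (N : ℝ) * a 1 + lc id b 1 ∧
    lc id (fan4W N a b) 3 = (N : ℝ) * a 3 + lc id b 2 := by
  obtain ⟨h0, h1, h2, h3⟩ := fan4_sum_mid b
  refine ⟨?_, ?_, ?_, ?_⟩
  · rw [fan4W, map_add, Pi.add_apply, fan4_lc_cr, fan4_lc_mid, h0]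
    simp [Fin.sum_univ_four, cr]
  · rw [fan4W, map_add, Pi.add_apply, fan4_lc_cr, fan4_lc_mid, h1]
    simp [Fin.sum_univ_four, cr]
  · rw [fan4W, map_add, Pi.add_apply, fan4_lc_cr, fan4_lc_mid, h2]
    simp [Fin.sum_univ_four, cr]; ring
  · rw [fan4W, map_add, Pi.add_apply, fan4_lc_cr, fan4_lc_mid, h3]
    simp [Fin.sum_univ_four, cr]; ring

/-- Decomposition of the weights of `fan4`. -/
lemma fan4_dec {N : ℤ} {MM : Set (Fin 3 → ℝ)} {zf ff : ℝ → ℝ} {T : Set (Finset (Fin 3 → ℤ))}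
    (hN : N ≠ 0) (hT : IsCx id T) (hsupp : supp id T = MM) {w : (Fin 4 → ℤ) →₀ ℝ}
    (hw : w ∈ body (fan4 N MM zf ff T)) :
    ∃ (a : Fin 4 → ℝ) (b : (Fin 3 → ℤ) →₀ ℝ), b ∈ body T ∧ w = fan4W N a b ∧
      Adm (N : ℝ) MM zf ff (lc id w) a (lc id b) := by
  classical
  obtain ⟨hw0, S, τ, hτ, hS, hc, hs⟩ := hw
  let b : (Fin 3 → ℤ) →₀ ℝ := w.comapDomain mid fan4_mid_inj.injOn
  have hbx : ∀ x, b x = w (mid x) := fun x => Finsupp.comapDomain_apply _ _ _ _
  have hws : ∀ y, w y ≠ 0 ↔ y ∈ S.image (cr N) ∪ τ.image mid := by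
    intro y; rw [← hs, Finsupp.mem_support_iff]
  have hbsub : b.support ⊆ τ := by
    intro x hx
    rw [Finsupp.mem_support_iff, hbx, hws, Finset.mem_union] at hx
    rcases hx with hx | hx
    · rw [Finset.mem_image] at hx
      obtain ⟨i, _, hi⟩ := hx
      exact absurd hi (fan4_cr_ne_mid i x)
    · rw [Finset.mem_image] at hx
      obtain ⟨z, hz, hzx⟩ := hx
      rw [← fan4_mid_inj hzx]; exact hz
  have hb : b ∈ body T := ⟨fun x => by rw [hbx]; exact hw0 _, hT.down τ hτ _ hbsub⟩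
  have hwW : w = fan4W N (fun i => w (cr N i)) b := by
    ext y
    by_cases h1 : ∃ i, y = cr N i
    · obtain ⟨i, rfl⟩ := h1
      rw [fan4W_cr hN]
    · by_cases h2 : ∃ x, y = mid x
      · obtain ⟨x, rfl⟩ := h2
        rw [fan4W_mid, hbx]
      · rw [fan4W_other _ _ _ (fun i h => h1 ⟨i, h⟩) (fun x h => h2 ⟨x, h⟩)]
        by_contra h3
        rw [← ne_eq, hws, Finset.mem_union, Finset.mem_image, Finset.mem_image] at h3
        rcases h3 with ⟨i, _, hi⟩ | ⟨x, _, hx⟩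
        · exact h1 ⟨i, hi.symm⟩
        · exact h2 ⟨x, hx.symm⟩
  have hai : ∀ i, w (cr N i) ≠ 0 → i ∈ S := by
    intro i hi
    rw [hws, Finset.mem_union, Finset.mem_image, Finset.mem_image] at hi
    rcases hi with ⟨j, hj, hji⟩ | ⟨x, _, hx⟩
    · rw [← fan4_cr_inj hN hji]; exact hj
    · exact absurd hx.symm (fan4_cr_ne_mid i x)
  obtain ⟨e0, e1, e2, e3⟩ := fan4_lcW N (fun i => w (cr N i)) b
  rw [← hwW] at e0 e1 e2 e3
  refine ⟨fun i => w (cr N i), b, hb, hwW, ?_⟩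
  refine ⟨fun i => hw0 _, ?_, ?_, ?_, e0, e1, e2, e3⟩
  · rw [← hsupp]; exact ⟨b, hb, rfl⟩
  · by_contra hcon
    push Not at hcon
    exact hS (Finset.eq_univ_iff_forall.2 fun i => hai i (hcon i))
  · exact fan4_cond_mono (hc _ ⟨b, hb.1, hbsub, rfl⟩) (fun i hi => hai i (ne_of_gt hi))

/-- `fan4` is a fan with the right support. -/
theorem fan4x (hU : S_UNIQ) (hE : S_EXIST) : S_FAN4 := by
  classical
  intro N MM zf ff T hPD hT hsupp _ hcar
  have hN2 : (2 : ℝ) ≤ (N : ℝ) := hPD.hN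
  have hN : N ≠ 0 := by
    rintro rfl
    norm_num at hN2
  have hx0 : ∀ x ∈ MM, 0 ≤ x 0 := by
    intro x hx
    have h1 := hPD.lo1 x hx
    have h2 := hPD.hi1 x hx
    by_contra h
    push Not at h
    nlinarith
  refine ⟨⟨?_, ?_, ?_⟩, ?_⟩
  · -- finiteness
    refine ((Set.toFinite (Set.univ : Set (Finset (Fin 4)))).prod hT.fin).image
      (fun p => p.1.image (cr N) ∪ p.2.image mid) |>.subset ?_
    rintro s ⟨S, τ, hτ, _, _, rfl⟩
    exact ⟨(S, τ), ⟨Set.mem_univ _, hτ⟩, rfl⟩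
  · -- down
    rintro s ⟨S, τ, hτ, hS, hc, rfl⟩ t hts
    refine ⟨S.filter (fun i => cr N i ∈ t), τ.filter (fun x => mid x ∈ t),
      hT.down τ hτ _ (Finset.filter_subset _ _), ?_, ?_, ?_⟩
    · intro h
      exact hS (Finset.eq_univ_iff_forall.2 fun i => Finset.filter_subset _ _
        (h ▸ Finset.mem_univ i : i ∈ S.filter (fun i => cr N i ∈ t)))
    · intro m hm
      exact fan4_cond_mono (hc m (fan4_coneOf_mono (Finset.filter_subset _ _) hm))
        (fun i hi => (Finset.mem_filter.1 hi).1)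
    · ext y
      simp only [Finset.mem_union, Finset.mem_image, Finset.mem_filter]
      constructor
      · intro hy
        have := hts hy
        rw [Finset.mem_union, Finset.mem_image, Finset.mem_image] at this
        rcases this with ⟨i, hi, rfl⟩ | ⟨x, hx, rfl⟩
        · exact Or.inl ⟨i, ⟨hi, hy⟩, rfl⟩
        · exact Or.inr ⟨x, ⟨hx, hy⟩, rfl⟩
      · rintro (⟨i, ⟨_, hi⟩, rfl⟩ | ⟨x, ⟨_, hx⟩, rfl⟩)
        · exact hi
        · exact hx
  · -- injectivity
    intro w hw w' hw' heq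
    obtain ⟨a, b, hb, hwW, hadm⟩ := fan4_dec hN hT hsupp hw
    obtain ⟨a', b', hb', hwW', hadm'⟩ := fan4_dec hN hT hsupp hw'
    rw [heq] at hadm
    obtain ⟨h1, h2⟩ := hU _ _ _ _ hPD _ _ _ _ _ hadm hadm'
    have h3 : b = b' := hT.inj hb hb' h2
    rw [hwW, hwW', h1, h3]
  · ext w
    simp only [Set.mem_ofPred_eq]
    constructor
    · rintro ⟨v, hv, rfl⟩
      obtain ⟨a, b, hb, hwW, hadm⟩ := fan4_dec hN hT hsupp hv
      have m0 := hx0 _ hadm.mem
      have l1 := hPD.lo1 _ hadm.mem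
      have u1 := hPD.hi1 _ hadm.mem
      have l2 := hPD.lo2 _ hadm.mem
      have u2 := hPD.hi2 _ hadm.mem
      have n0 := hadm.nn 0
      have n1 := hadm.nn 1
      have n2 := hadm.nn 2
      have n3 := hadm.nn 3
      rw [hadm.e0, hadm.e1, hadm.e2, hadm.e3]
      refine ⟨?_, ?_, ?_, ?_⟩ <;> nlinarith
    · rintro ⟨w2, w2', w3, w3'⟩
      obtain ⟨a, x, hadm⟩ := hE _ _ _ _ hPD w w2 w2' w3 w3'
      have hx : x ∈ supp id T := by rw [hsupp]; exact hadm.mem
      obtain ⟨b, hb, rfl⟩ := hx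
      refine ⟨fan4W N a b, ⟨?_, ?_⟩, ?_⟩
      · intro y
        by_cases h1 : ∃ i, y = cr N i
        · obtain ⟨i, rfl⟩ := h1
          rw [fan4W_cr hN]; exact hadm.nn i
        · by_cases h2 : ∃ x, y = mid x
          · obtain ⟨x, rfl⟩ := h2
            rw [fan4W_mid]; exact hb.1 x
          · rw [fan4W_other _ _ _ (fun i h => h1 ⟨i, h⟩) (fun x h => h2 ⟨x, h⟩)]
      · refine ⟨Finset.univ.filter (fun i => 0 < a i), b.support, hb.2, ?_, ?_, ?_⟩
        · intro h
          obtain ⟨i, hi⟩ := hadm.some0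
          have : i ∈ Finset.univ.filter (fun i => 0 < a i) := by rw [h]; exact Finset.mem_univ _
          rw [Finset.mem_filter, hi] at this
          exact lt_irrefl _ this.2
        · intro m hm
          refine fan4_cond_mono (hcar (fun i => 0 < a i) b hb hadm.cond m hm) ?_
          intro i hi
          exact (Finset.mem_filter.1 hi).2
        · ext y
          rw [Finsupp.mem_support_iff, Finset.mem_union, Finset.mem_image, Finset.mem_image]
          constructor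
          · intro hy
            by_cases h1 : ∃ i, y = cr N i
            · obtain ⟨i, rfl⟩ := h1
              rw [fan4W_cr hN] at hy
              exact Or.inl ⟨i, Finset.mem_filter.2 ⟨Finset.mem_univ _,
                lt_of_le_of_ne (hadm.nn i) (Ne.symm hy)⟩, rfl⟩
            · by_cases h2 : ∃ x, y = mid x
              · obtain ⟨x, rfl⟩ := h2
                rw [fan4W_mid] at hy
                exact Or.inr ⟨x, Finsupp.mem_support_iff.2 hy, rfl⟩
              · exact absurd (fan4W_other _ _ _ (fun i h => h1 ⟨i, h⟩)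
                  (fun x h => h2 ⟨x, h⟩)) hy
          · rintro (⟨i, hi, rfl⟩ | ⟨x, hx, rfl⟩)
            · rw [fan4W_cr hN]
              exact ne_of_gt (Finset.mem_filter.1 hi).2
            · rw [fan4W_mid]
              exact Finsupp.mem_support_iff.1 hx
      · obtain ⟨e0, e1, e2, e3⟩ := fan4_lcW N a b
        funext i
        fin_cases i
        · exact e0.trans hadm.e0.symm
        · exact e1.trans hadm.e1.symm
        · exact e2.trans hadm.e2.symm
        · exact e3.trans hadm.e3.symm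

end H6BW
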