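import Pool.Agent.Work.MP_6237c7_co.BW.Finlp

/-!
MP_6237c7_co, bounded width: finitely many lattice points over the rays of the base fan (FINF).
-/

set_option autoImplicit false

namespace H6BW

open Finsupp H79KMW

theorem finf_lc {m n : ℕ} (A : Matrix (Fin m) (Fin n) ℤ) (a : (Fin n → ℤ) →₀ ℝ)
    {x : Fin n → ℤ} (hx : lc id a = rv x) :
    lc id (a.mapDomain (fun y => A.mulVec y)) = rv (A.mulVec x) := by
  rw [lc, Finsupp.linearCombination_mapDomain]
  funext i
  have h1 : ∀ j, (x j : ℝ) = ∑ y ∈ a.support, a y * (y j : ℝ) := by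
    intro j
    have h2 := congrFun hx j
    rw [lc_apply_of_subset a a.support subset_rfl j] at h2
    exact h2.symm
  rw [Finsupp.linearCombination_apply, Finsupp.sum, Finset.sum_apply]
  show ∑ y ∈ a.support, a y * ((A.mulVec y i : ℤ) : ℝ) = ((A.mulVec x i : ℤ) : ℝ)
  simp only [Matrix.mulVec, dotProduct]
  push_cast
  simp only [h1, Finset.mul_sum]
  rw [Finset.sum_comm]
  apply Finset.sum_congr rfl
  intro j _
  apply Finset.sum_congr rfl
  intro y _
  ring

theorem finf : S_FINF := by
  classical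
  intro m n A Δ K hΔ hK hA
  have key : {x : Fin n → ℤ | rv x ∈ supp id K ∧ ({A.mulVec x} : Finset (Fin m → ℤ)) ∈ Δ} ⊆
      ⋃ s ∈ K, {x : Fin n → ℤ | ∀ i, |x i| ≤ 1 * ∑ y ∈ s, ∑ j, |y j|} := by
    rintro x ⟨⟨a, ⟨ha, has⟩, hx⟩, hxΔ⟩
    rw [Set.mem_iUnion₂]
    refine ⟨a.support, has, fun i => ?_⟩
    apply finlp_bound a.support a ha subset_rfl _ hx i
    set a' : (Fin m → ℤ) →₀ ℝ := a.mapDomain (fun y => A.mulVec y) with ha'
    have h1 : a' ∈ body Δ := by
      refine ⟨fun z => ?_, ?_⟩
      · rw [ha', Finsupp.mapDomain, Finsupp.sum, Finsupp.finsetSum_apply]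
        apply Finset.sum_nonneg
        intro y _
        rw [Finsupp.single_apply]
        split_ifs
        · exact ha y
        · exact le_refl _
      · exact hΔ.down _ (hA _ has) _ Finsupp.mapDomain_support
    have h2 : single (A.mulVec x) (1 : ℝ) ∈ body Δ := by
      refine ⟨fun z => ?_, ?_⟩
      · rw [Finsupp.single_apply]
        split_ifs
        · exact zero_le_one
        · exact le_refl _
      · rw [Finsupp.support_single_ne_zero _ one_ne_zero]; exact hxΔ
    have h3 : a' = single (A.mulVec x) 1 := by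
      apply hΔ.inj h1 h2
      rw [lc_single, one_smul, ha', finf_lc A a hx]
      rfl
    have h4 : a'.sum (fun _ c => c) = a.sum (fun _ c => c) := by
      rw [ha', Finsupp.sum_mapDomain_index (fun _ => rfl) (fun _ _ _ => rfl)]
    rw [h3, Finsupp.sum_single_index rfl] at h4
    have h5 : a.sum (fun _ c => c) = ∑ y ∈ a.support, a y := rfl
    rw [← h5, ← h4]
    simp
  refine Set.Finite.subset (Set.Finite.biUnion hK.fin fun s _ => ?_) key
  exact finlp_finite _ _ fun x hx => hx

end H6BW
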