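import Pool.Agent.Work.MP_6237c7_co.BW.Defs

/-!
MP_6237c7_co, bounded width: finiteness of lattice points of bounded height (FINLP).
-/

set_option autoImplicit false

namespace H6BW

open Finsupp H79KMW

/-- bound for the coordinates of a nonnegative combination with bounded total weight -/
theorem finlp_bound {n : ℕ} (V : Finset (Fin n → ℤ)) (a : (Fin n → ℤ) →₀ ℝ)
    (ha : ∀ x, 0 ≤ a x) (hs : a.support ⊆ V) {T : ℤ} (hT : ∑ y ∈ V, a y ≤ (T : ℝ))
    {x : Fin n → ℤ} (hx : lc id a = rv x) (i : Fin n) :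
    |x i| ≤ T * ∑ y ∈ V, ∑ j, |y j| := by
  have h1 : (x i : ℝ) = ∑ y ∈ V, a y * (y i : ℝ) := by
    have h2 := congrFun hx i
    rw [lc_apply_of_subset a V hs i] at h2
    exact h2.symm
  have h2 : |(x i : ℝ)| ≤ ∑ y ∈ V, a y * ((∑ y ∈ V, ∑ j, |y j| : ℤ) : ℝ) := by
    rw [h1]
    refine (Finset.abs_sum_le_sum_abs _ _).trans (Finset.sum_le_sum fun y hy => ?_)
    rw [abs_mul, abs_of_nonneg (ha y)]
    apply mul_le_mul_of_nonneg_left _ (ha y)
    have h3 : |y i| ≤ ∑ y ∈ V, ∑ j, |y j| := by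
      calc |y i| ≤ ∑ j, |y j| :=
            Finset.single_le_sum (f := fun j => |y j|) (fun j _ => abs_nonneg _)
              (Finset.mem_univ i)
        _ ≤ ∑ y ∈ V, ∑ j, |y j| :=
            Finset.single_le_sum (f := fun y : Fin n → ℤ => ∑ j, |y j|)
              (fun y _ => Finset.sum_nonneg fun j _ => abs_nonneg _) hy
    exact_mod_cast h3
  rw [← Finset.sum_mul] at h2
  have h3 : (0 : ℝ) ≤ ((∑ y ∈ V, ∑ j, |y j| : ℤ) : ℝ) := by
    have : (0 : ℤ) ≤ ∑ y ∈ V, ∑ j, |y j| :=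
      Finset.sum_nonneg fun y _ => Finset.sum_nonneg fun j _ => abs_nonneg _
    exact_mod_cast this
  have h4 := h2.trans (mul_le_mul_of_nonneg_right hT h3)
  exact_mod_cast h4

theorem finlp_finite {n : ℕ} (S : Set (Fin n → ℤ)) (M : ℤ) (h : ∀ x ∈ S, ∀ i, |x i| ≤ M) :
    S.Finite := by
  refine (Set.finite_Icc (fun _ : Fin n => -M) (fun _ => M)).subset fun x hx => ?_
  exact ⟨fun i => (abs_le.mp (h x hx i)).1, fun i => (abs_le.mp (h x hx i)).2⟩

theorem finlp : S_FINLP := by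
  intro n V h hV
  apply finlp_finite _ (h * ∑ y ∈ V, ∑ j, |y j|)
  rintro x ⟨⟨a, ha, hs, hx⟩, hxh⟩ i
  apply finlp_bound V a ha hs _ hx i
  have h2 := congrFun hx 0
  rw [lc_apply_of_subset a V hs 0] at h2
  have h3 : ∑ y ∈ V, a y * ((id y : Fin (n + 1) → ℤ) 0 : ℝ) = ∑ y ∈ V, a y := by
    apply Finset.sum_congr rfl
    intro y hy
    rw [id, hV y hy]; simp
  rw [h3] at h2
  rw [h2]
  show ((x 0 : ℤ) : ℝ) ≤ (h : ℝ)
  exact_mod_cast hxh

end H6BW
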