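import Pool.Agent.Work.MP_6237c7_co.BW.Defs
import Pool.Agent.Work.MP_6237c7_co.Flip

set_option autoImplicit false

namespace H6BW

open Finsupp H79KMW

lemma flipFan_eq {n : ℕ} (K : Set (Finset (Fin n → ℤ))) (P Q : Finset (Fin n → ℤ)) :
    flipFan K P Q = H79KMW.flip K P Q := by
  classical
  ext s
  constructor
  · rintro (h1 | ⟨t, ht, hPt, x, hx, hs⟩)
    · exact Or.inl h1
    · refine Or.inr ⟨t, ht, hPt, x, hx, ?_⟩
      intro y hy
      rw [Finset.mem_union, Finset.mem_erase]
      rcases hs y hy with h | h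
      · exact Or.inl ⟨h.2, h.1⟩
      · exact Or.inr h
  · rintro (h1 | ⟨t, ht, hPt, x, hx, hs⟩)
    · exact Or.inl h1
    · refine Or.inr ⟨t, ht, hPt, x, hx, ?_⟩
      intro y hy
      have := hs hy
      rw [Finset.mem_union, Finset.mem_erase] at this
      rcases this with h | h
      · exact Or.inl ⟨h.2, h.1⟩
      · exact Or.inr h

theorem flip : S_FLIP := by
  intro n K c d hK hc0 hd0 hdisj hcne _ hcd hFL
  classical
  have hFL' : FL K c.support d.support := by
    intro s hs hcs y hy hys
    have h1 := hFL s hs hcs y hy hys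
      (s ∪ d.support.filter (fun z => z ≠ y)) (by
        intro z hz
        rw [Finset.mem_union, Finset.mem_filter] at hz
        exact hz)
    refine hK.down _ h1 _ ?_
    intro z hz
    rw [Finset.mem_union, Finset.mem_erase] at hz
    rw [Finset.mem_union, Finset.mem_filter]
    rcases hz with h | h
    · exact Or.inl h
    · exact Or.inr ⟨h.2, h.1⟩
  rw [flipFan_eq]
  exact ⟨flip_isCx hK hc0 hd0 hdisj hcne hcd hFL', flip_supp hK hc0 hd0 hdisj hcne hcd hFL'⟩

theorem flipT : S_FLIP := flip

end H6BW
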