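import Pool.Agent.Work.MP_6237c7_co.BW.Defs

/-!
MP_6237c7_co, bounded width in all but two directions: module GEN4 (multiplicities of the faces
of the four-dimensional fan).
-/

set_option autoImplicit false

namespace H6BW

open Finsupp H79KMW

/-- Two lattice points without lattice points between them and the corner generate. -/
private lemma gen4_planar (N d X Y X' Y' : ℤ)
    (hX : 0 < X) (hX2 : X < 2 * N) (hY : 0 < Y) (hY2 : Y < 2 * N)
    (hX' : 0 < X') (hX2' : X' < 2 * N) (hY' : 0 < Y') (hY2' : Y' < 2 * N)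
    (hd : N ∣ Y - d * X) (hd' : N ∣ Y' - d * X') (hne : ¬ (X = X' ∧ Y = Y'))
    (H : ∀ α β : ℝ, 0 ≤ α → 0 ≤ β → 0 < α + β → α + β ≤ 1 → α < 1 → β < 1 →
      ∀ q r : ℤ, 0 < q → q < 2 * N → 0 < r → r < 2 * N → N ∣ r - d * q →
      (q : ℝ) = α * X + β * X' → (r : ℝ) = α * Y + β * Y' → False) :
    ∀ A B : ℤ, N ∣ B - d * A → ∃ m n : ℤ, A = m * X + n * X' ∧ B = m * Y + n * Y' := by
  have rX : (0 : ℝ) < X := by exact_mod_cast hX
  have rY : (0 : ℝ) < Y := by exact_mod_cast hY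
  have rX' : (0 : ℝ) < X' := by exact_mod_cast hX'
  have rY' : (0 : ℝ) < Y' := by exact_mod_cast hY'
  have rX2 : (X : ℝ) < 2 * N := by exact_mod_cast hX2
  have rY2 : (Y : ℝ) < 2 * N := by exact_mod_cast hY2
  have rX2' : (X' : ℝ) < 2 * N := by exact_mod_cast hX2'
  have rY2' : (Y' : ℝ) < 2 * N := by exact_mod_cast hY2'
  have rN : (0 : ℝ) < 2 * N := rX.trans rX2
  -- the determinant
  have hD : (X * Y' - X' * Y : ℤ) ≠ 0 := by
    intro h0
    have h0' : (X : ℝ) * Y' = X' * Y := by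
      have := sub_eq_zero.1 h0
      exact_mod_cast this
    rcases lt_trichotomy X X' with h | h | h
    · have h' : (X : ℝ) < X' := by exact_mod_cast h
      refine H 0 (X / X') le_rfl (by positivity) (by positivity) ?_ zero_lt_one ?_ X Y hX hX2
        hY hY2 hd ?_ ?_
      · rw [zero_add, div_le_one rX']; exact h'.le
      · rw [div_lt_one rX']; exact h'
      · field_simp; ring
      · field_simp; linarith
    · subst h
      apply hne
      refine ⟨rfl, ?_⟩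
      have : (X : ℝ) * (Y' - Y) = 0 := by linarith
      rcases mul_eq_zero.1 this with h1 | h1
      · exact absurd h1 rX.ne'
      · have : (Y : ℝ) = Y' := by linarith
        exact_mod_cast this
    · have h' : (X' : ℝ) < X := by exact_mod_cast h
      refine H (X' / X) 0 (by positivity) le_rfl (by positivity) ?_ ?_ zero_lt_one X' Y' hX' hX2'
        hY' hY2' hd' ?_ ?_
      · rw [add_zero, div_le_one rX]; exact h'.le
      · rw [div_lt_one rX]; exact h'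
      · field_simp; ring
      · field_simp; linarith
  have hDr : ((X : ℝ) * Y' - X' * Y) ≠ 0 := by exact_mod_cast hD
  intro A B hAB
  set D : ℝ := (X : ℝ) * Y' - X' * Y with hDdef
  set α : ℝ := (A * Y' - B * X') / D with hα
  set β : ℝ := (X * B - Y * A) / D with hβ
  have e1 : (A : ℝ) = α * X + β * X' := by
    rw [hα, hβ]; field_simp; rw [hDdef]; ring
  have e2 : (B : ℝ) = α * Y + β * Y' := by
    rw [hα, hβ]; field_simp; rw [hDdef]; ring
  set m := ⌊α⌋ with hm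
  set n := ⌊β⌋ with hn
  have ha0 : 0 ≤ Int.fract α := Int.fract_nonneg α
  have hb0 : 0 ≤ Int.fract β := Int.fract_nonneg β
  have ha1 : Int.fract α < 1 := Int.fract_lt_one α
  have hb1 : Int.fract β < 1 := Int.fract_lt_one β
  have hfa : α = m + Int.fract α := (Int.floor_add_fract α).symm
  have hfb : β = n + Int.fract β := (Int.floor_add_fract β).symm
  set a := Int.fract α with ha
  set b := Int.fract β with hb
  have q1 : ((A - m * X - n * X' : ℤ) : ℝ) = a * X + b * X' := by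
    push_cast; rw [e1, hfa, hfb]; ring
  have q2 : ((B - m * Y - n * Y' : ℤ) : ℝ) = a * Y + b * Y' := by
    push_cast; rw [e2, hfa, hfb]; ring
  have hdiv : N ∣ (B - m * Y - n * Y') - d * (A - m * X - n * X') := by
    have h1 : (B - m * Y - n * Y') - d * (A - m * X - n * X')
        = (B - d * A) - m * (Y - d * X) - n * (Y' - d * X') := by ring
    rw [h1]
    exact ((hAB.sub (Dvd.dvd.mul_left hd m))).sub (Dvd.dvd.mul_left hd' n)
  rcases (add_nonneg ha0 hb0).eq_or_lt with h0 | hpos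
  · have ha' : a = 0 := by linarith
    have hb' : b = 0 := by linarith
    refine ⟨m, n, ?_, ?_⟩
    · rw [ha', hb'] at q1
      have : ((A - m * X - n * X' : ℤ) : ℝ) = 0 := by rw [q1]; ring
      have := Int.cast_eq_zero.1 this
      linarith
    · rw [ha', hb'] at q2
      have : ((B - m * Y - n * Y' : ℤ) : ℝ) = 0 := by rw [q2]; ring
      have := Int.cast_eq_zero.1 this
      linarith
  · exfalso
    rcases le_or_gt (a + b) 1 with hs | hs
    · have b1 : (0 : ℝ) < a * X + b * X' := by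
        rcases ha0.eq_or_lt with h | h
        · have : 0 < b := by linarith
          nlinarith [mul_pos this rX']
        · nlinarith [mul_pos h rX, mul_nonneg hb0 rX'.le]
      have b2 : (0 : ℝ) < a * Y + b * Y' := by
        rcases ha0.eq_or_lt with h | h
        · have : 0 < b := by linarith
          nlinarith [mul_pos this rY']
        · nlinarith [mul_pos h rY, mul_nonneg hb0 rY'.le]
      have b3 : a * X + b * X' < 2 * (N : ℝ) := by
        rcases ha0.eq_or_lt with h | h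
        · have : 0 < b := by linarith
          nlinarith [mul_pos this (sub_pos.2 rX2')]
        · nlinarith [mul_pos h (sub_pos.2 rX2), mul_nonneg hb0 (sub_pos.2 rX2').le]
      have b4 : a * Y + b * Y' < 2 * (N : ℝ) := by
        rcases ha0.eq_or_lt with h | h
        · have : 0 < b := by linarith
          nlinarith [mul_pos this (sub_pos.2 rY2')]
        · nlinarith [mul_pos h (sub_pos.2 rY2), mul_nonneg hb0 (sub_pos.2 rY2').le]
      refine H a b ha0 hb0 hpos hs ha1 hb1 _ _ ?_ ?_ ?_ ?_ hdiv q1 q2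
      · rw [← q1] at b1; exact_mod_cast b1
      · rw [← q1] at b3; exact_mod_cast b3
      · rw [← q2] at b2; exact_mod_cast b2
      · rw [← q2] at b4; exact_mod_cast b4
    · have hap : 0 < a := by linarith
      have hbp : 0 < b := by linarith
      have q1' : ((X + X' - (A - m * X - n * X') : ℤ) : ℝ) = (1 - a) * X + (1 - b) * X' := by
        have := q1
        push_cast at this ⊢
        linarith
      have q2' : ((Y + Y' - (B - m * Y - n * Y') : ℤ) : ℝ) = (1 - a) * Y + (1 - b) * Y' := by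
        have := q2
        push_cast at this ⊢
        linarith
      have hdiv' : N ∣ (Y + Y' - (B - m * Y - n * Y')) - d * (X + X' - (A - m * X - n * X')) := by
        have h1 : (Y + Y' - (B - m * Y - n * Y')) - d * (X + X' - (A - m * X - n * X'))
          = (Y - d * X) + (Y' - d * X') - ((B - m * Y - n * Y') - d * (A - m * X - n * X')) := by
          ring
        rw [h1]
        exact (hd.add hd').sub hdiv
      have ha2 : 0 < 1 - a := by linarith
      have hb2 : 0 < 1 - b := by linarith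
      have b1 : (0 : ℝ) < (1 - a) * X + (1 - b) * X' := by positivity
      have b2 : (0 : ℝ) < (1 - a) * Y + (1 - b) * Y' := by positivity
      have b3 : (1 - a) * X + (1 - b) * X' < 2 * (N : ℝ) := by
        nlinarith [mul_pos ha2 (sub_pos.2 rX2), mul_pos hb2 (sub_pos.2 rX2')]
      have b4 : (1 - a) * Y + (1 - b) * Y' < 2 * (N : ℝ) := by
        nlinarith [mul_pos ha2 (sub_pos.2 rY2), mul_pos hb2 (sub_pos.2 rY2')]
      refine H (1 - a) (1 - b) ha2.le hb2.le (by linarith) (by linarith) (by linarith)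
        (by linarith) _ _ ?_ ?_ ?_ ?_ hdiv' q1' q2'
      · rw [← q1'] at b1; exact_mod_cast b1
      · rw [← q1'] at b3; exact_mod_cast b3
      · rw [← q2'] at b2; exact_mod_cast b2
      · rw [← q2'] at b4; exact_mod_cast b4

private lemma gen4_mem_pts {N c : ℤ} {x : Fin 3 → ℤ} : x ∈ pts N c ↔
    x 0 = 1 ∧ 0 < x 1 ∧ x 1 < 2 * N ∧ 0 < x 2 ∧ x 2 < 2 * N ∧ N ∣ x 2 - c * x 1 := by
  unfold pts
  rw [Finset.mem_image]
  constructor
  · rintro ⟨y, hy, rfl⟩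
    rw [Finset.mem_filter, Finset.mem_product, Finset.mem_Ioo, Finset.mem_Ioo] at hy
    exact ⟨rfl, hy.1.1.1, hy.1.1.2, hy.1.2.1, hy.1.2.2, hy.2⟩
  · rintro ⟨h0, h1, h2, h3, h4, h5⟩
    refine ⟨(x 1, x 2), ?_, ?_⟩
    · rw [Finset.mem_filter, Finset.mem_product, Finset.mem_Ioo, Finset.mem_Ioo]
      exact ⟨⟨⟨h1, h2⟩, ⟨h3, h4⟩⟩, h5⟩
    · funext i
      fin_cases i
      · exact h0.symm
      · rfl
      · rfl

private lemma gen4_rv_mem {n : ℕ} {P : Finset (Fin n → ℤ)} {x : Fin n → ℤ} (hx : x ∈ P) :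
    rv x ∈ coneOf P := by
  classical
  refine ⟨single x 1, fun y => ?_, ?_, ?_⟩
  · rw [Finsupp.single_apply]; split_ifs <;> norm_num
  · refine Finsupp.support_single_subset.trans ?_
    rw [Finset.singleton_subset_iff]; exact hx
  · rw [lc_single, one_smul]; rfl

private lemma gen4_mono {n : ℕ} {P Q : Finset (Fin n → ℤ)} (h : P ⊆ Q) : coneOf P ⊆ coneOf Q := by
  rintro y ⟨a, h0, h1, h2⟩
  exact ⟨a, h0, h1.trans h, h2⟩

/-- Carrier of the barycentre. -/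
private lemma gen4_carrier {n : ℕ} {T : Set (Finset (Fin n → ℤ))} (hT : IsCx id T)
    {τ e : Finset (Fin n → ℤ)} (hτ : τ ∈ T) (he : e ∈ T)
    (h : ∑ x ∈ τ, rv x ∈ coneOf e) : τ ⊆ e := by
  classical
  obtain ⟨a, ha0, has, ha⟩ := h
  let w : (Fin n → ℤ) →₀ ℝ := ∑ x ∈ τ, single x 1
  have hwa : ∀ y, w y = if y ∈ τ then 1 else 0 := by
    intro y
    simp only [w, Finsupp.finsetSum_apply, Finsupp.single_apply]
    rw [Finset.sum_ite_eq']
  have hws : w.support = τ := by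
    ext y
    rw [Finsupp.mem_support_iff, hwa]
    split_ifs with h
    · simp [h]
    · simp [h]
  have h1 : w = a := by
    refine hT.inj ⟨fun y => ?_, ?_⟩ ⟨ha0, hT.down e he _ has⟩ ?_
    · rw [hwa]; split_ifs <;> norm_num
    · rw [hws]; exact hτ
    · rw [ha]
      simp only [w, map_sum, lc_single, one_smul, id]
  rw [← hws, h1]; exact has

/-- The corner lemma. -/
private lemma gen4_corner {N c : ℤ} {T : Set (Finset (Fin 3 → ℤ))} (hT : IsCx id T)
    (hvert : ∀ x ∈ pts N c, ({x} : Finset (Fin 3 → ℤ)) ∈ T)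
    {p p' : Fin 3 → ℤ} (hp : p ∈ pts N c) (hp' : p' ∈ pts N c) (hne : p ≠ p')
    (hT2 : ({p, p'} : Finset (Fin 3 → ℤ)) ∈ T) (ε₁ ε₂ K₁ K₂ : ℤ)
    (h₁ : (ε₁ = 1 ∧ K₁ = 0) ∨ (ε₁ = -1 ∧ K₁ = 2 * N))
    (h₂ : (ε₂ = 1 ∧ K₂ = 0) ∨ (ε₂ = -1 ∧ K₂ = 2 * N))
    (hc : ∀ m ∈ coneOf ({p, p'} : Finset (Fin 3 → ℤ)), ∀ y ∈ coneOf (pts N c), y 0 = m 0 →
      ¬ ((ε₁ : ℝ) * y 1 < ε₁ * m 1 ∧ (ε₂ : ℝ) * y 2 < ε₂ * m 2)) :
    ∀ A B : ℤ, N ∣ B - c * A → ∃ m n : ℤ, A = m * (p 1 - K₁) + n * (p' 1 - K₁) ∧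
      B = m * (p 2 - K₂) + n * (p' 2 - K₂) := by
  classical
  rw [gen4_mem_pts] at hp hp'
  obtain ⟨p0, p1, p2, p3, p4, p5⟩ := hp
  obtain ⟨p0', p1', p2', p3', p4', p5'⟩ := hp'
  have hs1 : ε₁ * ε₁ = 1 := by rcases h₁ with ⟨h, _⟩ | ⟨h, _⟩ <;> rw [h] <;> norm_num
  have hs2 : ε₂ * ε₂ = 1 := by rcases h₂ with ⟨h, _⟩ | ⟨h, _⟩ <;> rw [h] <;> norm_num
  have hK1 : N ∣ K₁ := by
    rcases h₁ with ⟨_, h⟩ | ⟨_, h⟩ <;> rw [h]
    · exact dvd_zero _
    · exact Dvd.intro_left _ rfl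
  have hK2 : N ∣ K₂ := by
    rcases h₂ with ⟨_, h⟩ | ⟨_, h⟩ <;> rw [h]
    · exact dvd_zero _
    · exact Dvd.intro_left _ rfl
  have hb1 : ∀ z : ℤ, 0 < z → z < 2 * N → 0 < ε₁ * (z - K₁) ∧ ε₁ * (z - K₁) < 2 * N := by
    intro z h h'
    rcases h₁ with ⟨h1, h2⟩ | ⟨h1, h2⟩ <;> rw [h1, h2] <;> constructor <;> linarith
  have hb2 : ∀ z : ℤ, 0 < z → z < 2 * N → 0 < ε₂ * (z - K₂) ∧ ε₂ * (z - K₂) < 2 * N := by
    intro z h h'
    rcases h₂ with ⟨h1, h2⟩ | ⟨h1, h2⟩ <;> rw [h1, h2] <;> constructor <;> linarith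
  have hb3 : ∀ z : ℤ, 0 < z → z < 2 * N → 0 < ε₁ * z + K₁ ∧ ε₁ * z + K₁ < 2 * N := by
    intro z h h'
    rcases h₁ with ⟨h1, h2⟩ | ⟨h1, h2⟩ <;> rw [h1, h2] <;> constructor <;> linarith
  have hb4 : ∀ z : ℤ, 0 < z → z < 2 * N → 0 < ε₂ * z + K₂ ∧ ε₂ * z + K₂ < 2 * N := by
    intro z h h'
    rcases h₂ with ⟨h1, h2⟩ | ⟨h1, h2⟩ <;> rw [h1, h2] <;> constructor <;> linarith
  have hdv : ∀ z : Fin 3 → ℤ, N ∣ z 2 - c * z 1 →
      N ∣ ε₂ * (z 2 - K₂) - (ε₁ * ε₂ * c) * (ε₁ * (z 1 - K₁)) := by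
    intro z hz
    have e : ε₂ * (z 2 - K₂) - (ε₁ * ε₂ * c) * (ε₁ * (z 1 - K₁))
        = ε₂ * ((z 2 - K₂) - (ε₁ * ε₁) * c * (z 1 - K₁)) := by ring
    rw [e, hs1]
    have e' : z 2 - K₂ - 1 * c * (z 1 - K₁) = (z 2 - c * z 1) - K₂ + c * K₁ := by ring
    rw [e']
    exact Dvd.dvd.mul_left ((hz.sub hK2).add (Dvd.dvd.mul_left hK1 c)) _
  have hr1 : (ε₁ : ℝ) * ε₁ = 1 := by exact_mod_cast hs1
  have hr2 : (ε₂ : ℝ) * ε₂ = 1 := by exact_mod_cast hs2
  have key := gen4_planar N (ε₁ * ε₂ * c) (ε₁ * (p 1 - K₁)) (ε₂ * (p 2 - K₂))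
    (ε₁ * (p' 1 - K₁)) (ε₂ * (p' 2 - K₂)) (hb1 _ p1 p2).1 (hb1 _ p1 p2).2 (hb2 _ p3 p4).1
    (hb2 _ p3 p4).2 (hb1 _ p1' p2').1 (hb1 _ p1' p2').2 (hb2 _ p3' p4').1 (hb2 _ p3' p4').2
    (hdv p p5) (hdv p' p5') ?_ ?_
  · intro A B hAB
    obtain ⟨m, n, e1, e2⟩ := key (ε₁ * A) (ε₂ * B) (by
      have e : ε₂ * B - ε₁ * ε₂ * c * (ε₁ * A) = ε₂ * (B - (ε₁ * ε₁) * c * A) := by ring
      rw [e, hs1, one_mul]
      exact Dvd.dvd.mul_left hAB _)
    refine ⟨m, n, ?_, ?_⟩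
    · have : ε₁ * (ε₁ * A) = ε₁ * (m * (ε₁ * (p 1 - K₁)) + n * (ε₁ * (p' 1 - K₁))) := by rw [e1]
      have h3 : (ε₁ * ε₁) * A = (ε₁ * ε₁) * (m * (p 1 - K₁) + n * (p' 1 - K₁)) := by
        linear_combination this
      rwa [hs1, one_mul, one_mul] at h3
    · have : ε₂ * (ε₂ * B) = ε₂ * (m * (ε₂ * (p 2 - K₂)) + n * (ε₂ * (p' 2 - K₂))) := by rw [e2]
      have h3 : (ε₂ * ε₂) * B = (ε₂ * ε₂) * (m * (p 2 - K₂) + n * (p' 2 - K₂)) := by
        linear_combination this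
      rwa [hs2, one_mul, one_mul] at h3
  · rintro ⟨h1, h2⟩
    apply hne
    have g1 : ε₁ * (ε₁ * (p 1 - K₁)) = ε₁ * (ε₁ * (p' 1 - K₁)) := by rw [h1]
    have g2 : ε₂ * (ε₂ * (p 2 - K₂)) = ε₂ * (ε₂ * (p' 2 - K₂)) := by rw [h2]
    rw [← mul_assoc, ← mul_assoc, hs1] at g1
    rw [← mul_assoc, ← mul_assoc, hs2] at g2
    funext i
    fin_cases i
    · exact p0.trans p0'.symm
    · show p 1 = p' 1
      linarith
    · show p 2 = p' 2
      linarith
  · intro α β hα hβ hs0 hs1' hα1 hβ1 q r hq0 hq1 hr0 hr1' hqr eq er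
    -- the lattice point
    let z : Fin 3 → ℤ := ![1, ε₁ * q + K₁, ε₂ * r + K₂]
    have hz : z ∈ pts N c := by
      rw [gen4_mem_pts]
      refine ⟨rfl, (hb3 q hq0 hq1).1, (hb3 q hq0 hq1).2, (hb4 r hr0 hr1').1, (hb4 r hr0 hr1').2, ?_⟩
      show N ∣ (ε₂ * r + K₂) - c * (ε₁ * q + K₁)
      have e : (ε₂ * r + K₂) - c * (ε₁ * q + K₁)
          = ε₂ * (r - ε₁ * ε₂ * c * q) + (ε₂ * ε₂ - 1) * c * ε₁ * q + K₂ - c * K₁ := by ring
      rw [e, hs2]
      have e' : ε₂ * (r - ε₁ * ε₂ * c * q) + (1 - 1) * c * ε₁ * q + K₂ - c * K₁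
          = ε₂ * (r - ε₁ * ε₂ * c * q) + K₂ - c * K₁ := by ring
      rw [e']
      exact ((Dvd.dvd.mul_left hqr _).add hK2).sub (Dvd.dvd.mul_left hK1 c)
    have z1 : (rv z) 1 = ε₁ * q + K₁ := by
      show ((ε₁ * q + K₁ : ℤ) : ℝ) = _
      push_cast; ring
    have z2 : (rv z) 2 = ε₂ * r + K₂ := by
      show ((ε₂ * r + K₂ : ℤ) : ℝ) = _
      push_cast; ring
    have eq' : (q : ℝ) = ε₁ * (α * (p 1 - K₁) + β * (p' 1 - K₁)) := by
      rw [eq]; push_cast; ring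
    have er' : (r : ℝ) = ε₂ * (α * (p 2 - K₂) + β * (p' 2 - K₂)) := by
      rw [er]; push_cast; ring
    have hpm : rv p ∈ coneOf ({p, p'} : Finset (Fin 3 → ℤ)) := gen4_rv_mem (by simp)
    have hpm' : rv p' ∈ coneOf ({p, p'} : Finset (Fin 3 → ℤ)) := gen4_rv_mem (by simp)
    rcases hs1'.eq_or_lt with hs | hs
    · -- on the segment
      have h1 : lc id (single p α + single p' β) = lc id (single z (1 : ℝ)) := by
        rw [map_add, lc_single, lc_single, lc_single, one_smul]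
        funext i
        fin_cases i
        · show α * ((p 0 : ℤ) : ℝ) + β * ((p' 0 : ℤ) : ℝ) = ((1 : ℤ) : ℝ)
          rw [p0, p0']; push_cast; linarith
        · show α * ((p 1 : ℤ) : ℝ) + β * ((p' 1 : ℤ) : ℝ) = (rv z) 1
          rw [z1, eq', ← mul_assoc, hr1]
          have : α = 1 - β := by linarith
          rw [this]; ring
        · show α * ((p 2 : ℤ) : ℝ) + β * ((p' 2 : ℤ) : ℝ) = (rv z) 2
          rw [z2, er', ← mul_assoc, hr2]
          have : α = 1 - β := by linarith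
          rw [this]; ring
      have h2 : single p α + single p' β = single z (1 : ℝ) := by
        refine hT.inj ⟨fun y => ?_, ?_⟩ ⟨fun y => ?_, ?_⟩ h1
        · rw [Finsupp.add_apply]
          refine add_nonneg ?_ ?_
          · rw [Finsupp.single_apply]; split_ifs
            · exact hα
            · exact le_rfl
          · rw [Finsupp.single_apply]; split_ifs
            · exact hβ
            · exact le_rfl
        · refine hT.down _ hT2 _ ?_
          refine supp_add_subset _ _ _ ?_ ?_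
          · exact Finsupp.support_single_subset.trans (by simp)
          · exact Finsupp.support_single_subset.trans (by simp)
        · rw [Finsupp.single_apply]; split_ifs <;> norm_num
        · rw [Finsupp.support_single _ one_ne_zero]; exact hvert z hz
      have h3 := DFunLike.congr_fun h2 p
      rw [Finsupp.add_apply, Finsupp.single_eq_same, Finsupp.single_apply, if_neg (Ne.symm hne),
        Finsupp.single_apply] at h3
      split_ifs at h3 with h4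
      · linarith
      · linarith
    · -- strictly inside
      set s := α + β with hsdef
      have hm : (α / s) • rv p + (β / s) • rv p' ∈ coneOf ({p, p'} : Finset (Fin 3 → ℤ)) :=
        coneOf_add _ (coneOf_smul _ hpm (by positivity)) (coneOf_smul _ hpm' (by positivity))
      refine hc _ hm (rv z) (gen4_rv_mem hz) ?_ ⟨?_, ?_⟩
      · show ((1 : ℤ) : ℝ) = (α / s) * ((p 0 : ℤ) : ℝ) + (β / s) * ((p' 0 : ℤ) : ℝ)
        rw [p0, p0']; push_cast; field_simp; rw [hsdef]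
      · have hq0' : (0 : ℝ) < q := by exact_mod_cast hq0
        have e : (ε₁ : ℝ) * ((α / s) • rv p + (β / s) • rv p') 1 = q / s + ε₁ * K₁ := by
          show (ε₁ : ℝ) * ((α / s) * ((p 1 : ℤ) : ℝ) + (β / s) * ((p' 1 : ℤ) : ℝ)) = _
          rw [eq']; field_simp; rw [hsdef]; ring
        rw [e, z1]
        have : (q : ℝ) < q / s := by
          rw [lt_div_iff₀ hs0]; nlinarith
        have e2 : (ε₁ : ℝ) * (ε₁ * q + K₁) = q + ε₁ * K₁ := by
          have : (ε₁ : ℝ) * (ε₁ * q + K₁) = (ε₁ * ε₁) * q + ε₁ * K₁ := by ring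
          rw [this, hr1]; ring
        rw [e2]; linarith
      · have hr0' : (0 : ℝ) < r := by exact_mod_cast hr0
        have e : (ε₂ : ℝ) * ((α / s) • rv p + (β / s) • rv p') 2 = r / s + ε₂ * K₂ := by
          show (ε₂ : ℝ) * ((α / s) * ((p 2 : ℤ) : ℝ) + (β / s) * ((p' 2 : ℤ) : ℝ)) = _
          rw [er']; field_simp; rw [hsdef]; ring
        rw [e, z2]
        have : (r : ℝ) < r / s := by
          rw [lt_div_iff₀ hs0]; nlinarith
        have e2 : (ε₂ : ℝ) * (ε₂ * r + K₂) = r + ε₂ * K₂ := by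
          have : (ε₂ : ℝ) * (ε₂ * r + K₂) = (ε₂ * ε₂) * r + ε₂ * K₂ := by ring
          rw [this, hr2]; ring
        rw [e2]; linarith

section fin
variable {N c : ℤ} {P : Submodule ℤ (Fin 4 → ℤ)}

private lemma gen4_fin1 {a b : ℤ} (ha : N ∣ a) (hb : N ∣ b) (h1 : ![1, 0, a, 0] ∈ P)
    (h2 : ![0, 1, 0, b] ∈ P) (hL : ∀ A B : ℤ, N ∣ B - c * A → ![0, 0, A, B] ∈ P)
    (x : Fin 4 → ℤ) (hx : N ∣ x 3 - c * x 2) : (2 : ℤ) • x ∈ P := by
  refine P.smul_mem _ ?_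
  have e : x = x 0 • ![1, 0, a, 0] + x 1 • ![0, 1, 0, b] +
      ![0, 0, x 2 - x 0 * a, x 3 - x 1 * b] := by
    funext i
    fin_cases i <;> simp
  rw [e]
  refine P.add_mem (P.add_mem (P.smul_mem _ h1) (P.smul_mem _ h2)) (hL _ _ ?_)
  have e2 : x 3 - x 1 * b - c * (x 2 - x 0 * a) = (x 3 - c * x 2) - x 1 * b + c * x 0 * a := by
    ring
  rw [e2]
  exact (hx.sub (Dvd.dvd.mul_left hb _)).add (Dvd.dvd.mul_left ha _)

private lemma gen4_fin2 {a X Y : ℤ} (ha : N ∣ a) (h1 : ![1, 0, a, 0] ∈ P)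
    (hXY : N ∣ Y - c * X) (h2 : ![2, 2, X, Y] ∈ P)
    (hL : ∀ A B : ℤ, N ∣ B - c * A → ![0, 0, A, B] ∈ P)
    (x : Fin 4 → ℤ) (hx : N ∣ x 3 - c * x 2) : (2 : ℤ) • x ∈ P := by
  have e : (2 : ℤ) • x = (2 * x 0 - 2 * x 1) • ![1, 0, a, 0] + x 1 • ![2, 2, X, Y] +
      ![0, 0, 2 * x 2 - (2 * x 0 - 2 * x 1) * a - x 1 * X, 2 * x 3 - x 1 * Y] := by
    funext i
    fin_cases i <;> simp <;> ring
  rw [e]
  refine P.add_mem (P.add_mem (P.smul_mem _ h1) (P.smul_mem _ h2)) (hL _ _ ?_)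
  have e2 : 2 * x 3 - x 1 * Y - c * (2 * x 2 - (2 * x 0 - 2 * x 1) * a - x 1 * X)
      = 2 * (x 3 - c * x 2) - x 1 * (Y - c * X) + c * (2 * x 0 - 2 * x 1) * a := by
    ring
  rw [e2]
  exact ((Dvd.dvd.mul_left hx _).sub (Dvd.dvd.mul_left hXY _)).add (Dvd.dvd.mul_left ha _)

private lemma gen4_fin3 {b X Y : ℤ} (hb : N ∣ b) (h1 : ![0, 1, 0, b] ∈ P)
    (hXY : N ∣ Y - c * X) (h2 : ![2, 2, X, Y] ∈ P)
    (hL : ∀ A B : ℤ, N ∣ B - c * A → ![0, 0, A, B] ∈ P)
    (x : Fin 4 → ℤ) (hx : N ∣ x 3 - c * x 2) : (2 : ℤ) • x ∈ P := by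
  have e : (2 : ℤ) • x = (2 * x 1 - 2 * x 0) • ![0, 1, 0, b] + x 0 • ![2, 2, X, Y] +
      ![0, 0, 2 * x 2 - x 0 * X, 2 * x 3 - (2 * x 1 - 2 * x 0) * b - x 0 * Y] := by
    funext i
    fin_cases i <;> simp <;> ring
  rw [e]
  refine P.add_mem (P.add_mem (P.smul_mem _ h1) (P.smul_mem _ h2)) (hL _ _ ?_)
  have e2 : 2 * x 3 - (2 * x 1 - 2 * x 0) * b - x 0 * Y - c * (2 * x 2 - x 0 * X)
      = 2 * (x 3 - c * x 2) - x 0 * (Y - c * X) - (2 * x 1 - 2 * x 0) * b := by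
    ring
  rw [e2]
  exact ((Dvd.dvd.mul_left hx _).sub (Dvd.dvd.mul_left hXY _)).sub (Dvd.dvd.mul_left hb _)

private lemma gen4_fin4 {a : ℤ} (ha : N ∣ a) (h1 : ![1, 0, a, 0] ∈ P)
    (hM : ∀ y : Fin 3 → ℤ, N ∣ y 2 - c * y 1 → mid y ∈ P)
    (x : Fin 4 → ℤ) (hx : N ∣ x 3 - c * x 2) : (2 : ℤ) • x ∈ P := by
  have e : (2 : ℤ) • x = (2 * x 0 - 2 * x 1) • ![1, 0, a, 0] +
      mid ![x 1, 2 * x 2 - (2 * x 0 - 2 * x 1) * a, 2 * x 3] := by
    funext i
    fin_cases i <;> simp [mid]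
  rw [e]
  refine P.add_mem (P.smul_mem _ h1) (hM _ ?_)
  show N ∣ 2 * x 3 - c * (2 * x 2 - (2 * x 0 - 2 * x 1) * a)
  have e2 : 2 * x 3 - c * (2 * x 2 - (2 * x 0 - 2 * x 1) * a)
      = 2 * (x 3 - c * x 2) + c * (2 * x 0 - 2 * x 1) * a := by
    ring
  rw [e2]
  exact (Dvd.dvd.mul_left hx _).add (Dvd.dvd.mul_left ha _)

private lemma gen4_fin5 {b : ℤ} (hb : N ∣ b) (h1 : ![0, 1, 0, b] ∈ P)
    (hM : ∀ y : Fin 3 → ℤ, N ∣ y 2 - c * y 1 → mid y ∈ P)
    (x : Fin 4 → ℤ) (hx : N ∣ x 3 - c * x 2) : (2 : ℤ) • x ∈ P := by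
  have e : (2 : ℤ) • x = (2 * x 1 - 2 * x 0) • ![0, 1, 0, b] +
      mid ![x 0, 2 * x 2, 2 * x 3 - (2 * x 1 - 2 * x 0) * b] := by
    funext i
    fin_cases i <;> simp [mid]
  rw [e]
  refine P.add_mem (P.smul_mem _ h1) (hM _ ?_)
  show N ∣ 2 * x 3 - (2 * x 1 - 2 * x 0) * b - c * (2 * x 2)
  have e2 : 2 * x 3 - (2 * x 1 - 2 * x 0) * b - c * (2 * x 2)
      = 2 * (x 3 - c * x 2) - (2 * x 1 - 2 * x 0) * b := by
    ring
  rw [e2]
  exact (Dvd.dvd.mul_left hx _).sub (Dvd.dvd.mul_left hb _)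

/-- generation from a corner -/
private lemma gen4_dir {a b : ℤ} (h1 : ![1, 0, a, 0] ∈ P) (h2 : ![0, 1, 0, b] ∈ P)
    {p p' : Fin 3 → ℤ} (hp0 : p 0 = 1) (hp0' : p' 0 = 1) (hp : mid p ∈ P) (hp' : mid p' ∈ P)
    (h : ∀ A B : ℤ, N ∣ B - c * A → ∃ m n : ℤ, A = m * (p 1 - 2 * a) + n * (p' 1 - 2 * a) ∧
      B = m * (p 2 - 2 * b) + n * (p' 2 - 2 * b)) :
    ∀ A B : ℤ, N ∣ B - c * A → ![0, 0, A, B] ∈ P := by
  intro A B hAB
  obtain ⟨m, n, e1, e2⟩ := h A B hAB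
  have e : (![0, 0, A, B] : Fin 4 → ℤ) =
      m • (mid p - (2 : ℤ) • ![1, 0, a, 0] - (2 : ℤ) • ![0, 1, 0, b]) +
      n • (mid p' - (2 : ℤ) • ![1, 0, a, 0] - (2 : ℤ) • ![0, 1, 0, b]) := by
    funext i
    fin_cases i
    · simp [mid, hp0, hp0']
    · simp [mid, hp0, hp0']
    · simp [mid]; linarith
    · simp [mid]; linarith
  rw [e]
  exact P.add_mem
    (P.smul_mem _ (P.sub_mem (P.sub_mem hp (P.smul_mem _ h1)) (P.smul_mem _ h2)))
    (P.smul_mem _ (P.sub_mem (P.sub_mem hp' (P.smul_mem _ h1)) (P.smul_mem _ h2)))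

private lemma gen4_unit {c' : ℤ} (hcc : N ∣ c * c' - 1) {z : ℤ} (h : N ∣ c * z) : N ∣ z := by
  have e : z = c' * (c * z) - (c * c' - 1) * z := by ring
  rw [e]
  exact (Dvd.dvd.mul_left h _).sub (Dvd.dvd.mul_right hcc _)

/-- two horizontal corners and a point of height `b + e` -/
private lemma gen4_dirX {c' b e : ℤ} (hcc : N ∣ c * c' - 1) (h0 : ![1, 0, 0, 0] ∈ P)
    (h1 : ![1, 0, N, 0] ∈ P) (hb : N ∣ b) (h2 : ![0, 1, 0, b] ∈ P)
    {p : Fin 3 → ℤ} (hp0 : p 0 = 1) (hp : mid p ∈ P) (hpc : N ∣ p 2 - c * p 1)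
    (he : e * e = 1) (hpe : p 2 = 2 * b + e) :
    ∀ A B : ℤ, N ∣ B - c * A → ![0, 0, A, B] ∈ P := by
  intro A B hAB
  have hd : N ∣ A - e * B * p 1 := by
    apply gen4_unit hcc
    have e1 : c * (A - e * B * p 1) = -(B - c * A) + e * B * (p 2 - c * p 1)
        - e * B * 2 * b + (1 - e * e) * B + e * B * (2 * b + e - p 2) := by ring
    rw [e1, he, hpe]
    have e2 : -(B - c * A) + e * B * (2 * b + e - c * p 1) - e * B * 2 * b + (1 - 1) * B +
        e * B * (2 * b + e - (2 * b + e)) = -(B - c * A) + e * B * (2 * b + e - c * p 1)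
          - (e * B * 2) * b := by ring
    rw [e2]
    rw [hpe] at hpc
    exact ((hAB.neg_right).add (Dvd.dvd.mul_left hpc _)).sub (Dvd.dvd.mul_left hb _)
  obtain ⟨t, ht⟩ := hd
  have e3 : (![0, 0, A, B] : Fin 4 → ℤ) =
      (e * B) • (mid p - (2 : ℤ) • ![1, 0, 0, 0] - (2 : ℤ) • ![0, 1, 0, b]) +
      t • (![1, 0, N, 0] - ![1, 0, 0, 0]) := by
    funext i
    fin_cases i
    · simp [mid, hp0]
    · simp [mid, hp0]
    · simp [mid]; linarith
    · simp [mid, hpe]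
      linear_combination (-B) * he
  rw [e3]
  exact P.add_mem
    (P.smul_mem _ (P.sub_mem (P.sub_mem hp (P.smul_mem _ h0)) (P.smul_mem _ h2)))
    (P.smul_mem _ (P.sub_mem h1 h0))

/-- two vertical corners and a point of abscissa `a + e` -/
private lemma gen4_dirY {a e : ℤ} (h0 : ![0, 1, 0, 0] ∈ P)
    (h1 : ![0, 1, 0, N] ∈ P) (ha : N ∣ a) (h2 : ![1, 0, a, 0] ∈ P)
    {p : Fin 3 → ℤ} (hp0 : p 0 = 1) (hp : mid p ∈ P) (hpc : N ∣ p 2 - c * p 1)
    (he : e * e = 1) (hpe : p 1 = 2 * a + e) :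
    ∀ A B : ℤ, N ∣ B - c * A → ![0, 0, A, B] ∈ P := by
  intro A B hAB
  have hd : N ∣ B - e * A * p 2 := by
    have e1 : B - e * A * p 2 = (B - c * A) - e * A * (p 2 - c * p 1)
        - e * A * c * 2 * a + (1 - e * e) * c * A + e * A * c * (2 * a + e - p 1) := by ring
    rw [e1, he, hpe]
    have e2 : (B - c * A) - e * A * (p 2 - c * (2 * a + e)) - e * A * c * 2 * a
        + (1 - 1) * c * A + e * A * c * (2 * a + e - (2 * a + e)) =
        (B - c * A) - e * A * (p 2 - c * (2 * a + e)) - (e * A * c * 2) * a := by ring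
    rw [e2]
    rw [hpe] at hpc
    exact (hAB.sub (Dvd.dvd.mul_left hpc _)).sub (Dvd.dvd.mul_left ha _)
  obtain ⟨t, ht⟩ := hd
  have e3 : (![0, 0, A, B] : Fin 4 → ℤ) =
      (e * A) • (mid p - (2 : ℤ) • ![1, 0, a, 0] - (2 : ℤ) • ![0, 1, 0, 0]) +
      t • (![0, 1, 0, N] - ![0, 1, 0, 0]) := by
    funext i
    fin_cases i
    · simp [mid, hp0]
    · simp [mid, hp0]
    · simp [mid, hpe]
      linear_combination (-A) * he
    · simp [mid]; linarith
  rw [e3]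
  exact P.add_mem
    (P.smul_mem _ (P.sub_mem (P.sub_mem hp (P.smul_mem _ h2)) (P.smul_mem _ h0)))
    (P.smul_mem _ (P.sub_mem h1 h0))

/-- two horizontal corners and an edge of height one -/
private lemma gen4_dirZ {c' j z z' : ℤ} (hcc : N ∣ c * c' - 1) (h0 : ![1, 0, 0, 0] ∈ P)
    (h1 : ![1, 0, N, 0] ∈ P) (hp : mid ![1, z, j] ∈ P) (hp' : mid ![1, z', j + 1] ∈ P)
    (hpc : N ∣ j - c * z) (hpc' : N ∣ j + 1 - c * z') :
    ∀ A B : ℤ, N ∣ B - c * A → ![0, 0, A, B] ∈ P := by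
  intro A B hAB
  have hd : N ∣ A - B * (z' - z) := by
    apply gen4_unit hcc
    have e1 : c * (A - B * (z' - z)) = -(B - c * A) + B * (j + 1 - c * z') - B * (j - c * z) := by
      ring
    rw [e1]
    exact ((hAB.neg_right).add (Dvd.dvd.mul_left hpc' _)).sub (Dvd.dvd.mul_left hpc _)
  obtain ⟨t, ht⟩ := hd
  have e3 : (![0, 0, A, B] : Fin 4 → ℤ) =
      B • (mid ![1, z', j + 1] - mid ![1, z, j]) + t • (![1, 0, N, 0] - ![1, 0, 0, 0]) := by
    funext i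
    fin_cases i
    · simp [mid]
    · simp [mid]
    · simp [mid]; linarith
    · simp [mid]
  rw [e3]
  exact P.add_mem (P.smul_mem _ (P.sub_mem hp' hp)) (P.smul_mem _ (P.sub_mem h1 h0))

/-- two vertical corners and an edge of width one -/
private lemma gen4_dirF {j z z' : ℤ} (h0 : ![0, 1, 0, 0] ∈ P)
    (h1 : ![0, 1, 0, N] ∈ P) (hp : mid ![1, j, z] ∈ P) (hp' : mid ![1, j + 1, z'] ∈ P)
    (hpc : N ∣ z - c * j) (hpc' : N ∣ z' - c * (j + 1)) :
    ∀ A B : ℤ, N ∣ B - c * A → ![0, 0, A, B] ∈ P := by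
  intro A B hAB
  have hd : N ∣ B - A * (z' - z) := by
    have e1 : B - A * (z' - z) = (B - c * A) - A * (z' - c * (j + 1)) + A * (z - c * j) := by
      ring
    rw [e1]
    exact (hAB.sub (Dvd.dvd.mul_left hpc' _)).add (Dvd.dvd.mul_left hpc _)
  obtain ⟨t, ht⟩ := hd
  have e3 : (![0, 0, A, B] : Fin 4 → ℤ) =
      A • (mid ![1, j + 1, z'] - mid ![1, j, z]) + t • (![0, 1, 0, N] - ![0, 1, 0, 0]) := by
    funext i
    fin_cases i
    · simp [mid]
    · simp [mid]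
    · simp [mid]
    · simp [mid]; linarith
  rw [e3]
  exact P.add_mem (P.smul_mem _ (P.sub_mem hp' hp)) (P.smul_mem _ (P.sub_mem h1 h0))

end fin

private lemma gen4_enum : ∀ S : Finset (Fin 4), S ≠ Finset.univ → S.card ≤ 3 := by decide

private lemma gen4_enum3 : ∀ S : Finset (Fin 4), S.card = 3 →
    (0 ∈ S ∧ 1 ∈ S ∧ 2 ∈ S) ∨ (0 ∈ S ∧ 1 ∈ S ∧ 3 ∈ S) ∨ (0 ∈ S ∧ 2 ∈ S ∧ 3 ∈ S) ∨
      (1 ∈ S ∧ 2 ∈ S ∧ 3 ∈ S) := by decide

private lemma gen4_enum2 : ∀ S : Finset (Fin 4), S.card = 2 →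
    (0 ∈ S ∧ 1 ∈ S) ∨ (2 ∈ S ∧ 3 ∈ S) ∨ (0 ∈ S ∧ 2 ∈ S) ∨ (0 ∈ S ∧ 3 ∈ S) ∨
      (1 ∈ S ∧ 2 ∈ S) ∨ (1 ∈ S ∧ 3 ∈ S) := by decide

private lemma gen4_enum1 : ∀ S : Finset (Fin 4), S.card = 1 →
    0 ∈ S ∨ 1 ∈ S ∨ 2 ∈ S ∨ 3 ∈ S := by decide

private lemma gen4_bary {n : ℕ} (τ : Finset (Fin n → ℤ)) : ∑ x ∈ τ, rv x ∈ coneOf τ := by
  classical
  refine ⟨∑ x ∈ τ, single x 1, fun y => ?_, ?_, ?_⟩
  · rw [Finsupp.finsetSum_apply]
    refine Finset.sum_nonneg fun z _ => ?_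
    rw [Finsupp.single_apply]; split_ifs <;> norm_num
  · refine (Finsupp.support_finsetSum).trans ?_
    intro z hz
    rw [Finset.mem_biUnion] at hz
    obtain ⟨y, hy, hyz⟩ := hz
    have := Finsupp.support_single_subset hyz
    rw [Finset.mem_singleton] at this
    rw [this]; exact hy
  · simp only [map_sum, lc_single, one_smul, id]

/-- Multiplicities of the four-dimensional faces. -/
theorem gen4 (hP : S_PDAT) (hLW : S_LOW) : S_GEN4 := by
  classical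
  intro N c c' M T hN hcc hM hT hsub hvert hsupp huni hZ hF s hs hcard x hx
  obtain ⟨S, τ, hτ, hSu, hC, rfl⟩ := hs
  obtain ⟨hPD, hPz, hPf, -, -⟩ := hP N c c' M hN hcc hM
  set P := Submodule.span ℤ
    ((S.image (cr N) ∪ τ.image mid : Finset (Fin 4 → ℤ)) : Set (Fin 4 → ℤ)) with hPdef
  have hcr : ∀ i ∈ S, cr N i ∈ P := fun i hi => Submodule.subset_span (by
    rw [Finset.mem_coe]
    exact Finset.mem_union_left _ (Finset.mem_image_of_mem _ hi))
  have hmd : ∀ y ∈ τ, mid y ∈ P := fun y hy => Submodule.subset_span (by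
    rw [Finset.mem_coe]
    exact Finset.mem_union_right _ (Finset.mem_image_of_mem _ hy))
  have hτp : ∀ y ∈ τ, y ∈ pts N c := fun y hy => hsub τ hτ hy
  have c0 : 0 ∈ S → ![1, 0, 0, 0] ∈ P := fun h => hcr 0 h
  have c1 : 1 ∈ S → ![1, 0, N, 0] ∈ P := fun h => hcr 1 h
  have c2 : 2 ∈ S → ![0, 1, 0, 0] ∈ P := fun h => hcr 2 h
  have c3 : 3 ∈ S → ![0, 1, 0, N] ∈ P := fun h => hcr 3 h
  have hτ3 : τ.card ≤ 3 := hT.card_le hτ
  have hsum : 4 ≤ S.card + τ.card := by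
    refine hcard.ge.trans ?_
    exact (Finset.card_union_le _ _).trans
      (add_le_add Finset.card_image_le Finset.card_image_le)
  have hS3 := gen4_enum S hSu
  have hrv : ∀ y ∈ τ, rv y ∈ coneOf τ := fun y hy => gen4_rv_mem hy
  have hτM : coneOf τ ⊆ coneOf (pts N c) := gen4_mono (hsub τ hτ)
  have h1N : (1 : ℤ) ≤ 2 * N - 2 := by linarith
  have hmid : ∀ a b : ℤ, mid ![1, a, b] = ![2, 2, a, b] := by
    intro a b
    funext i
    fin_cases i <;> simp [mid]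
  have hcases : S.card = 1 ∨ S.card = 2 ∨ S.card = 3 := by omega
  rcases hcases with h1 | h2 | h3
  · -- triangles
    have hτc : τ.card = 3 := by omega
    have hM' : ∀ y : Fin 3 → ℤ, N ∣ y 2 - c * y 1 → mid y ∈ P := by
      intro y hy
      have := huni τ hτ hτc y hy
      clear hy
      induction this using Submodule.span_induction with
      | mem z hz => exact hmd z (by exact_mod_cast hz)
      | zero =>
        have : mid 0 = 0 := by
          funext i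
          fin_cases i <;> simp [mid]
        rw [this]; exact P.zero_mem
      | add y z _ _ hy hz =>
        have : mid (y + z) = mid y + mid z := by
          funext i
          fin_cases i <;> simp [mid] <;> ring
        rw [this]; exact P.add_mem hy hz
      | smul a y _ hy =>
        have : mid (a • y) = a • mid y := by
          funext i
          fin_cases i <;> simp [mid] <;> ring
        rw [this]; exact P.smul_mem _ hy
    rcases gen4_enum1 S h1 with h | h | h | h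
    · exact gen4_fin4 (dvd_zero _) (c0 h) hM' x hx
    · exact gen4_fin4 dvd_rfl (c1 h) hM' x hx
    · exact gen4_fin5 (dvd_zero _) (c2 h) hM' x hx
    · exact gen4_fin5 dvd_rfl (c3 h) hM' x hx
  · -- edges
    have hτc : 2 ≤ τ.card := by omega
    obtain ⟨p, hp, p', hp', hne⟩ := Finset.one_lt_card.1 (show 1 < τ.card by omega)
    have hpp : ({p, p'} : Finset (Fin 3 → ℤ)) ⊆ τ := by
      intro z hz
      rw [Finset.mem_insert, Finset.mem_singleton] at hz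
      rcases hz with rfl | rfl
      · exact hp
      · exact hp'
    have hT2 := hT.down τ hτ _ hpp
    have hsubc := gen4_mono hpp
    have p0 := (gen4_mem_pts.1 (hτp p hp)).1
    have p0' := (gen4_mem_pts.1 (hτp p' hp')).1
    -- barycentre
    have hm : ∑ y ∈ τ, rv y ∈ coneOf τ := gen4_bary τ
    have hm0 : 0 < (∑ y ∈ τ, rv y) 0 := by
      rw [Finset.sum_apply]
      refine Finset.sum_pos (fun y hy => ?_) ⟨p, hp⟩
      show (0 : ℝ) < ((y 0 : ℤ) : ℝ)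
      rw [(gen4_mem_pts.1 (hτp y hy)).1]; norm_num
    rcases gen4_enum2 S h2 with ⟨h, h'⟩ | ⟨h, h'⟩ | ⟨h, h'⟩ | ⟨h, h'⟩ | ⟨h, h'⟩ | ⟨h, h'⟩
    · have hl := (hC _ hm).l h
      have hr := (hC _ hm).r h'
      obtain ⟨j, hj1, hj2, hj⟩ := hPz _ (hτM hm) hm0 (le_antisymm hl hr)
      have hsb := gen4_carrier hT hτ (hZ j hj1 hj2) hj
      have heq := Finset.eq_of_subset_of_card_le hsb (Finset.card_le_two.trans hτc)
      have m1 : ![1, zeta N c' j, j] ∈ τ := by rw [heq]; exact Finset.mem_insert_self _ _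
      have m2 : ![1, zeta N c' (j + 1), j + 1] ∈ τ := by
        rw [heq]; exact Finset.mem_insert_of_mem (Finset.mem_singleton_self _)
      have d1 : N ∣ j - c * zeta N c' j := (gen4_mem_pts.1 (hτp _ m1)).2.2.2.2.2
      have d2 : N ∣ j + 1 - c * zeta N c' (j + 1) := (gen4_mem_pts.1 (hτp _ m2)).2.2.2.2.2
      have hL := gen4_dirZ hcc (c0 h) (c1 h') (hmd _ m1) (hmd _ m2) d1 d2
      exact gen4_fin2 (dvd_zero _) (c0 h) d1 (by rw [← hmid]; exact hmd _ m1) hL x hx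
    · have hl := (hC _ hm).b h
      have hr := (hC _ hm).t h'
      obtain ⟨j, hj1, hj2, hj⟩ := hPf _ (hτM hm) hm0 (le_antisymm hl hr)
      have hsb := gen4_carrier hT hτ (hF j hj1 hj2) hj
      have heq := Finset.eq_of_subset_of_card_le hsb (Finset.card_le_two.trans hτc)
      have m1 : ![1, j, phi N c j] ∈ τ := by rw [heq]; exact Finset.mem_insert_self _ _
      have m2 : ![1, j + 1, phi N c (j + 1)] ∈ τ := by
        rw [heq]; exact Finset.mem_insert_of_mem (Finset.mem_singleton_self _)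
      have d1 : N ∣ phi N c j - c * j := (gen4_mem_pts.1 (hτp _ m1)).2.2.2.2.2
      have d2 : N ∣ phi N c (j + 1) - c * (j + 1) := (gen4_mem_pts.1 (hτp _ m2)).2.2.2.2.2
      have hL := gen4_dirF (c2 h) (c3 h') (hmd _ m1) (hmd _ m2) d1 d2
      exact gen4_fin3 (dvd_zero _) (c2 h) d1 (by rw [← hmid]; exact hmd _ m1) hL x hx
    · have hco := gen4_corner hT hvert (hτp p hp) (hτp p' hp') hne hT2 1 1 (2 * 0) (2 * 0)
        (Or.inl ⟨rfl, by norm_num⟩) (Or.inl ⟨rfl, by norm_num⟩)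
        (fun m hm y hy hy0 => by
          have := (hC m (hsubc hm)).sw h h' y hy hy0
          simpa using this)
      exact gen4_fin1 (dvd_zero _) (dvd_zero _) (c0 h) (c2 h')
        (gen4_dir (c0 h) (c2 h') p0 p0' (hmd _ hp) (hmd _ hp') hco) x hx
    · have hco := gen4_corner hT hvert (hτp p hp) (hτp p' hp') hne hT2 1 (-1) (2 * 0) (2 * N)
        (Or.inl ⟨rfl, by norm_num⟩) (Or.inr ⟨rfl, rfl⟩)
        (fun m hm y hy hy0 => by
          have := (hC m (hsubc hm)).nw h h' y hy hy0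
          simpa using this)
      exact gen4_fin1 (dvd_zero _) dvd_rfl (c0 h) (c3 h')
        (gen4_dir (c0 h) (c3 h') p0 p0' (hmd _ hp) (hmd _ hp') hco) x hx
    · have hco := gen4_corner hT hvert (hτp p hp) (hτp p' hp') hne hT2 (-1) 1 (2 * N) (2 * 0)
        (Or.inr ⟨rfl, rfl⟩) (Or.inl ⟨rfl, by norm_num⟩)
        (fun m hm y hy hy0 => by
          have := (hC m (hsubc hm)).se h h' y hy hy0
          simpa using this)
      exact gen4_fin1 dvd_rfl (dvd_zero _) (c1 h) (c2 h')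
        (gen4_dir (c1 h) (c2 h') p0 p0' (hmd _ hp) (hmd _ hp') hco) x hx
    · have hco := gen4_corner hT hvert (hτp p hp) (hτp p' hp') hne hT2 (-1) (-1) (2 * N) (2 * N)
        (Or.inr ⟨rfl, rfl⟩) (Or.inr ⟨rfl, rfl⟩)
        (fun m hm y hy hy0 => by
          have := (hC m (hsubc hm)).ne h h' y hy hy0
          simpa using this)
      exact gen4_fin1 dvd_rfl dvd_rfl (c1 h) (c3 h')
        (gen4_dir (c1 h) (c3 h') p0 p0' (hmd _ hp) (hmd _ hp') hco) x hx
  · -- vertices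
    obtain ⟨p, hp⟩ := Finset.card_pos.1 (show 0 < τ.card by omega)
    obtain ⟨p0, p1, p2, p3, p4, p5⟩ := gen4_mem_pts.1 (hτp p hp)
    have hp0 : (rv p) 0 = 1 := by
      show ((p 0 : ℤ) : ℝ) = 1
      rw [p0]; norm_num
    have low := hLW N (coneOf (pts N c)) _ _ hPD (rv p) (hτM (hrv p hp)) (by rw [hp0]; norm_num)
    have hCp := hC _ (hrv p hp)
    have hz : ∀ y : Fin 3 → ℤ, y ∈ pts N c → (rv y) 0 = (rv p) 0 := by
      intro y hy
      rw [hp0]
      show ((y 0 : ℤ) : ℝ) = 1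
      rw [(gen4_mem_pts.1 hy).1]; norm_num
    rcases gen4_enum3 S h3 with ⟨a, b, d⟩ | ⟨a, b, d⟩ | ⟨a, b, d⟩ | ⟨a, b, d⟩
    · have mz : ![1, zeta N c' 1, 1] ∈ pts N c :=
        hsub _ (hZ 1 le_rfl h1N) (Finset.mem_insert_self _ _)
      have h := low.1 (hCp.sw a d) (hCp.se b d) _ (gen4_rv_mem mz) (hz _ mz)
      have h' : p 2 ≤ 1 := by
        have : ((p 2 : ℤ) : ℝ) ≤ ((1 : ℤ) : ℝ) := h
        exact_mod_cast this
      exact gen4_fin1 (dvd_zero _) (dvd_zero _) (c0 a) (c2 d)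
        (gen4_dirX hcc (c0 a) (c1 b) (dvd_zero _) (c2 d) p0 (hmd _ hp) p5 (e := 1) (by norm_num)
          (by linarith)) x hx
    · have mz : ![1, zeta N c' (2 * N - 2 + 1), 2 * N - 2 + 1] ∈ pts N c :=
        hsub _ (hZ (2 * N - 2) h1N le_rfl)
          (Finset.mem_insert_of_mem (Finset.mem_singleton_self _))
      have h := low.2.1 (hCp.nw a d) (hCp.ne b d) _ (gen4_rv_mem mz) (hz _ mz)
      have h' : 2 * N - 2 + 1 ≤ p 2 := by
        have : ((2 * N - 2 + 1 : ℤ) : ℝ) ≤ ((p 2 : ℤ) : ℝ) := h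
        exact_mod_cast this
      exact gen4_fin1 (dvd_zero _) dvd_rfl (c0 a) (c3 d)
        (gen4_dirX hcc (c0 a) (c1 b) dvd_rfl (c3 d) p0 (hmd _ hp) p5 (e := -1) (by norm_num)
          (by omega)) x hx
    · have mz : ![1, 1, phi N c 1] ∈ pts N c :=
        hsub _ (hF 1 le_rfl h1N) (Finset.mem_insert_self _ _)
      have h := low.2.2.1 (hCp.sw a b) (hCp.nw a d) _ (gen4_rv_mem mz) (hz _ mz)
      have h' : p 1 ≤ 1 := by
        have : ((p 1 : ℤ) : ℝ) ≤ ((1 : ℤ) : ℝ) := h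
        exact_mod_cast this
      exact gen4_fin1 (dvd_zero _) (dvd_zero _) (c0 a) (c2 b)
        (gen4_dirY (c2 b) (c3 d) (dvd_zero _) (c0 a) p0 (hmd _ hp) p5 (e := 1) (by norm_num)
          (by linarith)) x hx
    · have mz : ![1, 2 * N - 2 + 1, phi N c (2 * N - 2 + 1)] ∈ pts N c :=
        hsub _ (hF (2 * N - 2) h1N le_rfl)
          (Finset.mem_insert_of_mem (Finset.mem_singleton_self _))
      have h := low.2.2.2 (hCp.se a b) (hCp.ne a d) _ (gen4_rv_mem mz) (hz _ mz)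
      have h' : 2 * N - 2 + 1 ≤ p 1 := by
        have : ((2 * N - 2 + 1 : ℤ) : ℝ) ≤ ((p 1 : ℤ) : ℝ) := h
        exact_mod_cast this
      exact gen4_fin1 dvd_rfl (dvd_zero _) (c1 a) (c2 b)
        (gen4_dirY (c2 b) (c3 d) dvd_rfl (c1 a) p0 (hmd _ hp) p5 (e := -1) (by norm_num)
          (by omega)) x hx

end H6BW
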