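import Pool.Agent.Work.MP_6237c7_co.BW.Defs

/-! GRP: the groups of a face have excess at most two. -/

set_option autoImplicit false

namespace H6BW

open Finsupp H79KMW

/-- the real linear map of an integer matrix on integer vectors -/
lemma grp_mulVec {m n : ℕ} (A : Matrix (Fin m) (Fin n) ℤ) (x : Fin n → ℤ) :
    (A.map (Int.cast : ℤ → ℝ)).mulVec (rv x) = rv (A.mulVec x) := by
  funext i
  simp only [Matrix.mulVec, dotProduct, rv, Matrix.map_apply]
  push_cast
  rfl

theorem grp : S_GRP := by
  classical
  intro m n A Δ K hS s hs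
  set I := s.image (fun x => A.mulVec x) with hI
  let f : (Fin n → ℝ) →ₗ[ℝ] (Fin m → ℝ) := (A.map (Int.cast : ℤ → ℝ)).mulVecLin
  let P : Submodule ℝ (Fin n → ℝ) :=
    Submodule.span ℝ (Set.range fun x : s => rv (x : Fin n → ℤ))
  have hli : LinearIndependent ℝ (fun x : s => rv (x : Fin n → ℤ)) := hS.cx.linInd hs
  have hP : Module.finrank ℝ P = s.card := by
    have h1 := finrank_span_eq_card hli
    rw [Fintype.card_coe] at h1
    exact h1
  have h2 := LinearMap.finrank_range_add_finrank_ker (f.domRestrict P)
  rw [hP] at h2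
  -- the image
  have h3 : Module.finrank ℝ (LinearMap.range (f.domRestrict P)) ≤ I.card := by
    have h4 : LinearMap.range (f.domRestrict P) ≤
        Submodule.span ℝ (Set.range fun x : I => rv (x : Fin m → ℤ)) := by
      rw [LinearMap.range_domRestrict, Submodule.map_span, Submodule.span_le]
      rintro _ ⟨_, ⟨x, rfl⟩, rfl⟩
      refine Submodule.subset_span ⟨⟨A.mulVec x, Finset.mem_image_of_mem _ x.2⟩, ?_⟩
      exact (grp_mulVec A x).symm
    refine (Submodule.finrank_mono h4).trans ?_
    have h5 := finrank_range_le_card (R := ℝ) (fun x : I => rv (x : Fin m → ℤ))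
    rw [Fintype.card_coe] at h5
    exact h5
  -- the kernel
  have h6 : Module.finrank ℝ (LinearMap.ker (f.domRestrict P)) ≤ 2 := by
    have h7 : Module.finrank ℝ (LinearMap.ker f) = 2 := by
      have h8 := LinearMap.finrank_range_add_finrank_ker f
      have h9 : Module.finrank ℝ (LinearMap.range f) = (A.map (Int.cast : ℤ → ℝ)).rank := rfl
      have h10 := hS.ker
      rw [h9, Module.finrank_fin_fun] at h8
      omega
    rw [← h7]
    let g : LinearMap.ker (f.domRestrict P) →ₗ[ℝ] LinearMap.ker f :=
      { toFun := fun x => ⟨(x : P), by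
          have := x.2
          rw [LinearMap.mem_ker] at this ⊢
          exact this⟩
        map_add' := fun x y => rfl
        map_smul' := fun c x => rfl }
    refine LinearMap.finrank_le_finrank_of_injective (f := g) ?_
    intro x y hxy
    have h11 : ((x : P) : Fin n → ℝ) = ((y : P) : Fin n → ℝ) :=
      congrArg (fun z : LinearMap.ker f => (z : Fin n → ℝ)) hxy
    exact Subtype.ext (Subtype.ext h11)
  omega

end H6BW
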