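import Pool.Agent.Work.MP_6237c7_co.BW.Defs

/-!
MP_6237c7_co, BW: module KERLAT.  The kernel lattice has a basis of two vectors.
-/

set_option autoImplicit false

namespace H6BW

open Finsupp H79KMW Module

private theorem kl_indep {ι : Type*} {n : ℕ} {v : ι → Fin n → ℤ} (h : LinearIndependent ℤ v) :
    LinearIndependent ℝ (fun i => rv (v i)) := by
  have h1 := (linearIndependent_algebraMap_comp_iff (R := ℤ) (S := ℝ) (v := v)).2 h
  exact h1

private theorem kl_mulVec {m n : ℕ} (A : Matrix (Fin m) (Fin n) ℤ) (x : Fin n → ℤ) :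
    (A.map (Int.cast : ℤ → ℝ)).mulVec (rv x) = rv (A.mulVec x) := by
  funext i
  simp [rv, Matrix.mulVec, dotProduct]

/-- KERLAT: the kernel lattice has a basis of two vectors. -/
theorem kerlat : S_KERLAT := by
  intro m n A hA
  have hnull := LinearMap.finrank_range_add_finrank_ker (A.map (Int.cast : ℤ → ℝ)).mulVecLin
  have hnullZ : finrank ℤ (LinearMap.range A.mulVecLin) +
      finrank ℤ (LinearMap.ker A.mulVecLin) = n := by
    have h := Submodule.finrank_quotient_add_finrank (LinearMap.ker A.mulVecLin)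
    rw [(LinearMap.quotKerEquivRange A.mulVecLin).finrank_eq, finrank_fin_fun] at h
    exact h
  rw [finrank_fin_fun] at hnull
  have hA' : finrank ℝ (LinearMap.range (A.map (Int.cast : ℤ → ℝ)).mulVecLin) + 2 = n := hA
  obtain ⟨k, hk⟩ : ∃ k, k = finrank ℤ (LinearMap.ker A.mulVecLin) := ⟨_, rfl⟩
  -- the rank over the integers is at most the rank over the reals
  have h1 : finrank ℤ (LinearMap.range A.mulVecLin) ≤
      finrank ℝ (LinearMap.range (A.map (Int.cast : ℤ → ℝ)).mulVecLin) := by
    let b := finBasis ℤ (LinearMap.range A.mulVecLin)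
    have hb : LinearIndependent ℤ (fun i => ((b i : LinearMap.range A.mulVecLin) : Fin m → ℤ)) :=
      b.linearIndependent.map' (Submodule.subtype _) (Submodule.ker_subtype _)
    have hb2 := kl_indep hb
    have hmem : ∀ i, rv ((b i : LinearMap.range A.mulVecLin) : Fin m → ℤ) ∈
        LinearMap.range (A.map (Int.cast : ℤ → ℝ)).mulVecLin := by
      intro i
      obtain ⟨x, hx⟩ := (b i).2
      refine ⟨rv x, ?_⟩
      rw [Matrix.mulVecLin_apply, kl_mulVec, ← hx]
      rfl
    have hb3 : LinearIndependent ℝ (fun i => (⟨_, hmem i⟩ :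
        LinearMap.range (A.map (Int.cast : ℤ → ℝ)).mulVecLin)) := by
      refine LinearIndependent.of_comp (Submodule.subtype _) ?_
      exact hb2
    have := hb3.fintype_card_le_finrank
    simpa using this
  let b := finBasis ℤ (LinearMap.ker A.mulVecLin)
  have hb : LinearIndependent ℤ (fun i => ((b i : LinearMap.ker A.mulVecLin) : Fin n → ℤ)) :=
    b.linearIndependent.map' (Submodule.subtype _) (Submodule.ker_subtype _)
  have hb2 := kl_indep hb
  have hmem : ∀ i, rv ((b i : LinearMap.ker A.mulVecLin) : Fin n → ℤ) ∈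
      LinearMap.ker (A.map (Int.cast : ℤ → ℝ)).mulVecLin := by
    intro i
    have hx := (b i).2
    rw [LinearMap.mem_ker, Matrix.mulVecLin_apply] at hx ⊢
    rw [kl_mulVec, hx]
    funext j
    simp [rv]
  have h2 : finrank ℤ (LinearMap.ker A.mulVecLin) ≤
      finrank ℝ (LinearMap.ker (A.map (Int.cast : ℤ → ℝ)).mulVecLin) := by
    have hb3 : LinearIndependent ℝ (fun i => (⟨_, hmem i⟩ :
        LinearMap.ker (A.map (Int.cast : ℤ → ℝ)).mulVecLin)) := by
      refine LinearIndependent.of_comp (Submodule.subtype _) ?_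
      exact hb2
    have := hb3.fintype_card_le_finrank
    simpa using this
  have h3 : finrank ℤ (LinearMap.ker A.mulVecLin) = 2 := by omega
  let e : Fin (finrank ℤ (LinearMap.ker A.mulVecLin)) ≃ Fin 2 := finCongr h3
  let c := b.reindex e
  have hc : ∀ i : Fin 2, A.mulVec ((c i : LinearMap.ker A.mulVecLin) : Fin n → ℤ) = 0 := by
    intro i
    exact (c i).2
  refine ⟨((c 0 : LinearMap.ker A.mulVecLin) : Fin n → ℤ),
    ((c 1 : LinearMap.ker A.mulVecLin) : Fin n → ℤ), hc 0, hc 1, ?_, ?_⟩
  · have h4 : LinearIndependent ℤ (fun i => ((c i : LinearMap.ker A.mulVecLin) : Fin n → ℤ)) :=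
      c.linearIndependent.map' (Submodule.subtype _) (Submodule.ker_subtype _)
    have h5 := kl_indep h4
    have h6 : (![rv ((c 0 : LinearMap.ker A.mulVecLin) : Fin n → ℤ),
        rv ((c 1 : LinearMap.ker A.mulVecLin) : Fin n → ℤ)]) =
        (fun i => rv ((c i : LinearMap.ker A.mulVecLin) : Fin n → ℤ)) := by
      funext i
      fin_cases i <;> rfl
    rw [h6]
    exact h5
  · intro x hx
    refine ⟨c.repr ⟨x, hx⟩ 0, c.repr ⟨x, hx⟩ 1, ?_⟩
    have h4 := c.sum_repr ⟨x, hx⟩
    rw [Fin.sum_univ_two] at h4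
    have h5 := congrArg (Submodule.subtype _) h4
    rw [map_add, map_smul, map_smul] at h5
    exact h5.symm

end H6BW
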