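import Pool.Agent.Work.MP_6237c7_co.BW.Defs

set_option autoImplicit false
set_option maxHeartbeats 400000

/-!
MP_6237c7_co, bounded width: LOC4, the local theorem in `ℤ^4`.
-/

namespace H6BW

open Finsupp H79KMW

lemma loc4_mem_pts {N c : ℤ} {x : Fin 3 → ℤ} (hx : x ∈ pts N c) :
    x 0 = 1 ∧ 0 < x 1 ∧ x 1 < 2 * N ∧ 0 < x 2 ∧ x 2 < 2 * N ∧ N ∣ x 2 - c * x 1 := by
  unfold pts at hx
  rw [Finset.mem_image] at hx
  obtain ⟨p, hp, rfl⟩ := hx
  rw [Finset.mem_filter, Finset.mem_product, Finset.mem_Ioo, Finset.mem_Ioo] at hp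
  obtain ⟨⟨⟨h1, h2⟩, h3, h4⟩, h5⟩ := hp
  exact ⟨rfl, h1, h2, h3, h4, h5⟩

lemma loc4_center {N c : ℤ} (hN : 2 ≤ N) : (![1, N, N] : Fin 3 → ℤ) ∈ pts N c := by
  unfold pts
  rw [Finset.mem_image]
  refine ⟨(N, N), ?_, rfl⟩
  rw [Finset.mem_filter, Finset.mem_product]
  refine ⟨⟨Finset.mem_Ioo.2 ⟨by change (0:ℤ) < N; omega, by change N < 2 * N; omega⟩,
    Finset.mem_Ioo.2 ⟨by change (0:ℤ) < N; omega, by change N < 2 * N; omega⟩⟩, ?_⟩
  exact ⟨1 - c, by ring⟩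

lemma loc4_coneOf_empty {n : ℕ} {y : Fin n → ℝ} (h : y ∈ coneOf (∅ : Finset (Fin n → ℤ))) :
    y = 0 := by
  obtain ⟨a, _, ha, rfl⟩ := h
  have h1 : a = 0 := Finsupp.support_eq_empty.1 (Finset.subset_empty.1 ha)
  rw [h1, map_zero]

lemma loc4_cond_zero {N : ℝ} {MM : Set (Fin 3 → ℝ)} {zf ff : ℝ → ℝ} (h : PD N MM zf ff)
    (P : Fin 4 → Prop) : Cond MM zf ff P 0 := by
  refine ⟨?_, ?_, ?_, ?_, ?_, ?_, ?_, ?_⟩
  · intro _
    unfold Lf
    simp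
  · intro _
    unfold Rt
    simp
  · intro _
    unfold Bl
    simp
  · intro _
    unfold Ab
    simp
  · intro _ _ y hy hy0 h1
    have h2 := h.lo1 y hy
    rw [hy0] at h2
    exact absurd h1.1 (not_lt.2 h2)
  · intro _ _ y hy hy0 h1
    have h2 := h.lo2 y hy
    rw [hy0] at h2
    exact absurd h1.2 (not_lt.2 h2)
  · intro _ _ y hy hy0 h1
    have h2 := h.lo1 y hy
    rw [hy0] at h2
    exact absurd h1.1 (not_lt.2 h2)
  · intro _ _ y hy hy0 h1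
    have h2 := h.hi1 y hy
    rw [hy0] at h2
    have h3 := h1.1
    rw [Pi.zero_apply] at h2 h3
    rw [mul_zero] at h2
    exact absurd h3 (not_lt.2 h2)

lemma loc4_cr_ne_mid {N : ℤ} (i : Fin 4) (x : Fin 3 → ℤ) (hx : x 0 = 1) : cr N i ≠ mid x := by
  intro h
  have h0 := congrFun h 0
  have h1 : mid x 0 = 2 := by
    unfold mid
    simp [hx]
  rw [h1] at h0
  fin_cases i <;> simp [cr] at h0

lemma loc4_cr_inj {N : ℤ} (hN : 2 ≤ N) : Function.Injective (cr N) := by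
  intro i j h
  have h0 := congrFun h 0
  have h1 := congrFun h 1
  have h2 := congrFun h 2
  have h3 := congrFun h 3
  fin_cases i <;> fin_cases j <;> simp [cr] at h0 h1 h2 h3 ⊢ <;> omega

/-- LOC4. -/
theorem loc4 (hPLAN : S_PLAN) (hPDAT : S_PDAT) (hCARR : S_CARR) (hFAN4 : S_FAN4)
    (hGEN4 : S_GEN4) : S_LOC4 := by
  intro N c c' hN hcc
  obtain ⟨T, hTcx, hTsub, hTvert, hTsupp, hTspan, hTz, hTf⟩ := hPLAN N c c' hN hcc
  obtain ⟨M, hM⟩ : ∃ M : ℕ, (M : ℤ) = 2 * N - 2 := ⟨(2 * N - 2).toNat, Int.toNat_of_nonneg (by omega)⟩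
  obtain ⟨hPD, -⟩ := hPDAT N c c' M hN hcc hM
  have hone : ∀ s ∈ T, ∀ x ∈ s, x 0 = 1 := fun s hs x hx => (loc4_mem_pts (hTsub s hs hx)).1
  have hcarr := hCARR N c c' M T hN hcc hM hTcx hTsupp hTz hTf
  obtain ⟨hcx, hsupp⟩ := hFAN4 N (coneOf (pts N c)) (pl M (zeta N c')) (pl M (phi N c)) T hPD hTcx
    hTsupp hone hcarr
  have hTempty : (∅ : Finset (Fin 3 → ℤ)) ∈ T :=
    hTcx.down _ (hTvert _ (loc4_center hN)) _ (Finset.empty_subset _)
  refine ⟨fan4 N (coneOf (pts N c)) (pl M (zeta N c')) (pl M (phi N c)) T, hcx, hsupp, ?_, ?_, ?_, ?_⟩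
  · rintro ⟨S, τ, hτ, hS, -, hEq⟩
    obtain ⟨i, hi⟩ : ∃ i, i ∉ S := by
      by_contra hcon
      push Not at hcon
      exact hS (Finset.eq_univ_of_forall hcon)
    have h1 : cr N i ∈ Finset.univ.image (cr N) := Finset.mem_image_of_mem _ (Finset.mem_univ _)
    rw [hEq, Finset.mem_union, Finset.mem_image, Finset.mem_image] at h1
    rcases h1 with ⟨j, hj, hji⟩ | ⟨x, hx, hxi⟩
    · exact hi (loc4_cr_inj hN hji ▸ hj)
    · exact loc4_cr_ne_mid i x (hone τ hτ x hx) hxi.symm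
  · intro S hS
    refine ⟨S, ∅, hTempty, hS, ?_, ?_⟩
    · intro m hm
      rw [loc4_coneOf_empty hm]
      exact loc4_cond_zero hPD _
    · rw [Finset.image_empty, Finset.union_empty]
  · rintro s ⟨S, τ, hτ, -, -, rfl⟩ x hx
    rw [Finset.mem_union, Finset.mem_image, Finset.mem_image] at hx
    rcases hx with ⟨j, -, rfl⟩ | ⟨y, hy, rfl⟩
    · exact Or.inl (Finset.mem_image_of_mem _ (Finset.mem_univ _))
    · right
      obtain ⟨h0, h1, h2, h3, h4, h5⟩ := loc4_mem_pts (hTsub τ hτ hy)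
      refine ⟨?_, ?_, h1, h2, h3, h4, h5⟩
      · change 2 * y 0 = 2
        rw [h0]; rfl
      · change 2 * y 0 = 2
        rw [h0]; rfl
  · exact hGEN4 N c c' M T hN hcc hM hTcx hTsub hTvert hTsupp hTspan hTz hTf

end H6BW
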