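import Pool.Agent.Work.MP_6237c7_co.BW.Defs

set_option autoImplicit false
set_option maxHeartbeats 400000

/-!
MP_6237c7_co, bounded width: LOCAL, the local theorem in `ℤ^n`.
-/

namespace H6BW

open Finsupp H79KMW

section local_map

variable {n : ℕ} (v : Fin 4 → Fin n → ℤ) (u : Fin n → ℤ) (N c : ℤ)

/-- the integral coordinate map -/
def lpsi (w : Fin 4 → ℤ) : Fin n → ℤ :=
  w 0 • v 0 + w 1 • v 2 + w 2 • u + ((w 3 - c * w 2) / N) • (v 3 - v 2)

/-- the coefficients of the real coordinate map -/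
noncomputable def lcoef (w : Fin 4 → ℝ) : Fin 4 → ℝ :=
  ![w 0 - w 2 / N, w 2 / N, w 1 - w 3 / N, w 3 / N]

variable {v u N c}

lemma lpsi_eq (hN : 2 ≤ N) (w : Fin 4 → ℤ) (q : ℤ) (hq : w 3 - c * w 2 = N * q) :
    lpsi v u N c w = w 0 • v 0 + w 1 • v 2 + w 2 • u + q • (v 3 - v 2) := by
  unfold lpsi
  rw [hq, Int.mul_ediv_cancel_left _ (by omega)]

lemma lpsi_add (hN : 2 ≤ N) {w w' : Fin 4 → ℤ} (h : N ∣ w 3 - c * w 2) (h' : N ∣ w' 3 - c * w' 2) :
    lpsi v u N c (w + w') = lpsi v u N c w + lpsi v u N c w' := by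
  obtain ⟨q, hq⟩ := h
  obtain ⟨q', hq'⟩ := h'
  rw [lpsi_eq hN w q hq, lpsi_eq hN w' q' hq', lpsi_eq hN (w + w') (q + q') (by
    rw [Pi.add_apply, Pi.add_apply]; linear_combination hq + hq')]
  funext i
  simp only [Pi.add_apply, Pi.smul_apply, Pi.sub_apply, smul_eq_mul]
  ring

lemma lpsi_smul (hN : 2 ≤ N) {w : Fin 4 → ℤ} (k : ℤ) (h : N ∣ w 3 - c * w 2) :
    lpsi v u N c (k • w) = k • lpsi v u N c w := by
  obtain ⟨q, hq⟩ := h
  rw [lpsi_eq hN w q hq, lpsi_eq hN (k • w) (k * q) (by
    rw [Pi.smul_apply, Pi.smul_apply, smul_eq_mul, smul_eq_mul]; linear_combination k * hq)]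
  funext i
  simp only [Pi.add_apply, Pi.smul_apply, Pi.sub_apply, smul_eq_mul]
  ring

lemma lpsi_zero : lpsi v u N c 0 = 0 := by
  unfold lpsi
  funext i
  simp

lemma smul_lpsi (hN : 2 ≤ N) (hu : N • u = (v 1 - v 0) + c • (v 3 - v 2)) {w : Fin 4 → ℤ}
    (h : N ∣ w 3 - c * w 2) :
    N • lpsi v u N c w = (N * w 0 - w 2) • v 0 + w 2 • v 1 + (N * w 1 - w 3) • v 2 + w 3 • v 3 := by
  obtain ⟨q, hq⟩ := h
  rw [lpsi_eq hN w q hq]
  funext i
  have h1 := congrFun hu i
  simp only [Pi.add_apply, Pi.smul_apply, Pi.sub_apply, smul_eq_mul] at h1 ⊢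
  linear_combination (w 2) * h1 - (v 3 i - v 2 i) * hq

lemma lpsi_cr (hN : 2 ≤ N) (hu : N • u = (v 1 - v 0) + c • (v 3 - v 2)) (i : Fin 4) :
    lpsi v u N c (cr N i) = v i := by
  have hi : i = 0 ∨ i = 1 ∨ i = 2 ∨ i = 3 := by fin_cases i <;> simp
  rcases hi with rfl | rfl | rfl | rfl
  · rw [lpsi_eq hN _ 0 (by simp [cr])]
    funext j
    simp [cr]
  · rw [lpsi_eq hN _ (-c) (by simp [cr]; ring)]
    funext j
    have h1 := congrFun hu j
    simp only [Pi.add_apply, Pi.smul_apply, Pi.sub_apply, smul_eq_mul] at h1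
    simp [cr]
    linear_combination h1
  · rw [lpsi_eq hN _ 0 (by simp [cr])]
    funext j
    simp [cr]
  · rw [lpsi_eq hN _ 1 (by simp [cr])]
    funext j
    simp [cr]

lemma cr_lat (i : Fin 4) : N ∣ cr N i 3 - c * cr N i 2 := by
  have hi : i = 0 ∨ i = 1 ∨ i = 2 ∨ i = 3 := by fin_cases i <;> simp
  rcases hi with rfl | rfl | rfl | rfl
  · simp [cr]
  · refine ⟨-c, ?_⟩
    simp [cr]; ring
  · simp [cr]
  · simp [cr]

lemma rv_lpsi (hN : 2 ≤ N) (hu : N • u = (v 1 - v 0) + c • (v 3 - v 2)) {w : Fin 4 → ℤ}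
    (h : N ∣ w 3 - c * w 2) :
    rv (lpsi v u N c w) = ∑ i, lcoef N (rv w) i • rv (v i) := by
  have hN0 : (N : ℝ) ≠ 0 := by
    have : (0:ℤ) < N := by omega
    exact_mod_cast this.ne'
  have h1 := smul_lpsi hN hu h
  funext j
  have h2 := congrFun h1 j
  have h3 : (N : ℝ) * (lpsi v u N c w j : ℝ) = (N * w 0 - w 2) * v 0 j + w 2 * v 1 j +
      (N * w 1 - w 3) * v 2 j + w 3 * v 3 j := by
    simp only [Pi.add_apply, Pi.smul_apply, smul_eq_mul] at h2
    exact_mod_cast h2
  have h4 : (lpsi v u N c w j : ℝ) = ((N * w 0 - w 2) * v 0 j + w 2 * v 1 j +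
      (N * w 1 - w 3) * v 2 j + w 3 * v 3 j) / N := by
    rw [← h3, mul_div_cancel_left₀ _ hN0]
  rw [Fin.sum_univ_four]
  simp only [Pi.add_apply, Pi.smul_apply, smul_eq_mul, rv, lcoef, Matrix.cons_val_zero,
    Matrix.cons_val_one, Matrix.cons_val]
  rw [h4]
  field_simp

/-- `lcoef` as a linear map -/
noncomputable def lcoefL (N : ℤ) : (Fin 4 → ℝ) →ₗ[ℝ] (Fin 4 → ℝ) where
  toFun := lcoef N
  map_add' x y := by
    funext i
    have hi : i = 0 ∨ i = 1 ∨ i = 2 ∨ i = 3 := by fin_cases i <;> simp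
    rcases hi with rfl | rfl | rfl | rfl <;> simp [lcoef] <;> ring
  map_smul' k x := by
    funext i
    have hi : i = 0 ∨ i = 1 ∨ i = 2 ∨ i = 3 := by fin_cases i <;> simp
    rcases hi with rfl | rfl | rfl | rfl <;> simp [lcoef] <;> ring

/-- the real coordinate map -/
noncomputable def lPsi (v : Fin 4 → Fin n → ℤ) (N : ℤ) : (Fin 4 → ℝ) →ₗ[ℝ] (Fin n → ℝ) :=
  (Fintype.linearCombination ℝ (fun i => rv (v i))).comp (lcoefL N)

lemma lPsi_apply (w : Fin 4 → ℝ) : lPsi v N w = ∑ i, lcoef N w i • rv (v i) := by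
  unfold lPsi
  rw [LinearMap.comp_apply, Fintype.linearCombination_apply]
  rfl

lemma lPsi_inj (hN : 2 ≤ N) (hv : LinearIndependent ℝ (fun i => rv (v i))) :
    Function.Injective (lPsi v N) := by
  have hN0 : (N : ℝ) ≠ 0 := by
    have : (0:ℤ) < N := by omega
    exact_mod_cast this.ne'
  rw [← LinearMap.ker_eq_bot, LinearMap.ker_eq_bot']
  intro w hw
  rw [lPsi_apply] at hw
  have h1 := Fintype.linearIndependent_iff.1 hv _ hw
  have h0 := h1 0
  have h1' := h1 1
  have h2 := h1 2
  have h3 := h1 3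
  simp only [lcoef, Matrix.cons_val_zero, Matrix.cons_val_one, Matrix.cons_val] at h0 h1' h2 h3
  have e2 : w 2 = 0 := by
    rcases div_eq_zero_iff.1 h1' with h | h
    · exact h
    · exact absurd h hN0
  have e3 : w 3 = 0 := by
    rcases div_eq_zero_iff.1 h3 with h | h
    · exact h
    · exact absurd h hN0
  rw [e2, zero_div, sub_zero] at h0
  rw [e3, zero_div, sub_zero] at h2
  funext i
  have hi : i = 0 ∨ i = 1 ∨ i = 2 ∨ i = 3 := by fin_cases i <;> simp
  rcases hi with rfl | rfl | rfl | rfl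
  · exact h0
  · exact h2
  · exact e2
  · exact e3

lemma rv_inj {m : ℕ} {x y : Fin m → ℤ} (h : rv x = rv y) : x = y := by
  funext i
  have := congrFun h i
  unfold rv at this
  exact_mod_cast this

lemma lpsi_inj (hN : 2 ≤ N) (hv : LinearIndependent ℝ (fun i => rv (v i)))
    (hu : N • u = (v 1 - v 0) + c • (v 3 - v 2)) {w w' : Fin 4 → ℤ}
    (h : N ∣ w 3 - c * w 2) (h' : N ∣ w' 3 - c * w' 2)
    (he : lpsi v u N c w = lpsi v u N c w') : w = w' := by
  apply rv_inj
  apply lPsi_inj hN hv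
  rw [lPsi_apply, lPsi_apply, ← rv_lpsi hN hu h, ← rv_lpsi hN hu h', he]

lemma lc_lpsi (hN : 2 ≤ N) (hu : N • u = (v 1 - v 0) + c • (v 3 - v 2))
    (a : (Fin 4 → ℤ) →₀ ℝ) (ha : ∀ x ∈ a.support, N ∣ x 3 - c * x 2) :
    lc (lpsi v u N c) a = lPsi v N (lc id a) := by
  unfold lc
  rw [Finsupp.linearCombination_apply, Finsupp.linearCombination_apply, Finsupp.sum, Finsupp.sum,
    map_sum]
  refine Finset.sum_congr rfl fun x hx => ?_
  rw [map_smul, lPsi_apply, rv_lpsi hN hu (ha x hx)]
  rfl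

end local_map

/-- LOCAL. -/
theorem localThm (hLOC4 : S_LOC4) : S_LOCAL := by
  classical
  intro n v u N c c' hv hN hcc hu
  obtain ⟨K, hKcx, hKsupp, hKtop, hKfaces, hKrays, hKspan⟩ := hLOC4 N c c' hN hcc
  have hN0 : (N : ℝ) ≠ 0 := by
    have : (0:ℤ) < N := by omega
    exact_mod_cast this.ne'
  have hNpos : (0 : ℝ) < N := by
    have : (0:ℤ) < N := by omega
    exact_mod_cast this
  have hlat : ∀ s ∈ K, ∀ x ∈ s, N ∣ x 3 - c * x 2 := by
    intro s hs x hx
    rcases hKrays s hs x hx with h | h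
    · rw [Finset.mem_image] at h
      obtain ⟨i, -, rfl⟩ := h
      exact cr_lat i
    · exact h.2.2.2.2.2.2
  have hcx : IsCx (lpsi v u N c) K := by
    refine ⟨hKcx.fin, hKcx.down, ?_⟩
    intro a ha b hb hab
    apply hKcx.inj ha hb
    apply lPsi_inj hN hv
    rw [← lc_lpsi hN hu a (hlat _ ha.2), ← lc_lpsi hN hu b (hlat _ hb.2)]
    exact hab
  refine ⟨push (lpsi v u N c) K, push_isCx hcx, ?_, ?_, ?_, ?_, ?_⟩
  · rw [supp_push hcx]
    ext y
    constructor
    · rintro ⟨a, ha, rfl⟩
      rw [lc_lpsi hN hu a (hlat _ ha.2)]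
      have h1 : lc id a ∈ supp id K := ⟨a, ha, rfl⟩
      rw [hKsupp] at h1
      obtain ⟨h2, h3, h4, h5⟩ := h1
      rw [lPsi_apply]
      refine ⟨∑ i, single (v i) (lcoef N (lc id a) i), ?_, ?_, ?_⟩
      · intro x
        rw [Finsupp.finsetSum_apply]
        refine Finset.sum_nonneg fun i _ => ?_
        have hnn : 0 ≤ lcoef N (lc id a) i := by
          have hi : i = 0 ∨ i = 1 ∨ i = 2 ∨ i = 3 := by fin_cases i <;> simp
          rcases hi with rfl | rfl | rfl | rfl
          · change 0 ≤ lc id a 0 - lc id a 2 / N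
            rw [sub_nonneg, div_le_iff₀ hNpos]
            linarith
          · change 0 ≤ lc id a 2 / N
            exact div_nonneg h2 hNpos.le
          · change 0 ≤ lc id a 1 - lc id a 3 / N
            rw [sub_nonneg, div_le_iff₀ hNpos]
            linarith
          · change 0 ≤ lc id a 3 / N
            exact div_nonneg h4 hNpos.le
        rw [Finsupp.single_apply]
        split_ifs
        · exact hnn
        · exact le_rfl
      · refine (Finsupp.support_finsetSum).trans ?_
        intro z hz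
        rw [Finset.mem_biUnion] at hz
        obtain ⟨i, -, hi⟩ := hz
        have := Finsupp.support_single_subset hi
        rw [Finset.mem_singleton] at this
        rw [this]
        exact Finset.mem_image_of_mem _ (Finset.mem_univ _)
      · rw [map_sum]
        exact Finset.sum_congr rfl fun i _ => lc_single _ _
    · rintro ⟨a, ha, has, rfl⟩
      have hvinj : Function.Injective v := by
        intro i j hij
        exact hv.injective (by simp only [hij])
      have h1 : lc id a = ∑ i, a (v i) • rv (v i) := by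
        funext k
        rw [lc_apply_of_subset a _ has k, Finset.sum_image (fun i _ j _ h => hvinj h),
          Finset.sum_apply]
        rfl
      have h2 : (![a (v 0) + a (v 1), a (v 2) + a (v 3), N * a (v 1), N * a (v 3)] : Fin 4 → ℝ) ∈
          supp id K := by
        rw [hKsupp]
        refine ⟨?_, ?_, ?_, ?_⟩
        · change 0 ≤ (N : ℝ) * a (v 1)
          exact mul_nonneg hNpos.le (ha _)
        · change (N : ℝ) * a (v 1) ≤ N * (a (v 0) + a (v 1))
          have := mul_nonneg hNpos.le (ha (v 0))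
          linarith
        · change 0 ≤ (N : ℝ) * a (v 3)
          exact mul_nonneg hNpos.le (ha _)
        · change (N : ℝ) * a (v 3) ≤ N * (a (v 2) + a (v 3))
          have := mul_nonneg hNpos.le (ha (v 2))
          linarith
      obtain ⟨b, hb, hbe⟩ := h2
      refine ⟨b, hb, ?_⟩
      rw [lc_lpsi hN hu b (hlat _ hb.2), hbe, lPsi_apply, h1]
      refine Finset.sum_congr rfl fun i _ => ?_
      congr 1
      have hi : i = 0 ∨ i = 1 ∨ i = 2 ∨ i = 3 := by fin_cases i <;> simp
      rcases hi with rfl | rfl | rfl | rfl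
      · change a (v 0) + a (v 1) - N * a (v 1) / N = a (v 0)
        rw [mul_div_cancel_left₀ _ hN0]; ring
      · change N * a (v 1) / N = a (v 1)
        rw [mul_div_cancel_left₀ _ hN0]
      · change a (v 2) + a (v 3) - N * a (v 3) / N = a (v 2)
        rw [mul_div_cancel_left₀ _ hN0]; ring
      · change N * a (v 3) / N = a (v 3)
        rw [mul_div_cancel_left₀ _ hN0]
  · rintro ⟨s, hs, he⟩
    apply hKtop
    have h1 : s = Finset.univ.image (cr N) := by
      ext x
      constructor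
      · intro hx
        have h2 : lpsi v u N c x ∈ ((Finset.univ.image v : Finset (Fin n → ℤ)) : Set (Fin n → ℤ)) := by
          rw [he]
          exact ⟨x, hx, rfl⟩
        rw [Finset.mem_coe, Finset.mem_image] at h2
        obtain ⟨i, -, hi⟩ := h2
        rw [← lpsi_cr hN hu i] at hi
        have := lpsi_inj hN hv hu (cr_lat i) (hlat s hs x hx) hi
        rw [← this]
        exact Finset.mem_image_of_mem _ (Finset.mem_univ _)
      · intro hx
        rw [Finset.mem_image] at hx
        obtain ⟨i, -, rfl⟩ := hx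
        have h2 : v i ∈ ((Finset.univ.image v : Finset (Fin n → ℤ)) : Set (Fin n → ℤ)) :=
          Finset.mem_coe.2 (Finset.mem_image_of_mem _ (Finset.mem_univ _))
        rw [he] at h2
        obtain ⟨y, hy, hyi⟩ := h2
        rw [← lpsi_cr hN hu i] at hyi
        have := lpsi_inj hN hv hu (hlat s hs y hy) (cr_lat i) hyi
        rw [← this]
        exact hy
    rw [← h1]
    exact hs
  · intro t ht hne
    refine ⟨(Finset.univ.filter (fun i => v i ∈ t)).image (cr N), hKfaces _ ?_, ?_⟩
    · intro h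
      apply hne
      apply Finset.Subset.antisymm ht
      intro x hx
      rw [Finset.mem_image] at hx
      obtain ⟨i, -, rfl⟩ := hx
      have : i ∈ Finset.univ.filter (fun i => v i ∈ t) := by rw [h]; exact Finset.mem_univ _
      exact (Finset.mem_filter.1 this).2
    · ext x
      constructor
      · intro hx
        have h1 := ht (Finset.mem_coe.1 hx)
        rw [Finset.mem_image] at h1
        obtain ⟨i, -, rfl⟩ := h1
        refine ⟨cr N i, ?_, lpsi_cr hN hu i⟩
        rw [Finset.mem_coe]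
        exact Finset.mem_image_of_mem _ (Finset.mem_filter.2 ⟨Finset.mem_univ _, Finset.mem_coe.1 hx⟩)
      · rintro ⟨y, hy, rfl⟩
        rw [Finset.mem_coe, Finset.mem_image] at hy
        obtain ⟨i, hi, rfl⟩ := hy
        rw [lpsi_cr hN hu i]
        exact (Finset.mem_filter.1 hi).2
  · rintro s ⟨s', hs', he⟩ x hx
    have h1 : x ∈ (s : Set (Fin n → ℤ)) := Finset.mem_coe.2 hx
    rw [he] at h1
    obtain ⟨y, hy, rfl⟩ := h1
    rcases hKrays s' hs' y hy with h | ⟨h0, h1, h2, h3, h4, h5, h6⟩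
    · left
      rw [Finset.mem_image] at h
      obtain ⟨i, -, rfl⟩ := h
      rw [lpsi_cr hN hu i]
      exact Finset.mem_image_of_mem _ (Finset.mem_univ _)
    · right
      refine ⟨y 2, y 3, h2, h3, h4, h5, ?_⟩
      rw [smul_lpsi hN hu h6, h0, h1, mul_comm N 2]
  · rintro s ⟨s', hs', he⟩ hcard
    have hcard' : s'.card = 4 := by
      have h1 : s = s'.image (lpsi v u N c) := by
        apply Finset.coe_injective
        rw [Finset.coe_image, he]
      rw [h1, Finset.card_image_of_injOn] at hcard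
      · exact hcard
      · intro x hx y hy hxy
        exact lpsi_inj hN hv hu (hlat s' hs' x hx) (hlat s' hs' y hy) hxy
    have key : ∀ w ∈ Submodule.span ℤ (s' : Set (Fin 4 → ℤ)), N ∣ w 3 - c * w 2 ∧
        lpsi v u N c w ∈ Submodule.span ℤ (s : Set (Fin n → ℤ)) := by
      intro w hw
      induction hw using Submodule.span_induction with
      | mem x hx =>
        refine ⟨hlat s' hs' x hx, Submodule.subset_span ?_⟩
        rw [he]
        exact ⟨x, hx, rfl⟩
      | zero =>
        refine ⟨by simp, ?_⟩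
        rw [lpsi_zero]
        exact Submodule.zero_mem _
      | add x y _ _ hx hy =>
        refine ⟨?_, ?_⟩
        · have := dvd_add hx.1 hy.1
          have h2 : (x + y) 3 - c * (x + y) 2 = x 3 - c * x 2 + (y 3 - c * y 2) := by
            simp only [Pi.add_apply]; ring
          rw [h2]; exact this
        · rw [lpsi_add hN hx.1 hy.1]
          exact Submodule.add_mem _ hx.2 hy.2
      | smul k x _ hx =>
        refine ⟨?_, ?_⟩
        · have := Dvd.dvd.mul_left hx.1 k
          have h2 : (k • x) 3 - c * (k • x) 2 = k * (x 3 - c * x 2) := by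
            simp only [Pi.smul_apply, smul_eq_mul]; ring
          rw [h2]; exact this
        · rw [lpsi_smul hN k hx.1]
          exact Submodule.smul_mem _ _ hx.2
    have key2 : ∀ x : Fin 4 → ℤ, N ∣ x 3 - c * x 2 →
        (2 : ℤ) • lpsi v u N c x ∈ Submodule.span ℤ (s : Set (Fin n → ℤ)) := by
      intro x hx
      rw [← lpsi_smul hN 2 hx]
      exact (key _ (hKspan s' hs' hcard' x hx)).2
    refine ⟨?_, ?_⟩
    · have h1 : lpsi v u N c ![0, 0, 1, c] = u := by
        rw [lpsi_eq hN _ 0 (by simp)]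
        funext j
        simp
      have h2 := key2 ![0, 0, 1, c] (by simp)
      rwa [h1] at h2
    · intro i
      have h2 := key2 (cr N i) (cr_lat i)
      rwa [lpsi_cr hN hu i] at h2

end H6BW
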