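import Pool.Agent.Work.MP_6237c7_co.BW.Bridge37

set_option autoImplicit false

namespace H6BW

open H79KMW

/-- LOW. -/
theorem low : S_LOW := by
  intro N MM zf ff h x hx hx0
  have hF := (b37_full h).toBase
  refine ⟨fun h1 h2 y hy he => ?_, fun h1 h2 y hy he => ?_, fun h1 h2 y hy he => ?_,
    fun h1 h2 y hy he => ?_⟩
  · exact LU37.low hF hx0 (b37_sw.1 h1) (b37_se.1 h2) (by rw [← he]; exact b37_mem.2 hy)
  · exact LU37.high hF hx0 (b37_nw.1 h1) (b37_ne.1 h2) (by rw [← he]; exact b37_mem.2 hy)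
  · exact LU37.left hF hx0 (b37_sw.1 h1) (b37_nw.1 h2) (by rw [← he]; exact b37_mem.2 hy)
  · exact LU37.right hF hx0 (b37_se.1 h1) (b37_ne.1 h2) (by rw [← he]; exact b37_mem.2 hy)

end H6BW
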