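import Pool.Agent.Work.MP_6237c7_co.BW.Defs

/-!
MP_6237c7_co, module MAIN: assembly of the main theorem from BASE, CORE, INIT and END.
-/

set_option autoImplicit false

namespace H6BW

open Finsupp H79KMW

/-- integer vectors which are independent over the integers are independent over the reals -/
lemma main_indep {m n : ℕ} {φ : Fin m → Fin n → ℤ} (hφ : LinearIndependent ℤ φ) {c : Fin m → ℝ}
    (hc : ∀ i, ∑ j, c j * (φ j i : ℝ) = 0) : c = 0 := by
  have h1 : LinearIndependent ℤ (fun j : Fin m => fun i : Fin n => ((φ j i : ℤ) : ℚ)) := by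
    let L : (Fin n → ℤ) →ₗ[ℤ] (Fin n → ℚ) :=
      LinearMap.pi fun i => (Int.castAddHom ℚ).toIntLinearMap.comp (LinearMap.proj i)
    have hL : LinearMap.ker L = ⊥ := by
      rw [LinearMap.ker_eq_bot']
      intro x hx
      funext i
      have := congrFun hx i
      have h2 : ((x i : ℤ) : ℚ) = 0 := this
      exact_mod_cast h2
    exact hφ.map' L hL
  have h2 : LinearIndependent ℚ (fun j : Fin m => fun i : Fin n => ((φ j i : ℤ) : ℚ)) :=
    (LinearIndependent.iff_fractionRing ℤ ℚ).1 h1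
  rw [Fintype.linearIndependent_iff] at h2
  let b := Module.Basis.ofVectorSpace ℚ ℝ
  funext j
  have h3 : ∀ k, b.coord k (c j) = 0 := by
    intro k
    refine h2 (fun j => b.coord k (c j)) ?_ j
    funext i
    rw [Finset.sum_apply]
    have h4 := congrArg (b.coord k) (hc i)
    rw [map_zero, map_sum] at h4
    rw [Pi.zero_apply, ← h4]
    refine Finset.sum_congr rfl fun j _ => ?_
    rw [Pi.smul_apply, smul_eq_mul]
    have h5 : c j * ((φ j i : ℤ) : ℝ) = ((φ j i : ℤ) : ℚ) • c j := by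
      rw [Rat.smul_def]
      push_cast
      ring
    rw [h5, map_smul, smul_eq_mul, mul_comm]
  have h4 : b.repr (c j) = 0 := by
    ext k
    exact h3 k
  rw [Pi.zero_apply]
  exact (LinearEquiv.map_eq_zero_iff _).1 h4

/-- the box of base points -/
noncomputable def mainBox (m w : ℕ) : Finset (Fin (m + 1) → ℤ) :=
  Fintype.piFinset fun i => if i = 0 then {1} else Finset.Icc (-((w : ℤ) + 1)) (w + 1)

lemma mem_mainBox {m w : ℕ} {x : Fin (m + 1) → ℤ} :
    x ∈ mainBox m w ↔ x 0 = 1 ∧ ∀ j : Fin m, |x j.succ| ≤ (w : ℤ) + 1 := by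
  rw [mainBox, Fintype.mem_piFinset]
  constructor
  · intro h
    refine ⟨by simpa using h 0, fun j => ?_⟩
    have := h j.succ
    rw [if_neg (Fin.succ_ne_zero j), Finset.mem_Icc] at this
    exact abs_le.2 this
  · rintro ⟨h0, h1⟩ i
    refine Fin.cases ?_ (fun j => ?_) i
    · simpa using h0
    · rw [if_neg (Fin.succ_ne_zero j), Finset.mem_Icc]
      exact abs_le.1 (h1 j)

lemma mainBox_nondeg (m w : ℕ) :
    ∃ f : Fin (m + 1) → Fin (m + 1) → ℤ, (∀ i, f i ∈ mainBox m w) ∧ dt f ≠ 0 := by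
  classical
  refine ⟨fun i j => if j = 0 then 1 else if i = j then 1 else 0, ?_, ?_⟩
  · intro i
    rw [mem_mainBox]
    refine ⟨by simp, fun j => ?_⟩
    dsimp only
    rw [if_neg (Fin.succ_ne_zero j)]
    split_ifs
    · rw [abs_one]
      have : (0 : ℤ) ≤ w := Int.natCast_nonneg w
      linarith
    · rw [abs_zero]
      positivity
  · have h1 : (Matrix.of fun i j : Fin (m + 1) => (if j = 0 then (1 : ℤ) else
        if i = j then 1 else 0)).det = ∏ i : Fin (m + 1), (1 : ℤ) := by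
      have h2 : Matrix.BlockTriangular (Matrix.of fun i j : Fin (m + 1) =>
          (if j = 0 then (1 : ℤ) else if i = j then 1 else 0)) OrderDual.toDual := by
        intro i j hij
        have hij' : i < j := hij
        have hj : j ≠ 0 := fun h => by
          rw [h] at hij'
          exact absurd hij' (Fin.not_lt_zero i)
        simp [hj, hij'.ne]
      rw [Matrix.det_of_lowerTriangular _ h2]
      refine Finset.prod_congr rfl fun i _ => ?_
      simp
    rw [dt, h1]
    simp

/-- MAIN. -/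
theorem main (hB : S_BASE) (hC : S_CORE) (hI : S_INIT) (hE : S_END) : S_MAIN := by
  classical
  intro m w
  obtain ⟨Δ, hΔ⟩ := hB m (mainBox m w) (fun x hx => (mem_mainBox.1 hx).1) (mainBox_nondeg m w)
  obtain ⟨g, B, hg, hB1, hcore⟩ := hC m Δ hΔ.cx hΔ.ht
  obtain ⟨k, hk, hend⟩ := hE (m + 2) g B hg hB1
  refine ⟨k, hk, fun V hV hint hφ => ?_⟩
  obtain ⟨φ, hφi, hφw⟩ := hφ
  -- a point of V
  have hne : V.Nonempty := by
    rw [Finset.nonempty_iff_ne_empty]
    rintro rfl
    simp at hint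
  obtain ⟨v0, hv0⟩ := hne
  let lift : (Fin (m + 2) → ℝ) → (Fin (m + 3) → ℤ) := fun x => Fin.cons 1 (fun i => ⌊x i⌋)
  have hfl : ∀ x ∈ V, ∀ i, ((⌊x i⌋ : ℤ) : ℝ) = x i := by
    intro x hx i
    obtain ⟨z, hz⟩ := hV x hx i
    rw [hz, Int.floor_intCast]
  have htl : ∀ x ∈ V, tl (lift x) = x := by
    intro x hx
    funext i
    exact hfl x hx i
  let P : Finset (Fin (m + 3) → ℤ) := V.image lift
  have hP1 : ∀ x ∈ P, x 0 = 1 := by
    intro x hx
    obtain ⟨y, _, rfl⟩ := Finset.mem_image.1 hx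
    rfl
  have hPV : tl '' (P : Set (Fin (m + 3) → ℤ)) = (V : Set (Fin (m + 2) → ℝ)) := by
    ext x
    constructor
    · rintro ⟨_, hy, rfl⟩
      obtain ⟨z, hz, rfl⟩ := Finset.mem_image.1 (Finset.mem_coe.1 hy)
      rw [htl z hz]; exact hz
    · intro hx
      exact ⟨lift x, Finset.mem_coe.2 (Finset.mem_image_of_mem _ hx), htl x hx⟩
  -- the projection
  let cst : Fin m → ℤ := fun j => ∑ i, φ j i * ⌊v0 i⌋
  let A : Matrix (Fin (m + 1)) (Fin (m + 3)) ℤ :=
    Matrix.of (Fin.cons (Fin.cons 1 0) fun j => Fin.cons (-cst j) (φ j))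
  have hA0 : ∀ x, (A.mulVec x) 0 = x 0 := by
    intro x
    rw [Matrix.mulVec, dotProduct, Fin.sum_univ_succ]
    simp [A]
  have hAs : ∀ x (j : Fin m), (A.mulVec x) j.succ = -cst j * x 0 + ∑ i, φ j i * x i.succ := by
    intro x j
    rw [Matrix.mulVec, dotProduct, Fin.sum_univ_succ]
    simp [A]
  have hAW : ∀ v ∈ P, A.mulVec v ∈ mainBox m w := by
    intro v hv
    obtain ⟨y, hy, rfl⟩ := Finset.mem_image.1 hv
    rw [mem_mainBox]
    refine ⟨by rw [hA0]; rfl, fun j => ?_⟩
    have h1 := hφw j y hy v0 hv0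
    have h2 : (((A.mulVec (lift y)) j.succ : ℤ) : ℝ) = ∑ i, (φ j i : ℝ) * (y i - v0 i) := by
      rw [hAs]
      have e1 : lift y 0 = 1 := rfl
      have e2 : ∀ i : Fin (m + 2), lift y i.succ = ⌊y i⌋ := fun i => rfl
      rw [e1]
      simp only [e2, cst]
      push_cast
      rw [mul_one, neg_add_eq_sub, ← Finset.sum_sub_distrib]
      refine Finset.sum_congr rfl fun i _ => ?_
      rw [hfl y hy, hfl v0 hv0]
      ring
    rw [← h2] at h1
    have h3 : (((|(A.mulVec (lift y)) j.succ| : ℤ)) : ℝ) ≤ ((w : ℤ) : ℝ) := by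
      push_cast
      exact h1
    have h4 : |(A.mulVec (lift y)) j.succ| ≤ (w : ℤ) := by exact_mod_cast h3
    linarith
  have hrank : (A.map (Int.cast : ℤ → ℝ)).rank = m + 1 := by
    have h1 : LinearIndependent ℝ (A.map (Int.cast : ℤ → ℝ)).row := by
      rw [Fintype.linearIndependent_iff]
      intro c hc
      have hs : ∀ i : Fin (m + 2), ∑ j : Fin m, c j.succ * (φ j i : ℝ) = 0 := by
        intro i
        have h2 := congrFun hc i.succ
        rw [Finset.sum_apply, Fin.sum_univ_succ] at h2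
        simpa [A, Matrix.row] using h2
      have h3 := main_indep hφi hs
      have h0 : c 0 = 0 := by
        have h2 := congrFun hc 0
        rw [Finset.sum_apply, Fin.sum_univ_succ] at h2
        have h4 : ∀ j : Fin m, c j.succ = 0 := fun j => congrFun h3 j
        simpa [A, Matrix.row, h4] using h2
      intro i
      refine Fin.cases h0 (fun j => congrFun h3 j) i
    have h2 := h1.rank_matrix
    rw [h2, Fintype.card_fin]
  obtain ⟨K, hK, hKs, hKo⟩ := hI m (m + 2) (mainBox m w) Δ (fun x hx => (mem_mainBox.1 hx).1) hΔ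
    A P hA0 hAW
  obtain ⟨K', hK', hKs', hht, hMB⟩ := hcore A K hrank hA0 hK hKo
  exact hend V hV ⟨P, K', hP1, hPV, hK', hKs'.trans hKs, hht, hMB⟩

end H6BW
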