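import Pool.Agent.Work.MP_6237c7_co.BW.Defs

/-!
MP_6237c7_co, BW: module MAXF, maximality of `x 0` gives the frontier conditions.
-/

set_option autoImplicit false

namespace H6BW

open H79KMW

/-- one coordinate: moving `X` towards `Y` and scaling up keeps the corner coefficients
nonnegative -/
private theorem maxf_one {N x0 A B X Y : ℝ} (hN : 0 < N) (hx0 : 0 < x0) (hA : 0 ≤ A)
    (hB : 0 ≤ B) (hY : 0 < Y) (h : (0 < A ∧ Y < X) ∨ (0 < B ∧ X < Y)) :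
    ∃ κ₀ : ℝ, 0 < κ₀ ∧ ∀ κ : ℝ, 0 < κ → κ ≤ κ₀ → ∃ ε₀ : ℝ, 0 < ε₀ ∧ ∀ ε : ℝ, 0 < ε → ε ≤ ε₀ →
      ∃ A' B' : ℝ, 0 ≤ A' ∧ 0 ≤ B' ∧ A + B + 2 * x0 = A' + B' + 2 * ((1 + ε * κ) * x0) ∧
        N * B + X = N * B' + ((1 - ε) * X + (ε + ε * κ) * Y) := by
  rcases h with ⟨hA, hXY⟩ | ⟨hB, hXY⟩
  · refine ⟨(X - Y) / Y, div_pos (by linarith) hY, fun κ hκ hκ₀ => ?_⟩
    have h1 : κ * Y ≤ X - Y := by rwa [le_div_iff₀ hY] at hκ₀
    have hC : 0 < (X - Y) / N + 2 * κ * x0 := by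
      have := div_pos (sub_pos.2 hXY) hN
      positivity
    refine ⟨A / ((X - Y) / N + 2 * κ * x0), div_pos hA hC, fun ε hε hε₀ => ?_⟩
    rw [le_div_iff₀ hC] at hε₀
    refine ⟨A - ε * (X - Y - κ * Y) / N - 2 * ε * κ * x0, B + ε * (X - Y - κ * Y) / N,
      ?_, ?_, ?_, ?_⟩
    · have h2 : ε * (X - Y - κ * Y) / N ≤ ε * (X - Y) / N := by
        apply div_le_div_of_nonneg_right _ hN.le
        apply mul_le_mul_of_nonneg_left _ hε.le
        have := mul_pos hκ hY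
        linarith
      have h3 : ε * ((X - Y) / N + 2 * κ * x0) = ε * (X - Y) / N + 2 * ε * κ * x0 := by ring
      linarith
    · have : 0 ≤ ε * (X - Y - κ * Y) / N :=
        div_nonneg (mul_nonneg hε.le (by linarith)) hN.le
      linarith
    · ring
    · have : N * (B + ε * (X - Y - κ * Y) / N) = N * B + ε * (X - Y - κ * Y) := by
        field_simp
      rw [this]
      ring
  · refine ⟨(Y - X) / (2 * N * x0), div_pos (by linarith) (by positivity), fun κ hκ hκ₀ => ?_⟩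
    have h1 : κ * (2 * N * x0) ≤ Y - X := by
      rwa [le_div_iff₀ (by positivity)] at hκ₀
    have hκY := mul_pos hκ hY
    have hC : 0 < (Y - X + κ * Y) / N := div_pos (by linarith) hN
    refine ⟨B / ((Y - X + κ * Y) / N), div_pos hB hC, fun ε hε hε₀ => ?_⟩
    rw [le_div_iff₀ hC] at hε₀
    refine ⟨A + ε * ((Y - X + κ * Y) / N) - 2 * ε * κ * x0, B - ε * ((Y - X + κ * Y) / N),
      ?_, ?_, ?_, ?_⟩
    · have h2 : 2 * κ * x0 ≤ (Y - X + κ * Y) / N := by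
        rw [le_div_iff₀ hN]
        linarith
      have h3 := mul_le_mul_of_nonneg_left h2 hε.le
      linarith
    · linarith
    · ring
    · have : N * (B - ε * ((Y - X + κ * Y) / N)) = N * B - ε * (Y - X + κ * Y) := by
        field_simp
      rw [this]
      ring

theorem maxf : S_MAXF := by
  intro N MM zf ff hPD w a x ha hx hx0 e0 e1 e2 e3 hmax
  have hN : 0 < N := by have := hPD.hN; linarith
  have main : ∀ y ∈ MM, y 0 = x 0 → ((0 < a 0 ∧ y 1 < x 1) ∨ (0 < a 1 ∧ x 1 < y 1)) →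
      ((0 < a 2 ∧ y 2 < x 2) ∨ (0 < a 3 ∧ x 2 < y 2)) → False := by
    intro y hy hyx h1 h2
    have hy1 : 0 < y 1 := by have := hPD.lo1 y hy; linarith
    have hy2 : 0 < y 2 := by have := hPD.lo2 y hy; linarith
    obtain ⟨κ₁, hκ₁, H1⟩ := maxf_one hN hx0 (ha 0) (ha 1) hy1 h1
    obtain ⟨κ₂, hκ₂, H2⟩ := maxf_one hN hx0 (ha 2) (ha 3) hy2 h2
    have hκ : 0 < min κ₁ κ₂ := lt_min hκ₁ hκ₂
    obtain ⟨ε₁, hε₁, H1⟩ := H1 (min κ₁ κ₂) hκ (min_le_left _ _)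
    obtain ⟨ε₂, hε₂, H2⟩ := H2 (min κ₁ κ₂) hκ (min_le_right _ _)
    have hε : 0 < min 1 (min ε₁ ε₂) := lt_min one_pos (lt_min hε₁ hε₂)
    obtain ⟨A, B, hA, hB, g0, g2⟩ := H1 (min 1 (min ε₁ ε₂)) hε
      ((min_le_right _ _).trans (min_le_left _ _))
    obtain ⟨C, D, hC, hD, g1, g3⟩ := H2 (min 1 (min ε₁ ε₂)) hε
      ((min_le_right _ _).trans (min_le_right _ _))
    have hε1 : min 1 (min ε₁ ε₂) ≤ 1 := min_le_left _ _
    generalize min κ₁ κ₂ = κ at *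
    generalize min 1 (min ε₁ ε₂) = ε at *
    have hx' : (1 - ε) • x + (ε + ε * κ) • y ∈ MM :=
      hPD.add _ (hPD.smul x hx _ (by linarith)) _ (hPD.smul y hy _ (by positivity))
    have v : ∀ i, ((1 - ε) • x + (ε + ε * κ) • y) i = (1 - ε) * x i + (ε + ε * κ) * y i :=
      fun i => rfl
    have v0 : ((1 - ε) • x + (ε + ε * κ) • y) 0 = (1 + ε * κ) * x 0 := by
      rw [v, hyx]
      ring
    have hle := hmax ![A, B, C, D] ((1 - ε) • x + (ε + ε * κ) • y)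
      (by
        intro i
        fin_cases i
        · exact hA
        · exact hB
        · exact hC
        · exact hD) hx'
      (by rw [v0, e0]; exact g0) (by rw [v0, e1]; exact g1)
      (by rw [v, e2]; exact g2) (by rw [v, e3]; exact g3)
    rw [v0] at hle
    have : 0 < ε * κ * x 0 := by positivity
    linarith
  refine ⟨fun h0 h2 y hy hyx hlt => ?_, fun h1 h2 y hy hyx hlt => ?_,
    fun h0 h3 y hy hyx hlt => ?_, fun h1 h3 y hy hyx hlt => ?_⟩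
  · exact main y hy hyx (Or.inl ⟨h0, hlt.1⟩) (Or.inl ⟨h2, hlt.2⟩)
  · exact main y hy hyx (Or.inr ⟨h1, hlt.1⟩) (Or.inl ⟨h2, hlt.2⟩)
  · exact main y hy hyx (Or.inl ⟨h0, hlt.1⟩) (Or.inr ⟨h3, hlt.2⟩)
  · exact main y hy hyx (Or.inr ⟨h1, hlt.1⟩) (Or.inr ⟨h3, hlt.2⟩)

end H6BW
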