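import Pool.Agent.Work.MP_6237c7_co.BW.Defs

/-!
PDAT: the planar data of the arithmetic situation.
-/

set_option autoImplicit false

namespace H6BW

open Finsupp H79KMW

/-! ### cones -/

private lemma pdat_sum {n : ℕ} {P : Finset (Fin n → ℤ)} {x : Fin n → ℝ} (hx : x ∈ coneOf P) :
    ∃ a : (Fin n → ℤ) → ℝ, (∀ y, 0 ≤ a y) ∧ ∀ i, x i = ∑ y ∈ P, a y * (y i : ℝ) := by
  obtain ⟨a, ha, has, rfl⟩ := hx
  exact ⟨a, ha, fun i => lc_apply_of_subset a P has i⟩

private lemma pdat_nonneg {P : Finset (Fin 3 → ℤ)} {α β γ : ℝ}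
    (h : ∀ y ∈ P, 0 ≤ α * (y 0 : ℝ) + β * (y 1 : ℝ) + γ * (y 2 : ℝ)) {x : Fin 3 → ℝ}
    (hx : x ∈ coneOf P) : 0 ≤ α * x 0 + β * x 1 + γ * x 2 := by
  obtain ⟨a, ha, hs⟩ := pdat_sum hx
  rw [hs 0, hs 1, hs 2, Finset.mul_sum, Finset.mul_sum, Finset.mul_sum,
    ← Finset.sum_add_distrib, ← Finset.sum_add_distrib]
  refine Finset.sum_nonneg fun y hy => ?_
  have h1 := mul_nonneg (ha y) (h y hy)
  linarith

private lemma pdat_face {P : Finset (Fin 3 → ℤ)} {α β γ α' β' γ' : ℝ}
    (h : ∀ y ∈ P, 0 ≤ α * (y 0 : ℝ) + β * (y 1 : ℝ) + γ * (y 2 : ℝ))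
    (h' : ∀ y ∈ P, α * (y 0 : ℝ) + β * (y 1 : ℝ) + γ * (y 2 : ℝ) = 0 →
      0 ≤ α' * (y 0 : ℝ) + β' * (y 1 : ℝ) + γ' * (y 2 : ℝ)) {x : Fin 3 → ℝ}
    (hx : x ∈ coneOf P) (h0 : α * x 0 + β * x 1 + γ * x 2 = 0) :
    0 ≤ α' * x 0 + β' * x 1 + γ' * x 2 := by
  obtain ⟨a, ha, hs⟩ := pdat_sum hx
  have h1 : ∑ y ∈ P, a y * (α * (y 0 : ℝ) + β * (y 1 : ℝ) + γ * (y 2 : ℝ)) = 0 := by
    rw [← h0, hs 0, hs 1, hs 2, Finset.mul_sum, Finset.mul_sum, Finset.mul_sum,
      ← Finset.sum_add_distrib, ← Finset.sum_add_distrib]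
    exact Finset.sum_congr rfl fun y _ => by ring
  have h2 := (Finset.sum_eq_zero_iff_of_nonneg fun y hy => mul_nonneg (ha y) (h y hy)).1 h1
  rw [hs 0, hs 1, hs 2, Finset.mul_sum, Finset.mul_sum, Finset.mul_sum,
    ← Finset.sum_add_distrib, ← Finset.sum_add_distrib]
  refine Finset.sum_nonneg fun y hy => ?_
  rcases mul_eq_zero.1 (h2 y hy) with h3 | h3
  · rw [h3]
    simp
  · have h4 := mul_nonneg (ha y) (h' y hy h3)
    linarith

private lemma pdat_coneOf_empty {n : ℕ} {x : Fin n → ℝ} (hx : x ∈ coneOf (∅ : Finset (Fin n → ℤ))) :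
    x = 0 := by
  obtain ⟨a, -, ha, rfl⟩ := hx
  rw [Finset.subset_empty, Finsupp.support_eq_empty] at ha
  rw [ha, map_zero]

private lemma pdat_rv_mem {n : ℕ} {P : Finset (Fin n → ℤ)} {p : Fin n → ℤ} (hp : p ∈ P) :
    rv p ∈ coneOf P := by
  classical
  refine ⟨single p 1, fun x => ?_, ?_, ?_⟩
  · rw [Finsupp.single_apply]
    split_ifs
    · exact zero_le_one
    · exact le_rfl
  · exact Finsupp.support_single_subset.trans (Finset.singleton_subset_iff.2 hp)
  · rw [lc_single, one_smul]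
    rfl

private lemma pdat_pair {n : ℕ} {p q : Fin n → ℤ} {x : Fin n → ℝ} :
    x ∈ coneOf ({p, q} : Finset (Fin n → ℤ)) ↔
      ∃ α β : ℝ, 0 ≤ α ∧ 0 ≤ β ∧ x = α • rv p + β • rv q := by
  classical
  constructor
  · intro hx
    rw [coneOf_insert] at hx
    obtain ⟨z, hz, α, hα, rfl⟩ := hx
    have h1 : ({q} : Finset (Fin n → ℤ)) = insert q ∅ := by simp
    rw [h1, coneOf_insert] at hz
    obtain ⟨z', hz', β, hβ, rfl⟩ := hz
    rw [pdat_coneOf_empty hz']
    exact ⟨α, β, hα, hβ, by rw [zero_add, add_comm]⟩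
  · rintro ⟨α, β, hα, hβ, rfl⟩
    exact coneOf_add _ (coneOf_smul _ (pdat_rv_mem (by simp)) hα)
      (coneOf_smul _ (pdat_rv_mem (by simp)) hβ)

/-! ### interpolation -/

private lemma pdat_pl_succ (M : ℕ) (g : ℤ → ℤ) (y : ℝ) : pl (M + 1) g y =
    pl M g y + ((g (M + 2) : ℝ) - g (M + 1)) * max 0 (min 1 (y - (M + 1))) := by
  unfold pl
  rw [Finset.sum_range_succ, ← add_assoc]

private lemma pdat_pl_top (M : ℕ) (g : ℤ → ℤ) {y : ℝ} (hy : (M : ℝ) + 1 ≤ y) :
    pl M g y = g (M + 1) := by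
  induction M with
  | zero => simp [pl]
  | succ M ih =>
    push_cast at hy
    rw [pdat_pl_succ, ih (by linarith), min_eq_left (by linarith), max_eq_right zero_le_one]
    push_cast
    rw [add_assoc (M : ℤ) 1 1]
    norm_num

private lemma pdat_pl (M : ℕ) (g : ℤ → ℤ) {k : ℕ} (hk : k < M) {y : ℝ} (hy : (k : ℝ) + 1 ≤ y)
    (hy' : y ≤ (k : ℝ) + 2) :
    pl M g y = g (k + 1) + ((g (k + 2) : ℝ) - g (k + 1)) * (y - (k + 1)) := by
  induction M with
  | zero => omega
  | succ M ih =>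
    rw [pdat_pl_succ]
    rcases Nat.lt_succ_iff_lt_or_eq.1 hk with h | h
    · have h1 : (k : ℝ) + 1 ≤ M := by exact_mod_cast h
      rw [ih h, max_eq_left (a := (0 : ℝ)) ((min_le_right _ _).trans (by linarith)), mul_zero,
        add_zero]
    · subst h
      rw [pdat_pl_top k g hy, min_eq_right (by linarith), max_eq_right (by linarith)]

private lemma pdat_pl_continuous (M : ℕ) (g : ℤ → ℤ) : Continuous (pl M g) := by
  unfold pl
  fun_prop

private lemma pdat_floor {M : ℕ} (hM : 0 < M) {y : ℝ} (h1 : 1 ≤ y) (h2 : y ≤ M + 1) :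
    ∃ k : ℕ, k < M ∧ (k : ℝ) + 1 ≤ y ∧ y ≤ (k : ℝ) + 2 := by
  rcases eq_or_lt_of_le h2 with h | h
  · refine ⟨M - 1, by omega, ?_, ?_⟩
    · rw [h, Nat.cast_sub hM]
      push_cast
      linarith
    · rw [h, Nat.cast_sub hM]
      push_cast
      linarith
  · have h3 : (0 : ℝ) ≤ y - 1 := by linarith
    refine ⟨⌊y - 1⌋₊, ?_, ?_, ?_⟩
    · rw [Nat.floor_lt h3]
      linarith
    · have := Nat.floor_le h3
      linarith
    · have := Nat.lt_floor_add_one (y - 1)
      linarith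

/-! ### the points -/

private lemma pdat_mem_pts {N c X Y : ℤ} : (![1, X, Y] : Fin 3 → ℤ) ∈ pts N c ↔
    0 < X ∧ X < 2 * N ∧ 0 < Y ∧ Y < 2 * N ∧ N ∣ Y - c * X := by
  unfold pts
  simp only [Finset.mem_image, Finset.mem_filter, Finset.mem_product, Finset.mem_Ioo, Prod.exists]
  constructor
  · rintro ⟨a, b, ⟨⟨⟨h1, h2⟩, h3, h4⟩, h5⟩, h6⟩
    have h7 := congrFun h6 1
    have h8 := congrFun h6 2
    simp at h7 h8
    subst h7
    subst h8
    exact ⟨h1, h2, h3, h4, h5⟩
  · rintro ⟨h1, h2, h3, h4, h5⟩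
    exact ⟨X, Y, ⟨⟨⟨h1, h2⟩, h3, h4⟩, h5⟩, rfl⟩

private lemma pdat_pts_elim {N c : ℤ} {y : Fin 3 → ℤ} (hy : y ∈ pts N c) :
    y 0 = 1 ∧ 0 < y 1 ∧ y 1 < 2 * N ∧ 0 < y 2 ∧ y 2 < 2 * N ∧ N ∣ y 2 - c * y 1 := by
  have hy' := hy
  unfold pts at hy'
  simp only [Finset.mem_image, Prod.exists] at hy'
  obtain ⟨a, b, -, rfl⟩ := hy'
  exact ⟨rfl, pdat_mem_pts.1 hy⟩

private lemma pdat_emod_le {N a : ℤ} (hN : 0 < N) (ha : 0 ≤ a) : a % N ≤ a := by
  have h1 := Int.emod_add_mul_ediv a N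
  have h2 : 0 ≤ a / N := Int.ediv_nonneg ha hN.le
  nlinarith

private lemma pdat_emod_pos {N c c' j : ℤ} (hN : 2 ≤ N) (hc : N ∣ c * c' - 1)
    (hj : ¬ N ∣ j) : 0 < (c' * j) % N := by
  rcases lt_or_eq_of_le (Int.emod_nonneg (c' * j) (by omega : N ≠ 0)) with h | h
  · exact h
  · exfalso
    apply hj
    have h1 : N ∣ c' * j := Int.dvd_of_emod_eq_zero h.symm
    have h2 : j = c * (c' * j) - (c * c' - 1) * j := by ring
    rw [h2]
    exact dvd_sub (dvd_mul_of_dvd_right h1 _) (dvd_mul_of_dvd_left hc _)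

private lemma pdat_zmem {N c c' j : ℤ} (hN : 2 ≤ N) (hc : N ∣ c * c' - 1) (h1 : 1 ≤ j)
    (h2 : j ≤ 2 * N - 1) : (![1, zeta N c' j, j] : Fin 3 → ℤ) ∈ pts N c := by
  have h3 : (c' * j) % N < N := Int.emod_lt_of_pos _ (by omega)
  have h4 : 0 ≤ (c' * j) % N := Int.emod_nonneg _ (by omega)
  have h5 : N ∣ j - c * ((c' * j) % N) := by
    have h6 : j - c * ((c' * j) % N) = -((c * c' - 1) * j) + c * (N * (c' * j / N)) := by
      have := Int.emod_add_mul_ediv (c' * j) N
      have h7 : (c' * j) % N = c' * j - N * (c' * j / N) := by omega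
      rw [h7]
      ring
    rw [h6]
    exact dvd_add (dvd_neg.2 (dvd_mul_of_dvd_left hc _))
      (dvd_mul_of_dvd_right (dvd_mul_right _ _) _)
  rw [pdat_mem_pts]
  unfold zeta
  split_ifs with h
  · have h6 : 0 < (c' * j) % N :=
      pdat_emod_pos hN hc fun hd => absurd (Int.le_of_dvd (by omega) hd) (by omega)
    exact ⟨h6, by omega, by omega, by omega, h5⟩
  · refine ⟨by omega, by omega, by omega, by omega, ?_⟩
    have h6 : j - c * (N + (c' * j) % N) = (j - c * ((c' * j) % N)) - c * N := by ring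
    rw [h6]
    exact dvd_sub h5 (dvd_mul_left _ _)

private lemma pdat_fmem {N c c' i : ℤ} (hN : 2 ≤ N) (hc : N ∣ c * c' - 1) (h1 : 1 ≤ i)
    (h2 : i ≤ 2 * N - 1) : (![1, i, phi N c i] : Fin 3 → ℤ) ∈ pts N c := by
  have h3 : (c * i) % N < N := Int.emod_lt_of_pos _ (by omega)
  have h4 : 0 ≤ (c * i) % N := Int.emod_nonneg _ (by omega)
  have h5 : N ∣ (c * i) % N - c * i := by
    have := Int.emod_add_mul_ediv (c * i) N
    have h7 : (c * i) % N - c * i = -(N * (c * i / N)) := by omega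
    rw [h7]
    exact dvd_neg.2 (dvd_mul_right _ _)
  rw [pdat_mem_pts]
  unfold phi
  split_ifs with h
  · refine ⟨by omega, by omega, by omega, by omega, ?_⟩
    have h6 : N + (c * i) % N - c * i = N + ((c * i) % N - c * i) := by ring
    rw [h6]
    exact dvd_add dvd_rfl h5
  · have h6 : 0 < (c * i) % N := by
      refine pdat_emod_pos (c := c') (c' := c) hN (by rwa [mul_comm]) fun hd => ?_
      have h7 : N ∣ i - N := dvd_sub hd dvd_rfl
      exact absurd (Int.le_of_dvd (by omega) h7) (by omega)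
    exact ⟨by omega, by omega, h6, by omega, h5⟩

/-! ### the two paths -/

private lemma pdat_zcone {g : ℤ → ℤ} {M : ℕ} {k : ℕ} (hk : k < M) {x : Fin 3 → ℝ} {y : ℝ}
    (hy : (k : ℝ) + 1 ≤ y) (hy' : y ≤ (k : ℝ) + 2) (h0 : 0 ≤ x 0) (h1 : x 1 = x 0 * pl M g y)
    (h2 : x 2 = x 0 * y) :
    x ∈ coneOf ({![1, g (k + 1), k + 1], ![1, g (k + 2), k + 2]} : Finset (Fin 3 → ℤ)) := by
  rw [pdat_pair]
  refine ⟨x 0 * (k + 2 - y), x 0 * (y - (k + 1)), mul_nonneg h0 (by linarith),
    mul_nonneg h0 (by linarith), ?_⟩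
  rw [pdat_pl M g hk hy hy'] at h1
  ext i
  fin_cases i
  · simp [rv]
    ring
  · simp [rv, h1]
    ring
  · simp [rv, h2]
    ring

private lemma pdat_fcone {g : ℤ → ℤ} {M : ℕ} {k : ℕ} (hk : k < M) {x : Fin 3 → ℝ} {y : ℝ}
    (hy : (k : ℝ) + 1 ≤ y) (hy' : y ≤ (k : ℝ) + 2) (h0 : 0 ≤ x 0) (h1 : x 2 = x 0 * pl M g y)
    (h2 : x 1 = x 0 * y) :
    x ∈ coneOf ({![1, (k : ℤ) + 1, g (k + 1)], ![1, (k : ℤ) + 2, g (k + 2)]} :
      Finset (Fin 3 → ℤ)) := by
  rw [pdat_pair]
  refine ⟨x 0 * (k + 2 - y), x 0 * (y - (k + 1)), mul_nonneg h0 (by linarith),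
    mul_nonneg h0 (by linarith), ?_⟩
  rw [pdat_pl M g hk hy hy'] at h1
  ext i
  fin_cases i
  · simp [rv]
    ring
  · simp [rv, h2]
    ring
  · simp [rv, h1]
    ring

private lemma pdat_zon {g : ℤ → ℤ} {M : ℕ} {j : ℤ} (h1 : 1 ≤ j) (h2 : j ≤ M) {x : Fin 3 → ℝ}
    (hx : x ∈ coneOf ({![1, g j, j], ![1, g (j + 1), j + 1]} : Finset (Fin 3 → ℤ))) :
    x 1 = x 0 * pl M g (x 2 / x 0) := by
  obtain ⟨α, β, hα, hβ, rfl⟩ := pdat_pair.1 hx
  have e0 : (α • rv (![1, g j, j] : Fin 3 → ℤ) + β • rv ![1, g (j + 1), j + 1]) 0 = α + β := by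
    simp [rv]
  have e1 : (α • rv (![1, g j, j] : Fin 3 → ℤ) + β • rv ![1, g (j + 1), j + 1]) 1 =
      α * g j + β * g (j + 1) := by
    simp [rv]
  have e2 : (α • rv (![1, g j, j] : Fin 3 → ℤ) + β • rv ![1, g (j + 1), j + 1]) 2 =
      α * j + β * (j + 1) := by
    simp [rv]
  rw [e0, e1, e2]
  rcases eq_or_lt_of_le (add_nonneg hα hβ) with h | h
  · have h3 : α = 0 := by linarith
    have h4 : β = 0 := by linarith
    rw [h3, h4]
    simp
  · obtain ⟨k, hk⟩ : ∃ k : ℕ, j = k + 1 := ⟨(j - 1).toNat, by omega⟩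
    subst hk
    have hk' : k < M := by omega
    have e3 : (α * ((k + 1 : ℤ) : ℝ) + β * (((k + 1 : ℤ) : ℝ) + 1)) / (α + β) =
        (k : ℝ) + 1 + β / (α + β) := by
      push_cast
      field_simp
      ring
    have h5 : 0 ≤ β / (α + β) := div_nonneg hβ h.le
    have h6 : β / (α + β) ≤ 1 := by
      rw [div_le_one h]
      linarith
    rw [e3, pdat_pl M g hk' (by linarith) (by linarith)]
    have e4 : ((k : ℤ) + 1 + 1) = (k : ℤ) + 2 := by ring
    rw [e4]
    field_simp
    ring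

private lemma pdat_fon {g : ℤ → ℤ} {M : ℕ} {j : ℤ} (h1 : 1 ≤ j) (h2 : j ≤ M) {x : Fin 3 → ℝ}
    (hx : x ∈ coneOf ({![1, j, g j], ![1, j + 1, g (j + 1)]} : Finset (Fin 3 → ℤ))) :
    x 2 = x 0 * pl M g (x 1 / x 0) := by
  obtain ⟨α, β, hα, hβ, rfl⟩ := pdat_pair.1 hx
  have e0 : (α • rv (![1, j, g j] : Fin 3 → ℤ) + β • rv ![1, j + 1, g (j + 1)]) 0 = α + β := by
    simp [rv]
  have e1 : (α • rv (![1, j, g j] : Fin 3 → ℤ) + β • rv ![1, j + 1, g (j + 1)]) 2 =
      α * g j + β * g (j + 1) := by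
    simp [rv]
  have e2 : (α • rv (![1, j, g j] : Fin 3 → ℤ) + β • rv ![1, j + 1, g (j + 1)]) 1 =
      α * j + β * (j + 1) := by
    simp [rv]
  rw [e0, e1, e2]
  rcases eq_or_lt_of_le (add_nonneg hα hβ) with h | h
  · have h3 : α = 0 := by linarith
    have h4 : β = 0 := by linarith
    rw [h3, h4]
    simp
  · obtain ⟨k, hk⟩ : ∃ k : ℕ, j = k + 1 := ⟨(j - 1).toNat, by omega⟩
    subst hk
    have hk' : k < M := by omega
    have e3 : (α * ((k + 1 : ℤ) : ℝ) + β * (((k + 1 : ℤ) : ℝ) + 1)) / (α + β) =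
        (k : ℝ) + 1 + β / (α + β) := by
      push_cast
      field_simp
      ring
    have h5 : 0 ≤ β / (α + β) := div_nonneg hβ h.le
    have h6 : β / (α + β) ≤ 1 := by
      rw [div_le_one h]
      linarith
    rw [e3, pdat_pl M g hk' (by linarith) (by linarith)]
    have e4 : ((k : ℤ) + 1 + 1) = (k : ℤ) + 2 := by ring
    rw [e4]
    field_simp
    ring

private lemma pdat_cone_mono {n : ℕ} {P P' : Finset (Fin n → ℤ)} (h : P ⊆ P') :
    coneOf P ⊆ coneOf P' := by
  rintro _ ⟨a, ha, has, rfl⟩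
  exact ⟨a, ha, has.trans h, rfl⟩

private lemma pdat_closed {n : ℕ} (P : Finset (Fin n → ℤ)) : IsClosed (coneOf P) := by
  obtain ⟨C, hC, -, hs⟩ := exists_initial_fan P
  rw [← hs]
  exact hC.isClosed_supp

/-- **PDAT** -/
theorem pdat : S_PDAT := by
  intro N c c' M hN hc hM
  have hNr : (2 : ℝ) ≤ N := by exact_mod_cast hN
  have hMr : (M : ℝ) = 2 * N - 2 := by exact_mod_cast hM
  have hM0 : 0 < M := by omega
  have lo1 : ∀ x ∈ coneOf (pts N c), x 0 ≤ x 1 := by
    intro x hx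
    have h := pdat_nonneg (P := pts N c) (α := -1) (β := 1) (γ := 0) (fun y hy => by
      obtain ⟨h0, h1, h2, h3, h4, h5⟩ := pdat_pts_elim hy
      have : (1 : ℝ) ≤ y 1 := by exact_mod_cast h1
      rw [h0]
      push_cast
      linarith) hx
    linarith
  have lo2 : ∀ x ∈ coneOf (pts N c), x 0 ≤ x 2 := by
    intro x hx
    have h := pdat_nonneg (P := pts N c) (α := -1) (β := 0) (γ := 1) (fun y hy => by
      obtain ⟨h0, h1, h2, h3, h4, h5⟩ := pdat_pts_elim hy
      have : (1 : ℝ) ≤ y 2 := by exact_mod_cast h3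
      rw [h0]
      push_cast
      linarith) hx
    linarith
  have hi1 : ∀ x ∈ coneOf (pts N c), x 1 ≤ (2 * N - 1) * x 0 := by
    intro x hx
    have h := pdat_nonneg (P := pts N c) (α := 2 * N - 1) (β := -1) (γ := 0) (fun y hy => by
      obtain ⟨h0, h1, h2, h3, h4, h5⟩ := pdat_pts_elim hy
      have h6 : y 1 ≤ 2 * N - 1 := by omega
      have : (y 1 : ℝ) ≤ 2 * N - 1 := by exact_mod_cast h6
      rw [h0]
      push_cast
      linarith) hx
    linarith
  have hi2 : ∀ x ∈ coneOf (pts N c), x 2 ≤ (2 * N - 1) * x 0 := by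
    intro x hx
    have h := pdat_nonneg (P := pts N c) (α := 2 * N - 1) (β := 0) (γ := -1) (fun y hy => by
      obtain ⟨h0, h1, h2, h3, h4, h5⟩ := pdat_pts_elim hy
      have h6 : y 2 ≤ 2 * N - 1 := by omega
      have : (y 2 : ℝ) ≤ 2 * N - 1 := by exact_mod_cast h6
      rw [h0]
      push_cast
      linarith) hx
    linarith
  have zsub : ∀ k : ℕ, k < M → ({![1, zeta N c' (k + 1), k + 1],
      ![1, zeta N c' (k + 2), k + 2]} : Finset (Fin 3 → ℤ)) ⊆ pts N c := by
    intro k hk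
    rw [Finset.insert_subset_iff, Finset.singleton_subset_iff]
    exact ⟨pdat_zmem hN hc (by omega) (by omega), pdat_zmem hN hc (by omega) (by omega)⟩
  have fsub : ∀ k : ℕ, k < M → ({![1, (k : ℤ) + 1, phi N c (k + 1)],
      ![1, (k : ℤ) + 2, phi N c (k + 2)]} : Finset (Fin 3 → ℤ)) ⊆ pts N c := by
    intro k hk
    rw [Finset.insert_subset_iff, Finset.singleton_subset_iff]
    exact ⟨pdat_fmem hN hc (by omega) (by omega), pdat_fmem hN hc (by omega) (by omega)⟩
  refine ⟨?_, ?_, ?_, ?_, ?_⟩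
  · refine ⟨hNr, pdat_closed _, fun x hx y hy => coneOf_add _ hx hy,
      fun x hx r hr => coneOf_smul _ hx hr, lo1, hi1, lo2, hi2, pdat_pl_continuous _ _,
      pdat_pl_continuous _ _, ?_, ?_, ?_, ?_, ?_, ?_⟩
    · intro y h1 h2
      obtain ⟨k, hk, hk1, hk2⟩ := pdat_floor hM0 h1 (by rw [hMr]; linarith)
      refine pdat_cone_mono (zsub k hk) (pdat_zcone hk hk1 hk2 ?_ ?_ ?_)
      · simp
      · simp
      · simp
    · intro y h1 h2
      obtain ⟨k, hk, hk1, hk2⟩ := pdat_floor hM0 h1 (by rw [hMr]; linarith)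
      refine pdat_cone_mono (fsub k hk) (pdat_fcone hk hk1 hk2 ?_ ?_ ?_)
      · simp
      · simp
      · simp
    · intro x hx h
      have e1 : pl M (zeta N c') 1 = (zeta N c' 1 : ℝ) := by
        have := pdat_pl M (zeta N c') hM0 (y := 1) (by simp) (by simp)
        simpa using this
      rw [e1]
      have h1 := pdat_face (P := pts N c) (α := -1) (β := 0) (γ := 1)
        (α' := -(zeta N c' 1 : ℝ)) (β' := 1) (γ' := 0) (fun y hy => by
          obtain ⟨h0, h1, h2, h3, h4, h5⟩ := pdat_pts_elim hy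
          have : (1 : ℝ) ≤ y 2 := by exact_mod_cast h3
          rw [h0]
          push_cast
          linarith) (fun y hy hy0 => by
          obtain ⟨h0, h1, h2, h3, h4, h5⟩ := pdat_pts_elim hy
          rw [h0] at hy0 ⊢
          push_cast at hy0 ⊢
          have h6 : (y 2 : ℝ) = 1 := by linarith
          have h7 : y 2 = 1 := by exact_mod_cast h6
          have h8 : zeta N c' 1 ≤ y 1 := by
            unfold zeta
            rw [if_pos (by omega)]
            have h9 : N ∣ c' * 1 - y 1 := by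
              have e : c' * 1 - y 1 = c' * (y 2 - c * y 1) + (c * c' - 1) * y 1 := by
                rw [h7]
                ring
              rw [e]
              exact dvd_add (dvd_mul_of_dvd_right h5 _) (dvd_mul_of_dvd_left hc _)
            have h10 : (c' * 1) % N = y 1 % N := Int.ModEq.symm ((Int.modEq_iff_dvd).2 h9)
            rw [h10]
            exact pdat_emod_le (by omega) h1.le
          have h11 : (zeta N c' 1 : ℝ) ≤ y 1 := by exact_mod_cast h8
          linarith) hx (by linarith)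
      linarith
    · intro x hx h
      have e1 : pl M (zeta N c') (2 * N - 1) = (zeta N c' (2 * N - 1) : ℝ) := by
        rw [pdat_pl_top M (zeta N c') (by rw [hMr]; linarith)]
        congr 2
        omega
      rw [e1]
      have h1 := pdat_face (P := pts N c) (α := 2 * N - 1) (β := 0) (γ := -1)
        (α' := (zeta N c' (2 * N - 1) : ℝ)) (β' := -1) (γ' := 0) (fun y hy => by
          obtain ⟨h0, h1, h2, h3, h4, h5⟩ := pdat_pts_elim hy
          have h6 : y 2 ≤ 2 * N - 1 := by omega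
          have : (y 2 : ℝ) ≤ 2 * N - 1 := by exact_mod_cast h6
          rw [h0]
          push_cast
          linarith) (fun y hy hy0 => by
          obtain ⟨h0, h1, h2, h3, h4, h5⟩ := pdat_pts_elim hy
          rw [h0] at hy0 ⊢
          push_cast at hy0 ⊢
          have h6 : (y 2 : ℝ) = 2 * N - 1 := by linarith
          have h7 : y 2 = 2 * N - 1 := by exact_mod_cast h6
          have h8 : y 1 ≤ zeta N c' (2 * N - 1) := by
            unfold zeta
            rw [if_neg (by omega)]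
            have h9 : N ∣ c' * (2 * N - 1) - y 1 := by
              have e : c' * (2 * N - 1) - y 1 = c' * (y 2 - c * y 1) + (c * c' - 1) * y 1 := by
                rw [h7]
                ring
              rw [e]
              exact dvd_add (dvd_mul_of_dvd_right h5 _) (dvd_mul_of_dvd_left hc _)
            have h10 : (c' * (2 * N - 1)) % N = y 1 % N :=
              Int.ModEq.symm ((Int.modEq_iff_dvd).2 h9)
            rw [h10]
            have h11 := Int.emod_add_mul_ediv (y 1) N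
            have h12 : y 1 / N < 2 := Int.ediv_lt_of_lt_mul (by omega) (by linarith)
            nlinarith
          have h11 : (y 1 : ℝ) ≤ zeta N c' (2 * N - 1) := by exact_mod_cast h8
          linarith) hx (by linarith)
      linarith
    · intro x hx h
      have e1 : pl M (phi N c) 1 = (phi N c 1 : ℝ) := by
        have := pdat_pl M (phi N c) hM0 (y := 1) (by simp) (by simp)
        simpa using this
      rw [e1]
      have h1 := pdat_face (P := pts N c) (α := -1) (β := 1) (γ := 0)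
        (α' := (phi N c 1 : ℝ)) (β' := 0) (γ' := -1) (fun y hy => by
          obtain ⟨h0, h1, h2, h3, h4, h5⟩ := pdat_pts_elim hy
          have : (1 : ℝ) ≤ y 1 := by exact_mod_cast h1
          rw [h0]
          push_cast
          linarith) (fun y hy hy0 => by
          obtain ⟨h0, h1, h2, h3, h4, h5⟩ := pdat_pts_elim hy
          rw [h0] at hy0 ⊢
          push_cast at hy0 ⊢
          have h6 : (y 1 : ℝ) = 1 := by linarith
          have h7 : y 1 = 1 := by exact_mod_cast h6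
          have h8 : y 2 ≤ phi N c 1 := by
            unfold phi
            rw [if_pos (by omega)]
            rw [h7] at h5
            have h10 : (c * 1) % N = y 2 % N := (Int.modEq_iff_dvd).2 h5
            rw [h10]
            have h11 := Int.emod_add_mul_ediv (y 2) N
            have h12 : y 2 / N < 2 := Int.ediv_lt_of_lt_mul (by omega) (by linarith)
            nlinarith
          have h11 : (y 2 : ℝ) ≤ phi N c 1 := by exact_mod_cast h8
          linarith) hx (by linarith)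
      linarith
    · intro x hx h
      have e1 : pl M (phi N c) (2 * N - 1) = (phi N c (2 * N - 1) : ℝ) := by
        rw [pdat_pl_top M (phi N c) (by rw [hMr]; linarith)]
        congr 2
        omega
      rw [e1]
      have h1 := pdat_face (P := pts N c) (α := 2 * N - 1) (β := -1) (γ := 0)
        (α' := -(phi N c (2 * N - 1) : ℝ)) (β' := 0) (γ' := 1) (fun y hy => by
          obtain ⟨h0, h1, h2, h3, h4, h5⟩ := pdat_pts_elim hy
          have h6 : y 1 ≤ 2 * N - 1 := by omega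
          have : (y 1 : ℝ) ≤ 2 * N - 1 := by exact_mod_cast h6
          rw [h0]
          push_cast
          linarith) (fun y hy hy0 => by
          obtain ⟨h0, h1, h2, h3, h4, h5⟩ := pdat_pts_elim hy
          rw [h0] at hy0 ⊢
          push_cast at hy0 ⊢
          have h6 : (y 1 : ℝ) = 2 * N - 1 := by linarith
          have h7 : y 1 = 2 * N - 1 := by exact_mod_cast h6
          have h8 : phi N c (2 * N - 1) ≤ y 2 := by
            unfold phi
            rw [if_neg (by omega)]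
            rw [h7] at h5
            have h10 : (c * (2 * N - 1)) % N = y 2 % N := (Int.modEq_iff_dvd).2 h5
            rw [h10]
            exact pdat_emod_le (by omega) h3.le
          have h11 : (phi N c (2 * N - 1) : ℝ) ≤ y 2 := by exact_mod_cast h8
          linarith) hx (by linarith)
      linarith
  · intro x hx h0 h
    have h1 : 1 ≤ x 2 / x 0 := by
      rw [le_div_iff₀ h0, one_mul]
      exact lo2 x hx
    have h2 : x 2 / x 0 ≤ M + 1 := by
      rw [div_le_iff₀ h0, hMr]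
      have := hi2 x hx
      linarith
    obtain ⟨k, hk, hk1, hk2⟩ := pdat_floor hM0 h1 h2
    refine ⟨k + 1, by omega, by omega, ?_⟩
    have h3 := pdat_zcone hk hk1 hk2 h0.le h (by field_simp)
    have e : ((k : ℤ) + 1 + 1) = (k : ℤ) + 2 := by ring
    rw [e]
    exact h3
  · intro x hx h0 h
    have h1 : 1 ≤ x 1 / x 0 := by
      rw [le_div_iff₀ h0, one_mul]
      exact lo1 x hx
    have h2 : x 1 / x 0 ≤ M + 1 := by
      rw [div_le_iff₀ h0, hMr]
      have := hi1 x hx
      linarith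
    obtain ⟨k, hk, hk1, hk2⟩ := pdat_floor hM0 h1 h2
    refine ⟨k + 1, by omega, by omega, ?_⟩
    have h3 := pdat_fcone hk hk1 hk2 h0.le h (by field_simp)
    have e : ((k : ℤ) + 1 + 1) = (k : ℤ) + 2 := by ring
    rw [e]
    exact h3
  · intro j h1 h2 x hx
    exact pdat_zon h1 (by omega) hx
  · intro j h1 h2 x hx
    exact pdat_fon h1 (by omega) hx

end H6BW
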