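import Pool.Agent.Work.MP_6237c7_co.BW.Defs

/-! # PLAN: the constrained planar triangulation in the lattice `Y ≡ c X (mod N)` -/

set_option autoImplicit false

namespace H6BW

open Finsupp H79KMW

/-- the chart of the lattice -/
def planL (N c : ℤ) : (Fin 3 → ℤ) →ₗ[ℤ] (Fin 3 → ℤ) where
  toFun x := ![x 0, x 1, c * x 1 + N * x 2]
  map_add' x y := by
    funext i
    fin_cases i
    · simp
    · simp
    · simp
      ring
  map_smul' a x := by
    funext i
    fin_cases i
    · simp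
    · simp
    · simp
      ring

/-- the inverse chart -/
def planS (N c : ℤ) (x : Fin 3 → ℤ) : Fin 3 → ℤ := ![x 0, x 1, (x 2 - c * x 1) / N]

/-- the real chart -/
noncomputable def planR (N c : ℤ) : (Fin 3 → ℝ) →ₗ[ℝ] (Fin 3 → ℝ) where
  toFun x := ![x 0, x 1, c * x 1 + N * x 2]
  map_add' x y := by
    funext i
    fin_cases i
    · simp
    · simp
    · simp
      ring
  map_smul' a x := by
    funext i
    fin_cases i
    · simp
    · simp
    · simp
      ring

/-- the inverse of the real chart -/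
noncomputable def planQ (N c : ℤ) : (Fin 3 → ℝ) →ₗ[ℝ] (Fin 3 → ℝ) where
  toFun x := ![x 0, x 1, (x 2 - c * x 1) / N]
  map_add' x y := by
    funext i
    fin_cases i
    · simp
    · simp
    · simp
      ring
  map_smul' a x := by
    funext i
    fin_cases i
    · simp
    · simp
    · simp
      ring

private lemma plan_LS {N c : ℤ} (hN : N ≠ 0) {x : Fin 3 → ℤ} (hx : N ∣ x 2 - c * x 1) :
    planL N c (planS N c x) = x := by
  obtain ⟨k, hk⟩ := hx
  funext i
  fin_cases i
  · rfl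
  · rfl
  · show c * x 1 + N * ((x 2 - c * x 1) / N) = x 2
    rw [hk, Int.mul_ediv_cancel_left _ hN]
    linarith

private lemma plan_SL {N c : ℤ} (hN : N ≠ 0) (x : Fin 3 → ℤ) :
    planS N c (planL N c x) = x := by
  funext i
  fin_cases i
  · rfl
  · rfl
  · show (c * x 1 + N * x 2 - c * x 1) / N = x 2
    rw [show c * x 1 + N * x 2 - c * x 1 = N * x 2 by ring, Int.mul_ediv_cancel_left _ hN]

private lemma plan_RQ {N c : ℤ} (hN : N ≠ 0) (y : Fin 3 → ℝ) : planR N c (planQ N c y) = y := by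
  have h : (N : ℝ) ≠ 0 := by exact_mod_cast hN
  funext i
  fin_cases i
  · rfl
  · rfl
  · show (c : ℝ) * y 1 + N * ((y 2 - c * y 1) / N) = y 2
    field_simp
    ring

private lemma plan_QR {N c : ℤ} (hN : N ≠ 0) (y : Fin 3 → ℝ) : planQ N c (planR N c y) = y := by
  have h : (N : ℝ) ≠ 0 := by exact_mod_cast hN
  funext i
  fin_cases i
  · rfl
  · rfl
  · show ((c : ℝ) * y 1 + N * y 2 - c * y 1) / N = y 2
    field_simp
    ring

private lemma plan_rvL {N c : ℤ} (x : Fin 3 → ℤ) :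
    planR N c (rv x) = rv (planL N c x) := by
  funext i
  fin_cases i
  · rfl
  · rfl
  · show (c : ℝ) * (x 1 : ℝ) + N * (x 2 : ℝ) = ((c * x 1 + N * x 2 : ℤ) : ℝ)
    push_cast
    ring

private lemma plan_rvS {N c : ℤ} (hN : N ≠ 0) {x : Fin 3 → ℤ} (hx : N ∣ x 2 - c * x 1) :
    planQ N c (rv x) = rv (planS N c x) := by
  conv_lhs => rw [← plan_LS hN hx]
  rw [← plan_rvL, plan_QR hN]

private lemma plan_cone_map {P Q : Finset (Fin 3 → ℤ)} (θ : (Fin 3 → ℤ) → (Fin 3 → ℤ))
    (L : (Fin 3 → ℝ) →ₗ[ℝ] (Fin 3 → ℝ)) (h1 : ∀ x ∈ P, θ x ∈ Q)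
    (h2 : ∀ x ∈ P, L (rv x) = rv (θ x)) {y : Fin 3 → ℝ} (hy : y ∈ coneOf P) :
    L y ∈ coneOf Q := by
  classical
  obtain ⟨a, ha0, has, rfl⟩ := hy
  refine ⟨a.mapDomain θ, ?_, ?_, ?_⟩
  · intro z
    rw [Finsupp.mapDomain, Finsupp.sum, Finsupp.finsetSum_apply]
    refine Finset.sum_nonneg fun x _ => ?_
    rw [Finsupp.single_apply]
    split_ifs
    · exact ha0 _
    · exact le_rfl
  · refine Finsupp.mapDomain_support.trans ?_
    intro z hz
    obtain ⟨x, hx, rfl⟩ := Finset.mem_image.1 hz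
    exact h1 x (has hx)
  · rw [lc, Finsupp.linearCombination_mapDomain, Finsupp.linearCombination_apply,
      Finsupp.linearCombination_apply, Finsupp.sum, Finsupp.sum, map_sum]
    refine Finset.sum_congr rfl fun x hx => ?_
    rw [map_smul]
    show a x • rv (θ x) = a x • L (rv x)
    rw [h2 x (has hx)]

/-- linear functionals which are nonnegative on the rays are nonnegative on the cone -/
private lemma plan_cone_nonneg {P : Finset (Fin 3 → ℤ)} (L : (Fin 3 → ℝ) →ₗ[ℝ] ℝ)
    (h : ∀ x ∈ P, 0 ≤ L (rv x)) {y : Fin 3 → ℝ} (hy : y ∈ coneOf P) : 0 ≤ L y := by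
  obtain ⟨a, ha0, has, rfl⟩ := hy
  rw [lc, Finsupp.linearCombination_apply, Finsupp.sum, map_sum]
  refine Finset.sum_nonneg fun x hx => ?_
  rw [map_smul, smul_eq_mul]
  exact mul_nonneg (ha0 x) (h x (has hx))

private lemma plan_pair {p q : Fin 3 → ℤ} {y : Fin 3 → ℝ} (hy : y ∈ coneOf {p, q}) :
    ∃ α β : ℝ, 0 ≤ α ∧ 0 ≤ β ∧ y = α • rv p + β • rv q := by
  rw [show ({p, q} : Finset (Fin 3 → ℤ)) = insert p (insert q ∅) from rfl, coneOf_insert] at hy
  obtain ⟨z, hz, α, hα, rfl⟩ := hy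
  rw [coneOf_insert] at hz
  obtain ⟨z', hz', β, hβ, rfl⟩ := hz
  obtain ⟨a, -, has, rfl⟩ := hz'
  have : a = 0 := by
    rw [← Finsupp.support_eq_empty]
    exact Finset.subset_empty.1 has
  refine ⟨α, β, hα, hβ, ?_⟩
  rw [this, map_zero, zero_add, add_comm]

private lemma plan_prim {p q x : Fin 3 → ℤ} (h : Fin 3 → ℤ) (hp : p 0 = 1) (hq : q 0 = 1)
    (hx : x 0 = 1)
    (hpq : h 0 * q 0 + h 1 * q 1 + h 2 * q 2 = h 0 * p 0 + h 1 * p 1 + h 2 * p 2 + 1)
    (hxc : rv x ∈ coneOf {p, q}) : x = p ∨ x = q := by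
  obtain ⟨α, β, hα, hβ, hxy⟩ := plan_pair hxc
  have e : ∀ i, (x i : ℝ) = α * p i + β * q i := fun i => congrFun hxy i
  have e0 := e 0
  rw [hx, hp, hq] at e0
  push_cast at e0
  have hαβ : α = 1 - β := by linarith
  have hpq' : (h 0 : ℝ) * q 0 + h 1 * q 1 + h 2 * q 2 = h 0 * p 0 + h 1 * p 1 + h 2 * p 2 + 1 := by
    exact_mod_cast hpq
  have e1 : ((h 0 * x 0 + h 1 * x 1 + h 2 * x 2 - (h 0 * p 0 + h 1 * p 1 + h 2 * p 2) : ℤ) : ℝ)
      = β := by
    push_cast
    rw [e 0, e 1, e 2, hαβ]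
    linear_combination β * hpq'
  obtain ⟨k, hk⟩ : ∃ k : ℤ, (k : ℝ) = β := ⟨_, e1⟩
  have hk0 : 0 ≤ k := by
    have : (0 : ℝ) ≤ k := by rw [hk]; exact hβ
    exact_mod_cast this
  have hk1 : k ≤ 1 := by
    have : (k : ℝ) ≤ 1 := by rw [hk]; linarith
    exact_mod_cast this
  have hk2 : k = 0 ∨ k = 1 := by omega
  rcases hk2 with rfl | rfl
  · left
    have hβ0 : β = 0 := by rw [← hk]; simp
    funext i
    have := e i
    rw [hαβ, hβ0] at this
    have h3 : (x i : ℝ) = p i := by rw [this]; ring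
    exact_mod_cast h3
  · right
    have hβ0 : β = 1 := by rw [← hk]; simp
    funext i
    have := e i
    rw [hαβ, hβ0] at this
    have h3 : (x i : ℝ) = q i := by rw [this]; ring
    exact_mod_cast h3

private lemma plan_dt3 (p q u : Fin 3 → ℤ) : dt ![p, q, u] =
    p 0 * q 1 * u 2 - p 0 * q 2 * u 1 - p 1 * q 0 * u 2 + p 1 * q 2 * u 0 + p 2 * q 0 * u 1
      - p 2 * q 1 * u 0 := by
  unfold dt
  rw [Matrix.det_fin_three]
  simp [Matrix.of_apply]

private lemma plan_dt_zero {p q u h : Fin 3 → ℤ} (hh : h ≠ 0)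
    (h1 : h 0 * p 0 + h 1 * p 1 + h 2 * p 2 = 0) (h2 : h 0 * q 0 + h 1 * q 1 + h 2 * q 2 = 0)
    (h3 : h 0 * u 0 + h 1 * u 1 + h 2 * u 2 = 0) : dt ![p, q, u] = 0 := by
  unfold dt
  rw [← Matrix.exists_mulVec_eq_zero_iff]
  refine ⟨h, hh, ?_⟩
  funext i
  fin_cases i
  · simp [Matrix.mulVec, dotProduct, Fin.sum_univ_three]
    linarith
  · simp [Matrix.mulVec, dotProduct, Fin.sum_univ_three]
    linarith
  · simp [Matrix.mulVec, dotProduct, Fin.sum_univ_three]
    linarith

private lemma plan_nc {p q u v : Fin 3 → ℤ} (h : Fin 3 → ℤ) (hh : h ≠ 0) (hp : p 0 = 1)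
    (hq : q 0 = 1) (hu : u 0 = 1) (hv : v 0 = 1)
    (h1 : h 0 * p 0 + h 1 * p 1 + h 2 * p 2 ≤ 0) (h2 : h 0 * q 0 + h 1 * q 1 + h 2 * q 2 ≤ 0)
    (h3 : 0 ≤ h 0 * u 0 + h 1 * u 1 + h 2 * u 2) (h4 : 0 ≤ h 0 * v 0 + h 1 * v 1 + h 2 * v 2) :
    ¬ Cross p q u v := by
  rintro ⟨c1, c2⟩
  have i0 : dt ![u, v, q] - dt ![u, v, p] + dt ![p, q, v] - dt ![p, q, u] = 0 := by
    rw [plan_dt3, plan_dt3, plan_dt3, plan_dt3, hp, hq, hu, hv]
    ring
  have i1 : dt ![u, v, q] * (h 0 * p 0 + h 1 * p 1 + h 2 * p 2)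
      - dt ![u, v, p] * (h 0 * q 0 + h 1 * q 1 + h 2 * q 2)
      + dt ![p, q, v] * (h 0 * u 0 + h 1 * u 1 + h 2 * u 2)
      - dt ![p, q, u] * (h 0 * v 0 + h 1 * v 1 + h 2 * v 2) = 0 := by
    rw [plan_dt3, plan_dt3, plan_dt3, plan_dt3]
    ring
  set D1 := dt ![p, q, u] with hD1
  set D2 := dt ![p, q, v]
  set D3 := dt ![u, v, p]
  set D4 := dt ![u, v, q]
  set a := h 0 * p 0 + h 1 * p 1 + h 2 * p 2 with ha
  set b := h 0 * q 0 + h 1 * q 1 + h 2 * q 2 with hb
  set c := h 0 * u 0 + h 1 * u 1 + h 2 * u 2 with hc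
  set d := h 0 * v 0 + h 1 * v 1 + h 2 * v 2
  have key : a = 0 ∧ b = 0 ∧ c = 0 := by
    rcases lt_or_ge D1 0 with k1 | k1
    · have k2 : 0 < D2 := by
        by_contra hcon
        have := mul_nonneg_of_nonpos_of_nonpos k1.le (not_lt.1 hcon)
        omega
      have k3 : D4 < D3 := by linarith
      have k4 : D4 < 0 := by
        by_contra hcon
        have := mul_nonneg (le_trans (not_lt.1 hcon) k3.le) (not_lt.1 hcon)
        omega
      have k5 : 0 < D3 := by
        by_contra hcon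
        have := mul_nonneg_of_nonpos_of_nonpos (not_lt.1 hcon) k4.le
        omega
      have t1 : 0 ≤ D4 * a := mul_nonneg_of_nonpos_of_nonpos k4.le h1
      have t2 : D3 * b ≤ 0 := mul_nonpos_of_nonneg_of_nonpos k5.le h2
      have t3 : 0 ≤ D2 * c := mul_nonneg k2.le h3
      have t4 : D1 * d ≤ 0 := mul_nonpos_of_nonpos_of_nonneg k1.le h4
      refine ⟨?_, ?_, ?_⟩
      · have : D4 * a = 0 := by linarith
        exact (mul_eq_zero.1 this).resolve_left k4.ne
      · have : D3 * b = 0 := by linarith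
        exact (mul_eq_zero.1 this).resolve_left k5.ne'
      · have : D2 * c = 0 := by linarith
        exact (mul_eq_zero.1 this).resolve_left k2.ne'
    · have k0 : 0 < D1 := by
        rcases k1.lt_or_eq with k | k
        · exact k
        · rw [← k, zero_mul] at c1
          exact absurd c1 (lt_irrefl _)
      have k2 : D2 < 0 := by
        by_contra hcon
        have := mul_nonneg k1 (not_lt.1 hcon)
        omega
      have k3 : D3 < D4 := by linarith
      have k4 : D3 < 0 := by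
        by_contra hcon
        have := mul_nonneg (not_lt.1 hcon) (le_trans (not_lt.1 hcon) k3.le)
        omega
      have k5 : 0 < D4 := by
        by_contra hcon
        have := mul_nonneg_of_nonpos_of_nonpos k4.le (not_lt.1 hcon)
        omega
      have t1 : D4 * a ≤ 0 := mul_nonpos_of_nonneg_of_nonpos k5.le h1
      have t2 : 0 ≤ D3 * b := mul_nonneg_of_nonpos_of_nonpos k4.le h2
      have t3 : D2 * c ≤ 0 := mul_nonpos_of_nonpos_of_nonneg k2.le h3
      have t4 : 0 ≤ D1 * d := mul_nonneg k0.le h4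
      refine ⟨?_, ?_, ?_⟩
      · have : D4 * a = 0 := by linarith
        exact (mul_eq_zero.1 this).resolve_left k5.ne'
      · have : D3 * b = 0 := by linarith
        exact (mul_eq_zero.1 this).resolve_left k4.ne
      · have : D2 * c = 0 := by linarith
        exact (mul_eq_zero.1 this).resolve_left k2.ne
  have hz : D1 = 0 := plan_dt_zero hh key.1 key.2.1 key.2.2
  rw [hz, zero_mul] at c1
  exact absurd c1 (lt_irrefl _)

private lemma plan_cross_swap {p q u v : Fin 3 → ℤ} (h : Cross p q u v) : Cross u v p q :=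
  ⟨h.2, h.1⟩

private lemma plan_cross_self (p q : Fin 3 → ℤ) : ¬ Cross p q p q := by
  rintro ⟨h, -⟩
  have : dt ![p, q, p] = 0 := by
    rw [plan_dt3]
    ring
  rw [this, zero_mul] at h
  exact absurd h (lt_irrefl _)

private lemma plan_mem_pts {N c : ℤ} {x : Fin 3 → ℤ} : x ∈ pts N c ↔
    x 0 = 1 ∧ 0 < x 1 ∧ x 1 < 2 * N ∧ 0 < x 2 ∧ x 2 < 2 * N ∧ N ∣ x 2 - c * x 1 := by
  unfold pts
  rw [Finset.mem_image]
  constructor
  · rintro ⟨⟨X, Y⟩, h, rfl⟩
    rw [Finset.mem_filter, Finset.mem_product, Finset.mem_Ioo, Finset.mem_Ioo] at h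
    exact ⟨rfl, h.1.1.1, h.1.1.2, h.1.2.1, h.1.2.2, h.2⟩
  · rintro ⟨h0, h1, h2, h3, h4, h5⟩
    refine ⟨(x 1, x 2), ?_, ?_⟩
    · rw [Finset.mem_filter, Finset.mem_product, Finset.mem_Ioo, Finset.mem_Ioo]
      exact ⟨⟨⟨h1, h2⟩, h3, h4⟩, h5⟩
    · funext i
      fin_cases i
      · exact h0.symm
      · rfl
      · rfl

section path
variable {N c c' : ℤ}

private lemma plan_emod_pos (hN : 2 ≤ N) {a t : ℤ} (ha : N ∣ a * c' - 1 ∨ N ∣ c' * a - 1)
    (ht : ¬ N ∣ t) : 0 < (c' * t) % N := by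
  have h1 : 0 ≤ (c' * t) % N := Int.emod_nonneg _ (by omega)
  rcases h1.lt_or_eq with h | h
  · exact h
  · exfalso
    apply ht
    have h2 : N ∣ c' * t := Int.dvd_of_emod_eq_zero h.symm
    have h3 : N ∣ a * (c' * t) := h2.mul_left a
    have h4 : N ∣ (a * c' - 1) * t := by
      rcases ha with ha | ha
      · exact ha.mul_right t
      · rw [mul_comm c' a] at ha
        exact ha.mul_right t
    have h5 := dvd_sub h3 h4
    have e : a * (c' * t) - (a * c' - 1) * t = t := by ring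
    rwa [e] at h5

private lemma plan_Z_mem (hN : 2 ≤ N) (hc : N ∣ c * c' - 1) {j : ℤ} (h1 : 1 ≤ j)
    (h2 : j ≤ 2 * N - 1) : (![1, zeta N c' j, j] : Fin 3 → ℤ) ∈ pts N c := by
  rw [plan_mem_pts]
  have hN0 : (0:ℤ) < N := by omega
  have hlt : (c' * j) % N < N := Int.emod_lt_of_pos _ hN0
  have hge : 0 ≤ (c' * j) % N := Int.emod_nonneg _ (by omega)
  have hdiv : N ∣ j - c * ((c' * j) % N) := by
    have e1 : (c' * j) % N = c' * j - N * ((c' * j) / N) := by
      have := Int.emod_add_mul_ediv (c' * j) N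
      linarith
    rw [e1]
    have e2 : j - c * (c' * j - N * ((c' * j) / N)) =
        N * (c * ((c' * j) / N)) - (c * c' - 1) * j := by ring
    rw [e2]
    exact dvd_sub (dvd_mul_right _ _) (hc.mul_right j)
  have hz : ∀ z, z = zeta N c' j → 0 < z ∧ z < 2 * N ∧ N ∣ j - c * z := by
    rintro z rfl
    unfold zeta
    split_ifs with hj
    · have hpos : 0 < (c' * j) % N := by
        refine plan_emod_pos hN (a := c) (Or.inl hc) ?_
        intro hd
        have := Int.le_of_dvd (by omega) hd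
        omega
      exact ⟨hpos, by omega, hdiv⟩
    · refine ⟨by omega, by omega, ?_⟩
      have e : j - c * (N + (c' * j) % N) = (j - c * ((c' * j) % N)) - N * c := by ring
      rw [e]
      exact dvd_sub hdiv (dvd_mul_right _ _)
  obtain ⟨a1, a2, a3⟩ := hz _ rfl
  exact ⟨rfl, a1, a2, by show 0 < j; omega, by show j < 2 * N; omega, a3⟩

private lemma plan_F_mem (hN : 2 ≤ N) (hc : N ∣ c * c' - 1) {i : ℤ} (h1 : 1 ≤ i)
    (h2 : i ≤ 2 * N - 1) : (![1, i, phi N c i] : Fin 3 → ℤ) ∈ pts N c := by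
  rw [plan_mem_pts]
  have hN0 : (0:ℤ) < N := by omega
  have hlt : (c * i) % N < N := Int.emod_lt_of_pos _ hN0
  have hge : 0 ≤ (c * i) % N := Int.emod_nonneg _ (by omega)
  have hdiv : N ∣ (c * i) % N - c * i := by
    have e1 : (c * i) % N - c * i = - (N * ((c * i) / N)) := by
      have := Int.emod_add_mul_ediv (c * i) N
      linarith
    rw [e1]
    exact (dvd_mul_right _ _).neg_right
  have hz : ∀ z, z = phi N c i → 0 < z ∧ z < 2 * N ∧ N ∣ z - c * i := by
    rintro z rfl
    unfold phi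
    split_ifs with hj
    · refine ⟨by omega, by omega, ?_⟩
      rw [show N + (c * i) % N - c * i = N + ((c * i) % N - c * i) by ring]
      exact dvd_add (dvd_refl _) hdiv
    · have hpos : 0 < (c * i) % N := by
        refine plan_emod_pos (c' := c) hN (a := c') (Or.inr hc) ?_
        intro hd
        have h3 := Int.le_of_dvd (a := N) (b := 2 * N - i) (by omega)
          (dvd_sub (dvd_mul_left _ _) hd)
        omega
      exact ⟨hpos, by omega, hdiv⟩
  obtain ⟨a1, a2, a3⟩ := hz _ rfl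
  exact ⟨rfl, by show 0 < i; omega, by show i < 2 * N; omega, a1, a2, a3⟩

private lemma plan_zeta_le (hN : 2 ≤ N) {j : ℤ} (h : j ≤ N) : zeta N c' j ≤ N := by
  unfold zeta
  have hlt : (c' * j) % N < N := Int.emod_lt_of_pos _ (by omega)
  split_ifs with hj
  · omega
  · have : j = N := by omega
    rw [this, Int.mul_emod_left, add_zero]

private lemma plan_zeta_ge (hN : 2 ≤ N) {j : ℤ} (h : N ≤ j) : N ≤ zeta N c' j := by
  unfold zeta
  have hge : 0 ≤ (c' * j) % N := Int.emod_nonneg _ (by omega)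
  rw [if_neg (by omega)]
  omega

private lemma plan_phi_ge (hN : 2 ≤ N) {i : ℤ} (h : i ≤ N) : N ≤ phi N c i := by
  unfold phi
  have hge : 0 ≤ (c * i) % N := Int.emod_nonneg _ (by omega)
  rw [if_pos h]
  omega

private lemma plan_phi_le (hN : 2 ≤ N) {i : ℤ} (h : N ≤ i) : phi N c i ≤ N := by
  unfold phi
  have hlt : (c * i) % N < N := Int.emod_lt_of_pos _ (by omega)
  split_ifs with hj
  · have : i = N := by omega
    rw [this, Int.mul_emod_left, add_zero]
  · omega

end path

/-- the edges to be inserted -/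
private noncomputable def planE (N c c' : ℤ) : Finset ((Fin 3 → ℤ) × (Fin 3 → ℤ)) :=
  ((Finset.Icc (1:ℤ) (2 * N - 2)).image fun j =>
    (planS N c ![1, zeta N c' j, j], planS N c ![1, zeta N c' (j + 1), j + 1])) ∪
  ((Finset.Icc (1:ℤ) (2 * N - 2)).image fun i =>
    (planS N c ![1, i, phi N c i], planS N c ![1, i + 1, phi N c (i + 1)]))

private lemma plan_val {N c : ℤ} (hN : N ≠ 0) {x : Fin 3 → ℤ} (hx : x ∈ pts N c) :
    c * planS N c x 1 + N * planS N c x 2 = x 2 :=
  congrFun (plan_LS hN (plan_mem_pts.1 hx).2.2.2.2.2) 2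

/-- two edges whose ordinates in the chart are separated do not cross -/
private lemma plan_sepY {N c t : ℤ} (hN : 2 ≤ N) {p q u v : Fin 3 → ℤ} (hp : p ∈ pts N c)
    (hq : q ∈ pts N c) (hu : u ∈ pts N c) (hv : v ∈ pts N c) (h1 : p 2 ≤ t) (h2 : q 2 ≤ t)
    (h3 : t ≤ u 2) (h4 : t ≤ v 2) :
    ¬ Cross (planS N c p) (planS N c q) (planS N c u) (planS N c v) := by
  have hN0 : N ≠ 0 := by omega
  refine plan_nc ![-t, c, N] (fun h => hN0 (congrFun h 2)) (plan_mem_pts.1 hp).1
    (plan_mem_pts.1 hq).1 (plan_mem_pts.1 hu).1 (plan_mem_pts.1 hv).1 ?_ ?_ ?_ ?_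
  · show -t * p 0 + c * planS N c p 1 + N * planS N c p 2 ≤ 0
    rw [add_assoc, plan_val hN0 hp, (plan_mem_pts.1 hp).1]
    linarith
  · show -t * q 0 + c * planS N c q 1 + N * planS N c q 2 ≤ 0
    rw [add_assoc, plan_val hN0 hq, (plan_mem_pts.1 hq).1]
    linarith
  · show 0 ≤ -t * u 0 + c * planS N c u 1 + N * planS N c u 2
    rw [add_assoc, plan_val hN0 hu, (plan_mem_pts.1 hu).1]
    linarith
  · show 0 ≤ -t * v 0 + c * planS N c v 1 + N * planS N c v 2
    rw [add_assoc, plan_val hN0 hv, (plan_mem_pts.1 hv).1]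
    linarith

private lemma plan_sepX {N c t : ℤ} {p q u v : Fin 3 → ℤ} (hp : p ∈ pts N c)
    (hq : q ∈ pts N c) (hu : u ∈ pts N c) (hv : v ∈ pts N c) (h1 : p 1 ≤ t) (h2 : q 1 ≤ t)
    (h3 : t ≤ u 1) (h4 : t ≤ v 1) :
    ¬ Cross (planS N c p) (planS N c q) (planS N c u) (planS N c v) := by
  refine plan_nc ![-t, 1, 0] (fun h => one_ne_zero (congrFun h 1)) (plan_mem_pts.1 hp).1
    (plan_mem_pts.1 hq).1 (plan_mem_pts.1 hu).1 (plan_mem_pts.1 hv).1 ?_ ?_ ?_ ?_
  · show -t * p 0 + 1 * p 1 + 0 * planS N c p 2 ≤ 0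
    rw [(plan_mem_pts.1 hp).1]
    linarith
  · show -t * q 0 + 1 * q 1 + 0 * planS N c q 2 ≤ 0
    rw [(plan_mem_pts.1 hq).1]
    linarith
  · show 0 ≤ -t * u 0 + 1 * u 1 + 0 * planS N c u 2
    rw [(plan_mem_pts.1 hu).1]
    linarith
  · show 0 ≤ -t * v 0 + 1 * v 1 + 0 * planS N c v 2
    rw [(plan_mem_pts.1 hv).1]
    linarith

private lemma plan_ZZ {N c c' : ℤ} (hN : 2 ≤ N) (hc : N ∣ c * c' - 1) {j k : ℤ} (hj1 : 1 ≤ j)
    (hj2 : j ≤ 2 * N - 2) (hk1 : 1 ≤ k) (hk2 : k ≤ 2 * N - 2) :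
    ¬ Cross (planS N c ![1, zeta N c' j, j]) (planS N c ![1, zeta N c' (j + 1), j + 1])
      (planS N c ![1, zeta N c' k, k]) (planS N c ![1, zeta N c' (k + 1), k + 1]) := by
  have m1 := plan_Z_mem (c' := c') hN hc hj1 (show j ≤ 2 * N - 1 by omega)
  have m2 := plan_Z_mem (c' := c') hN hc (show 1 ≤ j + 1 by omega) (show j + 1 ≤ 2 * N - 1 by omega)
  have m3 := plan_Z_mem (c' := c') hN hc hk1 (show k ≤ 2 * N - 1 by omega)
  have m4 := plan_Z_mem (c' := c') hN hc (show 1 ≤ k + 1 by omega) (show k + 1 ≤ 2 * N - 1 by omega)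
  rcases lt_trichotomy j k with h | h | h
  · exact plan_sepY (t := j + 1) hN m1 m2 m3 m4 (by show j ≤ j + 1; omega)
      (by show j + 1 ≤ j + 1; omega) (by show j + 1 ≤ k; omega) (by show j + 1 ≤ k + 1; omega)
  · subst h
    exact plan_cross_self _ _
  · intro hx
    exact plan_sepY (t := k + 1) hN m3 m4 m1 m2 (by show k ≤ k + 1; omega)
      (by show k + 1 ≤ k + 1; omega) (by show k + 1 ≤ j; omega) (by show k + 1 ≤ j + 1; omega)
      (plan_cross_swap hx)

private lemma plan_FF {N c c' : ℤ} (hN : 2 ≤ N) (hc : N ∣ c * c' - 1) {j k : ℤ} (hj1 : 1 ≤ j)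
    (hj2 : j ≤ 2 * N - 2) (hk1 : 1 ≤ k) (hk2 : k ≤ 2 * N - 2) :
    ¬ Cross (planS N c ![1, j, phi N c j]) (planS N c ![1, j + 1, phi N c (j + 1)])
      (planS N c ![1, k, phi N c k]) (planS N c ![1, k + 1, phi N c (k + 1)]) := by
  have m1 := plan_F_mem (c' := c') hN hc hj1 (show j ≤ 2 * N - 1 by omega)
  have m2 := plan_F_mem (c' := c') hN hc (show 1 ≤ j + 1 by omega) (show j + 1 ≤ 2 * N - 1 by omega)
  have m3 := plan_F_mem (c' := c') hN hc hk1 (show k ≤ 2 * N - 1 by omega)
  have m4 := plan_F_mem (c' := c') hN hc (show 1 ≤ k + 1 by omega) (show k + 1 ≤ 2 * N - 1 by omega)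
  rcases lt_trichotomy j k with h | h | h
  · exact plan_sepX (t := j + 1) m1 m2 m3 m4 (by show j ≤ j + 1; omega)
      (by show j + 1 ≤ j + 1; omega) (by show j + 1 ≤ k; omega) (by show j + 1 ≤ k + 1; omega)
  · subst h
    exact plan_cross_self _ _
  · intro hx
    exact plan_sepX (t := k + 1) m3 m4 m1 m2 (by show k ≤ k + 1; omega)
      (by show k + 1 ≤ k + 1; omega) (by show k + 1 ≤ j; omega) (by show k + 1 ≤ j + 1; omega)
      (plan_cross_swap hx)

private lemma plan_ZF {N c c' : ℤ} (hN : 2 ≤ N) (hc : N ∣ c * c' - 1) {j k : ℤ} (hj1 : 1 ≤ j)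
    (hj2 : j ≤ 2 * N - 2) (hk1 : 1 ≤ k) (hk2 : k ≤ 2 * N - 2) :
    ¬ Cross (planS N c ![1, zeta N c' j, j]) (planS N c ![1, zeta N c' (j + 1), j + 1])
      (planS N c ![1, k, phi N c k]) (planS N c ![1, k + 1, phi N c (k + 1)]) := by
  have m1 := plan_Z_mem (c' := c') hN hc hj1 (show j ≤ 2 * N - 1 by omega)
  have m2 := plan_Z_mem (c' := c') hN hc (show 1 ≤ j + 1 by omega) (show j + 1 ≤ 2 * N - 1 by omega)
  have m3 := plan_F_mem (c' := c') hN hc hk1 (show k ≤ 2 * N - 1 by omega)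
  have m4 := plan_F_mem (c' := c') hN hc (show 1 ≤ k + 1 by omega) (show k + 1 ≤ 2 * N - 1 by omega)
  rcases le_or_gt N j with hj | hj
  · rcases le_or_gt N k with hk | hk
    · intro hx
      exact plan_sepY (t := N) hN m3 m4 m1 m2 (plan_phi_le hN hk) (plan_phi_le hN (by omega))
        (by show N ≤ j; omega) (by show N ≤ j + 1; omega) (plan_cross_swap hx)
    · intro hx
      exact plan_sepX (t := N) m3 m4 m1 m2 (by show k ≤ N; omega) (by show k + 1 ≤ N; omega)
        (plan_zeta_ge hN hj) (plan_zeta_ge hN (by omega)) (plan_cross_swap hx)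
  · rcases le_or_gt N k with hk | hk
    · exact plan_sepX (t := N) m1 m2 m3 m4 (plan_zeta_le hN hj.le) (plan_zeta_le hN (by omega))
        (by show N ≤ k; omega) (by show N ≤ k + 1; omega)
    · exact plan_sepY (t := N) hN m1 m2 m3 m4 (by show j ≤ N; omega) (by show j + 1 ≤ N; omega)
        (plan_phi_ge hN hk.le) (plan_phi_ge hN (by omega))

/-- PLAN from PT. -/
theorem plan (hPT : S_PT) : S_PLAN := by
  classical
  intro N c c' hN hc
  have hN0 : N ≠ 0 := by omega
  set A : Finset (Fin 3 → ℤ) := (pts N c).image (planS N c) with hA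
  have hS : ∀ x ∈ pts N c, planS N c x ∈ A := fun x hx => Finset.mem_image_of_mem _ hx
  have hL : ∀ x ∈ A, planL N c x ∈ pts N c := by
    intro x hx
    obtain ⟨y, hy, rfl⟩ := Finset.mem_image.1 hx
    rw [plan_LS hN0 (plan_mem_pts.1 hy).2.2.2.2.2]
    exact hy
  have hAht : ∀ x ∈ A, x 0 = 1 := by
    intro x hx
    exact (plan_mem_pts.1 (hL x hx)).1
  have hcone1 : ∀ y ∈ coneOf A, planR N c y ∈ coneOf (pts N c) := fun y hy =>
    plan_cone_map (planL N c) (planR N c) hL (fun x _ => plan_rvL x) hy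
  have hcone2 : ∀ y ∈ coneOf (pts N c), planQ N c y ∈ coneOf A := fun y hy =>
    plan_cone_map (planS N c) (planQ N c) hS
      (fun x hx => plan_rvS hN0 (plan_mem_pts.1 hx).2.2.2.2.2) hy
  have hpoly : LPoly A := by
    refine ⟨hAht, ?_, ?_⟩
    · intro x hx0 hx
      have h1 := hcone1 _ hx
      rw [plan_rvL] at h1
      have h2 : planL N c x ∈ pts N c := by
        have hb : ∀ i : Fin 3, i ≠ 0 → 1 ≤ planL N c x i ∧ planL N c x i ≤ 2 * N - 1 := by
          intro i hi
          have hpt : ∀ z ∈ pts N c, 1 ≤ z i ∧ z i ≤ (2 * N - 1) * z 0 ∧ z 0 = 1 := by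
            intro z hz
            obtain ⟨g0, g1, g2, g3, g4, -⟩ := plan_mem_pts.1 hz
            fin_cases i
            · exact absurd rfl hi
            · refine ⟨by show 1 ≤ z 1; omega, ?_, g0⟩
              show z 1 ≤ _
              rw [g0]
              omega
            · refine ⟨by show 1 ≤ z 2; omega, ?_, g0⟩
              show z 2 ≤ _
              rw [g0]
              omega
          have l1 := plan_cone_nonneg (P := pts N c)
            (LinearMap.proj (R := ℝ) (φ := fun _ : Fin 3 => ℝ) i - LinearMap.proj 0) (by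
              intro z hz
              obtain ⟨g1, -, g3⟩ := hpt z hz
              show (0:ℝ) ≤ (z i : ℝ) - (z 0 : ℝ)
              rw [g3]
              have : (1:ℝ) ≤ z i := by exact_mod_cast g1
              push_cast
              linarith) h1
          have l2 := plan_cone_nonneg (P := pts N c)
            (((2 * N - 1 : ℤ) : ℝ) • LinearMap.proj (R := ℝ) (φ := fun _ : Fin 3 => ℝ) 0 -
              LinearMap.proj i) (by
              intro z hz
              obtain ⟨-, g2, g3⟩ := hpt z hz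
              show (0:ℝ) ≤ ((2 * N - 1 : ℤ) : ℝ) * (z 0 : ℝ) - (z i : ℝ)
              have : (z i : ℝ) ≤ ((2 * N - 1 : ℤ) : ℝ) * (z 0 : ℝ) := by exact_mod_cast g2
              linarith) h1
          have e0 : planL N c x 0 = 1 := hx0
          constructor
          · have l1' : (0:ℝ) ≤ (planL N c x i : ℝ) - (planL N c x 0 : ℝ) := l1
            rw [e0] at l1'
            have : (1:ℝ) ≤ (planL N c x i : ℝ) := by
              push_cast at l1'
              linarith
            exact_mod_cast this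
          · have l2' : (0:ℝ) ≤ ((2 * N - 1 : ℤ) : ℝ) * (planL N c x 0 : ℝ) - (planL N c x i : ℝ) := l2
            rw [e0] at l2'
            have : (planL N c x i : ℝ) ≤ ((2 * N - 1 : ℤ) : ℝ) := by
              push_cast at l2' ⊢
              linarith
            exact_mod_cast this
        obtain ⟨a1, a2⟩ := hb 1 (by decide)
        obtain ⟨b1, b2⟩ := hb 2 (by decide)
        rw [plan_mem_pts]
        refine ⟨hx0, by omega, by omega, by omega, by omega, ?_⟩
        show N ∣ c * x 1 + N * x 2 - c * x 1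
        rw [show c * x 1 + N * x 2 - c * x 1 = N * x 2 by ring]
        exact dvd_mul_right _ _
      have h3 := hS _ h2
      rwa [plan_SL hN0] at h3
    · have mO := plan_Z_mem (c' := c') hN hc (show 1 ≤ N by omega) (show N ≤ 2 * N - 1 by omega)
      have mZ := plan_Z_mem (c' := c') hN hc (le_refl (1:ℤ)) (show 1 ≤ 2 * N - 1 by omega)
      have mF := plan_F_mem (c' := c') hN hc (le_refl (1:ℤ)) (show 1 ≤ 2 * N - 1 by omega)
      refine ⟨_, hS _ mO, _, hS _ mZ, _, hS _ mF, ?_⟩
      intro h0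
      have vO := plan_val hN0 mO
      have vZ := plan_val hN0 mZ
      have vF := plan_val hN0 mF
      rw [plan_dt3] at h0
      have z1 : 0 < zeta N c' 1 := (plan_mem_pts.1 mZ).2.1
      have z2 : zeta N c' 1 < N := by
        unfold zeta
        rw [if_pos (by omega)]
        exact Int.emod_lt_of_pos _ (by omega)
      have f1 : N ≤ phi N c 1 := plan_phi_ge hN (by omega)
      have zN : zeta N c' N = N := le_antisymm (plan_zeta_le hN le_rfl) (plan_zeta_ge hN le_rfl)
      -- coordinates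
      set o := planS N c ![1, zeta N c' N, N]
      set z := planS N c ![1, zeta N c' 1, 1]
      set f := planS N c ![1, 1, phi N c 1]
      have o0 : o 0 = 1 := rfl
      have o1 : o 1 = N := zN
      have zz0 : z 0 = 1 := rfl
      have zz1 : z 1 = zeta N c' 1 := rfl
      have ff0 : f 0 = 1 := rfl
      have ff1 : f 1 = 1 := rfl
      have vO' : c * N + N * o 2 = N := by
        calc c * N + N * o 2 = c * o 1 + N * o 2 := by rw [o1]
          _ = N := vO
      have vZ' : c * zeta N c' 1 + N * z 2 = 1 := vZ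
      have vF' : c * 1 + N * f 2 = phi N c 1 := vF
      rw [o0, o1, zz0, zz1, ff0, ff1] at h0
      have h1 : N * (1 * zeta N c' 1 * f 2 - 1 * z 2 * 1 - N * 1 * f 2 + N * z 2 * 1 + o 2 * 1 * 1
          - o 2 * zeta N c' 1 * 1) = 0 := by rw [h0, mul_zero]
      have h2 : (zeta N c' 1 - N) * (phi N c 1 - N) - (1 - N) * (1 - N) = 0 := by
        have e1 : N * f 2 = phi N c 1 - c := by linarith
        have e2 : N * z 2 = 1 - c * zeta N c' 1 := by linarith
        have e3 : N * o 2 = N - c * N := by linarith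
        have e4 : N * (1 * zeta N c' 1 * f 2 - 1 * z 2 * 1 - N * 1 * f 2 + N * z 2 * 1 + o 2 * 1 * 1
          - o 2 * zeta N c' 1 * 1) = zeta N c' 1 * (N * f 2) - N * z 2 - N * (N * f 2) +
            N * (N * z 2) + N * o 2 - (N * o 2) * zeta N c' 1 := by ring
        rw [e4, e1, e2, e3] at h1
        linarith
      nlinarith [mul_nonneg (sub_nonneg.2 z2.le) (sub_nonneg.2 f1)]
  obtain ⟨T, hT, hTE⟩ := hPT A hpoly (planE N c c') (by
      intro e he
      unfold planE at he
      rw [Finset.mem_union] at he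
      rcases he with he | he
      · obtain ⟨j, hj, rfl⟩ := Finset.mem_image.1 he
        rw [Finset.mem_Icc] at hj
        have m1 := plan_Z_mem (c' := c') hN hc hj.1 (show j ≤ 2 * N - 1 by omega)
        have m2 := plan_Z_mem (c' := c') hN hc (show 1 ≤ j + 1 by omega)
          (show j + 1 ≤ 2 * N - 1 by omega)
        refine ⟨hS _ m1, hS _ m2, ?_, ?_⟩
        · intro h
          have h1 := plan_val hN0 m1
          have h2 := plan_val hN0 m2
          rw [show planS N c ![1, zeta N c' j, j] = planS N c ![1, zeta N c' (j + 1), j + 1]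
            from h] at h1
          have h3 : j = j + 1 := h1.symm.trans h2
          omega
        · intro x hx hxc
          refine plan_prim ![0, c, N] rfl rfl (hAht x hx) ?_ hxc
          show 0 * planS N c ![1, zeta N c' (j + 1), j + 1] 0 +
            c * planS N c ![1, zeta N c' (j + 1), j + 1] 1 +
            N * planS N c ![1, zeta N c' (j + 1), j + 1] 2 =
            0 * planS N c ![1, zeta N c' j, j] 0 + c * planS N c ![1, zeta N c' j, j] 1 +
            N * planS N c ![1, zeta N c' j, j] 2 + 1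
          rw [zero_mul, zero_add, zero_mul, zero_add, plan_val hN0 m1, plan_val hN0 m2]
          rfl
      · obtain ⟨j, hj, rfl⟩ := Finset.mem_image.1 he
        rw [Finset.mem_Icc] at hj
        have m1 := plan_F_mem (c' := c') hN hc hj.1 (show j ≤ 2 * N - 1 by omega)
        have m2 := plan_F_mem (c' := c') hN hc (show 1 ≤ j + 1 by omega)
          (show j + 1 ≤ 2 * N - 1 by omega)
        refine ⟨hS _ m1, hS _ m2, ?_, ?_⟩
        · intro h
          have h3 : j = j + 1 := congrFun h 1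
          omega
        · intro x hx hxc
          refine plan_prim ![0, 1, 0] rfl rfl (hAht x hx) ?_ hxc
          show 0 * (1:ℤ) + 1 * (j + 1) + 0 * planS N c ![1, j + 1, phi N c (j + 1)] 2 =
            0 * 1 + 1 * j + 0 * planS N c ![1, j, phi N c j] 2 + 1
          ring) (by
      intro e he e' he'
      unfold planE at he he'
      rw [Finset.mem_union] at he he'
      rcases he with he | he
      · obtain ⟨j, hj, rfl⟩ := Finset.mem_image.1 he
        rw [Finset.mem_Icc] at hj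
        rcases he' with he' | he'
        · obtain ⟨k, hk, rfl⟩ := Finset.mem_image.1 he'
          rw [Finset.mem_Icc] at hk
          exact plan_ZZ hN hc hj.1 hj.2 hk.1 hk.2
        · obtain ⟨k, hk, rfl⟩ := Finset.mem_image.1 he'
          rw [Finset.mem_Icc] at hk
          exact plan_ZF hN hc hj.1 hj.2 hk.1 hk.2
      · obtain ⟨j, hj, rfl⟩ := Finset.mem_image.1 he
        rw [Finset.mem_Icc] at hj
        rcases he' with he' | he'
        · obtain ⟨k, hk, rfl⟩ := Finset.mem_image.1 he'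
          rw [Finset.mem_Icc] at hk
          exact fun hx => plan_ZF hN hc hk.1 hk.2 hj.1 hj.2 (plan_cross_swap hx)
        · obtain ⟨k, hk, rfl⟩ := Finset.mem_image.1 he'
          rw [Finset.mem_Icc] at hk
          exact plan_FF (c' := c') hN hc hj.1 hj.2 hk.1 hk.2)
  -- transport
  have hlc : ∀ w : (Fin 3 → ℤ) →₀ ℝ, lc (planL N c) w = planR N c (lc id w) := by
    intro w
    rw [lc, lc, Finsupp.linearCombination_apply, Finsupp.linearCombination_apply, Finsupp.sum,
      Finsupp.sum, map_sum]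
    refine Finset.sum_congr rfl fun x _ => ?_
    rw [map_smul]
    show w x • rv (planL N c x) = w x • planR N c (rv x)
    rw [plan_rvL]
  have hRinj : Function.Injective (planR N c) := fun x y h => by
    rw [← plan_QR hN0 (c := c) x, ← plan_QR hN0 (c := c) y, h]
  have hLinj : Function.Injective (planL N c) := fun x y h => by
    rw [← plan_SL hN0 (c := c) x, ← plan_SL hN0 (c := c) y, h]
  have hTL : IsCx (planL N c) T := by
    refine ⟨hT.cx.fin, hT.cx.down, ?_⟩
    intro w hw w' hw' h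
    rw [hlc, hlc] at h
    exact hT.cx.inj hw hw' (hRinj h)
  have hpush : ∀ F ∈ T, ∀ s : Finset (Fin 3 → ℤ), (s : Set (Fin 3 → ℤ)) = planL N c '' (F : Set (Fin 3 → ℤ)) →
      s ∈ push (planL N c) T := fun F hF s hs => ⟨F, hF, hs⟩
  have hedge : ∀ x y : Fin 3 → ℤ, x ∈ pts N c → y ∈ pts N c →
      (planS N c x, planS N c y) ∈ planE N c c' → ({x, y} : Finset (Fin 3 → ℤ)) ∈
        push (planL N c) T := by
    intro x y hx hy hxy
    refine hpush _ (hTE _ hxy) _ ?_
    rw [Finset.coe_pair, Finset.coe_pair, Set.image_pair,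
      plan_LS hN0 (plan_mem_pts.1 hx).2.2.2.2.2, plan_LS hN0 (plan_mem_pts.1 hy).2.2.2.2.2]
  refine ⟨push (planL N c) T, push_isCx hTL, ?_, ?_, ?_, ?_, ?_, ?_⟩
  · rintro s ⟨F, hF, hs⟩ x hx
    have : x ∈ (s : Set (Fin 3 → ℤ)) := hx
    rw [hs] at this
    obtain ⟨y, hy, rfl⟩ := this
    exact hL y (hT.sub F hF hy)
  · intro x hx
    refine hpush _ (hT.vert _ (hS x hx)) _ ?_
    rw [Finset.coe_singleton, Finset.coe_singleton, Set.image_singleton,
      plan_LS hN0 (plan_mem_pts.1 hx).2.2.2.2.2]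
  · rw [supp_push hTL]
    ext y
    constructor
    · rintro ⟨w, hw, rfl⟩
      rw [hlc]
      refine hcone1 _ ?_
      rw [← hT.supp_eq]
      exact ⟨w, hw, rfl⟩
    · intro hy
      have h1 := hcone2 y hy
      rw [← hT.supp_eq] at h1
      obtain ⟨w, hw, hwy⟩ := h1
      refine ⟨w, hw, ?_⟩
      rw [hlc, hwy, plan_RQ hN0]
  · rintro s ⟨F, hF, hs⟩ hcard x hx
    have hsF : s = F.image (planL N c) := by
      apply Finset.coe_injective
      rw [Finset.coe_image]
      exact hs
    have hFc : F.card = 3 := by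
      rw [hsF, Finset.card_image_of_injective _ hLinj] at hcard
      exact hcard
    obtain ⟨a, b, d, hab, had, hbd, rfl⟩ := Finset.card_eq_three.1 hFc
    have hu : |dt ![a, b, d]| = 1 := by
      refine hT.uni _ hF _ ?_ ?_
      · intro i j hij
        fin_cases i <;> fin_cases j <;> simp_all
      · intro i
        fin_cases i <;> simp
    have hunit : IsUnit (Matrix.of ![a, b, d]).det := by
      rw [Int.isUnit_iff]
      exact (abs_eq zero_le_one).1 hu
    have hspan : ∀ y : Fin 3 → ℤ, y ∈ Submodule.span ℤ ({a, b, d} : Set (Fin 3 → ℤ)) := by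
      intro y
      have e : y = Matrix.vecMul (Matrix.vecMul y (Matrix.of ![a, b, d])⁻¹)
          (Matrix.of ![a, b, d]) := by
        rw [Matrix.vecMul_vecMul, Matrix.nonsing_inv_mul _ hunit, Matrix.vecMul_one]
      rw [e, Matrix.vecMul_eq_sum]
      refine Submodule.sum_mem _ fun i _ => Submodule.smul_mem _ _ (Submodule.subset_span ?_)
      show ![a, b, d] i ∈ ({a, b, d} : Set (Fin 3 → ℤ))
      fin_cases i <;> simp
    have h1 : planL N c (planS N c x) ∈ (Submodule.span ℤ ({a, b, d} : Set (Fin 3 → ℤ))).map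
        (planL N c) := Submodule.mem_map_of_mem (hspan _)
    rw [plan_LS hN0 hx, Submodule.map_span] at h1
    rw [hs]
    simpa using h1
  · intro j hj1 hj2
    refine hedge _ _ (plan_Z_mem hN hc hj1 (by omega))
      (plan_Z_mem hN hc (show 1 ≤ j + 1 by omega) (by omega)) ?_
    unfold planE
    exact Finset.mem_union_left _ (Finset.mem_image.2 ⟨j, Finset.mem_Icc.2 ⟨hj1, hj2⟩, rfl⟩)
  · intro i hi1 hi2
    refine hedge _ _ (plan_F_mem (c' := c') hN hc hi1 (by omega))
      (plan_F_mem (c' := c') hN hc (show 1 ≤ i + 1 by omega) (by omega)) ?_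
    unfold planE
    exact Finset.mem_union_right _ (Finset.mem_image.2 ⟨i, Finset.mem_Icc.2 ⟨hi1, hi2⟩, rfl⟩)

end H6BW
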