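import Pool.Agent.Work.MP_6237c7_co.BW.Defs

set_option autoImplicit false

namespace H6BW

open Finsupp H79KMW

/-- the height map -/
def ps37A : Matrix (Fin 1) (Fin 3) ℤ := Matrix.of fun _ j => if j = 0 then 1 else 0

lemma ps37A_mulVec (x : Fin 3 → ℤ) : ps37A.mulVec x = fun _ => x 0 := by
  funext i
  simp [ps37A, Matrix.mulVec, dotProduct]

/-- the ray of height one -/
def ps37e : Fin 1 → ℤ := fun _ => 1

/-- the one-dimensional fan -/
def ps37D : Set (Finset (Fin 1 → ℤ)) := {s | s ⊆ {ps37e}}

lemma ps37D_cx : IsCx id ps37D := by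
  classical
  refine ⟨?_, ?_, ?_⟩
  · have : ps37D = ((({ps37e} : Finset (Fin 1 → ℤ)).powerset : Finset (Finset (Fin 1 → ℤ))) :
        Set (Finset (Fin 1 → ℤ))) := by
      ext s
      rw [Finset.mem_coe, Finset.mem_powerset]
      rfl
    rw [this]
    exact Finset.finite_toSet _
  · intro s hs t hts
    exact hts.trans hs
  · intro a ha b hb hab
    have key : ∀ w : (Fin 1 → ℤ) →₀ ℝ, w.support ⊆ {ps37e} → lc id w 0 = w ps37e := by
      intro w hw
      rw [lc_apply_of_subset w _ hw, Finset.sum_singleton]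
      show w ps37e * (((1 : ℤ)) : ℝ) = _
      rw [Int.cast_one, mul_one]
    ext x
    by_cases hx : x = ps37e
    · rw [hx, ← key a ha.2, ← key b hb.2, hab]
    · have h1 : x ∉ a.support := fun h => hx (Finset.mem_singleton.1 (ha.2 h))
      have h2 : x ∉ b.support := fun h => hx (Finset.mem_singleton.1 (hb.2 h))
      rw [Finsupp.notMem_support_iff.1 h1, Finsupp.notMem_support_iff.1 h2]

lemma ps37_coneOf_of_support {n : ℕ} (P : Finset (Fin n → ℤ)) (w : (Fin n → ℤ) →₀ ℝ)
    (h0 : ∀ x, 0 ≤ w x) (hs : w.support ⊆ P) : lc id w ∈ coneOf P := ⟨w, h0, hs, rfl⟩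

lemma ps37_height (w : (Fin 3 → ℤ) →₀ ℝ) (h1 : ∀ x ∈ w.support, x 0 = 1) :
    lc id w 0 = w.sum (fun _ c => c) := by
  rw [lc_apply, Finsupp.sum, Finsupp.sum]
  refine Finset.sum_congr rfl fun x hx => ?_
  show w x * ((x 0 : ℤ) : ℝ) = w x
  rw [h1 x hx, Int.cast_one, mul_one]

/-- PSTART. -/
theorem pstart (hst : S_STARALL) : S_PSTART := by
  classical
  intro A hA
  obtain ⟨C, hC, hCs, hsupp⟩ := exists_initial_fan A
  have hone : ∀ x : Fin 3 → ℤ, x 0 = 1 → ps37A.mulVec x = ps37e := by
    intro x hx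
    rw [ps37A_mulVec]
    funext i
    exact hx
  have hov : Over ps37A ps37D C := by
    intro s hs
    show s.image _ ⊆ {ps37e}
    intro y hy
    obtain ⟨x, hx, rfl⟩ := Finset.mem_image.1 hy
    rw [Finset.mem_singleton]
    exact hone x (hA.ht x (hCs s hs hx))
  have hsing : ∀ x ∈ A, rv x ∈ coneOf A := by
    intro x hx
    have := ps37_coneOf_of_support A (single x 1) (by
      intro z; rw [Finsupp.single_apply]; split_ifs <;> norm_num) (by
      refine Finsupp.support_single_subset.trans ?_
      intro z hz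
      rw [Finset.mem_singleton] at hz
      rw [hz]; exact hx)
    rw [lc_single, one_smul] at this
    exact this
  obtain ⟨T, hT, hTs, hTo, hTv, _, hTr⟩ := hst 1 3 ps37A ps37D C A ps37D_cx hC hov (by
    intro x hx
    refine ⟨by rw [hsupp]; exact hsing x hx, ?_⟩
    show ({ps37A.mulVec x} : Finset (Fin 1 → ℤ)) ⊆ {ps37e}
    rw [hone x (hA.ht x hx)])
  have hsub : ∀ s ∈ T, s ⊆ A := by
    intro s hs x hx
    rcases hTr s hs x hx with h1 | h1
    · exact h1
    · exact hCs _ h1 (Finset.mem_singleton_self x)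
  refine ⟨T, hT, hsub, hTv, hTs.trans hsupp, ?_⟩
  intro s hs f hf hfs
  by_contra hne
  -- the determinant is not zero
  have hli : LinearIndependent ℝ (fun k => rv (f k)) := by
    have h1 := hT.linInd hs
    exact h1.comp (fun k => (⟨f k, hfs k⟩ : s)) (fun i j hij => hf (congrArg Subtype.val hij))
  have hunit : IsUnit ((Matrix.of f).map (Int.castRingHom ℝ)) := by
    rw [← Matrix.linearIndependent_rows_iff_isUnit]
    exact hli
  have hdet0 : dt f ≠ 0 := by
    intro h0
    rw [Matrix.isUnit_iff_isUnit_det, isUnit_iff_ne_zero] at hunit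
    apply hunit
    have h1 := RingHom.map_det (Int.castRingHom ℝ) (Matrix.of f)
    rw [RingHom.mapMatrix_apply] at h1
    rw [← h1]
    show ((dt f : ℤ) : ℝ) = 0
    rw [h0, Int.cast_zero]
  have h2 : 2 ≤ |dt f| := by
    have := Int.one_le_abs hdet0
    omega
  obtain ⟨l, hl0, hl1, hlne, ⟨m, hm⟩, hlr⟩ := exists_class' f h2
  have hls : l.support ⊆ s := by
    intro x hx
    obtain ⟨k, rfl⟩ := hlr (Finset.mem_coe.2 hx)
    exact hfs k
  have hlt : ∀ x, l x < 1 := fun x => lt_of_le_of_lt (hl1 x) (by norm_num)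
  -- sums over the three vertices
  set F : Finset (Fin 3 → ℤ) := Finset.univ.image f with hF
  have hFs : F ⊆ s := by
    intro x hx
    obtain ⟨k, _, rfl⟩ := Finset.mem_image.1 hx
    exact hfs k
  have hFc : F.card = 3 := by
    rw [hF, Finset.card_image_of_injective _ hf]; simp
  have hlF : l.support ⊆ F := by
    intro x hx
    obtain ⟨k, rfl⟩ := hlr (Finset.mem_coe.2 hx)
    exact Finset.mem_image_of_mem _ (Finset.mem_univ k)
  have hF1 : ∀ x ∈ F, x 0 = 1 := fun x hx => hA.ht x (hsub s hs (hFs hx))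
  have hsum : (m 0 : ℝ) = ∑ x ∈ F, l x := by
    have h3 := congrFun hm 0
    rw [lc_apply_of_subset l F hlF] at h3
    show rv m 0 = _
    rw [← h3]
    refine Finset.sum_congr rfl fun x hx => ?_
    show l x * ((x 0 : ℤ) : ℝ) = l x
    rw [hF1 x hx, Int.cast_one, mul_one]
  have hpos : (0 : ℝ) < m 0 := by
    rw [hsum]
    obtain ⟨x, hx⟩ := Finsupp.support_nonempty_iff.2 hlne
    have hx' : 0 < l x := lt_of_le_of_ne (hl0 x) (Ne.symm (Finsupp.mem_support_iff.1 hx))
    exact Finset.sum_pos' (fun y _ => hl0 y) ⟨x, hlF hx, hx'⟩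
  have hlt3 : (m 0 : ℝ) < 3 := by
    rw [hsum]
    have hne : F.Nonempty := by rw [← Finset.card_pos, hFc]; norm_num
    have := Finset.sum_lt_sum_of_nonempty hne (fun x _ => hlt x)
    rw [Finset.sum_const, hFc] at this
    simpa using this
  have hm12 : m 0 = 1 ∨ m 0 = 2 := by
    have a1 : 0 < m 0 := by exact_mod_cast hpos
    have a2 : m 0 < 3 := by exact_mod_cast hlt3
    omega
  have hFT : F ∈ T := hT.down s hs F hFs
  -- a lattice point of height one with a representation on `F` is a vertex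
  have key : ∀ (l' : (Fin 3 → ℤ) →₀ ℝ) (m' : Fin 3 → ℤ), (∀ x, 0 ≤ l' x) → l'.support ⊆ F →
      lc id l' = rv m' → m' 0 = 1 → l' = single m' 1 := by
    intro l' m' h0 hsu hlc hm1
    have hmA : m' ∈ A := by
      refine hA.full m' hm1 ?_
      rw [← hlc]
      exact ps37_coneOf_of_support A l' h0 (hsu.trans (hFs.trans (hsub s hs)))
    refine hT.inj ⟨h0, hT.down F hFT _ hsu⟩ ⟨?_, ?_⟩ ?_
    · intro z; rw [Finsupp.single_apply]; split_ifs <;> norm_num
    · rw [Finsupp.support_single _ one_ne_zero]; exact hTv m' hmA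
    · rw [hlc, lc_single, one_smul]; rfl
  rcases hm12 with h1 | h1
  · have h3 := key l m hl0 hlF hm h1
    have h4 := hlt m
    rw [h3, Finsupp.single_eq_same] at h4
    exact lt_irrefl _ h4
  · -- the complementary point
    let l' : (Fin 3 → ℤ) →₀ ℝ := ∑ x ∈ F, single x (1 - l x)
    let m' : Fin 3 → ℤ := ∑ x ∈ F, x - m
    have hl'a : ∀ y, l' y = if y ∈ F then 1 - l y else 0 := by
      intro y
      show (∑ x ∈ F, single x (1 - l x)) y = _
      rw [Finsupp.finsetSum_apply]
      by_cases hy : y ∈ F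
      · rw [if_pos hy, Finset.sum_eq_single y]
        · rw [Finsupp.single_eq_same]
        · intro x _ hxy
          rw [Finsupp.single_apply, if_neg hxy]
        · intro hcon; exact absurd hy hcon
      · rw [if_neg hy]
        refine Finset.sum_eq_zero fun x hx => ?_
        rw [Finsupp.single_apply, if_neg]
        intro hxy; exact hy (hxy ▸ hx)
    have h0 : ∀ y, 0 ≤ l' y := by
      intro y
      rw [hl'a]
      split_ifs
      · have := hlt y; linarith
      · exact le_rfl
    have hsu : l'.support ⊆ F := by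
      intro y hy
      by_contra hcon
      rw [Finsupp.mem_support_iff, hl'a, if_neg hcon] at hy
      exact hy rfl
    have hlc : lc id l' = rv m' := by
      funext i
      rw [lc_apply_of_subset l' F hsu]
      have h3 : (m i : ℝ) = ∑ x ∈ F, l x * (x i : ℝ) := by
        have h4 := congrFun hm i
        rw [lc_apply_of_subset l F hlF] at h4
        exact h4.symm
      show _ = ((m' i : ℤ) : ℝ)
      have h4 : m' i = ∑ x ∈ F, x i - m i := by
        show (∑ x ∈ F, x - m) i = _
        rw [Pi.sub_apply, Finset.sum_apply]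
      rw [h4, Int.cast_sub, Int.cast_sum, h3, ← Finset.sum_sub_distrib]
      refine Finset.sum_congr rfl fun x hx => ?_
      rw [hl'a, if_pos hx]
      show (1 - l x) * ((x i : ℤ) : ℝ) = _
      ring
    have hm1 : m' 0 = 1 := by
      show (∑ x ∈ F, x - m) 0 = 1
      rw [Pi.sub_apply, Finset.sum_apply, h1, Finset.sum_congr rfl hF1, Finset.sum_const, hFc]
      norm_num
    have h3 := key l' m' h0 hsu hlc hm1
    have h4 : l'.support = F := by
      refine Finset.Subset.antisymm hsu fun y hy => ?_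
      rw [Finsupp.mem_support_iff, hl'a, if_pos hy]
      have := hlt y
      intro h5
      linarith
    rw [h3, Finsupp.support_single _ one_ne_zero] at h4
    have h5 := congrArg Finset.card h4
    rw [hFc, Finset.card_singleton] at h5
    omega

end H6BW
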