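import Pool.Agent.Work.MP_6237c7_co.BW.Defs

set_option autoImplicit false

namespace H6BW

open Finsupp H79KMW

/-- PT. -/
theorem pt (hp : S_PSTART) (hi : S_INS) : S_PT := by
  classical
  intro A hA E
  induction E using Finset.induction_on with
  | empty =>
    intro _ _
    obtain ⟨T, hT⟩ := hp A hA
    exact ⟨T, hT, fun e he => absurd he (Finset.notMem_empty e)⟩
  | insert e E _ ih =>
    intro h1 h2
    obtain ⟨T, hT, hE⟩ := ih (fun e' he' => h1 e' (Finset.mem_insert_of_mem he'))
      (fun e' he' e'' he'' => h2 e' (Finset.mem_insert_of_mem he') e'' (Finset.mem_insert_of_mem he''))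
    obtain ⟨T', hT', hin, hkeep⟩ := hi A T hA hT e.1 e.2 (h1 e (Finset.mem_insert_self e E))
    refine ⟨T', hT', ?_⟩
    intro e' he'
    rw [Finset.mem_insert] at he'
    rcases he' with rfl | he'
    · exact hin
    · exact hkeep _ _ (hE e' he')
        (h2 e (Finset.mem_insert_self e E) e' (Finset.mem_insert_of_mem he'))

end H6BW
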