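import Pool.Agent.Work.MP_6237c7_co.BW.Defs

/-!
MP_6237c7_co, module QUAD: two pairs over different base vectors.
-/

set_option autoImplicit false

namespace H6BW

open Finsupp H79KMW

section

variable {m n : ℕ} {A : Matrix (Fin m) (Fin n) ℤ} {Δ : Set (Finset (Fin m → ℤ))}
  {K : Set (Finset (Fin n → ℤ))}

/-- there is no lattice point in the interior of a vertical edge -/
theorem quad_seg (S : Sat A Δ K) {x y a₀ : Fin n → ℤ} {k : ℤ}
    (hxy : ({x, y} : Finset (Fin n → ℤ)) ∈ K) (hne : x ≠ y) (hA : A.mulVec a₀ = 0) (hk : 2 ≤ k)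
    (h : y - x = k • a₀) : False := by
  classical
  have hk' : (2 : ℝ) ≤ k := by exact_mod_cast hk
  have hk0 : (0 : ℝ) < k := by linarith
  have hinv : (k : ℝ)⁻¹ ≤ 1 / 2 := by
    rw [inv_le_comm₀ hk0 (by norm_num)]
    linarith
  have hinv0 : 0 < (k : ℝ)⁻¹ := inv_pos.2 hk0
  set w : (Fin n → ℤ) →₀ ℝ := single x (1 - (k : ℝ)⁻¹) + single y ((k : ℝ)⁻¹) with hw
  have hwx : w x = 1 - (k : ℝ)⁻¹ := by
    rw [hw, Finsupp.add_apply, Finsupp.single_eq_same, Finsupp.single_eq_of_ne hne, add_zero]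
  have hwy : w y = (k : ℝ)⁻¹ := by
    rw [hw, Finsupp.add_apply, Finsupp.single_eq_same, Finsupp.single_eq_of_ne hne.symm, zero_add]
  have hbody : w ∈ body K := by
    refine ⟨fun z => ?_, S.cx.down _ hxy _ fun z hz => ?_⟩
    · rw [hw, Finsupp.add_apply, Finsupp.single_apply, Finsupp.single_apply]
      split_ifs <;> linarith
    · have h1 := (Finsupp.support_add (g₁ := single x (1 - (k : ℝ)⁻¹))
        (g₂ := single y ((k : ℝ)⁻¹))) hz
      rcases Finset.mem_union.1 h1 with h2 | h2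
      · have := Finsupp.support_single_subset h2
        simp only [Finset.mem_singleton] at this
        simp [this]
      · have := Finsupp.support_single_subset h2
        simp only [Finset.mem_singleton] at this
        simp [this]
  have hlc : lc id w = rv (x + a₀) := by
    funext i
    rw [hw, map_add, lc_single, lc_single, Pi.add_apply, Pi.smul_apply, Pi.smul_apply]
    have h1 := congrFun h i
    simp only [Pi.sub_apply, Pi.smul_apply, smul_eq_mul] at h1
    have h2 : (y i : ℝ) = x i + k * a₀ i := by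
      have h3 : y i = x i + k * a₀ i := by linarith
      exact_mod_cast h3
    simp only [rv, id, Pi.add_apply, smul_eq_mul, Int.cast_add, h2]
    field_simp
    ring
  have hz : ({x + a₀} : Finset (Fin n → ℤ)) ∈ K := by
    refine S.sat _ ⟨w, hbody, hlc⟩ ?_
    rw [Matrix.mulVec_add, hA, add_zero]
    have h1 := S.ovr {x} (S.cx.down _ hxy _ (by simp))
    rwa [Finset.image_singleton] at h1
  have hz' : single (x + a₀) (1 : ℝ) ∈ body K := by
    refine ⟨fun z => ?_, ?_⟩
    · rw [Finsupp.single_apply]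
      split_ifs <;> norm_num
    · rw [Finsupp.support_single _ one_ne_zero]
      exact hz
  have heq := S.cx.inj hbody hz' (by rw [hlc, lc_single, one_smul]; rfl)
  have h1 : x + a₀ = x := by
    by_contra hcon
    have h2 : w x = 0 := by rw [heq, Finsupp.single_eq_of_ne (Ne.symm hcon)]
    rw [hwx] at h2
    linarith
  have h3 : x + a₀ = y := by
    by_contra hcon
    have h2 : w y = 0 := by rw [heq, Finsupp.single_eq_of_ne (Ne.symm hcon)]
    rw [hwy] at h2
    linarith
  exact hne (h1.symm.trans h3)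

/-- vertical edges are primitive -/
theorem quad_prim (S : Sat A Δ K) {x y b₁ b₂ : Fin n → ℤ}
    (hxy : ({x, y} : Finset (Fin n → ℤ)) ∈ K) (hne : x ≠ y) (h1 : A.mulVec b₁ = 0)
    (h2 : A.mulVec b₂ = 0) {i j : ℤ} (h : y - x = i • b₁ + j • b₂) : IsCoprime i j := by
  rw [Int.isCoprime_iff_gcd_eq_one]
  by_contra hcon
  by_cases h0 : Int.gcd i j = 0
  · rw [Int.gcd_eq_zero_iff] at h0
    rw [h0.1, h0.2, zero_smul, zero_smul, add_zero] at h
    exact hne (sub_eq_zero.1 h).symm
  · obtain ⟨i', hi⟩ := Int.gcd_dvd_left i j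
    obtain ⟨j', hj⟩ := Int.gcd_dvd_right i j
    refine quad_seg S hxy hne (a₀ := i' • b₁ + j' • b₂) (k := (Int.gcd i j : ℤ)) ?_ ?_ ?_
    · rw [Matrix.mulVec_add, Matrix.mulVec_smul, Matrix.mulVec_smul, h1, h2, smul_zero, smul_zero,
        add_zero]
    · have : 2 ≤ Int.gcd i j := by omega
      exact_mod_cast this
    · rw [h, smul_add, smul_smul, smul_smul, ← hi, ← hj]

/-- the last step -/
theorem quad_fin {v : Fin 4 → Fin n → ℤ} (hv : Finset.univ.image v ∈ K)
    (hinj : Function.Injective v) (h01 : A.mulVec (v 0) = A.mulVec (v 1))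
    (h23 : A.mulVec (v 2) = A.mulVec (v 3)) (h02 : A.mulVec (v 0) ≠ A.mulVec (v 2))
    {u : Fin n → ℤ} {N c : ℤ} (hN : 1 ≤ N) (hcop : IsCoprime N c)
    (hu : N • u = (v 1 - v 0) + c • (v 3 - v 2))
    (gen : ∀ x : Fin n → ℤ, A.mulVec x = 0 →
      x ∈ Submodule.span ℤ ({u, v 3 - v 2} : Set (Fin n → ℤ))) :
    (∀ r : Fin n → ℤ, A.mulVec r = 0 →
      r ∈ Submodule.span ℤ ({v 1 - v 0, v 3 - v 2} : Set (Fin n → ℤ))) ∨
    ∃ (u : Fin n → ℤ) (N c c' : ℤ), Bad A K v u N c c' := by
  by_cases h1 : N = 1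
  · left
    intro r hr
    rw [h1, one_smul] at hu
    have hsub : Submodule.span ℤ ({u, v 3 - v 2} : Set (Fin n → ℤ)) ≤
        Submodule.span ℤ ({v 1 - v 0, v 3 - v 2} : Set (Fin n → ℤ)) := by
      rw [Submodule.span_le]
      rintro x (rfl | rfl)
      · rw [hu]
        exact Submodule.add_mem _ (Submodule.subset_span (by simp))
          (Submodule.smul_mem _ _ (Submodule.subset_span (by simp)))
      · exact Submodule.subset_span (by simp)
    exact hsub (gen r hr)
  · right
    obtain ⟨s, t, hst⟩ := hcop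
    refine ⟨u, N, c, t, ⟨hv, hinj, h01, h23, h02, by omega, ⟨-s, by linarith⟩, hu, fun x hx => ?_⟩⟩
    exact Submodule.span_mono (by
      rintro y (rfl | rfl)
      · simp
      · simp) (gen x hx)

theorem quad_main (S : Sat A Δ K) {b₁ b₂ : Fin n → ℤ} (hb₁ : A.mulVec b₁ = 0)
    (hb₂ : A.mulVec b₂ = 0) (hgen : ∀ x : Fin n → ℤ, A.mulVec x = 0 → ∃ i j : ℤ,
      x = i • b₁ + j • b₂) (v : Fin 4 → Fin n → ℤ) (hv : Finset.univ.image v ∈ K)
    (hinj : Function.Injective v) (h01 : A.mulVec (v 0) = A.mulVec (v 1))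
    (h23 : A.mulVec (v 2) = A.mulVec (v 3)) (h02 : A.mulVec (v 0) ≠ A.mulVec (v 2)) :
    (∀ r : Fin n → ℤ, A.mulVec r = 0 →
      r ∈ Submodule.span ℤ ({v 1 - v 0, v 3 - v 2} : Set (Fin n → ℤ))) ∨
    ∃ (u : Fin n → ℤ) (N c c' : ℤ), Bad A K v u N c c' := by
  classical
  have hne01 : v 0 ≠ v 1 := fun h => absurd (hinj h) (by decide)
  have hne23 : v 2 ≠ v 3 := fun h => absurd (hinj h) (by decide)
  have hK01 : ({v 0, v 1} : Finset (Fin n → ℤ)) ∈ K := S.cx.down _ hv _ (by
    intro x hx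
    simp only [Finset.mem_insert, Finset.mem_singleton] at hx
    rcases hx with rfl | rfl <;> exact Finset.mem_image_of_mem _ (Finset.mem_univ _))
  have hK23 : ({v 2, v 3} : Finset (Fin n → ℤ)) ∈ K := S.cx.down _ hv _ (by
    intro x hx
    simp only [Finset.mem_insert, Finset.mem_singleton] at hx
    rcases hx with rfl | rfl <;> exact Finset.mem_image_of_mem _ (Finset.mem_univ _))
  obtain ⟨a₁, a₂, ha⟩ := hgen (v 1 - v 0) (by rw [Matrix.mulVec_sub, h01, sub_self])
  obtain ⟨β₁, β₂, hb⟩ := hgen (v 3 - v 2) (by rw [Matrix.mulVec_sub, h23, sub_self])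
  have hca := quad_prim S hK01 hne01 hb₁ hb₂ ha
  obtain ⟨s, t, hst⟩ := quad_prim S hK23 hne23 hb₁ hb₂ hb
  obtain ⟨s', t', hst'⟩ := hca
  set g : Fin n → ℤ := (-t) • b₁ + s • b₂ with hg
  set p : ℤ := a₂ * β₁ - a₁ * β₂ with hp
  set q : ℤ := a₁ * s + a₂ * t with hq
  -- the decomposition of `a`
  have hdec : v 1 - v 0 = q • (v 3 - v 2) + p • g := by
    rw [ha, hb, hg]
    funext i
    simp only [Pi.add_apply, Pi.smul_apply, smul_eq_mul, hp, hq]
    linear_combination (-a₁ * b₁ i - a₂ * b₂ i) * hst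
  have hgen' : ∀ x : Fin n → ℤ, A.mulVec x = 0 →
      x ∈ Submodule.span ℤ ({g, v 3 - v 2} : Set (Fin n → ℤ)) := by
    intro x hx
    obtain ⟨i, j, hij⟩ := hgen x hx
    rw [Submodule.mem_span_pair]
    refine ⟨j * β₁ - i * β₂, i * s + j * t, ?_⟩
    rw [hij, hb, hg]
    funext l
    simp only [Pi.add_apply, Pi.smul_apply, smul_eq_mul]
    linear_combination (i * b₁ l + j * b₂ l) * hst
  have hcop : IsCoprime p q := by
    refine ⟨s' * (-t) + t' * s, s' * β₁ + t' * β₂, ?_⟩
    rw [hp, hq]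
    linear_combination (s' * a₁ + t' * a₂) * hst + hst'
  have hp0 : p ≠ 0 := by
    intro h0
    rw [h0, zero_smul, add_zero] at hdec
    have hne : ∀ i j : Fin 4, i ≠ j → v i ≠ v j := fun i j hij h => hij (hinj h)
    set w : (Fin n → ℤ) →₀ ℝ := single (v 1) 1 + single (v 0) (-1) + single (v 3) (-(q : ℝ)) +
      single (v 2) (q : ℝ) with hw
    have hsup : w.support ⊆ Finset.univ.image v := by
      refine supp_add_subset _ _ _ (supp_add_subset _ _ _ (supp_add_subset _ _ _ ?_ ?_) ?_) ?_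
      all_goals
        refine Finsupp.support_single_subset.trans ?_
        rw [Finset.singleton_subset_iff]
        exact Finset.mem_image_of_mem _ (Finset.mem_univ _)
    have hlc : lc id w = 0 := by
      funext i
      have h1 := congrFun hdec i
      simp only [Pi.sub_apply, Pi.smul_apply, smul_eq_mul] at h1
      have h2 : ((v 1 i : ℤ) : ℝ) - v 0 i = q * (v 3 i - v 2 i) := by exact_mod_cast h1
      rw [hw, map_add, map_add, map_add, lc_single, lc_single, lc_single, lc_single]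
      simp only [Pi.add_apply, Pi.smul_apply, smul_eq_mul, rv, id, Pi.zero_apply]
      linear_combination h2
    have h3 := S.cx.indep hv w hsup hlc
    have h4 : w (v 1) = 1 := by
      rw [hw, Finsupp.add_apply, Finsupp.add_apply, Finsupp.add_apply, Finsupp.single_eq_same,
        Finsupp.single_eq_of_ne (hne 1 0 (by decide)), Finsupp.single_eq_of_ne (hne 1 3 (by decide)),
        Finsupp.single_eq_of_ne (hne 1 2 (by decide))]
      norm_num
    rw [h3] at h4
    simp at h4
  rcases lt_or_gt_of_ne hp0 with hneg | hpos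
  · refine quad_fin hv hinj h01 h23 h02 (u := -g) (N := -p) (c := -q) (by omega)
      (by rw [IsCoprime.neg_left_iff, IsCoprime.neg_right_iff]; exact hcop) ?_ ?_
    · rw [hdec]
      funext i
      simp only [Pi.add_apply, Pi.smul_apply, Pi.neg_apply, Pi.sub_apply, smul_eq_mul]
      ring
    · intro x hx
      have h1 := hgen' x hx
      rw [Submodule.mem_span_pair] at h1 ⊢
      obtain ⟨i, j, hij⟩ := h1
      exact ⟨-i, j, by rw [← hij]; simp⟩
  · refine quad_fin hv hinj h01 h23 h02 (u := g) (N := p) (c := -q) (by omega)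
      (by rw [IsCoprime.neg_right_iff]; exact hcop) ?_ hgen'
    rw [hdec]
    funext i
    simp only [Pi.add_apply, Pi.smul_apply, Pi.sub_apply, smul_eq_mul]
    ring

end

/-- QUAD -/
theorem quad (h : S_KERLAT) : S_QUAD := by
  intro m n A Δ K S v hv hinj h01 h23 h02
  obtain ⟨b₁, b₂, hb₁, hb₂, -, hgen⟩ := h m n A S.ker
  exact quad_main S hb₁ hb₂ hgen v hv hinj h01 h23 h02

end H6BW
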