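import Pool.Agent.Work.MP_6237c7_co.BW.Defs

set_option autoImplicit false

namespace H6BW

open Finsupp H79KMW

section
variable {n : ℕ} {K Q : Set (Finset (Fin n → ℤ))}
  {F : Finset (Fin n → ℤ) → Set (Finset (Fin n → ℤ))}

lemma repl72_down (hK : IsCx id K) (hF : ∀ q ∈ Q, IsCx id (F q)) :
    ∀ s ∈ replFan K Q F, ∀ s' : Finset (Fin n → ℤ), s' ⊆ s → s' ∈ replFan K Q F := by
  classical
  rintro s (⟨hs, hq⟩ | ⟨q, hq, t, ht, r, hqr, hr, rfl⟩) s' hs'
  · exact Or.inl ⟨hK.down s hs s' hs', fun q hqQ h => hq q hqQ (h.trans hs')⟩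
  · refine Or.inr ⟨q, hq, t.filter (fun x => x ∈ s'), (hF q hq).down t ht _
      (Finset.filter_subset _ _), r.filter (fun x => x ∈ s'), ?_, ?_, ?_⟩
    · exact Finset.disjoint_of_subset_right (Finset.filter_subset _ _) hqr
    · exact hK.down _ hr _ (Finset.union_subset_union (Finset.Subset.refl _)
        (Finset.filter_subset _ _))
    · ext x
      rw [Finset.mem_union, Finset.mem_filter, Finset.mem_filter]
      constructor
      · intro hx
        have := hs' hx
        rw [Finset.mem_union] at this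
        rcases this with h | h
        · exact Or.inl ⟨h, hx⟩
        · exact Or.inr ⟨h, hx⟩
      · rintro (h | h)
        · exact h.2
        · exact h.2

/-- The normal form of a weight of the replaced fan. -/
def RForm (Q : Set (Finset (Fin n → ℤ))) (F : Finset (Fin n → ℤ) → Set (Finset (Fin n → ℤ)))
    (a w : (Fin n → ℤ) →₀ ℝ) : Prop :=
  (a = w ∧ ∀ q ∈ Q, ¬ q ⊆ w.support) ∨
  ∃ q ∈ Q, q ⊆ w.support ∧ ∃ a1 a2 b : (Fin n → ℤ) →₀ ℝ, a = a1 + a2 ∧ w = b + a2 ∧
    a1 ∈ body (F q) ∧ b.support ⊆ q ∧ lc id a1 = lc id b ∧ ∀ x ∈ q, a2 x = 0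

lemma repl72_form (hK : IsCx id K)
    (huni : ∀ s ∈ K, ∀ q ∈ Q, ∀ q' ∈ Q, q ⊆ s → q' ⊆ s → q = q')
    (hF : ∀ q ∈ Q, IsCx id (F q)) (hsupp : ∀ q ∈ Q, supp id (F q) = coneOf q)
    (hbd : ∀ q ∈ Q, ∀ t : Finset (Fin n → ℤ), t ⊆ q → t ≠ q → t ∈ F q)
    {a : (Fin n → ℤ) →₀ ℝ} (ha : a ∈ body (replFan K Q F)) :
    ∃ w ∈ body K, lc id w = lc id a ∧ RForm Q F a w := by
  classical
  obtain ⟨ha0, hs⟩ := ha
  rcases hs with ⟨hs, hq⟩ | ⟨q, hq, t, ht, r, hqr, hr, hsr⟩
  · exact ⟨a, ⟨ha0, hs⟩, rfl, Or.inl ⟨rfl, hq⟩⟩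
  set a1 : (Fin n → ℤ) →₀ ℝ := a.filter (fun x => x ∈ t) with ha1
  set a2 : (Fin n → ℤ) →₀ ℝ := a.filter (fun x => ¬ x ∈ t) with ha2
  have hsum : a = a1 + a2 := (Finsupp.filter_add_filter_not a (fun x => x ∈ t)).symm
  have h1nn : ∀ x, 0 ≤ a1 x := by
    intro x
    rw [ha1, Finsupp.filter_apply]
    split_ifs
    · exact ha0 x
    · exact le_rfl
  have h2nn : ∀ x, 0 ≤ a2 x := by
    intro x
    rw [ha2, Finsupp.filter_apply]
    split_ifs
    · exact le_rfl
    · exact ha0 x
  have h1s : a1.support ⊆ t := by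
    intro x hx
    rw [ha1, Finsupp.support_filter, Finset.mem_filter] at hx
    exact hx.2
  have h2s : a2.support ⊆ r := by
    intro x hx
    rw [ha2, Finsupp.support_filter, Finset.mem_filter, hsr, Finset.mem_union] at hx
    exact hx.1.resolve_left hx.2
  have h1b : a1 ∈ body (F q) := ⟨h1nn, (hF q hq).down t ht _ h1s⟩
  obtain ⟨b, hb0, hbs, hbl⟩ : lc id a1 ∈ coneOf q := by
    rw [← hsupp q hq]; exact ⟨a1, h1b, rfl⟩
  have h2q : ∀ x ∈ q, a2 x = 0 := by
    intro x hx
    by_contra hne
    exact (Finset.disjoint_left.1 hqr hx) (h2s (Finsupp.mem_support_iff.2 hne))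
  have hws : (b + a2).support ⊆ q ∪ r :=
    supp_add_subset _ _ _ (hbs.trans Finset.subset_union_left) (h2s.trans Finset.subset_union_right)
  refine ⟨b + a2, ⟨fun x => by rw [Finsupp.add_apply]; exact add_nonneg (hb0 x) (h2nn x),
    hK.down _ hr _ hws⟩, by rw [map_add, hbl, hsum, map_add], ?_⟩
  by_cases hqw : q ⊆ (b + a2).support
  · exact Or.inr ⟨q, hq, hqw, a1, a2, b, hsum, rfl, h1b, hbs, hbl.symm, h2q⟩
  · left
    have hbq : b.support ≠ q := by
      intro h
      apply hqw
      intro x hx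
      rw [Finsupp.mem_support_iff, Finsupp.add_apply, h2q x hx, add_zero]
      rw [← h] at hx
      exact Finsupp.mem_support_iff.1 hx
    have hbF : b ∈ body (F q) := ⟨hb0, hbd q hq _ hbs hbq⟩
    have hab : a1 = b := (hF q hq).inj h1b hbF hbl.symm
    refine ⟨by rw [hsum, hab], fun q' hq' hsub => ?_⟩
    have := huni _ hr q hq q' hq' Finset.subset_union_left (hsub.trans hws)
    exact hqw (this ▸ hsub)

end

theorem repl : S_REPL := by
  classical
  intro n K Q F hK hQK huni hF hsupp _ hbd _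
  have hdown := repl72_down (Q := Q) (F := F) hK hF
  refine ⟨⟨?_, hdown, ?_⟩, ?_⟩
  · refine (hK.fin.union ((hK.fin.subset hQK).biUnion (t := fun q => ⋃ t ∈ F q,
      (fun u => t ∪ (u \ q)) '' K) fun q hq => (hF q hq).fin.biUnion fun t _ =>
        hK.fin.image _)).subset ?_
    rintro s (⟨hs, _⟩ | ⟨q, hq, t, ht, r, hqr, hr, rfl⟩)
    · exact Or.inl hs
    · refine Or.inr (Set.mem_biUnion hq (Set.mem_biUnion ht ⟨q ∪ r, hr, ?_⟩))
      show t ∪ ((q ∪ r) \ q) = t ∪ r
      congr 1
      ext x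
      rw [Finset.mem_sdiff, Finset.mem_union]
      constructor
      · rintro ⟨h | h, h'⟩
        · exact absurd h h'
        · exact h
      · intro h
        exact ⟨Or.inr h, fun h' => (Finset.disjoint_left.1 hqr h') h⟩
  · intro a ha a' ha' haa
    obtain ⟨w, hw, hwl, hform⟩ := repl72_form hK huni hF hsupp hbd ha
    obtain ⟨w', hw', hwl', hform'⟩ := repl72_form hK huni hF hsupp hbd ha'
    have hww : w = w' := hK.inj hw hw' (by rw [hwl, hwl', haa])
    subst hww
    rcases hform with ⟨h1, h2⟩ | ⟨q, hq, hqw, a1, a2, b, e1, e2, e3, e4, e5, e6⟩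
    · rcases hform' with ⟨h3, _⟩ | ⟨q, hq, hqw, _⟩
      · rw [h1, h3]
      · exact absurd hqw (h2 q hq)
    · rcases hform' with ⟨_, h4⟩ | ⟨q', hq', hqw', a1', a2', b', e1', e2', e3', e4', e5', e6'⟩
      · exact absurd hqw (h4 q hq)
      · have hqq := huni _ hw.2 q hq q' hq' hqw hqw'
        subst hqq
        have hbb : b = b' := by
          ext x
          by_cases hx : x ∈ q
          · have h5 := DFunLike.congr_fun e2 x
            have h6 := DFunLike.congr_fun e2' x
            rw [Finsupp.add_apply, e6 x hx, add_zero] at h5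
            rw [Finsupp.add_apply, e6' x hx, add_zero] at h6
            rw [← h5, ← h6]
          · have h5 : b x = 0 := by
              by_contra hne
              exact hx (e4 (Finsupp.mem_support_iff.2 hne))
            have h6 : b' x = 0 := by
              by_contra hne
              exact hx (e4' (Finsupp.mem_support_iff.2 hne))
            rw [h5, h6]
        have h22 : a2 = a2' := by
          have := e2.symm.trans e2'
          rw [hbb] at this
          exact add_left_cancel this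
        have h11 : a1 = a1' := (hF q hq).inj e3 e3' (by rw [e5, e5', hbb])
        rw [e1, e1', h11, h22]
  · ext y
    constructor
    · rintro ⟨a, ha, rfl⟩
      obtain ⟨w, hw, hwl, _⟩ := repl72_form hK huni hF hsupp hbd ha
      exact ⟨w, hw, hwl⟩
    · rintro ⟨w, hw, rfl⟩
      by_cases hex : ∃ q ∈ Q, q ⊆ w.support
      swap
      · push Not at hex
        exact ⟨w, ⟨hw.1, Or.inl ⟨hw.2, hex⟩⟩, rfl⟩
      obtain ⟨q, hq, hqw⟩ := hex
      set b : (Fin n → ℤ) →₀ ℝ := w.filter (fun x => x ∈ q) with hb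
      set a2 : (Fin n → ℤ) →₀ ℝ := w.filter (fun x => ¬ x ∈ q) with ha2
      have hsum : w = b + a2 := (Finsupp.filter_add_filter_not w (fun x => x ∈ q)).symm
      have hbc : lc id b ∈ coneOf q := by
        refine ⟨b, fun x => ?_, ?_, rfl⟩
        · rw [hb, Finsupp.filter_apply]
          split_ifs
          · exact hw.1 x
          · exact le_rfl
        · intro x hx
          rw [hb, Finsupp.support_filter, Finset.mem_filter] at hx
          exact hx.2
      rw [← hsupp q hq] at hbc
      obtain ⟨a1, ha1, ha1l⟩ := hbc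
      have ha2s : a2.support = w.support.filter (fun x => ¬ x ∈ q) := by
        rw [ha2, Finsupp.support_filter]
      have hmem : a1.support ∪ a2.support ∈ replFan K Q F := by
        refine Or.inr ⟨q, hq, a1.support, ha1.2, a2.support, ?_, ?_, rfl⟩
        · rw [Finset.disjoint_left]
          intro x hx hx'
          rw [ha2s, Finset.mem_filter] at hx'
          exact hx'.2 hx
        · refine hK.down _ hw.2 _ (Finset.union_subset hqw ?_)
          rw [ha2s]
          exact Finset.filter_subset _ _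
      refine ⟨a1 + a2, ⟨fun x => ?_, hdown _ hmem _ (supp_add_subset _ _ _
        Finset.subset_union_left Finset.subset_union_right)⟩, ?_⟩
      · rw [Finsupp.add_apply]
        refine add_nonneg (ha1.1 x) ?_
        rw [ha2, Finsupp.filter_apply]
        split_ifs
        · exact le_rfl
        · exact hw.1 x
      · rw [map_add, ha1l, ← map_add, ← hsum]

end H6BW
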