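import Pool.Agent.Work.MP_6237c7_co.BW.Defs

/-! # SPLIT: generation of the points over a base cell -/

set_option autoImplicit false

namespace H6BW

open Finsupp H79KMW

namespace SplitAux

theorem lc_eq_sum {n : ℕ} (w : (Fin n → ℤ) →₀ ℝ) (s : Finset (Fin n → ℤ)) (h : w.support ⊆ s) :
    lc id w = ∑ x ∈ s, w x • rv x := by
  rw [lc, Finsupp.linearCombination_apply]
  exact Finsupp.sum_of_support_subset _ h _ (fun x _ => zero_smul ℝ _)

theorem mulVec_rv {m n : ℕ} (A : Matrix (Fin m) (Fin n) ℤ) (x : Fin n → ℤ) :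
    (A.map (Int.cast : ℤ → ℝ)).mulVec (rv x) = rv (A.mulVec x) := by
  funext i
  simp only [Matrix.mulVec, dotProduct, rv, Matrix.map_apply]
  push_cast
  rfl

theorem mulVec_sum {m n : ℕ} {ι : Type*} (A : Matrix (Fin m) (Fin n) ℤ) (s : Finset ι) (c : ι → ℝ)
    (x : ι → Fin n → ℤ) :
    (A.map (Int.cast : ℤ → ℝ)).mulVec (∑ i ∈ s, c i • rv (x i)) =
      ∑ i ∈ s, c i • rv (A.mulVec (x i)) := by
  rw [← Matrix.mulVecLin_apply, map_sum]
  refine Finset.sum_congr rfl fun i _ => ?_
  rw [map_smul, Matrix.mulVecLin_apply, mulVec_rv]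

theorem rv_sum {n : ℕ} {ι : Type*} (s : Finset ι) (k : ι → ℕ) (x : ι → Fin n → ℤ) :
    rv (∑ i ∈ s, k i • x i) = ∑ i ∈ s, (k i : ℝ) • rv (x i) := by
  funext j
  simp only [rv, Finset.sum_apply, Pi.smul_apply, smul_eq_mul]
  rw [Int.cast_sum]
  refine Finset.sum_congr rfl fun i _ => ?_
  rw [nsmul_eq_mul]
  push_cast
  rfl

theorem coneOf_sum {n : ℕ} {ι : Type*} (P : Finset (Fin n → ℤ)) (s : Finset ι)
    (f : ι → Fin n → ℝ) (h : ∀ i ∈ s, f i ∈ coneOf P) : ∑ i ∈ s, f i ∈ coneOf P := by
  classical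
  induction s using Finset.induction_on with
  | empty =>
    rw [Finset.sum_empty]
    exact ⟨0, fun x => le_rfl, by simp, by simp⟩
  | insert i s hi ih =>
    rw [Finset.sum_insert hi]
    exact coneOf_add P (h i (Finset.mem_insert_self _ _))
      (ih fun j hj => h j (Finset.mem_insert_of_mem hj))

theorem rv_mem_coneOf {n : ℕ} {P : Finset (Fin n → ℤ)} {x : Fin n → ℤ} (hx : x ∈ P) :
    rv x ∈ coneOf P := by
  classical
  refine ⟨Finsupp.single x 1, fun z => ?_, ?_, ?_⟩
  · rw [Finsupp.single_apply]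
    split_ifs <;> norm_num
  · exact Finsupp.support_single_subset.trans (by simpa using hx)
  · rw [lc_single, one_smul]
    rfl

theorem coneOf_mono {n : ℕ} {P Q : Finset (Fin n → ℤ)} (h : P ⊆ Q) : coneOf P ⊆ coneOf Q := by
  rintro y ⟨a, ha, has, rfl⟩
  exact ⟨a, ha, has.trans h, rfl⟩

/-- reduction of the support -/
theorem step {n : ℕ} (w μ : (Fin n → ℤ) →₀ ℝ) (hw : ∀ x, 0 ≤ w x)
    (hμ : μ.support ⊆ w.support) (hpos : ∃ x, 0 < μ x) :
    ∃ t : ℝ, 0 < t ∧ (∀ x, 0 ≤ (w - t • μ) x) ∧ (w - t • μ).support ⊂ w.support := by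
  classical
  set S := w.support.filter fun x => 0 < μ x with hS
  obtain ⟨x0, hx0⟩ := hpos
  have hwS : ∀ x ∈ w.support, 0 < w x := fun x hx =>
    lt_of_le_of_ne (hw x) (Ne.symm (Finsupp.mem_support_iff.1 hx))
  have hne : S.Nonempty := ⟨x0, Finset.mem_filter.2 ⟨hμ (Finsupp.mem_support_iff.2 hx0.ne'), hx0⟩⟩
  obtain ⟨z, hz, hmin⟩ := S.exists_min_image (fun x => w x / μ x) hne
  obtain ⟨hz1, hz2⟩ := Finset.mem_filter.1 hz
  have ht : 0 < w z / μ z := div_pos (hwS z hz1) hz2
  refine ⟨w z / μ z, ht, fun x => ?_, ?_⟩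
  · rw [Finsupp.sub_apply, Finsupp.smul_apply, smul_eq_mul]
    rcases le_or_gt (μ x) 0 with h | h
    · have := mul_nonneg ht.le (neg_nonneg.2 h)
      have h2 := hw x
      nlinarith
    · have hx : x ∈ S := Finset.mem_filter.2 ⟨hμ (Finsupp.mem_support_iff.2 h.ne'), h⟩
      have h2 := hmin x hx
      rw [le_div_iff₀ h] at h2
      linarith
  · refine (Finset.ssubset_iff_of_subset ?_).2 ⟨z, hz1, ?_⟩
    · intro x hx
      by_contra hxw
      have h1 : w x = 0 := Finsupp.notMem_support_iff.1 hxw
      have h2 : μ x = 0 := Finsupp.notMem_support_iff.1 fun h => hxw (hμ h)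
      rw [Finsupp.mem_support_iff, Finsupp.sub_apply, Finsupp.smul_apply, h1, h2] at hx
      simp at hx
    · rw [Finsupp.notMem_support_iff, Finsupp.sub_apply, Finsupp.smul_apply, smul_eq_mul,
        div_mul_cancel₀ _ hz2.ne', sub_self]

end SplitAux

open SplitAux

theorem split : S_SPLIT := by
  classical
  intro m n W Δ hW hΔ A V hV y hy a ha hay
  obtain ⟨w, hw, hwV, rfl⟩ := hy
  obtain ⟨N, hN⟩ : ∃ N, w.support.card = N := ⟨_, rfl⟩
  induction N using Nat.strong_induction_on generalizing w with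
  | _ N ih =>
  subst hN
  set Ar := A.map (Int.cast : ℤ → ℝ) with hAr
  by_cases hind : ∀ μ : (Fin n → ℤ) →₀ ℝ, μ.support ⊆ w.support → Ar.mulVec (lc id μ) = 0 → μ = 0
  · -- independent images
    set c := a.support with hc
    have hcΔ : c ∈ Δ := ha.2
    have hinj : ∀ v ∈ w.support, ∀ v' ∈ w.support, A.mulVec v = A.mulVec v' → v = v' := by
      intro v hv v' hv' h
      by_contra hne
      have h1 := hind (Finsupp.single v 1 - Finsupp.single v' 1) (by
        refine supp_sub_subset _ _ _ ?_ ?_
        · exact Finsupp.support_single_subset.trans (by simpa using hv)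
        · exact Finsupp.support_single_subset.trans (by simpa using hv')) (by
        rw [map_sub, lc_single, lc_single, one_smul, one_smul, Matrix.mulVec_sub]
        simp only [id]
        rw [mulVec_rv, mulVec_rv, h, sub_self])
      have h2 := DFunLike.congr_fun h1 v
      rw [Finsupp.sub_apply, Finsupp.single_eq_same, Finsupp.single_eq_of_ne hne] at h2
      norm_num at h2
    set B := w.support.image fun v => A.mulVec v with hB
    have hBW : B ⊆ W := by
      intro b hb
      obtain ⟨v, hv, rfl⟩ := Finset.mem_image.1 hb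
      exact hV v (hwV hv)
    have hsumB : ∀ {M : Type} [AddCommMonoid M] (g : (Fin (m + 1) → ℤ) → M),
        ∑ b ∈ B, g b = ∑ v ∈ w.support, g (A.mulVec v) := by
      intro M _ g
      rw [hB, Finset.sum_image]
      exact hinj
    have hLI : LinearIndependent ℝ (fun b : B => rv (b : Fin (m + 1) → ℤ)) := by
      rw [Fintype.linearIndependent_iff]
      intro g hg
      set g' : (Fin (m + 1) → ℤ) → ℝ := fun b => if h : b ∈ B then g ⟨b, h⟩ else 0 with hg'
      have h1 : ∑ b ∈ B, g' b • rv b = 0 := by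
        rw [← hg, ← Finset.sum_coe_sort B]
        refine Finset.sum_congr rfl fun b _ => ?_
        simp only [hg']
        rw [dif_pos b.2]
      rw [hsumB] at h1
      set μ : (Fin n → ℤ) →₀ ℝ := Finsupp.onFinset w.support
        (fun v => if v ∈ w.support then g' (A.mulVec v) else 0) (by
          intro v hv
          by_contra h
          rw [if_neg h] at hv
          exact hv rfl) with hμ
      have h2 : μ.support ⊆ w.support := Finsupp.support_onFinset_subset
      have h3 : μ = 0 := hind μ h2 (by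
        rw [lc_eq_sum μ w.support h2, hAr, mulVec_sum, ← h1]
        refine Finset.sum_congr rfl fun v hv => ?_
        rw [hμ, Finsupp.onFinset_apply, if_pos hv])
      intro b
      obtain ⟨v, hv, hvb⟩ := Finset.mem_image.1 b.2
      have h4 := DFunLike.congr_fun h3 v
      rw [hμ, Finsupp.onFinset_apply, if_pos hv, Finsupp.zero_apply] at h4
      simp only [hg'] at h4
      rw [dif_pos (by rw [hvb]; exact b.2)] at h4
      have h5 : (⟨A.mulVec v, by rw [hvb]; exact b.2⟩ : B) = b := Subtype.ext hvb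
      rw [h5] at h4
      exact h4
    have hlc : lc id w = ∑ v ∈ w.support, w v • rv v := lc_eq_sum w _ subset_rfl
    have hay2 : lc id a = ∑ v ∈ w.support, w v • rv (A.mulVec v) := by
      rw [hay, hlc, hAr, mulVec_sum]
    have hcone : lc id a ∈ coneOf B := by
      rw [hay2]
      refine coneOf_sum B _ _ fun v hv => coneOf_smul B (rv_mem_coneOf ?_) (hw v)
      exact Finset.mem_image_of_mem _ hv
    have hk : ∀ x ∈ c, ∃ k : (Fin (m + 1) → ℤ) → ℕ, x = ∑ b ∈ B, k b • b :=
      hΔ.dc c hcΔ B hBW hLI a ha.1 rfl hcone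
    choose! k hk using hk
    set z : (Fin (m + 1) → ℤ) → Fin n → ℤ := fun x => ∑ v ∈ w.support, k x (A.mulVec v) • v with hz
    have hAz : ∀ x ∈ c, A.mulVec (z x) = x := by
      intro x hx
      conv_rhs => rw [hk x hx, hsumB]
      simp only [hz]
      rw [← Matrix.mulVecLin_apply, map_sum]
      refine Finset.sum_congr rfl fun v _ => ?_
      rw [map_nsmul, Matrix.mulVecLin_apply]
    have hrz : ∀ x, rv (z x) = ∑ v ∈ w.support, (k x (A.mulVec v) : ℝ) • rv v := fun x =>
      rv_sum _ _ _
    -- the identity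
    have hmain : lc id w = ∑ x ∈ c, a x • rv (z x) := by
      set w' : (Fin n → ℤ) →₀ ℝ := Finsupp.onFinset w.support
        (fun v => if v ∈ w.support then ∑ x ∈ c, a x * k x (A.mulVec v) else 0) (by
          intro v hv
          by_contra h
          rw [if_neg h] at hv
          exact hv rfl) with hw'
      have h2 : w'.support ⊆ w.support := Finsupp.support_onFinset_subset
      have h3 : lc id w' = ∑ x ∈ c, a x • rv (z x) := by
        rw [lc_eq_sum w' w.support h2]
        simp only [hrz, Finset.smul_sum]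
        rw [Finset.sum_comm]
        refine Finset.sum_congr rfl fun v hv => ?_
        rw [hw', Finsupp.onFinset_apply, if_pos hv, Finset.sum_smul]
        refine Finset.sum_congr rfl fun x _ => ?_
        rw [mul_smul]
      have h4 : w - w' = 0 := hind (w - w') (supp_sub_subset _ _ _ subset_rfl h2) (by
        rw [map_sub, Matrix.mulVec_sub, h3, hAr, mulVec_sum, ← hAr, ← hay,
          lc_eq_sum a c subset_rfl, sub_eq_zero]
        refine Finset.sum_congr rfl fun x hx => ?_
        rw [hAz x hx])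
      rw [← h3, sub_eq_zero.1 h4]
    refine ⟨c.image z, ?_, ?_⟩
    · intro u hu
      obtain ⟨x, hx, rfl⟩ := Finset.mem_image.1 hu
      refine ⟨?_, ?_⟩
      · rw [hrz]
        exact coneOf_sum V _ _ fun v hv => coneOf_smul V (rv_mem_coneOf (hwV hv)) (Nat.cast_nonneg _)
      · rw [hAz x hx]
        exact hx
    · rw [hmain]
      exact coneOf_sum _ _ _ fun x hx => coneOf_smul _ (rv_mem_coneOf
        (Finset.mem_image_of_mem _ hx)) (ha.1 x)
  · push Not at hind
    obtain ⟨μ, hμ1, hμ2, hμ3⟩ := hind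
    have hsum : ∑ v ∈ w.support, μ v = 0 := by
      have h1 := hμ2
      rw [lc_eq_sum μ w.support hμ1, hAr, mulVec_sum] at h1
      have h2 := congrFun h1 0
      rw [Finset.sum_apply, Pi.zero_apply] at h2
      rw [← h2]
      refine Finset.sum_congr rfl fun v hv => ?_
      have h3 : A.mulVec v 0 = 1 := hW _ (hV v (hwV hv))
      rw [Pi.smul_apply, smul_eq_mul, rv, h3]
      norm_num
    have hpos : ∃ x, 0 < μ x := by
      by_contra h
      push Not at h
      apply hμ3
      ext x
      rw [Finsupp.zero_apply]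
      by_contra hx
      have hx' : x ∈ w.support := hμ1 (Finsupp.mem_support_iff.2 hx)
      have h4 : ∑ v ∈ w.support, μ v < 0 :=
        Finset.sum_neg' (fun v _ => h v) ⟨x, hx', lt_of_le_of_ne (h x) hx⟩
      linarith
    have hneg : ∃ x, 0 < (-μ) x := by
      by_contra h
      push Not at h
      apply hμ3
      ext x
      rw [Finsupp.zero_apply]
      by_contra hx
      have hx' : x ∈ w.support := hμ1 (Finsupp.mem_support_iff.2 hx)
      have h0 : ∀ v, 0 ≤ μ v := fun v => by
        have := h v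
        rw [Finsupp.neg_apply] at this
        linarith
      have h4 : 0 < ∑ v ∈ w.support, μ v :=
        Finset.sum_pos' (fun v _ => h0 v) ⟨x, hx', lt_of_le_of_ne (h0 x) (Ne.symm hx)⟩
      linarith
    obtain ⟨t, ht, h1, h2⟩ := step w μ hw hμ1 hpos
    obtain ⟨t', ht', h1', h2'⟩ := step w (-μ) hw (by rw [Finsupp.support_neg]; exact hμ1) hneg
    have himg : ∀ s : ℝ, Ar.mulVec (lc id (w - s • μ)) = Ar.mulVec (lc id w) := by
      intro s
      rw [map_sub, map_smul, Matrix.mulVec_sub, Matrix.mulVec_smul, hμ2, smul_zero, sub_zero]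
    have himg' : ∀ s : ℝ, Ar.mulVec (lc id (w - s • (-μ))) = Ar.mulVec (lc id w) := by
      intro s
      have : w - s • (-μ) = w - (-s) • μ := by rw [smul_neg, neg_smul]
      rw [this]
      exact himg _
    obtain ⟨P1, hP1, hy1⟩ := ih _ (Finset.card_lt_card h2) (w - t • μ) h1 (h2.subset.trans hwV)
      (by rw [hay, himg]) rfl
    obtain ⟨P2, hP2, hy2⟩ := ih _ (Finset.card_lt_card h2') (w - t' • (-μ)) h1'
      (h2'.subset.trans hwV) (by rw [hay, himg']) rfl
    refine ⟨P1 ∪ P2, fun x hx => ?_, ?_⟩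
    · rcases Finset.mem_union.1 hx with h | h
      · exact hP1 x h
      · exact hP2 x h
    · have hT : 0 < t + t' := by linarith
      have e1 : lc id w = (t' / (t + t')) • lc id (w - t • μ) +
          (t / (t + t')) • lc id (w - t' • (-μ)) := by
        simp only [map_sub, map_smul, map_neg]
        funext i
        simp only [Pi.add_apply, Pi.smul_apply, Pi.sub_apply, Pi.neg_apply, smul_eq_mul]
        field_simp
        ring
      rw [e1]
      exact coneOf_add _ (coneOf_smul _ (coneOf_mono Finset.subset_union_left hy1)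
        (div_nonneg ht'.le hT.le)) (coneOf_smul _ (coneOf_mono Finset.subset_union_right hy2)
        (div_nonneg ht.le hT.le))

end H6BW
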