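import Pool.Agent.Work.MP_6237c7_co.BW.Defs

/-! STAR2: stellar subdivision at an integer vector with arbitrary positive coordinates, which is
not yet a ray of the fan. -/

set_option autoImplicit false

namespace H6BW

open Finsupp H79KMW

section
variable {n : ℕ} {C : Set (Finset (Fin n → ℤ))} {l : (Fin n → ℤ) →₀ ℝ} {m : Fin n → ℤ}

private lemma star2_phi_body (hC : IsCx id C) (hl0 : ∀ x, 0 ≤ l x) (hmC : ∀ t ∈ C, m ∉ t)
    {a : (Fin n → ℤ) →₀ ℝ} (ha : a ∈ body (star C l.support m)) :
    H79KMW.phi l m a ∈ body C := by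
  classical
  refine ⟨?_, ?_⟩
  · intro x
    rw [H79KMW.phi, Finsupp.add_apply, Finsupp.smul_apply, smul_eq_mul]
    refine add_nonneg ?_ (mul_nonneg (ha.1 m) (hl0 x))
    rw [Finsupp.erase_apply]
    split_ifs
    · exact le_rfl
    · exact ha.1 x
  · rcases ha.2 with ⟨h, _⟩ | ⟨t, ht, _, ⟨u, hu, htu, hGu⟩, hs⟩
    · have hm0 : a m = 0 := by
        have := hmC _ h
        rwa [Finsupp.notMem_support_iff] at this
      refine hC.down _ h _ ?_
      rw [H79KMW.phi, hm0, zero_smul, add_zero, Finsupp.support_erase]
      exact Finset.erase_subset _ _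
    · refine hC.down u hu _ ?_
      rw [H79KMW.phi]
      refine supp_add_subset _ _ _ ?_ (supp_smul_subset _ _ _ hGu)
      rw [Finsupp.support_erase]
      intro x hx
      rw [Finset.mem_erase] at hx
      have : x ∈ (a.support : Set (Fin n → ℤ)) := Finset.mem_coe.2 hx.2
      rw [hs] at this
      rcases this with h | h
      · exact absurd h hx.1
      · exact htu h

private lemma star2_isCx (hC : IsCx id C) (hl0 : ∀ x, 0 ≤ l x) (hm : lc id l = rv m)
    (hmC : ∀ t ∈ C, m ∉ t) : IsCx id (star C l.support m) := by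
  classical
  refine ⟨?_, ?_, ?_⟩
  · refine (hC.fin.union (hC.fin.image (fun t => insert m t))).subset ?_
    rintro s (⟨h, _⟩ | ⟨t, ht, _, _, hs⟩)
    · exact Or.inl h
    · refine Or.inr ⟨t, ht, ?_⟩
      apply Finset.coe_injective
      simp only [Finset.coe_insert]
      exact hs.symm
  · rintro s (⟨h, h'⟩ | ⟨t, ht, h', ⟨u, hu, htu, hGu⟩, hs⟩) s' hs'
    · exact Or.inl ⟨hC.down s h _ hs', fun hh => h' (hh.trans hs')⟩
    · by_cases hms : m ∈ s'
      · have hsub : s'.erase m ⊆ t := by
          intro x hx
          rw [Finset.mem_erase] at hx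
          have : x ∈ (s : Set (Fin n → ℤ)) := Finset.mem_coe.2 (hs' hx.2)
          rw [hs] at this
          rcases this with h | h
          · exact absurd h hx.1
          · exact h
        refine Or.inr ⟨s'.erase m, ?_, ?_, ⟨u, hu, ?_, hGu⟩, ?_⟩
        · exact hC.down t ht _ hsub
        · exact fun hh => h' (hh.trans hsub)
        · exact hsub.trans htu
        · rw [← Finset.coe_insert, Finset.insert_erase hms]
      · have hsub : s' ⊆ t := by
          intro x hx
          have : x ∈ (s : Set (Fin n → ℤ)) := Finset.mem_coe.2 (hs' hx)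
          rw [hs] at this
          rcases this with h | h
          · exact absurd (h ▸ hx) hms
          · exact h
        exact Or.inl ⟨hC.down t ht _ hsub, fun hh => h' (hh.trans hsub)⟩
  · intro a ha b hb hab
    have h : H79KMW.phi l m a = H79KMW.phi l m b := by
      refine hC.inj (star2_phi_body hC hl0 hmC ha) (star2_phi_body hC hl0 hmC hb) ?_
      rw [lc_phi hm, lc_phi hm]; exact hab
    rcases le_total (a m) (b m) with hle | hle
    · exact star_inj_aux hl0 ha hb h hle
    · exact (star_inj_aux hl0 hb ha h.symm hle).symm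

private lemma star2_supp (hC : IsCx id C) (hl0 : ∀ x, 0 ≤ l x) (hlne : l ≠ 0)
    (hm : lc id l = rv m) (hmC : ∀ t ∈ C, m ∉ t) :
    supp id (star C l.support m) = supp id C := by
  classical
  have hstar := star2_isCx hC hl0 hm hmC
  ext y
  constructor
  · rintro ⟨a, ha, rfl⟩
    exact ⟨H79KMW.phi l m a, star2_phi_body hC hl0 hmC ha, lc_phi hm a⟩
  · rintro ⟨c, hc, rfl⟩
    by_cases hGc : l.support ⊆ c.support
    swap
    · exact ⟨c, ⟨hc.1, Or.inl ⟨hc.2, hGc⟩⟩, rfl⟩
    have hne : l.support.Nonempty := by
      rw [Finsupp.support_nonempty_iff]; exact hlne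
    obtain ⟨g0, hg0, hmin⟩ := Finset.exists_min_image l.support (fun g => c g / l g) hne
    have hlpos : ∀ g ∈ l.support, 0 < l g := fun g hg =>
      lt_of_le_of_ne (hl0 g) (Ne.symm (Finsupp.mem_support_iff.1 hg))
    set τ : ℝ := c g0 / l g0 with hτ
    have hτ0 : 0 ≤ τ := div_nonneg (hc.1 _) (hl0 _)
    have hle : ∀ x, τ * l x ≤ c x := by
      intro x
      by_cases hx : x ∈ l.support
      · have := hmin x hx
        rw [le_div_iff₀ (hlpos x hx)] at this
        exact this
      · rw [Finsupp.notMem_support_iff] at hx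
        rw [hx, mul_zero]; exact hc.1 x
    refine ⟨(c - τ • l) + single m τ, ⟨?_, ?_⟩, ?_⟩
    · intro x
      rw [Finsupp.add_apply, Finsupp.sub_apply, Finsupp.smul_apply, smul_eq_mul]
      have h1 := hle x
      have h2 : 0 ≤ (single m τ) x := by
        rw [Finsupp.single_apply]
        split_ifs
        · exact hτ0
        · exact le_rfl
      linarith
    · have hsub : (c - τ • l).support ⊆ c.support :=
        supp_sub_subset _ _ _ (Finset.Subset.refl _) (supp_smul_subset _ _ _ hGc)
      have hmem : insert m (c - τ • l).support ∈ star C l.support m := by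
        refine Or.inr ⟨(c - τ • l).support, hC.down _ hc.2 _ hsub, ?_,
          ⟨c.support, hc.2, hsub, hGc⟩, by rw [Finset.coe_insert]⟩
        intro hh
        have := hh hg0
        rw [Finsupp.mem_support_iff] at this
        apply this
        rw [Finsupp.sub_apply, Finsupp.smul_apply, smul_eq_mul, hτ,
          div_mul_cancel₀ _ (hlpos g0 hg0).ne', sub_self]
      refine hstar.down _ hmem _ ?_
      refine supp_add_subset _ _ _ (Finset.subset_insert _ _) ?_
      refine Finsupp.support_single_subset.trans ?_
      intro x hx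
      rw [Finset.mem_singleton] at hx
      rw [hx]; exact Finset.mem_insert_self _ _
    · rw [map_add, map_sub, map_smul, hm, lc_single]
      change lc id c - τ • rv m + τ • rv m = lc id c
      abel

end

theorem star2 : S_STAR2 := fun _ _ _ _ hC hl0 hlne hm hmC =>
  ⟨star2_isCx hC hl0 hm hmC, star2_supp hC hl0 hlne hm hmC⟩

end H6BW
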