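import Pool.Agent.Work.MP_6237c7_co.BW.Defs

/-!
STARALL: make all lattice points over the rays of the base fan vertices.
-/

set_option autoImplicit false

namespace H6BW

open Finsupp H79KMW

lemma starall_rv_inj {n : ℕ} {x y : Fin n → ℤ} (h : rv x = rv y) : x = y := by
  funext i
  have := congrFun h i
  simp only [rv] at this
  exact_mod_cast this

/-- the integer matrix and real combinations -/
lemma starall_lc_map {m n : ℕ} (A : Matrix (Fin m) (Fin n) ℤ) (a : (Fin n → ℤ) →₀ ℝ) :
    lc id (a.mapDomain (fun x => A.mulVec x)) =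
      (A.map (Int.cast : ℤ → ℝ)).mulVec (lc id a) := by
  classical
  induction a using Finsupp.induction_linear with
  | zero => simp
  | add f g hf hg => rw [Finsupp.mapDomain_add, map_add, map_add, hf, hg, Matrix.mulVec_add]
  | single x c =>
    rw [Finsupp.mapDomain_single, lc_single, lc_single, Matrix.mulVec_smul]
    congr 1
    funext i
    simp [rv, Matrix.mulVec, dotProduct]

lemma starall_map_rv {m n : ℕ} (A : Matrix (Fin m) (Fin n) ℤ) (x : Fin n → ℤ) :
    (A.map (Int.cast : ℤ → ℝ)).mulVec (rv x) = rv (A.mulVec x) := by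
  funext i
  simp [rv, Matrix.mulVec, dotProduct]

lemma starall_single_body {n : ℕ} {K : Set (Finset (Fin n → ℤ))} {x : Fin n → ℤ}
    (h : ({x} : Finset (Fin n → ℤ)) ∈ K) : single x (1 : ℝ) ∈ body K := by
  refine ⟨fun z => ?_, ?_⟩
  · rw [Finsupp.single_apply]
    split_ifs <;> norm_num
  · rw [Finsupp.support_single _ one_ne_zero]
    exact h

/-- a weight of a fan over `Δ` maps to a weight of `Δ` -/
lemma starall_map_body {m n : ℕ} {A : Matrix (Fin m) (Fin n) ℤ}
    {Δ : Set (Finset (Fin m → ℤ))} {K : Set (Finset (Fin n → ℤ))} (hΔ : IsCx id Δ)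
    (hov : Over A Δ K) {a : (Fin n → ℤ) →₀ ℝ} (ha : a ∈ body K) :
    a.mapDomain (fun x => A.mulVec x) ∈ body Δ := by
  classical
  refine ⟨fun z => ?_, hΔ.down _ (hov _ ha.2) _ Finsupp.mapDomain_support⟩
  rw [Finsupp.mapDomain, Finsupp.sum, Finsupp.finsetSum_apply]
  refine Finset.sum_nonneg fun x _ => ?_
  rw [Finsupp.single_apply]
  split_ifs
  · exact ha.1 x
  · exact le_rfl

/-- a weight whose vector is an integer vector over a ray of `Δ` lies over this ray -/
lemma starall_ray {m n : ℕ} {A : Matrix (Fin m) (Fin n) ℤ}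
    {Δ : Set (Finset (Fin m → ℤ))} {K : Set (Finset (Fin n → ℤ))} (hΔ : IsCx id Δ)
    (hov : Over A Δ K) {a : (Fin n → ℤ) →₀ ℝ} (ha : a ∈ body K) {x : Fin n → ℤ}
    (hx : lc id a = rv x) (hx' : ({A.mulVec x} : Finset (Fin m → ℤ)) ∈ Δ) :
    (∀ y ∈ a.support, A.mulVec y = A.mulVec x) ∧ ∑ y ∈ a.support, a y = 1 := by
  classical
  have h1 : a.mapDomain (fun x => A.mulVec x) = single (A.mulVec x) 1 := by
    refine hΔ.inj (starall_map_body hΔ hov ha) (starall_single_body hx') ?_
    rw [starall_lc_map, hx, starall_map_rv, lc_single, one_smul]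
    rfl
  have h2 : ∀ z, ∑ y ∈ a.support, (single (A.mulVec y) (a y) : (Fin m → ℤ) →₀ ℝ) z =
      (single (A.mulVec x) (1 : ℝ) : (Fin m → ℤ) →₀ ℝ) z := by
    intro z
    rw [← h1, Finsupp.mapDomain, Finsupp.sum, Finsupp.finsetSum_apply]
  have h3 : ∀ y ∈ a.support, A.mulVec y = A.mulVec x := by
    intro y hy
    by_contra hne
    have h4 := h2 (A.mulVec y)
    rw [Finsupp.single_eq_of_ne hne] at h4
    have h5 : ∀ y' ∈ a.support,
        (0 : ℝ) ≤ (single (A.mulVec y') (a y') : (Fin m → ℤ) →₀ ℝ) (A.mulVec y) := by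
      intro y' _
      rw [Finsupp.single_apply]
      split_ifs
      · exact ha.1 y'
      · exact le_rfl
    have h6 := (Finset.sum_eq_zero_iff_of_nonneg h5).1 h4 y hy
    rw [Finsupp.single_eq_same] at h6
    exact (Finsupp.mem_support_iff.1 hy) h6
  refine ⟨h3, ?_⟩
  have h4 := h2 (A.mulVec x)
  rw [Finsupp.single_eq_same] at h4
  rw [← h4]
  refine Finset.sum_congr rfl fun y hy => ?_
  rw [h3 y hy, Finsupp.single_eq_same]

theorem starall : S_STARALL := by
  classical
  intro m n A Δ K M hΔ hK hov hM
  induction M using Finset.induction_on with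
  | empty =>
    exact ⟨K, hK, rfl, hov, by simp, fun x hx => hx, fun s hs x hx =>
      Or.inr (hK.down s hs _ (by simpa using hx))⟩
  | insert x M hxM ih =>
    obtain ⟨K₁, hK₁, hsupp, hov₁, hv₁, hv₂, hv₃⟩ :=
      ih (fun y hy => hM y (Finset.mem_insert_of_mem hy))
    obtain ⟨hxs, hxΔ⟩ := hM x (Finset.mem_insert_self _ _)
    by_cases hxK : ({x} : Finset (Fin n → ℤ)) ∈ K₁
    · refine ⟨K₁, hK₁, hsupp, hov₁, ?_, hv₂, ?_⟩
      · intro y hy
        rcases Finset.mem_insert.1 hy with rfl | hy
        · exact hxK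
        · exact hv₁ y hy
      · intro s hs y hy
        rcases hv₃ s hs y hy with h | h
        · exact Or.inl (Finset.mem_insert_of_mem h)
        · exact Or.inr h
    rw [← hsupp] at hxs
    obtain ⟨l, hl, hlx⟩ := hxs
    obtain ⟨hray, hsum⟩ := starall_ray hΔ hov₁ hl hlx hxΔ
    -- all coefficients are smaller than one
    have hl1 : ∀ y, l y < 1 := by
      intro y
      by_contra hge
      rw [not_lt] at hge
      have hy : y ∈ l.support := by
        rw [Finsupp.mem_support_iff]
        intro h0
        rw [h0] at hge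
        exact absurd hge (by norm_num)
      have h1 : ∑ z ∈ l.support.erase y, l z = 1 - l y := by
        rw [← hsum, ← Finset.add_sum_erase _ _ hy]
        ring
      have h2 : ∑ z ∈ l.support.erase y, l z = 0 := by
        refine le_antisymm (by rw [h1]; linarith) (Finset.sum_nonneg fun z _ => hl.1 z)
      have h3 := (Finset.sum_eq_zero_iff_of_nonneg (fun z _ => hl.1 z)).1 h2
      have h4 : l = single y 1 := by
        ext z
        by_cases hz : z = y
        · subst hz
          rw [Finsupp.single_eq_same]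
          linarith
        · rw [Finsupp.single_eq_of_ne hz]
          by_cases hz' : z ∈ l.support
          · exact h3 z (Finset.mem_erase.2 ⟨hz, hz'⟩)
          · exact Finsupp.notMem_support_iff.1 hz'
      have h5 : x = y := by
        apply starall_rv_inj
        rw [← hlx, h4, lc_single, one_smul]
        rfl
      apply hxK
      rw [h5]
      exact hK₁.down _ hl.2 _ (by simpa using hy)
    have hlne : l ≠ 0 := by
      intro h0
      rw [h0] at hsum
      simp at hsum
    have hGne : l.support.Nonempty := Finsupp.support_nonempty_iff.2 hlne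
    have hGsub : ∀ y : Fin n → ℤ, ¬ l.support ⊆ {y} := by
      intro y hsub
      have h1 : l.support = {y} := by
        rcases Finset.subset_singleton_iff.1 hsub with h | h
        · exact absurd h hGne.ne_empty
        · exact h
      rw [h1, Finset.sum_singleton] at hsum
      exact absurd hsum (hl1 y).ne
    have hvert : ∀ y : Fin n → ℤ, ({y} : Finset (Fin n → ℤ)) ∈ K₁ →
        ({y} : Finset (Fin n → ℤ)) ∈ star K₁ l.support x := fun y hy =>
      Or.inl ⟨hy, hGsub y⟩
    refine ⟨star K₁ l.support x, star_isCx hK₁ hl.1 hl1 hlx,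
      (star_supp hK₁ hl.1 hl1 hlne hlx).trans hsupp, ?_, ?_, fun y hy => hvert y (hv₂ y hy), ?_⟩
    · rintro s (⟨hs, -⟩ | ⟨t, ht, -, ⟨u, hu, htu, hGu⟩, hst⟩)
      · exact hov₁ s hs
      · refine hΔ.down _ (hov₁ u hu) _ ?_
        intro z hz
        rw [Finset.mem_image] at hz
        obtain ⟨y, hy, rfl⟩ := hz
        have : y ∈ (s : Set (Fin n → ℤ)) := Finset.mem_coe.2 hy
        rw [hst] at this
        rcases this with h | h
        · obtain ⟨g, hg⟩ := hGne
          rw [h, ← hray g hg]
          exact Finset.mem_image_of_mem _ (hGu hg)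
        · exact Finset.mem_image_of_mem _ (htu h)
    · intro y hy
      rcases Finset.mem_insert.1 hy with rfl | hy
      · refine Or.inr ⟨∅, hK₁.down _ hl.2 _ (Finset.empty_subset _), ?_,
          ⟨l.support, hl.2, Finset.empty_subset _, Finset.Subset.refl _⟩, by simp⟩
        intro h
        exact hGne.ne_empty (Finset.subset_empty.1 h)
      · exact hvert y (hv₁ y hy)
    · rintro s (⟨hs, -⟩ | ⟨t, ht, -, -, hst⟩) y hy
      · rcases hv₃ s hs y hy with h | h
        · exact Or.inl (Finset.mem_insert_of_mem h)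
        · exact Or.inr h
      · have : y ∈ (s : Set (Fin n → ℤ)) := Finset.mem_coe.2 hy
        rw [hst] at this
        rcases this with h | h
        · rw [h]
          exact Or.inl (Finset.mem_insert_self _ _)
        · rcases hv₃ t ht y h with h' | h'
          · exact Or.inl (Finset.mem_insert_of_mem h')
          · exact Or.inr h'

end H6BW
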