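import Pool.Agent.Work.MP_6237c7_co.BW.Defs

/-!
TRI: an empty group of three vectors generates the kernel lattice.
-/

set_option autoImplicit false

namespace H6BW

open Finsupp H79KMW

/-- the real matrix acts on integer vectors as the integer matrix -/
theorem tri_map {m n : ℕ} (A : Matrix (Fin m) (Fin n) ℤ) (v : Fin n → ℤ) :
    (A.map (Int.cast : ℤ → ℝ)).mulVec (rv v) = rv (A.mulVec v) := by
  funext i
  simp [Matrix.mulVec, dotProduct, rv]

theorem tri_rv_inj {n : ℕ} {v w : Fin n → ℤ} (h : rv v = rv w) : v = w := by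
  funext i
  have := congrFun h i
  simpa [rv] using this

/-- two independent kernel vectors span the kernel -/
theorem tri_span {m n : ℕ} {B : Matrix (Fin m) (Fin n) ℝ} (hB : B.rank + 2 = n)
    {u v w : Fin n → ℝ} (hu : B.mulVec u = 0) (hv : B.mulVec v = 0) (hw : B.mulVec w = 0)
    (hi : LinearIndependent ℝ ![u, v]) : ∃ a b : ℝ, w = a • u + b • v := by
  classical
  have h1 : Module.finrank ℝ (LinearMap.ker B.mulVecLin) = 2 := by
    have h2 := B.mulVecLin.finrank_range_add_finrank_ker
    rw [Module.finrank_fin_fun] at h2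
    have h3 : Module.finrank ℝ (LinearMap.range B.mulVecLin) = B.rank := rfl
    omega
  have h2 : Submodule.span ℝ (Set.range ![u, v]) = LinearMap.ker B.mulVecLin := by
    refine Submodule.eq_of_le_of_finrank_eq ?_ ?_
    · rw [Submodule.span_le]
      rintro _ ⟨i, rfl⟩
      fin_cases i
      · exact hu
      · exact hv
    · rw [finrank_span_eq_card hi, h1]
      rfl
  have h3 : w ∈ Submodule.span ℝ (Set.range ![u, v]) := by
    rw [h2]
    exact hw
  have h4 : Set.range ![u, v] = {u, v} := by
    rw [Matrix.range_cons, Matrix.range_cons, Matrix.range_empty, Set.union_empty]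
    rfl
  rw [h4, Submodule.mem_span_pair] at h3
  obtain ⟨a, b, h5⟩ := h3
  exact ⟨a, b, h5.symm⟩

/-- a lattice point in a triangle over a base vector is a vertex of the triangle -/
theorem tri_empty {m n : ℕ} {A : Matrix (Fin m) (Fin n) ℤ} {Δ : Set (Finset (Fin m → ℤ))}
    {K : Set (Finset (Fin n → ℤ))} (hS : Sat A Δ K) {x y z : Fin n → ℤ}
    (hK : ({x, y, z} : Finset (Fin n → ℤ)) ∈ K) (hxy : x ≠ y) (hyz : y ≠ z) (hxz : x ≠ z)
    (h1 : A.mulVec x = A.mulVec y) (h2 : A.mulVec x = A.mulVec z) {p : Fin n → ℤ} {α β γ : ℝ}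
    (hα : 0 ≤ α) (hβ : 0 ≤ β) (hγ : 0 ≤ γ) (hs : α + β + γ = 1)
    (hp : rv p = α • rv x + β • rv y + γ • rv z) :
    (β = 0 ∨ β = 1) ∧ (γ = 0 ∨ γ = 1) := by
  classical
  set w : (Fin n → ℤ) →₀ ℝ := single x α + single y β + single z γ with hw
  have hwx : w x = α := by
    simp [hw, hxy.symm, hxz.symm]
  have hwy : w y = β := by
    simp [hw, hxy, hyz.symm]
  have hwz : w z = γ := by
    simp [hw, hxz, hyz]
  have hw0 : ∀ q, 0 ≤ w q := by
    intro q
    simp only [hw, Finsupp.add_apply, Finsupp.single_apply]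
    refine add_nonneg (add_nonneg ?_ ?_) ?_ <;> split_ifs <;> first | assumption | exact le_rfl
  have hws : w.support ⊆ {x, y, z} := by
    intro q hq
    rw [Finsupp.mem_support_iff] at hq
    by_contra hq'
    simp only [Finset.mem_insert, Finset.mem_singleton, not_or] at hq'
    obtain ⟨a1, a2, a3⟩ := hq'
    apply hq
    simp [hw, Ne.symm a1, Ne.symm a2, Ne.symm a3]
  have hwb : w ∈ body K := ⟨hw0, hS.cx.down _ hK _ hws⟩
  have hwl : lc id w = rv p := by
    rw [hw, map_add, map_add, lc_single, lc_single, lc_single, hp]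
    rfl
  have hAp : A.mulVec p = A.mulVec x := by
    apply tri_rv_inj
    rw [← tri_map, hp, Matrix.mulVec_add, Matrix.mulVec_add, Matrix.mulVec_smul,
      Matrix.mulVec_smul, Matrix.mulVec_smul, tri_map, tri_map, tri_map, ← h1, ← h2, ← add_smul,
      ← add_smul, hs, one_smul]
  have hx : ({x} : Finset (Fin n → ℤ)) ∈ K := hS.cx.down _ hK _ (by simp)
  have hΔ : ({A.mulVec p} : Finset (Fin m → ℤ)) ∈ Δ := by
    rw [hAp]
    have := hS.ovr _ hx
    rwa [Finset.image_singleton] at this
  have hpK : ({p} : Finset (Fin n → ℤ)) ∈ K := hS.sat p ⟨w, hwb, hwl⟩ hΔ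
  have hpb : single p (1 : ℝ) ∈ body K := by
    refine ⟨fun q => ?_, ?_⟩
    · rw [Finsupp.single_apply]; split_ifs <;> norm_num
    · rw [Finsupp.support_single _ one_ne_zero]; exact hpK
  have h3 : single p (1 : ℝ) = w := by
    refine hS.cx.inj hpb hwb ?_
    rw [hwl, lc_single, one_smul]
    rfl
  have h4 : ∀ q, w q = 0 ∨ w q = 1 := by
    intro q
    rw [← h3, Finsupp.single_apply]
    split_ifs <;> simp
  exact ⟨hwy ▸ h4 y, hwz ▸ h4 z⟩

theorem tri : S_TRI := by
  classical
  intro m n A Δ K hS x y z hK hxy hyz hxz h1 h2 r hr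
  set B := A.map (Int.cast : ℤ → ℝ) with hB
  -- the two kernel vectors
  have hu : B.mulVec (rv y - rv x) = 0 := by
    rw [Matrix.mulVec_sub, tri_map, tri_map, h1, sub_self]
  have hv : B.mulVec (rv z - rv x) = 0 := by
    rw [Matrix.mulVec_sub, tri_map, tri_map, h2, sub_self]
  have hw : B.mulVec (rv r) = 0 := by
    rw [tri_map, hr]
    funext i
    simp [rv]
  have hi : LinearIndependent ℝ ![rv y - rv x, rv z - rv x] := by
    rw [LinearIndependent.pair_iff]
    intro s t hst
    set w : (Fin n → ℤ) →₀ ℝ := single x (-(s + t)) + single y s + single z t with hw'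
    have hwy : w y = s := by
      simp [hw', hxy, hyz.symm]
    have hwz : w z = t := by
      simp [hw', hxz, hyz]
    have hws : w.support ⊆ {x, y, z} := by
      intro q hq
      rw [Finsupp.mem_support_iff] at hq
      by_contra hq'
      simp only [Finset.mem_insert, Finset.mem_singleton, not_or] at hq'
      obtain ⟨a1, a2, a3⟩ := hq'
      apply hq
      simp [hw', Ne.symm a1, Ne.symm a2, Ne.symm a3]
    have h0 : w = 0 := by
      refine hS.cx.indep hK w hws ?_
      rw [hw', map_add, map_add, lc_single, lc_single, lc_single]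
      simp only [id]
      rw [← hst, smul_sub, smul_sub, neg_smul, add_smul]
      abel
    exact ⟨by rw [← hwy, h0]; rfl, by rw [← hwz, h0]; rfl⟩
  obtain ⟨a, b, hab⟩ := tri_span hS.ker hu hv hw hi
  -- the fractional part
  set r0 : Fin n → ℤ := r - ⌊a⌋ • (y - x) - ⌊b⌋ • (z - x) with hr0
  have hr0' : rv r0 = Int.fract a • (rv y - rv x) + Int.fract b • (rv z - rv x) := by
    have e1 : rv r0 = rv r - (⌊a⌋ : ℝ) • (rv y - rv x) - (⌊b⌋ : ℝ) • (rv z - rv x) := by
      funext i
      simp [hr0, rv]
    rw [e1, hab, Int.fract, Int.fract, sub_smul, sub_smul]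
    abel
  have ha0 := Int.fract_nonneg a
  have ha1 := Int.fract_lt_one a
  have hb0 := Int.fract_nonneg b
  have hb1 := Int.fract_lt_one b
  have key : Int.fract a = 0 ∧ Int.fract b = 0 := by
    rcases le_or_gt (Int.fract a + Int.fract b) 1 with h | h
    · have h3 := tri_empty hS hK hxy hyz hxz h1 h2 (p := x + r0)
        (α := 1 - Int.fract a - Int.fract b) (β := Int.fract a) (γ := Int.fract b) (by linarith)
        ha0 hb0 (by ring) (by
          have e1 : rv (x + r0) = rv x + rv r0 := by
            funext i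
            simp [rv]
          rw [e1, hr0']
          module)
      refine ⟨?_, ?_⟩
      · rcases h3.1 with h4 | h4
        · exact h4
        · linarith
      · rcases h3.2 with h4 | h4
        · exact h4
        · linarith
    · have h3 := tri_empty hS hK hxy hyz hxz h1 h2 (p := y + z - x - r0)
        (α := Int.fract a + Int.fract b - 1) (β := 1 - Int.fract a) (γ := 1 - Int.fract b)
        (by linarith) (by linarith) (by linarith) (by ring) (by
          have e1 : rv (y + z - x - r0) = rv y + rv z - rv x - rv r0 := by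
            funext i
            simp [rv]
          rw [e1, hr0']
          module)
      refine ⟨?_, ?_⟩
      · rcases h3.1 with h4 | h4
        · linarith
        · linarith
      · rcases h3.2 with h4 | h4
        · linarith
        · linarith
  have hz : r0 = 0 := by
    apply tri_rv_inj
    rw [hr0', key.1, key.2, zero_smul, zero_smul, add_zero]
    funext i
    simp [rv]
  have hfin : r = ⌊a⌋ • (y - x) + ⌊b⌋ • (z - x) := by
    rw [hr0] at hz
    have := sub_eq_zero.1 hz
    rw [sub_eq_iff_eq_add] at this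
    rw [this]
    abel
  rw [hfin, Submodule.mem_span_pair]
  exact ⟨⌊a⌋, ⌊b⌋, rfl⟩

end H6BW
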