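import Pool.Agent.Work.MP_6237c7_co.BW.Bridge37

set_option autoImplicit false

namespace H6BW

open H79KMW

/-- UNIQ. -/
theorem uniq : S_UNIQ := by
  intro N MM zf ff h w a a' x x' ha ha'
  have hF := (b37_full h).toBase
  obtain ⟨h0, h1, h2, h3, h4, h5, h6⟩ := LU37.unique hF (b37_cond ha) (b37_cond ha')
    (by rw [← ha.e0, ← ha'.e0]) (by rw [← ha.e1, ← ha'.e1]) (by rw [← ha.e2, ← ha'.e2])
    (by rw [← ha.e3, ← ha'.e3])
  constructor
  · funext i
    fin_cases i
    · exact h0
    · exact h1
    · exact h2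
    · exact h3
  · funext i
    fin_cases i
    · exact h4
    · exact h5
    · exact h6

end H6BW
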