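import Pool.Agent.Work.MP_6237c7_co.BW.Core
import Pool.Agent.Work.MP_6237c7_co.BW.Starall
import Pool.Agent.Work.MP_6237c7_co.BW.Finf
import Pool.Agent.Work.MP_6237c7_co.BW.Finlp
import Pool.Agent.Work.MP_6237c7_co.BW.Repl
import Pool.Agent.Work.MP_6237c7_co.BW.Local
import Pool.Agent.Work.MP_6237c7_co.BW.Loc4
import Pool.Agent.Work.MP_6237c7_co.BW.Plan
import Pool.Agent.Work.MP_6237c7_co.BW.Pt
import Pool.Agent.Work.MP_6237c7_co.BW.Pstart
import Pool.Agent.Work.MP_6237c7_co.BW.Ins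
import Pool.Agent.Work.MP_6237c7_co.BW.Flip
import Pool.Agent.Work.MP_6237c7_co.BW.Adj
import Pool.Agent.Work.MP_6237c7_co.BW.Pdat
import Pool.Agent.Work.MP_6237c7_co.BW.Carr
import Pool.Agent.Work.MP_6237c7_co.BW.Fan4
import Pool.Agent.Work.MP_6237c7_co.BW.Uniq
import Pool.Agent.Work.MP_6237c7_co.BW.Exist
import Pool.Agent.Work.MP_6237c7_co.BW.Low
import Pool.Agent.Work.MP_6237c7_co.BW.Maxf
import Pool.Agent.Work.MP_6237c7_co.BW.GEN4
import Pool.Agent.Work.MP_6237c7_co.BW.Grp
import Pool.Agent.Work.MP_6237c7_co.BW.Unb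
import Pool.Agent.Work.MP_6237c7_co.BW.Tri
import Pool.Agent.Work.MP_6237c7_co.BW.Quad
import Pool.Agent.Work.MP_6237c7_co.BW.Kerlat
import Pool.Agent.Work.MP_6237c7_co.BW.Detb
import Pool.Agent.Work.MP_6237c7_co.BW.Bdl
import Pool.Agent.Work.MP_6237c7_co.BW.Base
import Pool.Agent.Work.MP_6237c7_co.BW.Cut
import Pool.Agent.Work.MP_6237c7_co.BW.Star2
import Pool.Agent.Work.MP_6237c7_co.BW.Init
import Pool.Agent.Work.MP_6237c7_co.BW.Split
import Pool.Agent.Work.MP_6237c7_co.BW.Placel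
import Pool.Agent.Work.MP_6237c7_co.BW.End
import Pool.Agent.Work.MP_6237c7_co.BW.Main

/-! MP_6237c7_co, BW: assembly. -/

set_option autoImplicit false

namespace H6BW

theorem grpS : S_GRP := grp

theorem insS : S_INS := ins flip adj

theorem ptS : S_PT := pt (pstart starall) insS

theorem lowS : S_LOW := low

theorem fan4S : S_FAN4 := fan4x uniq (exist low maxf)

theorem loc4S : S_LOC4 := loc4 (plan ptS) pdat (carr pdat) fan4S (gen4 pdat low)

theorem localS : S_LOCAL := localThm loc4S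

theorem coreS : S_CORE :=
  core starall finf repl localS (unb grp) tri (quad kerlat) detb (bdl grp)

theorem mainS : S_MAIN := main (base (cut star2)) coreS (init split placel finlp) end_

end H6BW
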