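import Pool.Agent.Work.MP_6237c7_co.BW.Defs

/-!
INS: insertion of a primitive edge into a unimodular triangulation by flips.
-/

set_option autoImplicit false

namespace H6BW

open Finsupp H79KMW

/-! ### Determinants -/

lemma ins_dt (a b c : Fin 3 → ℤ) : dt ![a, b, c] =
    a 0 * (b 1 * c 2 - b 2 * c 1) - a 1 * (b 0 * c 2 - b 2 * c 0) +
      a 2 * (b 0 * c 1 - b 1 * c 0) := by
  rw [dt, Matrix.det_fin_three]
  simp
  ring

lemma ins_swap12 (a b c : Fin 3 → ℤ) : dt ![b, a, c] = - dt ![a, b, c] := by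
  rw [ins_dt, ins_dt]; ring

lemma ins_cyc (a b c : Fin 3 → ℤ) : dt ![b, c, a] = dt ![a, b, c] := by
  rw [ins_dt, ins_dt]; ring

lemma ins_rep1 (a b : Fin 3 → ℤ) : dt ![a, b, a] = 0 := by rw [ins_dt]; ring
lemma ins_rep2 (a b : Fin 3 → ℤ) : dt ![a, b, b] = 0 := by rw [ins_dt]; ring

/-- The determinant as a functional of the last row. -/
noncomputable def insL (a b : Fin 3 → ℤ) : (Fin 3 → ℝ) →ₗ[ℝ] ℝ :=
  ((a 1 * b 2 - a 2 * b 1 : ℤ) : ℝ) • LinearMap.proj 0 -
    ((a 0 * b 2 - a 2 * b 0 : ℤ) : ℝ) • LinearMap.proj 1 +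
    ((a 0 * b 1 - a 1 * b 0 : ℤ) : ℝ) • LinearMap.proj 2

lemma insL_apply (a b : Fin 3 → ℤ) (y : Fin 3 → ℝ) : insL a b y =
    ((a 1 : ℝ) * b 2 - a 2 * b 1) * y 0 - ((a 0 : ℝ) * b 2 - a 2 * b 0) * y 1 +
    ((a 0 : ℝ) * b 1 - a 1 * b 0) * y 2 := by
  simp [insL]

lemma insL_rv (a b x : Fin 3 → ℤ) : insL a b (rv x) = ((dt ![a, b, x] : ℤ) : ℝ) := by
  rw [insL_apply, ins_dt]
  simp only [rv]
  push_cast
  ring

/-- Cramer's rule. -/
lemma ins_cramer (a b c e : Fin 3 → ℤ) (i : Fin 3) :
    dt ![a, b, c] * e i = dt ![e, b, c] * a i + dt ![a, e, c] * b i + dt ![a, b, e] * c i := by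
  rw [ins_dt, ins_dt, ins_dt, ins_dt]
  fin_cases i <;> simp <;> ring

lemma ins_cramerR (a b c : Fin 3 → ℤ) (y : Fin 3 → ℝ) :
    ((dt ![a, b, c] : ℤ) : ℝ) • y =
      insL b c y • rv a + insL c a y • rv b + insL a b y • rv c := by
  funext i
  simp only [Pi.smul_apply, Pi.add_apply, smul_eq_mul, insL_apply, ins_dt, rv]
  push_cast
  fin_cases i <;> simp <;> ring

/-- The basic relation between four points of height one. -/
lemma ins_four {p q u v : Fin 3 → ℤ} (hp : p 0 = 1) (hq : q 0 = 1) (hu : u 0 = 1) (hv : v 0 = 1) :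
    dt ![u, v, q] - dt ![u, v, p] = dt ![p, q, u] - dt ![p, q, v] := by
  rw [ins_dt, ins_dt, ins_dt, ins_dt, hp, hq, hu, hv]; ring

/-! ### Weights on small faces -/

lemma ins_w3 (T : Set (Finset (Fin 3 → ℤ))) (hT : IsCx id T) {a b c : Fin 3 → ℤ}
    (h : ({a, b, c} : Finset (Fin 3 → ℤ)) ∈ T) {α β γ : ℝ} (hα : 0 ≤ α) (hβ : 0 ≤ β) (hγ : 0 ≤ γ) :
    single a α + single b β + single c γ ∈ body T := by
  classical
  refine ⟨fun x => ?_, hT.down _ h _ ?_⟩
  · rw [Finsupp.add_apply, Finsupp.add_apply, Finsupp.single_apply, Finsupp.single_apply,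
      Finsupp.single_apply]
    split_ifs <;> positivity
  · refine supp_add_subset _ _ _ (supp_add_subset _ _ _ ?_ ?_) ?_
    · exact Finsupp.support_single_subset.trans (by simp)
    · exact Finsupp.support_single_subset.trans (by simp)
    · exact Finsupp.support_single_subset.trans (by simp)

lemma ins_lc3 (a b c : Fin 3 → ℤ) (α β γ : ℝ) :
    lc id (single a α + single b β + single c γ) = α • rv a + β • rv b + γ • rv c := by
  rw [map_add, map_add, lc_single, lc_single, lc_single]
  rfl

lemma ins_w2 (T : Set (Finset (Fin 3 → ℤ))) (hT : IsCx id T) {a b : Fin 3 → ℤ}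
    (h : ({a, b} : Finset (Fin 3 → ℤ)) ∈ T) {α β : ℝ} (hα : 0 ≤ α) (hβ : 0 ≤ β) :
    single a α + single b β ∈ body T := by
  classical
  refine ⟨fun x => ?_, hT.down _ h _ ?_⟩
  · rw [Finsupp.add_apply, Finsupp.single_apply, Finsupp.single_apply]
    split_ifs <;> positivity
  · refine supp_add_subset _ _ _ ?_ ?_
    · exact Finsupp.support_single_subset.trans (by simp)
    · exact Finsupp.support_single_subset.trans (by simp)

lemma ins_lc2 (a b : Fin 3 → ℤ) (α β : ℝ) :
    lc id (single a α + single b β) = α • rv a + β • rv b := by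
  rw [map_add, lc_single, lc_single]
  rfl

lemma ins_w1 (T : Set (Finset (Fin 3 → ℤ))) {a : Fin 3 → ℤ}
    (h : ({a} : Finset (Fin 3 → ℤ)) ∈ T) {α : ℝ} (hα : 0 < α) :
    single a α ∈ body T := by
  classical
  refine ⟨fun x => ?_, ?_⟩
  · rw [Finsupp.single_apply]
    split_ifs <;> positivity
  · rw [Finsupp.support_single _ hα.ne']; exact h

/-- A vertex does not lie in the relative interior of an edge or of a triangle. -/
lemma ins_noint {T : Set (Finset (Fin 3 → ℤ))} (hT : IsCx id T) {a b c e : Fin 3 → ℤ}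
    (h : ({a, b, c} : Finset (Fin 3 → ℤ)) ∈ T) (he : ({e} : Finset (Fin 3 → ℤ)) ∈ T)
    (hbc : b ≠ c) {α β γ δ : ℝ} (hα : 0 ≤ α) (hβ : 0 < β) (hγ : 0 < γ)
    (hδ : 0 < δ) (heq : δ • rv e = α • rv a + β • rv b + γ • rv c) : False := by
  classical
  have h1 : single a α + single b β + single c γ = single e δ := by
    refine hT.inj (ins_w3 T hT h hα hβ.le hγ.le) (ins_w1 T he hδ) ?_
    rw [ins_lc3, lc_single]
    exact heq.symm
  have hb := DFunLike.congr_fun h1 b
  have hc := DFunLike.congr_fun h1 c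
  have ge : ∀ x : Fin 3 → ℤ, ∀ t : ℝ, 0 ≤ t → ∀ y, 0 ≤ (single x t : (Fin 3 → ℤ) →₀ ℝ) y := by
    intro x t ht y
    rw [Finsupp.single_apply]
    split_ifs
    · exact ht
    · exact le_rfl
  rw [Finsupp.add_apply, Finsupp.add_apply, Finsupp.single_eq_same (a := b)] at hb
  rw [Finsupp.add_apply, Finsupp.add_apply, Finsupp.single_eq_same (a := c)] at hc
  have hb' : (single e δ : (Fin 3 → ℤ) →₀ ℝ) b ≠ 0 := by
    rw [← hb]
    have := ge a α hα b
    have := ge c γ hγ.le b
    positivity
  have hc' : (single e δ : (Fin 3 → ℤ) →₀ ℝ) c ≠ 0 := by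
    rw [← hc]
    have := ge a α hα c
    have := ge b β hβ.le c
    positivity
  rw [Finsupp.single_apply] at hb' hc'
  by_cases h2 : e = b
  · by_cases h3 : e = c
    · exact hbc (h2.symm.trans h3)
    · rw [if_neg h3] at hc'; exact hc' rfl
  · rw [if_neg h2] at hb'; exact hb' rfl

/-! ### Crossing edges -/

/-- Oriented crossing. -/
structure InsCrs (p q u v : Fin 3 → ℤ) : Prop where
  hu : 0 < dt ![p, q, u]
  hv : dt ![p, q, v] < 0
  hp : dt ![u, v, p] < 0
  hq : 0 < dt ![u, v, q]

lemma InsCrs.swap {p q u v : Fin 3 → ℤ} (h : InsCrs p q u v) : InsCrs q p v u := by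
  refine ⟨?_, ?_, ?_, ?_⟩
  · rw [ins_swap12]; have := h.hv; omega
  · rw [ins_swap12]; have := h.hu; omega
  · rw [ins_swap12]; have := h.hq; omega
  · rw [ins_swap12]; have := h.hp; omega

lemma InsCrs.cross {p q u v : Fin 3 → ℤ} (h : InsCrs p q u v) : Cross p q u v :=
  ⟨mul_neg_of_pos_of_neg h.hu h.hv, mul_neg_of_neg_of_pos h.hp h.hq⟩

lemma InsCrs.cross' {p q u v : Fin 3 → ℤ} (h : InsCrs p q u v) : Cross p q v u := by
  refine ⟨mul_neg_of_neg_of_pos h.hv h.hu, ?_⟩
  rw [ins_swap12, ins_swap12 u v q]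
  have := mul_neg_of_neg_of_pos h.hp h.hq
  linarith [neg_mul_neg (dt ![u, v, p]) (dt ![u, v, q])]

lemma InsCrs.ne {p q u v : Fin 3 → ℤ} (h : InsCrs p q u v) : u ≠ v := by
  rintro rfl
  have h1 := h.hu
  have h2 := h.hv
  omega

section
variable {A : Finset (Fin 3 → ℤ)} {T : Set (Finset (Fin 3 → ℤ))} {p q : Fin 3 → ℤ}

lemma ins_gen {x : Fin 3 → ℤ} (hx : x ∈ A) : rv x ∈ coneOf A := by
  classical
  refine ⟨single x 1, fun y => ?_, ?_, ?_⟩
  · rw [Finsupp.single_apply]; split_ifs <;> norm_num
  · refine Finsupp.support_single_subset.trans ?_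
    rwa [Finset.singleton_subset_iff]
  · rw [lc_single, one_smul]; rfl

lemma ins_mem (hT : PTri A T) {s : Finset (Fin 3 → ℤ)} (hs : s ∈ T) {x : Fin 3 → ℤ} (hx : x ∈ s) :
    x ∈ A := hT.sub s hs hx

lemma ins_uni (hT : PTri A T) {a b c : Fin 3 → ℤ} (h : ({a, b, c} : Finset (Fin 3 → ℤ)) ∈ T)
    (hab : a ≠ b) (hbc : b ≠ c) (hac : a ≠ c) : dt ![a, b, c] = 1 ∨ dt ![a, b, c] = -1 := by
  have h1 := hT.uni _ h ![a, b, c] (by
    intro i j hij
    fin_cases i <;> fin_cases j <;> simp_all) (by
    intro i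
    fin_cases i <;> simp)
  rcases abs_cases (dt ![a, b, c]) with h2 | h2 <;> omega

/-- The crossing vector is in the interior. -/
lemma ins_interior (hpA : p ∈ A) (hqA : q ∈ A) {u v : Fin 3 → ℤ} (huA : u ∈ A) (hvA : v ∈ A)
    (h : InsCrs p q u v) :
    (-(dt ![p, q, v] : ℝ)) • rv u + (dt ![p, q, u] : ℝ) • rv v ∈ interior (coneOf A) := by
  have hHu : (0:ℝ) < (dt ![p, q, u] : ℝ) := by exact_mod_cast h.hu
  have hHv : (dt ![p, q, v] : ℝ) < 0 := by exact_mod_cast h.hv
  have hGp : (dt ![u, v, p] : ℝ) < 0 := by exact_mod_cast h.hp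
  have hGq : (0:ℝ) < (dt ![u, v, q] : ℝ) := by exact_mod_cast h.hq
  set X : Fin 3 → ℝ := (-(dt ![p, q, v] : ℝ)) • rv u + (dt ![p, q, u] : ℝ) • rv v with hX
  have hX2 : X = (dt ![u, v, q] : ℝ) • rv p + (-(dt ![u, v, p] : ℝ)) • rv q := by
    rw [hX]
    funext i
    simp only [Pi.smul_apply, Pi.add_apply, smul_eq_mul, ins_dt, rv]
    push_cast
    fin_cases i <;> simp <;> ring
  let cp : (Fin 3 → ℝ) → ℝ := fun y => insL q u (y - X) / (dt ![p, q, u] : ℝ)
  let cq : (Fin 3 → ℝ) → ℝ := fun y => insL u p (y - X) / (dt ![p, q, u] : ℝ)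
  let cu : (Fin 3 → ℝ) → ℝ := fun y => insL p q (y - X) / (dt ![p, q, u] : ℝ)
  have hcont : ∀ a b : Fin 3 → ℤ, Continuous fun y : Fin 3 → ℝ =>
      insL a b (y - X) / (dt ![p, q, u] : ℝ) := by
    intro a b
    have h1 : Continuous (insL a b) := LinearMap.continuous_of_finiteDimensional _
    exact (h1.comp (continuous_id.sub continuous_const)).div_const _
  have hdec : ∀ y, y = ((dt ![u, v, q] : ℝ) / 2 + cp y) • rv p +
      (-(dt ![u, v, p] : ℝ) / 2 + cq y) • rv q + (-(dt ![p, q, v] : ℝ) / 2 + cu y) • rv u +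
      ((dt ![p, q, u] : ℝ) / 2) • rv v := by
    intro y
    have h1 := ins_cramerR p q u (y - X)
    have h2 : y - X = cp y • rv p + cq y • rv q + cu y • rv u := by
      have h3 : y - X = (dt ![p, q, u] : ℝ)⁻¹ • ((dt ![p, q, u] : ℝ) • (y - X)) := by
        rw [smul_smul, inv_mul_cancel₀ hHu.ne', one_smul]
      rw [h3, h1]
      simp only [cp, cq, cu, smul_add, smul_smul, div_eq_inv_mul]
    have h3 : X = ((dt ![u, v, q] : ℝ) / 2) • rv p + (-(dt ![u, v, p] : ℝ) / 2) • rv q +
        (-(dt ![p, q, v] : ℝ) / 2) • rv u + ((dt ![p, q, u] : ℝ) / 2) • rv v := by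
      have h4 : X = (1/2 : ℝ) • X + (1/2 : ℝ) • X := by
        rw [← add_smul]; norm_num
      rw [h4]
      nth_rewrite 1 [hX2]
      rw [hX]
      simp only [smul_add, smul_smul]
      funext i
      simp only [Pi.add_apply, Pi.smul_apply, smul_eq_mul]
      ring
    have h5 : y = X + (y - X) := by abel
    conv_lhs => rw [h5, h2, h3]
    funext i
    simp only [Pi.add_apply, Pi.smul_apply, smul_eq_mul]
    ring
  rw [mem_interior]
  refine ⟨{y | 0 < (dt ![u, v, q] : ℝ) / 2 + cp y} ∩ ({y | 0 < -(dt ![u, v, p] : ℝ) / 2 + cq y} ∩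
    {y | 0 < -(dt ![p, q, v] : ℝ) / 2 + cu y}), ?_, ?_, ?_⟩
  · rintro y ⟨h1, h2, h3⟩
    have h1' : 0 < (dt ![u, v, q] : ℝ) / 2 + cp y := h1
    have h2' : 0 < -(dt ![u, v, p] : ℝ) / 2 + cq y := h2
    have h3' : 0 < -(dt ![p, q, v] : ℝ) / 2 + cu y := h3
    rw [hdec y]
    exact coneOf_add _ (coneOf_add _ (coneOf_add _ (coneOf_smul _ (ins_gen hpA) h1'.le)
      (coneOf_smul _ (ins_gen hqA) h2'.le)) (coneOf_smul _ (ins_gen huA) h3'.le))
      (coneOf_smul _ (ins_gen hvA) (by positivity))
  · refine IsOpen.inter ?_ (IsOpen.inter ?_ ?_)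
    · exact isOpen_lt continuous_const (continuous_const.add (hcont _ _))
    · exact isOpen_lt continuous_const (continuous_const.add (hcont _ _))
    · exact isOpen_lt continuous_const (continuous_const.add (hcont _ _))
  · refine ⟨?_, ?_, ?_⟩
    · show 0 < (dt ![u, v, q] : ℝ) / 2 + cp X
      simp only [cp, sub_self, map_zero, zero_div, add_zero]
      linarith
    · show 0 < -(dt ![u, v, p] : ℝ) / 2 + cq X
      simp only [cq, sub_self, map_zero, zero_div, add_zero]
      linarith
    · show 0 < -(dt ![p, q, v] : ℝ) / 2 + cu X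
      simp only [cu, sub_self, map_zero, zero_div, add_zero]
      linarith


/-- Existence of a crossing edge. -/
lemma ins_exists (hA : LPoly A) (hT : PTri A T) (hpq : Prim A p q)
    (hne : ({p, q} : Finset (Fin 3 → ℤ)) ∉ T) :
    ∃ u v : Fin 3 → ℤ, ({u, v} : Finset (Fin 3 → ℤ)) ∈ T ∧ InsCrs p q u v := by
  classical
  obtain ⟨hpA, hqA, hpq1, hprim⟩ := hpq
  have hK := hT.cx
  -- the faces which do not contain `p`
  let T0 : Set (Finset (Fin 3 → ℤ)) := {s | s ∈ T ∧ p ∉ s}
  have hT0 : IsCx id T0 := by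
    refine ⟨hK.fin.subset fun s hs => hs.1, fun s hs t hts => ⟨hK.down s hs.1 t hts,
      fun h => hs.2 (hts h)⟩, ?_⟩
    intro a ha b hb hab
    exact hK.inj ⟨ha.1, ha.2.1⟩ ⟨hb.1, hb.2.1⟩ hab
  have hp0 : rv p ∉ supp id T0 := by
    rintro ⟨w, hw, hwp⟩
    have h1 : w = single p 1 := by
      refine hK.inj ⟨hw.1, hw.2.1⟩ (ins_w1 T (hT.vert p hpA) one_pos) ?_
      rw [hwp, lc_single, one_smul]; rfl
    apply hw.2.2
    rw [h1, Finsupp.support_single _ one_ne_zero]
    exact Finset.mem_singleton_self _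
  obtain ⟨ε, hε, hεm⟩ : ∃ ε : ℝ, 0 < ε ∧ rv p + ε • rv q ∉ supp id T0 := by
    have hc : Continuous fun ε : ℝ => rv p + ε • rv q := by fun_prop
    have hopen : IsOpen ((fun ε : ℝ => rv p + ε • rv q) ⁻¹' (supp id T0)ᶜ) :=
      hT0.isClosed_supp.isOpen_compl.preimage hc
    have hmem : (0:ℝ) ∈ (fun ε : ℝ => rv p + ε • rv q) ⁻¹' (supp id T0)ᶜ := by
      show rv p + (0:ℝ) • rv q ∈ (supp id T0)ᶜ
      rw [zero_smul, add_zero]; exact hp0
    obtain ⟨δ, hδ, hball⟩ := Metric.isOpen_iff.1 hopen 0 hmem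
    refine ⟨δ / 2, by positivity, ?_⟩
    have : δ / 2 ∈ Metric.ball (0:ℝ) δ := by
      rw [Metric.mem_ball, Real.dist_eq, sub_zero, abs_of_pos (by positivity)]
      linarith
    exact hball this
  obtain ⟨w, hw, hwl⟩ : rv p + ε • rv q ∈ supp id T := by
    rw [hT.supp_eq]
    exact coneOf_add _ (ins_gen hpA) (coneOf_smul _ (ins_gen hqA) hε.le)
  have hpw : p ∈ w.support := by
    by_contra hcon
    exact hεm ⟨w, ⟨hw.1, hw.2, hcon⟩, hwl⟩
  have hse : w.support.erase p ⊆ w.support := Finset.erase_subset _ _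
  have hwe : lc id (w.erase p) = (1 - w p) • rv p + ε • rv q := by
    have h1 := lc_erase (p := p) w
    rw [hwl] at h1
    rw [sub_smul, one_smul]
    have h2 : lc id (w.erase p) = rv p + ε • rv q - w p • rv p := by
      rw [h1]; abel
    rw [h2]; abel
  have hnn : ∀ x, 0 ≤ (w.erase p) x := by
    intro x
    rw [Finsupp.erase_apply]
    split_ifs
    · exact le_rfl
    · exact hw.1 x
  rcases le_or_gt (1 - w p) 0 with hα | hα
  · exfalso
    have h1 : w.erase p + single p (w p - 1) = single q ε := by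
      refine hK.inj ⟨fun x => ?_, hK.down _ hw.2 _ ?_⟩ (ins_w1 T (hT.vert q hqA) hε) ?_
      · rw [Finsupp.add_apply]
        refine add_nonneg (hnn x) ?_
        rw [Finsupp.single_apply]
        split_ifs
        · linarith
        · exact le_rfl
      · refine supp_add_subset _ _ _ ?_ ?_
        · rw [Finsupp.support_erase]; exact hse
        · refine Finsupp.support_single_subset.trans ?_
          rwa [Finset.singleton_subset_iff]
      · rw [map_add, lc_single, lc_single, hwe]
        show (1 - w p) • rv p + ε • rv q + (w p - 1) • rv p = ε • rv q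
        rw [sub_smul, sub_smul]
        abel
    have h2 := DFunLike.congr_fun h1 q
    rw [Finsupp.add_apply, Finsupp.erase_ne (Ne.symm hpq1), Finsupp.single_eq_of_ne (Ne.symm hpq1),
      Finsupp.single_eq_same, add_zero] at h2
    apply hne
    refine hK.down _ hw.2 _ ?_
    intro x hx
    rw [Finset.mem_insert, Finset.mem_singleton] at hx
    rcases hx with rfl | rfl
    · exact hpw
    · rw [Finsupp.mem_support_iff, h2]; exact hε.ne'
  · set α : ℝ := 1 - w p with hαdef
    have hsub : ∀ x ∈ w.support, x ∈ A := fun x hx => hT.sub _ hw.2 hx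
    have hcard : (w.support.erase p).card ≤ 2 := by
      rw [Finset.card_erase_of_mem hpw]
      have := hK.card_le hw.2
      omega
    have hrep : w.erase p = ∑ x ∈ w.support.erase p, single x (w x) := by
      ext y
      rw [Finsupp.finsetSum_apply]
      rw [Finsupp.erase_apply]
      by_cases hy : y = p
      · rw [if_pos hy]
        symm
        refine Finset.sum_eq_zero fun x hx => ?_
        rw [Finsupp.single_apply, if_neg]
        rintro rfl
        exact (Finset.mem_erase.1 hx).1 hy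
      · rw [if_neg hy]
        by_cases hys : y ∈ w.support
        · rw [Finset.sum_eq_single y]
          · rw [Finsupp.single_eq_same]
          · intro x _ hx
            rw [Finsupp.single_apply, if_neg hx]
          · intro hcon
            exact absurd (Finset.mem_erase.2 ⟨hy, hys⟩) hcon
        · rw [Finsupp.notMem_support_iff.1 hys]
          symm
          refine Finset.sum_eq_zero fun x hx => ?_
          rw [Finsupp.single_apply, if_neg]
          rintro rfl
          exact hys (Finset.mem_erase.1 hx).2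
    have hlcrep : ∑ x ∈ w.support.erase p, w x • rv x = α • rv p + ε • rv q := by
      rw [← hwe, hrep, map_sum]
      exact Finset.sum_congr rfl fun x _ => by rw [lc_single]; rfl
    have hpos : ∀ x ∈ w.support, 0 < w x := fun x hx =>
      lt_of_le_of_ne (hw.1 x) (Ne.symm (Finsupp.mem_support_iff.1 hx))
    have h0 : (p 0 : ℤ) = 1 := hA.ht p hpA
    have h0q : (q 0 : ℤ) = 1 := hA.ht q hqA
    rcases Nat.lt_or_ge (w.support.erase p).card 2 with hlt | hge
    · exfalso
      rcases Nat.eq_zero_or_pos (w.support.erase p).card with hz | hpos1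
      · rw [Finset.card_eq_zero] at hz
        rw [hz, Finset.sum_empty] at hlcrep
        have h1 := congrFun hlcrep 0
        simp only [Pi.zero_apply, Pi.add_apply, Pi.smul_apply, smul_eq_mul, rv, h0, h0q,
          Int.cast_one, mul_one] at h1
        linarith
      · obtain ⟨a, ha⟩ := Finset.card_eq_one.1 (show (w.support.erase p).card = 1 by omega)
        have haw : a ∈ w.support.erase p := by rw [ha]; exact Finset.mem_singleton_self _
        have hap : a ≠ p := (Finset.mem_erase.1 haw).1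
        have has : a ∈ w.support := (Finset.mem_erase.1 haw).2
        rw [ha, Finset.sum_singleton] at hlcrep
        have hwa := hpos a has
        have hcone : rv a ∈ coneOf {p, q} := by
          have h1 : rv a = (w a)⁻¹ • (α • rv p + ε • rv q) := by
            rw [← hlcrep, smul_smul, inv_mul_cancel₀ hwa.ne', one_smul]
          rw [h1]
          refine coneOf_smul _ (coneOf_add _ (coneOf_smul _ (ins_gen ?_) hα.le)
            (coneOf_smul _ (ins_gen ?_) hε.le)) (by positivity)
          · simp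
          · simp
        rcases hprim a (hsub a has) hcone with h1 | h1
        · exact hap h1
        · rw [h1] at hlcrep hwa
          have h2 : ∀ i, w q * (q i : ℝ) = α * (p i : ℝ) + ε * (q i : ℝ) := by
            intro i
            have := congrFun hlcrep i
            simpa [rv] using this
          have h3 := h2 0
          rw [h0, h0q] at h3
          simp only [Int.cast_one, mul_one] at h3
          apply hpq1
          funext i
          have h4 := h2 i
          rw [h3] at h4
          have h5 : α * ((p i : ℝ) - (q i : ℝ)) = 0 := by linarith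
          rcases mul_eq_zero.1 h5 with h6 | h6
          · exact absurd h6 hα.ne'
          · have : (p i : ℝ) = (q i : ℝ) := by linarith
            exact_mod_cast this
    · obtain ⟨a, b, hab, hse2⟩ := Finset.card_eq_two.1 (le_antisymm hcard hge)
      have haw : a ∈ w.support.erase p := by rw [hse2]; simp
      have hbw : b ∈ w.support.erase p := by rw [hse2]; simp
      have hap : a ≠ p := (Finset.mem_erase.1 haw).1
      have hbp : b ≠ p := (Finset.mem_erase.1 hbw).1
      have has : a ∈ w.support := (Finset.mem_erase.1 haw).2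
      have hbs : b ∈ w.support := (Finset.mem_erase.1 hbw).2
      have hwa := hpos a has
      have hwb := hpos b hbs
      have habp : ({a, b, p} : Finset (Fin 3 → ℤ)) ∈ T := by
        refine hK.down _ hw.2 _ ?_
        intro x hx
        rw [Finset.mem_insert, Finset.mem_insert, Finset.mem_singleton] at hx
        rcases hx with rfl | rfl | rfl
        · exact has
        · exact hbs
        · exact hpw
      have habT : ({a, b} : Finset (Fin 3 → ℤ)) ∈ T := by
        refine hK.down _ habp _ ?_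
        intro x hx
        rw [Finset.mem_insert, Finset.mem_singleton] at hx
        rcases hx with rfl | rfl <;> simp
      rw [hse2, Finset.sum_pair hab] at hlcrep
      have ha0 : (a 0 : ℤ) = 1 := hA.ht a (hsub a has)
      have hb0 : (b 0 : ℤ) = 1 := hA.ht b (hsub b hbs)
      have hH := congrArg (insL p q) hlcrep
      have hG := congrArg (insL a b) hlcrep
      rw [map_add, map_add, map_smul, map_smul, map_smul, map_smul, insL_rv, insL_rv, insL_rv, insL_rv,
        smul_eq_mul, smul_eq_mul, smul_eq_mul, smul_eq_mul] at hH hG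
      rw [ins_rep1, ins_rep2] at hH hG
      simp only [Int.cast_zero, mul_zero, add_zero] at hH hG
      have hGp := ins_uni hT habp hab hbp hap
      have hfour := ins_four h0 h0q ha0 hb0
      have hGp0 : (dt ![a, b, p] : ℝ) ≠ 0 := by
        rcases hGp with h | h <;> rw [h] <;> norm_num
      have hfourR : (dt ![a, b, q] : ℝ) - dt ![a, b, p] = dt ![p, q, a] - dt ![p, q, b] := by
        exact_mod_cast hfour
      -- signs
      have key : ∀ (s t x y : ℝ), 0 < s → 0 < t → s * x + t * y = 0 → x ≠ y →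
          (0 < x ∧ y < 0) ∨ (x < 0 ∧ 0 < y) := by
        intro s t x y hs ht h hxy
        rcases lt_trichotomy x 0 with hx | hx | hx
        · right
          refine ⟨hx, ?_⟩
          by_contra hy
          push Not at hy
          have h1 : s * x < 0 := mul_neg_of_pos_of_neg hs hx
          have h2 : t * y ≤ 0 := mul_nonpos_of_nonneg_of_nonpos ht.le hy
          linarith
        · exfalso
          rw [hx, mul_zero, zero_add] at h
          rcases mul_eq_zero.1 h with h1 | h1
          · exact ht.ne' h1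
          · exact hxy (hx.trans h1.symm)
        · left
          refine ⟨hx, ?_⟩
          by_contra hy
          push Not at hy
          have h1 : 0 < s * x := mul_pos hs hx
          have h2 : 0 ≤ t * y := mul_nonneg ht.le hy
          linarith
      have hGne : (dt ![a, b, p] : ℝ) ≠ dt ![a, b, q] := by
        intro h
        rw [← h] at hG
        have h1 : (α + ε) * (dt ![a, b, p] : ℝ) = 0 := by linarith
        rcases mul_eq_zero.1 h1 with h2 | h2
        · linarith
        · exact hGp0 h2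
      have hHne : (dt ![p, q, a] : ℝ) ≠ dt ![p, q, b] := by
        intro h
        apply hGne
        linarith
      have hG' := key α ε _ _ hα hε hG.symm hGne
      have hH' := key (w a) (w b) _ _ hwa hwb hH hHne
      rcases hH' with ⟨h1, h2⟩ | ⟨h1, h2⟩
      · refine ⟨a, b, habT, ?_, ?_, ?_, ?_⟩
        · exact_mod_cast h1
        · exact_mod_cast h2
        · rcases hG' with ⟨h3, h4⟩ | ⟨h3, h4⟩
          · linarith
          · exact_mod_cast h3
        · rcases hG' with ⟨h3, h4⟩ | ⟨h3, h4⟩
          · linarith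
          · exact_mod_cast h4
      · rcases hG' with ⟨h3, h4⟩ | ⟨h3, h4⟩
        swap
        · linarith
        refine ⟨b, a, ?_, ?_, ?_, ?_, ?_⟩
        · rw [Finset.pair_comm]; exact habT
        · exact_mod_cast h2
        · exact_mod_cast h1
        · rw [ins_swap12]
          have : 0 < dt ![a, b, p] := by exact_mod_cast h3
          omega
        · rw [ins_swap12]
          have : dt ![a, b, q] < 0 := by exact_mod_cast h4
          omega


/-- The maximality of a crossing edge. -/
def InsMax (T : Set (Finset (Fin 3 → ℤ))) (p q u v : Fin 3 → ℤ) : Prop :=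
  ∀ a b : Fin 3 → ℤ, ({a, b} : Finset (Fin 3 → ℤ)) ∈ T → InsCrs p q a b →
    dt ![p, q, a] - dt ![p, q, b] ≤ dt ![p, q, u] - dt ![p, q, v]

lemma InsMax.swap {u v : Fin 3 → ℤ} (h : InsMax T p q u v) : InsMax T q p v u := by
  intro a b hab hc
  have h1 := h b a (by rw [Finset.pair_comm]; exact hab) hc.swap
  have e1 := ins_swap12 p q a
  have e2 := ins_swap12 p q b
  have e3 := ins_swap12 p q u
  have e4 := ins_swap12 p q v
  rw [e1, e2, e3, e4]
  linarith

lemma ins_upper (hA : LPoly A) (hT : PTri A T) (hpA : p ∈ A) (hqA : q ∈ A)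
    {u v z : Fin 3 → ℤ} (hc : InsCrs p q u v) (hmax : InsMax T p q u v)
    (hz : ({u, v, z} : Finset (Fin 3 → ℤ)) ∈ T) (hzu : u ≠ z) (hzv : v ≠ z) :
    dt ![p, q, z] < dt ![p, q, u] := by
  classical
  have huv := hc.ne
  have huA : u ∈ A := hT.sub _ hz (by simp)
  have hvA : v ∈ A := hT.sub _ hz (by simp)
  have hzA : z ∈ A := hT.sub _ hz (by simp)
  have hp0 := hA.ht p hpA
  have hq0 := hA.ht q hqA
  have hu0 := hA.ht u huA
  have hv0 := hA.ht v hvA
  have hz0 := hA.ht z hzA
  have hG := ins_uni hT hz huv hzv hzu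
  by_contra hcon
  push Not at hcon
  have hHu := hc.hu
  have hHv := hc.hv
  have hGp := hc.hp
  have hGq := hc.hq
  have hHz : 0 < dt ![p, q, z] := by omega
  -- coordinates of `p` and `q`
  set xu := dt ![p, v, z] with hxu
  set xv := dt ![u, p, z] with hxv
  set yu := dt ![q, v, z] with hyu
  set yv := dt ![u, q, z] with hyv
  have hcp := fun i => ins_cramer u v z p i
  have hcq := fun i => ins_cramer u v z q i
  have hp00 := hcp 0
  have hq00 := hcq 0
  rw [hp0, hu0, hv0, hz0] at hp00
  rw [hq0, hu0, hv0, hz0] at hq00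
  have hpH : xu * dt ![p, q, u] + xv * dt ![p, q, v] + dt ![u, v, p] * dt ![p, q, z] = 0 := by
    rw [hxu, hxv]
    simp only [ins_dt, hp0, hq0, hu0, hv0, hz0]
    ring
  have hqH : yu * dt ![p, q, u] + yv * dt ![p, q, v] + dt ![u, v, q] * dt ![p, q, z] = 0 := by
    rw [hyu, hyv]
    simp only [ins_dt, hp0, hq0, hu0, hv0, hz0]
    ring
  have hvec : ∀ (e : Fin 3 → ℤ), (dt ![u, v, z] : ℝ) • rv e =
      (dt ![e, v, z] : ℝ) • rv u + (dt ![u, e, z] : ℝ) • rv v + (dt ![u, v, e] : ℝ) • rv z := by
    intro e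
    funext i
    have := ins_cramer u v z e i
    simp only [Pi.smul_apply, Pi.add_apply, smul_eq_mul, rv]
    exact_mod_cast this
  have hpT := hT.vert p hpA
  have hqT := hT.vert q hqA
  have hcrs : InsCrs p q z v := by
    refine ⟨hHz, hHv, ?_, ?_⟩
    · -- `dt ![z, v, p] < 0`
      have e1 : dt ![z, v, p] = - xu := by rw [hxu, ins_dt, ins_dt]; ring
      rw [e1]
      rcases hG with hG | hG
      · rw [hG] at hp00
        -- `G z = 1`: want `xu > 0`
        by_contra h
        push Not at h
        have hxu0 : xu ≤ 0 := by omega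
        have h1 : xv * dt ![p, q, v] > 0 := by nlinarith
        have h2 : xv < 0 := by
          by_contra h3
          push Not at h3
          nlinarith
        omega
      · rw [hG] at hp00
        -- `G z = -1`: want `xu > 0`
        by_contra h
        push Not at h
        have hxu0 : xu ≤ 0 := by omega
        have h2 : xv < 0 := by
          by_contra h3
          push Not at h3
          nlinarith
        have h4 := hvec p
        rw [hG] at h4
        refine ins_noint hT.cx hz hpT hzv (α := (-xu : ℝ)) (β := (-xv : ℝ))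
          (γ := (-(dt ![u, v, p] : ℤ) : ℝ)) (δ := 1) ?_ ?_ ?_ one_pos ?_
        · have : (xu : ℝ) ≤ 0 := by exact_mod_cast hxu0
          linarith
        · have : (xv : ℝ) < 0 := by exact_mod_cast h2
          linarith
        · have : (dt ![u, v, p] : ℝ) < 0 := by exact_mod_cast hGp
          linarith
        · rw [one_smul, neg_smul, neg_smul, neg_smul]
          have h5 : rv p = -(((-1 : ℤ) : ℝ) • rv p) := by
            push_cast; rw [neg_smul, one_smul, neg_neg]
          rw [h5, h4]
          abel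
    · have e1 : dt ![z, v, q] = - yu := by rw [hyu, ins_dt, ins_dt]; ring
      rw [e1]
      rcases hG with hG | hG
      · rw [hG] at hq00
        by_contra h
        push Not at h
        have hyu0 : 0 ≤ yu := by omega
        have h2 : 0 < yv := by
          by_contra h3
          push Not at h3
          nlinarith
        have h4 := hvec q
        rw [hG] at h4
        refine ins_noint hT.cx hz hqT hzv (α := (yu : ℝ)) (β := (yv : ℝ))
          (γ := (dt ![u, v, q] : ℝ)) (δ := 1) ?_ ?_ ?_ one_pos ?_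
        · exact_mod_cast hyu0
        · exact_mod_cast h2
        · exact_mod_cast hGq
        · rw [one_smul]
          have h5 : rv q = ((1 : ℤ) : ℝ) • rv q := by
            push_cast; rw [one_smul]
          rw [h5, h4]
      · rw [hG] at hq00
        by_contra h
        push Not at h
        have hyu0 : 0 ≤ yu := by omega
        have h2 : 0 < yv := by
          by_contra h3
          push Not at h3
          nlinarith
        omega
  have hzvT : ({z, v} : Finset (Fin 3 → ℤ)) ∈ T := by
    refine hT.cx.down _ hz _ ?_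
    intro x hx
    rw [Finset.mem_insert, Finset.mem_singleton] at hx
    rcases hx with rfl | rfl <;> simp
  have h1 := hmax z v hzvT hcrs
  have heq : dt ![p, q, z] = dt ![p, q, u] := by omega
  rw [heq] at hpH
  -- `xv * (H u - H v) = G z * H u`
  have h2 : xv * (dt ![p, q, u] - dt ![p, q, v]) = dt ![u, v, z] * dt ![p, q, u] := by
    linear_combination (-1) * hpH - dt ![p, q, u] * hp00
  rcases hG with hG | hG
  · rw [hG, one_mul] at h2
    rcases le_or_gt xv 0 with h3 | h3
    · nlinarith
    · have : 1 ≤ xv := h3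
      nlinarith
  · rw [hG] at h2
    rcases le_or_gt 0 xv with h3 | h3
    · nlinarith
    · have : xv ≤ -1 := by omega
      nlinarith

lemma ins_lower (hA : LPoly A) (hT : PTri A T) (hpA : p ∈ A) (hqA : q ∈ A)
    {u v z : Fin 3 → ℤ} (hc : InsCrs p q u v) (hmax : InsMax T p q u v)
    (hz : ({u, v, z} : Finset (Fin 3 → ℤ)) ∈ T) (hzu : u ≠ z) (hzv : v ≠ z) :
    dt ![p, q, v] < dt ![p, q, z] := by
  classical
  have h1 := ins_upper hA hT hqA hpA hc.swap hmax.swap (z := z)
    (by
      have : ({v, u, z} : Finset (Fin 3 → ℤ)) = {u, v, z} := by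
        rw [Finset.insert_comm]
      rw [this]; exact hz) hzv hzu
  rw [ins_swap12 p q z, ins_swap12 p q v] at h1
  omega

/-- The two triangles at a maximal crossing edge form a parallelogram. -/
lemma ins_para (hA : LPoly A) (hT : PTri A T) (hpA : p ∈ A) (hqA : q ∈ A)
    {u v z z' : Fin 3 → ℤ} (hc : InsCrs p q u v) (hmax : InsMax T p q u v)
    (hz : ({u, v, z} : Finset (Fin 3 → ℤ)) ∈ T) (hz' : ({u, v, z'} : Finset (Fin 3 → ℤ)) ∈ T)
    (hG : dt ![u, v, z] = -1) (hG' : dt ![u, v, z'] = 1) : ∀ i, z i + z' i = u i + v i := by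
  classical
  have hzu : u ≠ z := by
    rintro rfl; rw [ins_rep1] at hG; omega
  have hzv : v ≠ z := by
    rintro rfl; rw [ins_rep2] at hG; omega
  have hzu' : u ≠ z' := by
    rintro rfl; rw [ins_rep1] at hG'; omega
  have hzv' : v ≠ z' := by
    rintro rfl; rw [ins_rep2] at hG'; omega
  have h1 := ins_upper hA hT hpA hqA hc hmax hz hzu hzv
  have h2 := ins_lower hA hT hpA hqA hc hmax hz hzu hzv
  have h3 := ins_upper hA hT hpA hqA hc hmax hz' hzu' hzv'
  have h4 := ins_lower hA hT hpA hqA hc hmax hz' hzu' hzv'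
  have hp0 := hA.ht p hpA
  have hq0 := hA.ht q hqA
  have hu0 := hA.ht u (hT.sub _ hz (by simp))
  have hv0 := hA.ht v (hT.sub _ hz (by simp))
  have hz0 := hA.ht z (hT.sub _ hz (by simp))
  have hz0' := hA.ht z' (hT.sub _ hz' (by simp))
  have hcr := fun i => ins_cramer u v z z' i
  have hc0 := hcr 0
  rw [hz0', hu0, hv0, hz0, hG, hG'] at hc0
  set a := dt ![z', v, z] with ha
  set b := dt ![u, z', z] with hb
  -- `- z' = a u + b v + z`
  have hH : dt ![p, q, z] + dt ![p, q, z'] = (-a) * dt ![p, q, u] + (-b) * dt ![p, q, v] := by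
    have e1 := hcr 1
    have e2 := hcr 2
    rw [hG, hG'] at e1 e2
    simp only [ins_dt, hp0, hq0, hu0, hv0, hz0, hz0']
    linear_combination (p 1 - q 1) * e2 - (p 2 - q 2) * e1 - (p 1 * q 2 - p 2 * q 1) * hc0
  have hb2 : b = -2 - a := by omega
  have hHD := hc.hu
  have hHv := hc.hv
  have ha1 : a = -1 := by
    have e1 : (-a) * (dt ![p, q, u] - dt ![p, q, v]) =
        (dt ![p, q, z] - dt ![p, q, v]) + (dt ![p, q, z'] - dt ![p, q, v]) := by
      rw [hb2] at hH
      linear_combination (-1) * hH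
    have e2 : 0 < (-a) * (dt ![p, q, u] - dt ![p, q, v]) := by omega
    have e3 : (-a) * (dt ![p, q, u] - dt ![p, q, v]) < 2 * (dt ![p, q, u] - dt ![p, q, v]) := by
      omega
    have e4 : 0 < dt ![p, q, u] - dt ![p, q, v] := by omega
    have e5 : 0 < -a := by
      by_contra h
      push Not at h
      have := mul_nonpos_of_nonpos_of_nonneg h e4.le
      omega
    have e6 : -a < 2 := lt_of_mul_lt_mul_right e3 e4.le
    omega
  have hb1 : b = -1 := by omega
  intro i
  have := hcr i
  rw [hG, hG', ha1, hb1] at this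
  omega


/-- Uniqueness of the third vertex on one side. -/
lemma ins_same (hA : LPoly A) (hT : PTri A T) {u v z w : Fin 3 → ℤ} (huv : u ≠ v)
    (hz : ({u, v, z} : Finset (Fin 3 → ℤ)) ∈ T) (hw : ({u, v, w} : Finset (Fin 3 → ℤ)) ∈ T)
    (hG : dt ![u, v, z] = 1 ∨ dt ![u, v, z] = -1) (hGw : dt ![u, v, w] = dt ![u, v, z]) :
    w = z := by
  classical
  have hu0 := hA.ht u (hT.sub _ hz (by simp))
  have hv0 := hA.ht v (hT.sub _ hz (by simp))
  have hz0 := hA.ht z (hT.sub _ hz (by simp))
  have hw0 := hA.ht w (hT.sub _ hw (by simp))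
  have hwu : w ≠ u := by
    rintro rfl; rw [ins_rep1] at hGw; omega
  have hwv : w ≠ v := by
    rintro rfl; rw [ins_rep2] at hGw; omega
  have hcr := fun i => ins_cramer u v z w i
  have hc0 := hcr 0
  rw [hw0, hu0, hv0, hz0, hGw] at hc0
  obtain ⟨m, hm⟩ : ∃ m : ℤ, ∀ i, w i + m * v i = z i + m * u i := by
    rcases hG with hG | hG
    · refine ⟨dt ![w, v, z], fun i => ?_⟩
      have h1 := hcr i
      rw [hGw, hG] at h1
      rw [hG] at hc0
      have h2 : dt ![u, w, z] = - dt ![w, v, z] := by omega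
      rw [h2] at h1
      linear_combination h1
    · refine ⟨- dt ![w, v, z], fun i => ?_⟩
      have h1 := hcr i
      rw [hGw, hG] at h1
      rw [hG] at hc0
      have h2 : dt ![u, w, z] = - dt ![w, v, z] := by omega
      rw [h2] at h1
      linear_combination (-1) * h1
  have hsub : ∀ a b c x y : Fin 3 → ℤ, ({a, b, c} : Finset (Fin 3 → ℤ)) ∈ T →
      x ∈ ({a, b, c} : Finset (Fin 3 → ℤ)) → y ∈ ({a, b, c} : Finset (Fin 3 → ℤ)) →
      ({x, y} : Finset (Fin 3 → ℤ)) ∈ T := by
    intro a b c x y h hx hy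
    refine hT.cx.down _ h _ ?_
    intro t ht
    rw [Finset.mem_insert, Finset.mem_singleton] at ht
    rcases ht with rfl | rfl
    · exact hx
    · exact hy
  rcases lt_trichotomy m 0 with h | h | h
  · have hmR : (0:ℝ) < -(m : ℝ) := by
      have : (m : ℝ) < 0 := by exact_mod_cast h
      linarith
    have h1 : single w (1:ℝ) + single u (-(m:ℝ)) = single z 1 + single v (-(m:ℝ)) := by
      refine hT.cx.inj (ins_w2 T hT.cx (hsub u v w w u hw (by simp) (by simp)) zero_le_one hmR.le)
        (ins_w2 T hT.cx (hsub u v z z v hz (by simp) (by simp)) zero_le_one hmR.le) ?_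
      rw [ins_lc2, ins_lc2]
      funext i
      have h2 := hm i
      have h3 : (w i : ℝ) + m * v i = z i + m * u i := by exact_mod_cast h2
      simp only [Pi.add_apply, Pi.smul_apply, smul_eq_mul, rv]
      linarith
    have h2 := DFunLike.congr_fun h1 w
    rw [Finsupp.add_apply, Finsupp.add_apply, Finsupp.single_eq_same,
      Finsupp.single_eq_of_ne hwu, Finsupp.single_eq_of_ne hwv] at h2
    by_contra hne
    rw [Finsupp.single_eq_of_ne hne] at h2
    norm_num at h2
  · funext i
    have := hm i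
    rw [h] at this
    linarith
  · have hmR : (0:ℝ) < (m : ℝ) := by exact_mod_cast h
    have h1 : single w (1:ℝ) + single v (m:ℝ) = single z 1 + single u (m:ℝ) := by
      refine hT.cx.inj (ins_w2 T hT.cx (hsub u v w w v hw (by simp) (by simp)) zero_le_one hmR.le)
        (ins_w2 T hT.cx (hsub u v z z u hz (by simp) (by simp)) zero_le_one hmR.le) ?_
      rw [ins_lc2, ins_lc2]
      funext i
      have h2 := hm i
      have h3 : (w i : ℝ) + m * v i = z i + m * u i := by exact_mod_cast h2
      simp only [Pi.add_apply, Pi.smul_apply, smul_eq_mul, rv]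
      linarith
    have h2 := DFunLike.congr_fun h1 w
    rw [Finsupp.add_apply, Finsupp.add_apply, Finsupp.single_eq_same,
      Finsupp.single_eq_of_ne hwu, Finsupp.single_eq_of_ne hwv] at h2
    by_contra hne
    rw [Finsupp.single_eq_of_ne hne] at h2
    norm_num at h2

lemma ins_supp2 {a b : Fin 3 → ℤ} (hab : a ≠ b) :
    (single a (1:ℝ) + single b 1).support = {a, b} := by
  classical
  ext x
  rw [Finsupp.mem_support_iff, Finsupp.add_apply, Finsupp.single_apply, Finsupp.single_apply,
    Finset.mem_insert, Finset.mem_singleton]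
  by_cases h1 : a = x
  · subst h1
    rw [if_pos rfl, if_neg (Ne.symm hab)]
    simp
  · rw [if_neg h1]
    by_cases h2 : b = x
    · subst h2
      simp
    · rw [if_neg h2]
      simp [Ne.symm h1, Ne.symm h2]

lemma ins_perm {a b c : Fin 3 → ℤ} (h : |dt ![a, b, c]| = 1) (f : Fin 3 → Fin 3 → ℤ)
    (hf : Function.Injective f) (hm : ∀ i, f i = a ∨ f i = b ∨ f i = c) : |dt f| = 1 := by
  have hfe : f = ![f 0, f 1, f 2] := by
    funext i; fin_cases i <;> rfl
  have h01 : f 0 ≠ f 1 := fun h => absurd (hf h) (by decide)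
  have h02 : f 0 ≠ f 2 := fun h => absurd (hf h) (by decide)
  have h12 : f 1 ≠ f 2 := fun h => absurd (hf h) (by decide)
  have key : ∀ s : ℤ, (s = 1 ∨ s = -1) → dt ![f 0, f 1, f 2] = s * dt ![a, b, c] → |dt f| = 1 := by
    intro s hs he
    rw [hfe, he, abs_mul, h]
    rcases hs with rfl | rfl <;> simp
  rcases hm 0 with h0 | h0 | h0 <;> rcases hm 1 with h1 | h1 | h1 <;>
    rcases hm 2 with h2 | h2 | h2 <;>
    first
    | exact absurd (h0.trans h1.symm) h01
    | exact absurd (h0.trans h2.symm) h02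
    | exact absurd (h1.trans h2.symm) h12
    | exact key 1 (Or.inl rfl) (by rw [h0, h1, h2]; simp only [ins_dt]; ring1)
    | exact key (-1) (Or.inr rfl) (by rw [h0, h1, h2]; simp only [ins_dt]; ring1)

/-- One flip. -/
lemma ins_step (hF : S_FLIP) (hA : LPoly A) (hT : PTri A T) {u v z z' : Fin 3 → ℤ}
    (hz : ({u, v, z} : Finset (Fin 3 → ℤ)) ∈ T) (hz' : ({u, v, z'} : Finset (Fin 3 → ℤ)) ∈ T)
    (hG : dt ![u, v, z] = -1) (hG' : dt ![u, v, z'] = 1) (hpar : ∀ i, z i + z' i = u i + v i) :
    ∃ T' : Set (Finset (Fin 3 → ℤ)), PTri A T' ∧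
      (∀ s ∈ T, ¬ ({u, v} : Finset (Fin 3 → ℤ)) ⊆ s → s ∈ T') ∧
      (∀ a b : Fin 3 → ℤ, a ≠ b → ({a, b} : Finset (Fin 3 → ℤ)) ∈ T' →
        (({a, b} : Finset (Fin 3 → ℤ)) ∈ T ∧ ¬ ({u, v} : Finset (Fin 3 → ℤ)) ⊆ {a, b}) ∨
        (a = z ∧ b = z') ∨ (a = z' ∧ b = z)) := by
  classical
  have hzu : z ≠ u := by
    rintro rfl; rw [ins_rep1] at hG; omega
  have hzv : z ≠ v := by
    rintro rfl; rw [ins_rep2] at hG; omega
  have hzu' : z' ≠ u := by
    rintro rfl; rw [ins_rep1] at hG'; omega
  have hzv' : z' ≠ v := by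
    rintro rfl; rw [ins_rep2] at hG'; omega
  have huv : u ≠ v := by
    rintro rfl
    have : dt ![u, u, z] = 0 := by rw [ins_dt]; ring
    omega
  have hzz : z ≠ z' := by
    rintro rfl; omega
  -- faces containing the edge
  have hstar : ∀ s ∈ T, ({u, v} : Finset (Fin 3 → ℤ)) ⊆ s → ∀ w ∈ s,
      w = u ∨ w = v ∨ w = z ∨ w = z' := by
    intro s hs hsub w hw
    by_cases h1 : w = u
    · exact Or.inl h1
    by_cases h2 : w = v
    · exact Or.inr (Or.inl h2)
    have h3 : ({u, v, w} : Finset (Fin 3 → ℤ)) ∈ T := by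
      refine hT.cx.down _ hs _ ?_
      intro x hx
      rw [Finset.mem_insert, Finset.mem_insert, Finset.mem_singleton] at hx
      rcases hx with rfl | rfl | rfl
      · exact hsub (by simp)
      · exact hsub (by simp)
      · exact hw
    rcases ins_uni hT h3 huv (Ne.symm h2) (Ne.symm h1) with h4 | h4
    · exact Or.inr (Or.inr (Or.inr (ins_same hA hT huv hz' h3 (Or.inl hG') (by rw [h4, hG']))))
    · exact Or.inr (Or.inr (Or.inl (ins_same hA hT huv hz h3 (Or.inr hG) (by rw [h4, hG]))))
  have huA : u ∈ A := hT.sub _ hz (by simp)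
  have hvA : v ∈ A := hT.sub _ hz (by simp)
  have hzA : z ∈ A := hT.sub _ hz (by simp)
  have hzA' : z' ∈ A := hT.sub _ hz' (by simp)
  set c : (Fin 3 → ℤ) →₀ ℝ := single u 1 + single v 1 with hc
  set d : (Fin 3 → ℤ) →₀ ℝ := single z 1 + single z' 1 with hd
  have hcs : c.support = {u, v} := ins_supp2 huv
  have hds : d.support = {z, z'} := ins_supp2 hzz
  have hnn : ∀ a b : Fin 3 → ℤ, ∀ x, 0 ≤ (single a (1:ℝ) + single b 1 : (Fin 3 → ℤ) →₀ ℝ) x := by
    intro a b x
    rw [Finsupp.add_apply, Finsupp.single_apply, Finsupp.single_apply]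
    split_ifs <;> norm_num
  have hflip := hF 3 T c d hT.cx (hnn u v) (hnn z z')
    (by
      rw [hcs, hds, Finset.disjoint_left]
      intro x hx hx'
      rw [Finset.mem_insert, Finset.mem_singleton] at hx hx'
      rcases hx with rfl | rfl <;> rcases hx' with h | h
      · exact hzu h.symm
      · exact hzu' h.symm
      · exact hzv h.symm
      · exact hzv' h.symm)
    (by
      intro h
      have : c.support = ∅ := by rw [h]; exact Finsupp.support_zero
      rw [hcs] at this
      exact (Finset.insert_ne_empty _ _) this)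
    (by
      intro h
      have : d.support = ∅ := by rw [h]; exact Finsupp.support_zero
      rw [hds] at this
      exact (Finset.insert_ne_empty _ _) this)
    (by
      rw [hc, hd, ins_lc2, ins_lc2]
      funext i
      have h1 := hpar i
      have h2 : (z i : ℝ) + z' i = u i + v i := by exact_mod_cast h1
      simp only [Pi.add_apply, Pi.smul_apply, smul_eq_mul, rv, one_mul]
      exact h2.symm)
    (by
      rw [hcs, hds]
      intro s hs hsub y hy hys t ht
      rw [Finset.mem_insert, Finset.mem_singleton] at hy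
      rcases hy with rfl | rfl
      · refine hT.cx.down _ hz' _ fun w hw => ?_
        have h1 := ht w hw
        rw [Finset.mem_insert, Finset.mem_insert, Finset.mem_singleton]
        rcases h1 with h1 | ⟨h1, h2⟩
        · rcases hstar s hs hsub w h1 with h3 | h3 | h3 | h3
          · exact Or.inl h3
          · exact Or.inr (Or.inl h3)
          · exact absurd (h3 ▸ h1) hys
          · exact Or.inr (Or.inr h3)
        · rw [Finset.mem_insert, Finset.mem_singleton] at h1
          exact Or.inr (Or.inr (h1.resolve_left h2))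
      · refine hT.cx.down _ hz _ fun w hw => ?_
        have h1 := ht w hw
        rw [Finset.mem_insert, Finset.mem_insert, Finset.mem_singleton]
        rcases h1 with h1 | ⟨h1, h2⟩
        · rcases hstar s hs hsub w h1 with h3 | h3 | h3 | h3
          · exact Or.inl h3
          · exact Or.inr (Or.inl h3)
          · exact Or.inr (Or.inr h3)
          · exact absurd (h3 ▸ h1) hys
        · rw [Finset.mem_insert, Finset.mem_singleton] at h1
          exact Or.inr (Or.inr (h1.resolve_right h2)))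
  rw [hcs, hds] at hflip
  -- faces of the second kind
  have hsec : ∀ s : Finset (Fin 3 → ℤ), (∃ t ∈ T, ({u, v} : Finset (Fin 3 → ℤ)) ⊆ t ∧
      ∃ x ∈ ({u, v} : Finset (Fin 3 → ℤ)), ∀ y ∈ s,
        (y ∈ t ∧ y ≠ x) ∨ y ∈ ({z, z'} : Finset (Fin 3 → ℤ))) →
      (∀ y ∈ s, y = v ∨ y = z ∨ y = z') ∨ (∀ y ∈ s, y = u ∨ y = z ∨ y = z') := by
    rintro s ⟨t, ht, hsub, x, hx, hs⟩
    rw [Finset.mem_insert, Finset.mem_singleton] at hx
    rcases hx with rfl | rfl
    · left
      intro y hy
      rcases hs y hy with ⟨h1, h2⟩ | h1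
      · rcases hstar t ht hsub y h1 with h3 | h3 | h3 | h3
        · exact absurd h3 h2
        · exact Or.inl h3
        · exact Or.inr (Or.inl h3)
        · exact Or.inr (Or.inr h3)
      · rw [Finset.mem_insert, Finset.mem_singleton] at h1
        exact Or.inr h1
    · right
      intro y hy
      rcases hs y hy with ⟨h1, h2⟩ | h1
      · rcases hstar t ht hsub y h1 with h3 | h3 | h3 | h3
        · exact Or.inl h3
        · exact absurd h3 h2
        · exact Or.inr (Or.inl h3)
        · exact Or.inr (Or.inr h3)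
      · rw [Finset.mem_insert, Finset.mem_singleton] at h1
        exact Or.inr h1
  have hzz' : ∀ i, z' i = u i + v i - z i := fun i => by have := hpar i; omega
  refine ⟨flipFan T {u, v} {z, z'}, ⟨hflip.1, ?_, ?_, ?_, ?_⟩, ?_, ?_⟩
  · rintro s (⟨hs, _⟩ | hs)
    · exact hT.sub s hs
    · intro y hy
      rcases hsec s hs with h | h <;> rcases h y hy with h | h | h <;> rw [h] <;> assumption
  · intro x hx
    refine Or.inl ⟨hT.vert x hx, fun hsub => huv ?_⟩
    have h1 := hsub (show u ∈ ({u, v} : Finset (Fin 3 → ℤ)) by simp)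
    have h2 := hsub (show v ∈ ({u, v} : Finset (Fin 3 → ℤ)) by simp)
    rw [Finset.mem_singleton] at h1 h2
    rw [h1, h2]
  · rw [hflip.2]; exact hT.supp_eq
  · rintro s (⟨hs, _⟩ | hs) f hf hfs
    · exact hT.uni s hs f hf hfs
    · rcases hsec s hs with h | h
      · refine ins_perm (a := v) (b := z) (c := z') ?_ f hf fun i => h _ (hfs i)
        have e : dt ![v, z, z'] = dt ![u, v, z] := by
          rw [ins_dt, ins_dt, hzz' 0, hzz' 1, hzz' 2]; ring
        rw [e, hG]; norm_num
      · refine ins_perm (a := u) (b := z) (c := z') ?_ f hf fun i => h _ (hfs i)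
        have e : dt ![u, z, z'] = - dt ![u, v, z] := by
          rw [ins_dt, ins_dt, hzz' 0, hzz' 1, hzz' 2]; ring
        rw [e, hG]; norm_num
  · intro s hs hsub
    exact Or.inl ⟨hs, hsub⟩
  · rintro a b hab (⟨hs, hsub⟩ | hs)
    · exact Or.inl ⟨hs, hsub⟩
    · have hin : ∀ x y w : Fin 3 → ℤ, (x = u ∨ x = v) → ({u, v, w} : Finset (Fin 3 → ℤ)) ∈ T →
          w ≠ u → w ≠ v → (a = x ∧ b = w) ∨ (a = w ∧ b = x) →
          (({a, b} : Finset (Fin 3 → ℤ)) ∈ T ∧ ¬ ({u, v} : Finset (Fin 3 → ℤ)) ⊆ {a, b}) := by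
        intro x y w hx hw hwu hwv hxab
        have h1 : ({a, b} : Finset (Fin 3 → ℤ)) = {x, w} := by
          rcases hxab with ⟨rfl, rfl⟩ | ⟨rfl, rfl⟩
          · rfl
          · exact Finset.pair_comm _ _
        rw [h1]
        refine ⟨hT.cx.down _ hw _ ?_, ?_⟩
        · intro t ht
          rw [Finset.mem_insert, Finset.mem_singleton] at ht
          rw [Finset.mem_insert, Finset.mem_insert, Finset.mem_singleton]
          rcases ht with rfl | rfl
          · rcases hx with h | h
            · exact Or.inl h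
            · exact Or.inr (Or.inl h)
          · exact Or.inr (Or.inr rfl)
        · intro hsub
          have h2 := hsub (show u ∈ ({u, v} : Finset (Fin 3 → ℤ)) by simp)
          have h3 := hsub (show v ∈ ({u, v} : Finset (Fin 3 → ℤ)) by simp)
          rw [Finset.mem_insert, Finset.mem_singleton] at h2 h3
          rcases h2 with h2 | h2
          · rcases h3 with h3 | h3
            · exact huv (h2.trans h3.symm)
            · exact hwv h3.symm
          · exact hwu h2.symm
      rcases hsec _ hs with h | h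
      · rcases h a (by simp) with ha | ha | ha <;> rcases h b (by simp) with hb | hb | hb
        · exact absurd (ha.trans hb.symm) hab
        · exact Or.inl (hin v v z (Or.inr rfl) hz hzu hzv (Or.inl ⟨ha, hb⟩))
        · exact Or.inl (hin v v z' (Or.inr rfl) hz' hzu' hzv' (Or.inl ⟨ha, hb⟩))
        · exact Or.inl (hin v v z (Or.inr rfl) hz hzu hzv (Or.inr ⟨ha, hb⟩))
        · exact absurd (ha.trans hb.symm) hab
        · exact Or.inr (Or.inl ⟨ha, hb⟩)
        · exact Or.inl (hin v v z' (Or.inr rfl) hz' hzu' hzv' (Or.inr ⟨ha, hb⟩))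
        · exact Or.inr (Or.inr ⟨ha, hb⟩)
        · exact absurd (ha.trans hb.symm) hab
      · rcases h a (by simp) with ha | ha | ha <;> rcases h b (by simp) with hb | hb | hb
        · exact absurd (ha.trans hb.symm) hab
        · exact Or.inl (hin u u z (Or.inl rfl) hz hzu hzv (Or.inl ⟨ha, hb⟩))
        · exact Or.inl (hin u u z' (Or.inl rfl) hz' hzu' hzv' (Or.inl ⟨ha, hb⟩))
        · exact Or.inl (hin u u z (Or.inl rfl) hz hzu hzv (Or.inr ⟨ha, hb⟩))
        · exact absurd (ha.trans hb.symm) hab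
        · exact Or.inr (Or.inl ⟨ha, hb⟩)
        · exact Or.inl (hin u u z' (Or.inl rfl) hz' hzu' hzv' (Or.inr ⟨ha, hb⟩))
        · exact Or.inr (Or.inr ⟨ha, hb⟩)
        · exact absurd (ha.trans hb.symm) hab

open Classical in
/-- The crossing edges. -/
noncomputable def insE (A : Finset (Fin 3 → ℤ)) (T : Set (Finset (Fin 3 → ℤ)))
    (p q : Fin 3 → ℤ) : Finset ((Fin 3 → ℤ) × (Fin 3 → ℤ)) :=
  (A ×ˢ A).filter fun e => ({e.1, e.2} : Finset (Fin 3 → ℤ)) ∈ T ∧ InsCrs p q e.1 e.2

lemma mem_insE (hT : PTri A T) {a b : Fin 3 → ℤ} :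
    (a, b) ∈ insE A T p q ↔ ({a, b} : Finset (Fin 3 → ℤ)) ∈ T ∧ InsCrs p q a b := by
  classical
  unfold insE
  rw [Finset.mem_filter, Finset.mem_product]
  constructor
  · exact fun h => h.2
  · intro h
    exact ⟨⟨hT.sub _ h.1 (by simp), hT.sub _ h.1 (by simp)⟩, h⟩

end

theorem ins (hF : S_FLIP) (hAdj : S_ADJ) : S_INS := by
  classical
  intro A T0 hA hT0 p q hpq
  let wt : (Fin 3 → ℤ) × (Fin 3 → ℤ) → ℕ := fun e => (dt ![p, q, e.1] - dt ![p, q, e.2]).toNat
  suffices key : ∀ k : ℕ, ∀ T : Set (Finset (Fin 3 → ℤ)), PTri A T → ∑ e ∈ insE A T p q, wt e = k →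
      ∃ T' : Set (Finset (Fin 3 → ℤ)), PTri A T' ∧ ({p, q} : Finset (Fin 3 → ℤ)) ∈ T' ∧
      ∀ u v : Fin 3 → ℤ, ({u, v} : Finset (Fin 3 → ℤ)) ∈ T → ¬ Cross p q u v →
        ({u, v} : Finset (Fin 3 → ℤ)) ∈ T' from key _ T0 hT0 rfl
  intro k
  induction k using Nat.strong_induction_on with
  | _ k ih =>
    intro T hT hk
    by_cases hpqT : ({p, q} : Finset (Fin 3 → ℤ)) ∈ T
    · exact ⟨T, hT, hpqT, fun u v h _ => h⟩
    obtain ⟨a, b, hab, hcab⟩ := ins_exists hA hT hpq hpqT
    have hne : (insE A T p q).Nonempty := ⟨(a, b), (mem_insE hT).2 ⟨hab, hcab⟩⟩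
    obtain ⟨⟨u, v⟩, huvE, hmax⟩ := Finset.exists_max_image (insE A T p q)
      (fun e => dt ![p, q, e.1] - dt ![p, q, e.2]) hne
    obtain ⟨huvT, hc⟩ := (mem_insE hT).1 huvE
    have hmaxC : InsMax T p q u v := fun a b hab hcab => hmax (a, b) ((mem_insE hT).2 ⟨hab, hcab⟩)
    obtain ⟨hpA, hqA, hpq1, _⟩ := id hpq
    have huA : u ∈ A := hT.sub _ huvT (by simp)
    have hvA : v ∈ A := hT.sub _ huvT (by simp)
    have hHu : (0:ℝ) < (dt ![p, q, u] : ℝ) := by exact_mod_cast hc.hu
    have hHv : (dt ![p, q, v] : ℝ) < 0 := by exact_mod_cast hc.hv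
    obtain ⟨⟨z', hz', hG'⟩, ⟨z, hz, hG⟩⟩ := hAdj A T hA hT u v hc.ne huvT
      (-(dt ![p, q, v] : ℝ)) (dt ![p, q, u] : ℝ) (by linarith) hHu
      (ins_interior hpA hqA huA hvA hc)
    have hzu : u ≠ z := by
      rintro rfl; rw [ins_rep1] at hG; omega
    have hzv : v ≠ z := by
      rintro rfl; rw [ins_rep2] at hG; omega
    have hzu' : u ≠ z' := by
      rintro rfl; rw [ins_rep1] at hG'; omega
    have hzv' : v ≠ z' := by
      rintro rfl; rw [ins_rep2] at hG'; omega
    have hGz : dt ![u, v, z] = -1 := by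
      rcases ins_uni hT hz hc.ne hzv hzu with h | h <;> omega
    have hGz' : dt ![u, v, z'] = 1 := by
      rcases ins_uni hT hz' hc.ne hzv' hzu' with h | h <;> omega
    have h1 := ins_upper hA hT hpA hqA hc hmaxC hz hzu hzv
    have h2 := ins_lower hA hT hpA hqA hc hmaxC hz hzu hzv
    have h3 := ins_upper hA hT hpA hqA hc hmaxC hz' hzu' hzv'
    have h4 := ins_lower hA hT hpA hqA hc hmaxC hz' hzu' hzv'
    have hpar := ins_para hA hT hpA hqA hc hmaxC hz hz' hGz hGz'
    obtain ⟨T1, hT1, hkeep, hnew⟩ := ins_step hF hA hT hz hz' hGz hGz' hpar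
    -- the measure drops
    let e0 : (Fin 3 → ℤ) × (Fin 3 → ℤ) := if dt ![p, q, z'] < dt ![p, q, z] then (z, z') else (z', z)
    have he0 : wt e0 < wt (u, v) := by
      simp only [wt, e0]
      split_ifs with h5
      · show (dt ![p, q, z] - dt ![p, q, z']).toNat < (dt ![p, q, u] - dt ![p, q, v]).toNat
        omega
      · show (dt ![p, q, z'] - dt ![p, q, z]).toNat < (dt ![p, q, u] - dt ![p, q, v]).toNat
        omega
    have hsub : insE A T1 p q ⊆ insert e0 ((insE A T p q).erase (u, v)) := by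
      rintro ⟨a, b⟩ hE
      obtain ⟨hab, hcab⟩ := (mem_insE hT1).1 hE
      rw [Finset.mem_insert, Finset.mem_erase, mem_insE hT]
      rcases hnew a b hcab.ne hab with ⟨h5, h6⟩ | ⟨rfl, rfl⟩ | ⟨rfl, rfl⟩
      · right
        refine ⟨?_, h5, hcab⟩
        intro he
        rw [Prod.mk.injEq] at he
        obtain ⟨rfl, rfl⟩ := he
        exact h6 (Finset.Subset.refl _)
      · left
        have h5 := hcab.hu
        have h6 := hcab.hv
        simp only [e0]
        rw [if_pos (by omega)]
      · left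
        have h5 := hcab.hu
        have h6 := hcab.hv
        simp only [e0]
        rw [if_neg (by omega)]
    have hlt : ∑ e ∈ insE A T1 p q, wt e < k := by
      have h5 : ∑ e ∈ insE A T1 p q, wt e ≤
          ∑ e ∈ insert e0 ((insE A T p q).erase (u, v)), wt e :=
        Finset.sum_le_sum_of_subset hsub
      have h6 : ∑ e ∈ insert e0 ((insE A T p q).erase (u, v)), wt e ≤
          wt e0 + ∑ e ∈ (insE A T p q).erase (u, v), wt e := by
        by_cases h7 : e0 ∈ (insE A T p q).erase (u, v)
        · rw [Finset.insert_eq_of_mem h7]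
          exact Nat.le_add_left _ _
        · rw [Finset.sum_insert h7]
      have h7 := Finset.add_sum_erase (insE A T p q) wt huvE
      omega
    obtain ⟨T2, hT2, hpq2, hkeep2⟩ := ih _ hlt T1 hT1 rfl
    refine ⟨T2, hT2, hpq2, fun a b hab hcr => hkeep2 a b (hkeep _ hab fun hsub2 => hcr ?_) hcr⟩
    have h5 := hsub2 (show u ∈ ({u, v} : Finset (Fin 3 → ℤ)) by simp)
    have h6 := hsub2 (show v ∈ ({u, v} : Finset (Fin 3 → ℤ)) by simp)
    rw [Finset.mem_insert, Finset.mem_singleton] at h5 h6
    rcases h5 with h5 | h5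
    · rcases h6 with h6 | h6
      · exact absurd (h5.trans h6.symm) hc.ne
      · rw [← h5, ← h6]; exact hc.cross
    · rcases h6 with h6 | h6
      · rw [← h5, ← h6]; exact hc.cross'
      · exact absurd (h5.trans h6.symm) hc.ne

end H6BW
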