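import Pool.Agent.Work.MP_6237c7_co.BW.Defs

/-!
MP_6237c7_co, module PLACEL: placing fans along a list, with the restriction property.
-/

set_option autoImplicit false

namespace H6BW

open Finsupp H79KMW

open Classical in
/-- The placing fan of a list (the head is placed last). -/
private noncomputable def placelPl {n : ℕ} : List (Fin n → ℤ) → Set (Finset (Fin n → ℤ))
  | [] => {∅}
  | q :: l => if rv q ∈ supp id (placelPl l) then placelPl l else place (placelPl l) q

private lemma placel_nil {n : ℕ} : IsCx id ({∅} : Set (Finset (Fin n → ℤ))) ∧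
    supp id ({∅} : Set (Finset (Fin n → ℤ))) = coneOf (∅ : Finset (Fin n → ℤ)) := by
  classical
  have hbody : body ({∅} : Set (Finset (Fin n → ℤ))) = {0} := by
    ext w
    constructor
    · rintro ⟨_, hw⟩
      exact Finsupp.support_eq_empty.1 hw
    · intro hw
      rw [Set.mem_singleton_iff] at hw
      subst hw
      exact ⟨fun _ => le_rfl, by simp⟩
  refine ⟨⟨Set.finite_singleton _, ?_, ?_⟩, ?_⟩
  · intro s hs t ht
    rw [Set.mem_singleton_iff] at hs ⊢
    subst hs
    exact Finset.subset_empty.1 ht
  · rw [hbody]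
    exact Set.injOn_singleton _ _
  · unfold supp coneOf
    rw [hbody, Set.image_singleton, map_zero]
    ext y
    constructor
    · intro hy
      rw [Set.mem_singleton_iff] at hy
      exact ⟨0, fun _ => le_rfl, by simp, by rw [map_zero, hy]⟩
    · rintro ⟨a, _, has, rfl⟩
      have : a = 0 := Finsupp.support_eq_empty.1 (Finset.subset_empty.1 has)
      rw [this, map_zero]; rfl

private lemma placel_basic {n : ℕ} (l : List (Fin n → ℤ)) :
    IsCx id (placelPl l) ∧ (∀ s ∈ placelPl l, s ⊆ l.toFinset) ∧
      supp id (placelPl l) = coneOf l.toFinset := by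
  classical
  induction l with
  | nil =>
    refine ⟨placel_nil.1, ?_, placel_nil.2⟩
    intro s hs
    have : s = ∅ := hs
    rw [this]
    exact Finset.empty_subset _
  | cons q l ih =>
    obtain ⟨hC, hCP, hsupp⟩ := ih
    have hins := coneOf_insert l.toFinset q
    by_cases hp : rv q ∈ supp id (placelPl l)
    · have hdef : placelPl (q :: l) = placelPl l := by
        rw [placelPl, if_pos hp]
      rw [hdef, List.toFinset_cons]
      refine ⟨hC, fun s hs => (hCP s hs).trans (Finset.subset_insert _ _), ?_⟩
      rw [hins, hsupp]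
      ext y
      constructor
      · intro hy
        exact ⟨y, hy, 0, le_rfl, by rw [zero_smul, add_zero]⟩
      · rintro ⟨z, hz, α, hα, rfl⟩
        rw [hsupp] at hp
        exact coneOf_add _ hz (coneOf_smul _ hp hα)
    · have hdef : placelPl (q :: l) = place (placelPl l) q := by
        rw [placelPl, if_neg hp]
      rw [hdef, List.toFinset_cons]
      have hadd : ∀ x ∈ supp id (placelPl l), ∀ y ∈ supp id (placelPl l),
          x + y ∈ supp id (placelPl l) := by
        rw [hsupp]
        exact fun x hx y hy => coneOf_add _ hx hy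
      refine ⟨place_isCx hC hadd hp, ?_, ?_⟩
      · rintro s (hs | ⟨t, ht, _, hst⟩)
        · exact (hCP s hs).trans (Finset.subset_insert _ _)
        · intro x hx
          have : x ∈ (s : Set (Fin n → ℤ)) := Finset.mem_coe.2 hx
          rw [hst] at this
          rcases this with h | h
          · rw [h]; exact Finset.mem_insert_self _ _
          · exact Finset.mem_insert_of_mem (hCP t ht h)
      · rw [place_supp hC hadd hp, hins, hsupp]

/-- A nonnegative combination of vectors with `lam ≥ 0` and value `0` uses only vectors with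
`lam = 0`. -/
private lemma placel_lam {n : ℕ} (lam : (Fin n → ℝ) →ₗ[ℝ] ℝ) (a : (Fin n → ℤ) →₀ ℝ) :
    lam (lc id a) = ∑ x ∈ a.support, a x * lam (rv x) := by
  rw [lc, Finsupp.linearCombination_apply, Finsupp.sum, map_sum]
  refine Finset.sum_congr rfl fun x _ => ?_
  rw [map_smul, smul_eq_mul]
  rfl

private lemma placel_cone {n : ℕ} (l : List (Fin n → ℤ)) (lam : (Fin n → ℝ) →ₗ[ℝ] ℝ)
    (p : (Fin n → ℤ) → Bool) (h0 : ∀ x ∈ l, 0 ≤ lam (rv x))
    (hp : ∀ x ∈ l, p x = true ↔ lam (rv x) = 0) (y : Fin n → ℝ) (hy : lam y = 0) :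
    y ∈ coneOf l.toFinset ↔ y ∈ coneOf (l.filter p).toFinset := by
  classical
  constructor
  · rintro ⟨a, ha, has, rfl⟩
    refine ⟨a, ha, fun x hx => ?_, rfl⟩
    rw [placel_lam] at hy
    have hxl : x ∈ l := List.mem_toFinset.1 (has hx)
    have hnn : ∀ z ∈ a.support, 0 ≤ a z * lam (rv z) := fun z hz =>
      mul_nonneg (ha z) (h0 z (List.mem_toFinset.1 (has hz)))
    have h1 := (Finset.sum_eq_zero_iff_of_nonneg hnn).1 hy x hx
    have h2 : lam (rv x) = 0 := by
      rcases mul_eq_zero.1 h1 with h | h
      · exact absurd h (Finsupp.mem_support_iff.1 hx)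
      · exact h
    rw [List.mem_toFinset, List.mem_filter]
    exact ⟨hxl, (hp x hxl).2 h2⟩
  · rintro ⟨a, ha, has, rfl⟩
    refine ⟨a, ha, fun x hx => ?_, rfl⟩
    have := has hx
    rw [List.mem_toFinset, List.mem_filter] at this
    exact List.mem_toFinset.2 this.1

private lemma placel_vis {n : ℕ} (l : List (Fin n → ℤ)) (lam : (Fin n → ℝ) →ₗ[ℝ] ℝ)
    (p : (Fin n → ℤ) → Bool) (h0 : ∀ x ∈ l, 0 ≤ lam (rv x))
    (hp : ∀ x ∈ l, p x = true ↔ lam (rv x) = 0) (q : Fin n → ℤ) (hq : lam (rv q) = 0)
    (t : Finset (Fin n → ℤ)) (ht : ∀ x ∈ t, lam (rv x) = 0) :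
    Vis (coneOf l.toFinset) q t ↔ Vis (coneOf (l.filter p).toFinset) q t := by
  have key : ∀ a : (Fin n → ℤ) →₀ ℝ, a.support = t → ∀ ε : ℝ,
      (lc id a + ε • rv q ∈ coneOf l.toFinset ↔
        lc id a + ε • rv q ∈ coneOf (l.filter p).toFinset) := by
    intro a ha ε
    apply placel_cone l lam p h0 hp
    rw [map_add, map_smul, hq, smul_zero, add_zero, placel_lam]
    refine Finset.sum_eq_zero fun x hx => ?_
    rw [ht x (ha ▸ hx), mul_zero]
  constructor
  · intro h a ha has ε hε hmem
    exact h a ha has ε hε ((key a has ε).2 hmem)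
  · intro h a ha has ε hε hmem
    exact h a ha has ε hε ((key a has ε).1 hmem)

private lemma placel_filter {n : ℕ} (l : List (Fin n → ℤ)) (lam : (Fin n → ℝ) →ₗ[ℝ] ℝ)
    (p : (Fin n → ℤ) → Bool) (h0 : ∀ x ∈ l, 0 ≤ lam (rv x))
    (hp : ∀ x ∈ l, p x = true ↔ lam (rv x) = 0) :
    placelPl (l.filter p) = {s | s ∈ placelPl l ∧ ∀ x ∈ s, p x = true} := by
  classical
  induction l with
  | nil =>
    ext s
    constructor
    · intro hs
      refine ⟨hs, fun x hx => ?_⟩
      have : s = ∅ := hs
      rw [this] at hx
      exact absurd hx (Finset.notMem_empty x)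
    · exact fun hs => hs.1
  | cons q l ih =>
    have h0' : ∀ x ∈ l, 0 ≤ lam (rv x) := fun x hx => h0 x (List.mem_cons_of_mem _ hx)
    have hp' : ∀ x ∈ l, p x = true ↔ lam (rv x) = 0 := fun x hx =>
      hp x (List.mem_cons_of_mem _ hx)
    have ih' := ih h0' hp'
    obtain ⟨hC, hCP, hsupp⟩ := placel_basic l
    obtain ⟨hC', hCP', hsupp'⟩ := placel_basic (l.filter p)
    by_cases hpq : p q = true
    · have hq : lam (rv q) = 0 := (hp q List.mem_cons_self).1 hpq
      rw [List.filter_cons_of_pos hpq]
      have hiff : rv q ∈ supp id (placelPl l) ↔ rv q ∈ supp id (placelPl (l.filter p)) := by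
        rw [hsupp, hsupp']
        exact placel_cone l lam p h0' hp' _ hq
      by_cases hin : rv q ∈ supp id (placelPl l)
      · have hin' := hiff.1 hin
        rw [placelPl, if_pos hin', placelPl, if_pos hin]
        exact ih'
      · have hin' : rv q ∉ supp id (placelPl (l.filter p)) := fun h => hin (hiff.2 h)
        rw [placelPl, if_neg hin', placelPl, if_neg hin]
        ext s
        constructor
        · rintro (hs | ⟨t, ht, hv, hst⟩)
          · rw [ih'] at hs
            exact ⟨Or.inl hs.1, hs.2⟩
          · have ht2 := ht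
            rw [ih'] at ht2
            refine ⟨Or.inr ⟨t, ht2.1, ?_, hst⟩, ?_⟩
            · rw [hsupp]
              rw [hsupp'] at hv
              refine (placel_vis l lam p h0' hp' q hq t fun x hx => ?_).2 hv
              exact (hp' x (List.mem_toFinset.1 (hCP t ht2.1 hx))).1 (ht2.2 x hx)
            · intro x hx
              have : x ∈ (s : Set (Fin n → ℤ)) := Finset.mem_coe.2 hx
              rw [hst] at this
              rcases this with h | h
              · rw [h]; exact hpq
              · exact ht2.2 x h
        · rintro ⟨hs | ⟨t, ht, hv, hst⟩, hall⟩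
          · refine Or.inl ?_
            rw [ih']
            exact ⟨hs, hall⟩
          · have hallt : ∀ x ∈ t, p x = true := by
              intro x hx
              apply hall x
              rw [← Finset.mem_coe, hst]
              exact Set.mem_insert_of_mem _ (Finset.mem_coe.2 hx)
            refine Or.inr ⟨t, ?_, ?_, hst⟩
            · rw [ih']
              exact ⟨ht, hallt⟩
            · rw [hsupp']
              rw [hsupp] at hv
              refine (placel_vis l lam p h0' hp' q hq t fun x hx => ?_).1 hv
              exact (hp' x (List.mem_toFinset.1 (hCP t ht hx))).1 (hallt x hx)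
    · rw [List.filter_cons_of_neg hpq, ih']
      by_cases hin : rv q ∈ supp id (placelPl l)
      · rw [placelPl, if_pos hin]
      · rw [placelPl, if_neg hin]
        ext s
        constructor
        · rintro ⟨hs, hall⟩
          exact ⟨Or.inl hs, hall⟩
        · rintro ⟨hs | ⟨t, ht, hv, hst⟩, hall⟩
          · exact ⟨hs, hall⟩
          · exfalso
            apply hpq
            apply hall q
            rw [← Finset.mem_coe, hst]
            exact Set.mem_insert _ _

theorem placel : S_PLACEL := by
  intro n
  exact ⟨placelPl, fun l => (placel_basic l).1, fun l => (placel_basic l).2.1,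
    fun l => (placel_basic l).2.2, fun l lam p h0 hp => placel_filter l lam p h0 hp⟩

end H6BW
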