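import Pool.Agent.Work.MP_6237c7_co.BW.Defs

/-! UNB: a face contains at most one bad quadruple. -/

set_option autoImplicit false

namespace H6BW

open Finsupp H79KMW

lemma unb_image {m n : ℕ} {A : Matrix (Fin m) (Fin n) ℤ} {K : Set (Finset (Fin n → ℤ))}
    {v : Fin 4 → Fin n → ℤ} {u : Fin n → ℤ} {N c c' : ℤ} (h : Bad A K v u N c c') :
    (Finset.univ.image v).image (fun x => A.mulVec x) = {A.mulVec (v 0), A.mulVec (v 2)} := by
  classical
  ext z
  simp only [Finset.mem_image, Finset.mem_univ, true_and, exists_exists_eq_and,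
    Finset.mem_insert, Finset.mem_singleton]
  constructor
  · rintro ⟨i, rfl⟩
    fin_cases i
    · exact Or.inl rfl
    · exact Or.inl h.b01.symm
    · exact Or.inr rfl
    · exact Or.inr h.b23.symm
  · rintro (rfl | rfl)
    · exact ⟨0, rfl⟩
    · exact ⟨2, rfl⟩

lemma unb_card {m n : ℕ} {A : Matrix (Fin m) (Fin n) ℤ} {K : Set (Finset (Fin n → ℤ))}
    {v : Fin 4 → Fin n → ℤ} {u : Fin n → ℤ} {N c c' : ℤ} (h : Bad A K v u N c c') :
    (Finset.univ.image v).card = 4 := by
  classical
  rw [Finset.card_image_of_injective _ h.inj, Finset.card_univ, Fintype.card_fin]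

/-- no third group with two elements -/
lemma unb_third (hG : S_GRP) {m n : ℕ} {A : Matrix (Fin m) (Fin n) ℤ}
    {Δ : Set (Finset (Fin m → ℤ))} {K : Set (Finset (Fin n → ℤ))} (hS : Sat A Δ K)
    {s : Finset (Fin n → ℤ)} (hs : s ∈ K)
    {v : Fin 4 → Fin n → ℤ} {u : Fin n → ℤ} {N c c' : ℤ} (h : Bad A K v u N c c')
    (hv : Finset.univ.image v ⊆ s) {x y : Fin n → ℤ} (hx : x ∈ s) (hy : y ∈ s) (hxy : x ≠ y)
    (hA : A.mulVec x = A.mulVec y) : A.mulVec x = A.mulVec (v 0) ∨ A.mulVec x = A.mulVec (v 2) := by
  classical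
  by_contra hcon
  push Not at hcon
  obtain ⟨h0, h2⟩ := hcon
  have hn : ∀ z : Fin n → ℤ, A.mulVec z = A.mulVec x → z ∉ Finset.univ.image v := by
    intro z hz hz'
    have h1 := Finset.mem_image_of_mem (fun x => A.mulVec x) hz'
    rw [unb_image h, Finset.mem_insert, Finset.mem_singleton, hz] at h1
    rcases h1 with h1 | h1
    · exact h0 h1
    · exact h2 h1
  have hxn := hn x rfl
  have hyn := hn y hA.symm
  have ht : insert x (insert y (Finset.univ.image v)) ∈ K := by
    refine hS.cx.down s hs _ ?_
    intro z hz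
    rw [Finset.mem_insert, Finset.mem_insert] at hz
    rcases hz with rfl | rfl | hz
    · exact hx
    · exact hy
    · exact hv hz
  have h3 := hG m n A Δ K hS _ ht
  rw [Finset.card_insert_of_notMem, Finset.card_insert_of_notMem hyn, unb_card h,
    Finset.image_insert, Finset.image_insert, unb_image h] at h3
  · have h4 : (insert (A.mulVec x) (insert (A.mulVec y)
        ({A.mulVec (v 0), A.mulVec (v 2)} : Finset (Fin m → ℤ)))).card ≤ 3 := by
      rw [← hA, Finset.insert_idem]
      exact Finset.card_le_three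
    omega
  · rw [Finset.mem_insert]
    rintro (h5 | h5)
    · exact hxy h5
    · exact hxn h5

theorem unb (hG : S_GRP) : S_UNB := by
  classical
  intro m n A Δ K hS s hs v v' u u' N c d N' c' d' h h' hv hv'
  have hm : ∀ i, v' i ∈ s := fun i => hv' (Finset.mem_image_of_mem _ (Finset.mem_univ i))
  have h01 : v' 0 ≠ v' 1 := fun e => by
    have := h'.inj e
    exact absurd this (by decide)
  have h23 : v' 2 ≠ v' 3 := fun e => by
    have := h'.inj e
    exact absurd this (by decide)
  have e1 := unb_third hG hS hs h hv (hm 0) (hm 1) h01 h'.b01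
  have e2 := unb_third hG hS hs h hv (hm 2) (hm 3) h23 h'.b23
  have ht : Finset.univ.image v ∪ Finset.univ.image v' ∈ K :=
    hS.cx.down s hs _ (Finset.union_subset hv hv')
  have h3 := hG m n A Δ K hS _ ht
  have h4 : ((Finset.univ.image v ∪ Finset.univ.image v').image (fun x => A.mulVec x)).card ≤ 2 := by
    have h5 : (Finset.univ.image v ∪ Finset.univ.image v').image (fun x => A.mulVec x) ⊆
        {A.mulVec (v 0), A.mulVec (v 2)} := by
      rw [Finset.image_union, unb_image h, unb_image h']
      refine Finset.union_subset (Finset.Subset.refl _) ?_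
      intro z hz
      rw [Finset.mem_insert, Finset.mem_singleton] at hz ⊢
      rcases hz with rfl | rfl
      · exact e1
      · exact e2
    exact (Finset.card_le_card h5).trans Finset.card_le_two
  have h6 : (Finset.univ.image v ∪ Finset.univ.image v').card ≤ 4 := by omega
  have h7 : Finset.univ.image v = Finset.univ.image v ∪ Finset.univ.image v' :=
    Finset.eq_of_subset_of_card_le Finset.subset_union_left (by rw [unb_card h]; exact h6)
  have h8 : Finset.univ.image v' = Finset.univ.image v ∪ Finset.univ.image v' :=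
    Finset.eq_of_subset_of_card_le Finset.subset_union_right (by rw [unb_card h']; exact h6)
  rw [h7]
  exact h8.symm

end H6BW
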